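import Pool.Agent.H39.LP.QBound

/-!
# Module AC: visits from which the past is accessible are rare

With `C₁` the constant of `sparse_acc`, `N := 19 C₁ + 19`: if `AccTip m l` then `LEl l` is not
sparse (`C₁ / N < 1/18`), so the left side is at most the bound of `notsparse_le` (for this `N`), and
`Q_le` bounds `Q b A y`.
-/

open MeasureTheory ProbabilityTheory Filter
open scoped ENNReal
open Pool.Agent.H39.LW

namespace Pool.Agent.H39.LP

variable {d : ℕ} [NeZero d]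

/-- from the tip of the loop erasure, the walk hits the loop erasure after time `T` with probability
at least `1/18` -/
def AccTip (T : ℕ) (l : List (Zd d)) : Prop :=
  ∃ x, l.getLast? = some x ∧ 1 / 18 ≤ Pr d {ω | ∃ n, T ≤ n ∧ pos x ω n ∈ LEl l}

lemma acc_const (C : ℕ) : ¬ ((1 : ℝ≥0∞) / 18 ≤ C / ((19 * C + 19 : ℕ) : ℝ≥0∞)) := by
  intro h
  have h1 : (1 : ℝ≥0∞) / 18 = ENNReal.ofReal (1 / 18) := by
    rw [ENNReal.ofReal_div_of_pos (by norm_num)]
    simp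
  have h2 : (C : ℝ≥0∞) / ((19 * C + 19 : ℕ) : ℝ≥0∞)
      = ENNReal.ofReal ((C : ℝ) / ((19 * C + 19 : ℕ) : ℝ)) := by
    rw [ENNReal.ofReal_div_of_pos (by positivity), ENNReal.ofReal_natCast, ENNReal.ofReal_natCast]
  rw [h1, h2, ENNReal.ofReal_le_ofReal_iff (by positivity), div_le_div_iff₀ (by norm_num)
    (by positivity)] at h
  push_cast at h
  have h3 : (0 : ℝ) ≤ C := Nat.cast_nonneg C
  linarith

theorem acc_le (hd : 5 ≤ d) : ∃ C : ℕ, ∀ m : ℕ, 1 ≤ m → ∀ b : ℝ≥0∞, 2⁻¹ ≤ b → b < 1 →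
    ∀ (A : Finset (Zd d)) (y : Zd d),
      pth y (wt b A fun l => EndIn (A : Set (Zd d)) l ∧ AccTip (m ^ 4) l)
        ≤ C / (m : ℝ≥0∞) * (1 - b)⁻¹ := by
  obtain ⟨C₁, h1⟩ := sparse_acc (d := d) hd
  obtain ⟨C₂, h2⟩ := notsparse_le hd (19 * C₁ + 19) (by omega)
  obtain ⟨C₃, h3⟩ := Q_le (d := d) hd
  refine ⟨C₂ * C₃, fun m hm b hb hb1 A y => ?_⟩
  have h4 : pth y (wt b A fun l => EndIn (A : Set (Zd d)) l ∧ AccTip (m ^ 4) l)
      ≤ pth y (wt b A fun l => EndIn (A : Set (Zd d)) l ∧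
        ∃ x, l.getLast? = some x ∧ ¬ Sparse (19 * C₁ + 19) m (LEl l) x) := by
    refine pth_mono fun l _ => ?_
    unfold wt
    split_ifs with ha hb
    · exact le_rfl
    · exfalso
      apply hb
      obtain ⟨he, x, hx, hp⟩ := ha
      refine ⟨he, x, hx, fun hs => ?_⟩
      exact acc_const C₁ (hp.trans (h1 _ m (LEl l) x (by omega) hm hs))
    · exact bot_le
    · exact le_rfl
  refine h4.trans ((h2 m hm b hb hb1.le A y).trans ?_)
  calc (C₂ : ℝ≥0∞) / (m : ℝ≥0∞) * Q b A y ≤ C₂ / (m : ℝ≥0∞) * (C₃ * (1 - b)⁻¹) := by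
        gcongr
        exact h3 b hb hb1 A y
    _ = ((C₂ * C₃ : ℕ) : ℝ≥0∞) / (m : ℝ≥0∞) * (1 - b)⁻¹ := by
        push_cast
        rw [ENNReal.div_eq_inv_mul, ENNReal.div_eq_inv_mul]
        ring

end Pool.Agent.H39.LP
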