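import Pool.Agent.H39.LP.Base

/-!
# Module EX: expansion of the product of the marks

* `Fl_expand`: induction on `t` (for all `P`):
  `Fl f P (u :: t) = e u * (1 + s * mk P u) * Fl f (insert u P) t ≤ Fl f (insert u P) t + s * mk P u * Fl f (insert u P) t`,
  and `cutsum H (u :: t) = H [] u t + cutsum (fun t₁ => H (u :: t₁)) t`.
* `tsum_cut`: the map `(t, i) ↦ (t.take i, t[i], t.drop (i+1))`, `i < t.length`, is injective into
  `List U × U × List U` (`t = t₁ ++ u :: t₂`); `cutsum H t = ∑ i : Fin t.length, H (t.take i) t[i] (t.drop (i+1))` by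
  induction; `ENNReal.tsum_sigma`, `ENNReal.tsum_comp_le_tsum_of_injective`, `ENNReal.tsum_prod`.
  (`F (t₁ ++ u :: t₂) * H t₁ u t₂` is the value at `(t₁, u, t₂)`.)
-/

open MeasureTheory ProbabilityTheory Filter
open scoped ENNReal
open Pool.Agent.H39.LW

namespace Pool.Agent.H39.LP

variable {U : Type*} [DecidableEq U]

omit [DecidableEq U] in
/-- the sum of `H t₁ u t₂` over all ways to write `t = t₁ ++ u :: t₂` -/
noncomputable def cutsum (H : List U → U → List U → ℝ≥0∞) : List U → ℝ≥0∞
  | [] => 0
  | u :: t => H [] u t + cutsum (fun t₁ => H (u :: t₁)) t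

theorem Fl_expand {e : U → ℝ≥0∞} {mk : Finset U → U → ℝ≥0∞} {s : ℝ≥0∞} (he : ∀ u, e u ≤ 1)
    (P : Finset U) (t : List U) :
    Fl (fun P u => e u * (1 + s * mk P u)) P t
      ≤ 1 + cutsum (fun t₁ u t₂ => s * mk (P ∪ t₁.toFinset) u *
          Fl (fun P u => e u * (1 + s * mk P u)) (insert u (P ∪ t₁.toFinset)) t₂) t := by
  induction t generalizing P with
  | nil => simp [Fl, cutsum]
  | cons u t ih =>
    have h1 : (fun t₁ => (fun t₁ v t₂ => s * mk (P ∪ t₁.toFinset) v *
          Fl (fun P u => e u * (1 + s * mk P u)) (insert v (P ∪ t₁.toFinset)) t₂) (u :: t₁))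
        = (fun t₁ v t₂ => s * mk (insert u P ∪ t₁.toFinset) v *
          Fl (fun P u => e u * (1 + s * mk P u)) (insert v (insert u P ∪ t₁.toFinset)) t₂) := by
      funext t₁ v t₂
      have h2 : P ∪ (u :: t₁).toFinset = insert u P ∪ t₁.toFinset := by
        rw [List.toFinset_cons, Finset.union_insert, Finset.insert_union]
      simp only [h2]
    rw [Fl, cutsum, h1]
    simp only [List.toFinset_nil, Finset.union_empty]
    calc e u * (1 + s * mk P u) * Fl (fun P u => e u * (1 + s * mk P u)) (insert u P) t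
        ≤ 1 * (1 + s * mk P u) * Fl (fun P u => e u * (1 + s * mk P u)) (insert u P) t := by
          gcongr
          exact he u
      _ = Fl (fun P u => e u * (1 + s * mk P u)) (insert u P) t
          + s * mk P u * Fl (fun P u => e u * (1 + s * mk P u)) (insert u P) t := by ring
      _ ≤ (1 + cutsum (fun t₁ v t₂ => s * mk (insert u P ∪ t₁.toFinset) v *
          Fl (fun P u => e u * (1 + s * mk P u)) (insert v (insert u P ∪ t₁.toFinset)) t₂) t)
          + s * mk P u * Fl (fun P u => e u * (1 + s * mk P u)) (insert u P) t := by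
          gcongr
          exact ih (insert u P)
      _ = _ := by ring

omit [DecidableEq U] in
theorem cutsum_eq (H : List U → U → List U → ℝ≥0∞) (t : List U) :
    cutsum H t = ∑ i : Fin t.length, H (t.take i) t[i] (t.drop (i + 1)) := by
  induction t generalizing H with
  | nil => simp [cutsum]
  | cons u t ih =>
    rw [cutsum, ih]
    simp only [List.length_cons, Fin.sum_univ_succ]
    simp

omit [DecidableEq U] in
theorem tsum_cut (F : List U → ℝ≥0∞) (H : List U → U → List U → ℝ≥0∞) :
    ∑' t : List U, F t * cutsum H t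
      ≤ ∑' t₁ : List U, ∑' u : U, ∑' t₂ : List U, F (t₁ ++ u :: t₂) * H t₁ u t₂ := by
  let φ : (Σ t : List U, Fin t.length) → List U × U × List U :=
    fun p => (p.1.take p.2, p.1[p.2], p.1.drop (p.2 + 1))
  let G : List U × U × List U → ℝ≥0∞ := fun q => F (q.1 ++ q.2.1 :: q.2.2) * H q.1 q.2.1 q.2.2
  have hrec : ∀ p : (Σ t : List U, Fin t.length),
      p.1.take p.2 ++ p.1[p.2] :: p.1.drop (p.2 + 1) = p.1 := by
    rintro ⟨t, i⟩
    simp
  have hφ : Function.Injective φ := by
    rintro ⟨t, i⟩ ⟨t', i'⟩ h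
    have h1 : t = t' := by
      have e1 : t.take i ++ t[i] :: t.drop (i + 1) = t := hrec ⟨t, i⟩
      have e2 : t'.take i' ++ t'[i'] :: t'.drop (i' + 1) = t' := hrec ⟨t', i'⟩
      simp only [φ, Prod.mk.injEq] at h
      rw [← e1, ← e2, h.1, h.2.1, h.2.2]
    subst h1
    have h2 : (t.take i).length = (t.take i').length := by
      simp only [φ, Prod.mk.injEq] at h
      rw [h.1]
    have h3 : i = i' := by
      ext
      rw [List.length_take, List.length_take] at h2
      have := i.2
      have := i'.2
      omega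
    rw [h3]
  calc ∑' t : List U, F t * cutsum H t
      = ∑' t : List U, ∑' i : Fin t.length, G (φ ⟨t, i⟩) := by
        refine tsum_congr fun t => ?_
        rw [cutsum_eq, Finset.mul_sum, tsum_fintype]
        refine Finset.sum_congr rfl fun i _ => ?_
        change _ = F (t.take i ++ t[i] :: t.drop (i + 1)) * _
        rw [hrec ⟨t, i⟩]
    _ = ∑' p : (Σ t : List U, Fin t.length), G (φ p) := (ENNReal.tsum_sigma _).symm
    _ ≤ ∑' q, G q := ENNReal.tsum_comp_le_tsum_of_injective hφ G
    _ = _ := by
        rw [ENNReal.tsum_prod']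
        refine tsum_congr fun t₁ => ?_
        rw [ENNReal.tsum_prod']

end Pool.Agent.H39.LP
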