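import Pool.Agent.H39.LP.GW2
import Pool.Agent.H39.LP.Expand

/-!
# Module BK: the generating function of the points with accessible future

`f P u = e u * (1 + s * mk P u)` with `e ≤ 1` and `mk P u ≤ 1` for `u ∈ A`, `mk P u = 0` for `u ∉ A`.

* `Fl_expand`, `tsum_cut` (Expand.lean): expansion of the product and rearrangement of the sums.
* By `tsum_gw` the left side is `∑' l, gw w V (o :: l) * κ (last) * Fl f ∅ (o :: l).reverse`, i.e. a sum over
  all lists `η` with first entry `o`; put `t = η.reverse` and expand. The terms with `1` give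
  `∑' n, ws w κ V n 1 o ≤ 1`. The others are a sum over `(t₁, u, t₂)`, `η = t₂.reverse ++ u :: t₁.reverse`
  (`tsum_cut`). By `gw_split` with
  `l₁ = t₂.reverse`, `l₂ = t₁.reverse`:
  `gw w V η ≤ gw w V (u :: t₁.reverse) * gw w (V \ t₁.toFinset) (u :: t₂)`; `κ (last η) = κ (last (u :: t₁.reverse))`
  and `o = head η` is the last entry of `u :: t₂`. So for fixed `(t₁, u)` the sum over `t₂` is at most
  `∑' t₂, gw w (V \ t₁.toFinset) (u :: t₂) * 1{last (u :: t₂) = o} * Fl f (insert u t₁.toFinset) t₂
    = Zf w 1_{o} f t₁.toFinset (V \ t₁.toFinset) u ≤ Z₁` (`tsum_gw` with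
  `F m = Fl f (insert u t₁.toFinset) m.tail`; the sum is `0` if `u ∉ V \ t₁.toFinset`),
  and the sum over `(t₁, u)` of `s * mk t₁ u * gw w V (u :: t₁.reverse) * κ (last)` is at most
  `s * ∑_{u ∈ A} ∑' n, ws w κ V n 1 u ≤ s * A.card` (`tsum_gw` with `F = 1`; it is `0` if `u ∉ V`).
-/

open MeasureTheory ProbabilityTheory Filter
open scoped ENNReal
open Pool.Agent.H39.LW

namespace Pool.Agent.H39.LP

variable {U : Type*} [DecidableEq U]

omit [DecidableEq U] in
lemma bk_tsum_reverse (φ : List U → ℝ≥0∞) : ∑' t : List U, φ t.reverse = ∑' t : List U, φ t :=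
  Equiv.tsum_eq (List.reverse_involutive.toPerm (f := (List.reverse : List U → List U))) φ

omit [DecidableEq U] in
lemma bk_headD (t : List U) (o : U) : t.reverse.headD o = t.getLastD o := by
  induction t using List.reverseRecOn with
  | nil => rfl
  | append_singleton t v _ => simp

lemma bk_gw_sum {w : U → U → ℝ} {V : Finset U} {κ : U → ℝ}
    (hκ : ∀ u ∈ V, ∑' n, ws w κ V n (fun _ => 1) u ≤ 1) (u : U) :
    ∑' l : List U, gw w V (u :: l) * ENNReal.ofReal (κ (l.getLastD u)) ≤ 1 := by
  by_cases hu : u ∈ V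
  · have h := tsum_gw w κ (fun _ => 1) V hu
    simp only [mul_one] at h
    rw [← h]
    exact hκ u hu
  · have h : ∀ l : List U, gw w V (u :: l) * ENNReal.ofReal (κ (l.getLastD u)) = 0 := by
      intro l
      rw [gw, if_neg hu, zero_mul]
    simp only [h, tsum_zero]
    exact bot_le

theorem backward {w : U → U → ℝ} (hsym : ∀ u v, w u v = w v u) {V A : Finset U}
    (hD : ∀ B ⊆ V, 0 < Dt w B)
    (hg : ∀ B ⊆ V, ∀ v ∈ B, ENNReal.ofReal (Dt w B) * green w B v = ENNReal.ofReal (Dt w (B.erase v)))
    {κ : U → ℝ} {e : U → ℝ≥0∞} {mk : Finset U → U → ℝ≥0∞} {s Z₁ : ℝ≥0∞} {o : U} (ho : o ∈ V)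
    (he : ∀ u, e u ≤ 1) (hmk : ∀ P u, mk P u ≤ 1) (hmA : ∀ P u, u ∉ A → mk P u = 0)
    (hκ : ∀ u ∈ V, ∑' n, ws w κ V n (fun _ => 1) u ≤ 1)
    (hZ : ∀ P B : Finset U, B ⊆ V → Disjoint P B → ∀ y ∈ B,
      Zf w (fun u => if u = o then 1 else 0) (fun P u => e u * (1 + s * mk P u)) P B y ≤ Z₁) :
    ∑' n, ws w κ V n (fun l => Fl (fun P u => e u * (1 + s * mk P u)) ∅ (LEl l).reverse) o
      ≤ 1 + s * A.card * Z₁ := by
  set f : Finset U → U → ℝ≥0∞ := fun P u => e u * (1 + s * mk P u) with hf
  -- all lists ending in `o`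
  set G : List U → ℝ≥0∞ := fun t =>
    if t.getLast? = some o then gw w V t.reverse * ENNReal.ofReal (κ (t.headD o)) else 0 with hG
  have hGo : ∀ l : List U, G (o :: l).reverse = gw w V (o :: l) * ENNReal.ofReal (κ (l.getLastD o)) := by
    intro l
    have h1 : (o :: l).reverse.getLast? = some o := by simp
    have h2 : (o :: l).reverse.headD o = l.getLastD o := by
      rw [bk_headD]
      cases l <;> rfl
    simp only [hG]
    rw [if_pos h1, List.reverse_reverse, h2]
  have hinj : Function.Injective (fun l : List U => (o :: l).reverse) := by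
    intro a b h
    have := List.reverse_injective h
    simpa using this
  have hre : ∀ K : List U → ℝ≥0∞, ∑' l : List U, G (o :: l).reverse * K (o :: l).reverse
      = ∑' t : List U, G t * K t := by
    intro K
    refine hinj.tsum_eq (f := fun t => G t * K t) ?_
    intro t ht
    have h1 : t.getLast? = some o := by
      by_contra hcon
      apply ht
      simp only [hG]
      rw [if_neg hcon, zero_mul]
    refine ⟨t.reverse.tail, ?_⟩
    have h2 : t.reverse.head? = some o := by rw [List.head?_reverse, h1]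
    obtain ⟨m, hm⟩ : ∃ m, t.reverse = o :: m := by
      cases h3 : t.reverse with
      | nil => rw [h3] at h2; simp at h2
      | cons a m => rw [h3] at h2; exact ⟨m, by simpa using h2⟩
    show (o :: t.reverse.tail).reverse = t
    rw [hm, List.tail_cons, ← hm, List.reverse_reverse]
  have e1 : ∑' n, ws w κ V n (fun l => Fl f ∅ (LEl l).reverse) o = ∑' t : List U, G t * Fl f ∅ t := by
    rw [← hre, tsum_gw w κ (fun m => Fl f ∅ m.reverse) V ho]
    refine tsum_congr fun l => ?_
    rw [hGo]
  have e2 : ∑' t : List U, G t ≤ 1 := by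
    have h := hre (fun _ => 1)
    simp only [mul_one] at h
    rw [← h]
    simp only [hGo]
    exact bk_gw_sum hκ o
  set H : List U → U → List U → ℝ≥0∞ := fun t₁ u t₂ => s * mk (∅ ∪ t₁.toFinset) u *
          Fl f (insert u (∅ ∪ t₁.toFinset)) t₂ with hH
  have e3 : ∑' t : List U, G t * Fl f ∅ t
      ≤ 1 + ∑' t₁ : List U, ∑' u : U, ∑' t₂ : List U, G (t₁ ++ u :: t₂) * H t₁ u t₂ := by
    calc ∑' t : List U, G t * Fl f ∅ t ≤ ∑' t : List U, (G t + G t * cutsum H t) := by
          refine ENNReal.tsum_le_tsum fun t => ?_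
          calc G t * Fl f ∅ t ≤ G t * (1 + cutsum H t) := by
                gcongr
                exact Fl_expand he ∅ t
            _ = G t + G t * cutsum H t := by rw [mul_add, mul_one]
      _ = ∑' t : List U, G t + ∑' t : List U, G t * cutsum H t := ENNReal.tsum_add
      _ ≤ _ := add_le_add e2 (tsum_cut G H)
  -- the sum over `t₂`
  have e4 : ∀ (t₁ : List U) (u : U), ∑' t₂ : List U, G (t₁ ++ u :: t₂) * H t₁ u t₂
      ≤ gw w V (u :: t₁.reverse) * ENNReal.ofReal (κ (t₁.reverse.getLastD u)) *
        (s * mk (∅ ∪ t₁.toFinset) u) * Z₁ := by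
    intro t₁ u
    have h1 : ∀ t₂ : List U, G (t₁ ++ u :: t₂) * H t₁ u t₂
        ≤ (gw w V (u :: t₁.reverse) * ENNReal.ofReal (κ (t₁.reverse.getLastD u)) *
        (s * mk (∅ ∪ t₁.toFinset) u)) * (gw w (V \ t₁.toFinset) (u :: t₂) *
          ENNReal.ofReal ((fun v => if v = o then 1 else 0) (t₂.getLastD u)) *
          (fun m : List U => Fl f (insert u t₁.toFinset) m.tail) (u :: t₂)) := by
      intro t₂
      by_cases hl : (t₁ ++ u :: t₂).getLast? = some o
      · have h2 : G (t₁ ++ u :: t₂) ≤ gw w V (u :: t₁.reverse) * gw w (V \ t₁.toFinset) (u :: t₂) *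
            ENNReal.ofReal (κ (t₁.reverse.getLastD u)) := by
          simp only [hG]
          rw [if_pos hl]
          have h3 : (t₁ ++ u :: t₂).headD o = t₁.reverse.getLastD u := by
            cases t₁ with
            | nil => rfl
            | cons a t₁ => simp
          have h4 : (t₁ ++ u :: t₂).reverse = t₂.reverse ++ u :: t₁.reverse := by simp
          rw [h3, h4]
          have h5 := gw_split hsym hD hg t₂.reverse t₁.reverse u
          rw [List.reverse_reverse, List.toFinset_reverse] at h5
          gcongr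
        have h6 : t₂.getLastD u = o := by
          rw [List.getLast?_append_of_ne_nil _ (List.cons_ne_nil _ _), List.getLast?_cons] at hl
          rw [List.getLastD_eq_getLast?]
          exact Option.some_inj.1 hl
        calc G (t₁ ++ u :: t₂) * H t₁ u t₂
            ≤ (gw w V (u :: t₁.reverse) * gw w (V \ t₁.toFinset) (u :: t₂) *
            ENNReal.ofReal (κ (t₁.reverse.getLastD u))) * H t₁ u t₂ := by gcongr
          _ = _ := by
            simp only [hH, h6, if_true, ENNReal.ofReal_one, List.tail_cons, Finset.empty_union]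
            ring
      · have h2 : G (t₁ ++ u :: t₂) = 0 := by
          simp only [hG]
          rw [if_neg hl]
        rw [h2, zero_mul]
        exact bot_le
    refine (ENNReal.tsum_le_tsum h1).trans ?_
    rw [ENNReal.tsum_mul_left]
    refine mul_le_mul_right ?_ _
    by_cases hu : u ∈ V \ t₁.toFinset
    · rw [← tsum_gw w (fun v => if v = o then 1 else 0)
        (fun m : List U => Fl f (insert u t₁.toFinset) m.tail) (V \ t₁.toFinset) hu]
      exact hZ t₁.toFinset (V \ t₁.toFinset) Finset.sdiff_subset Finset.disjoint_sdiff u hu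
    · have h2 : ∀ t₂ : List U, gw w (V \ t₁.toFinset) (u :: t₂) = 0 := by
        intro t₂
        rw [gw, if_neg hu]
      simp only [h2, zero_mul, tsum_zero]
      exact bot_le
  have e5 : ∑' t₁ : List U, ∑' u : U, ∑' t₂ : List U, G (t₁ ++ u :: t₂) * H t₁ u t₂
      ≤ s * A.card * Z₁ := by
    calc ∑' t₁ : List U, ∑' u : U, ∑' t₂ : List U, G (t₁ ++ u :: t₂) * H t₁ u t₂
        ≤ ∑' t₁ : List U, ∑' u : U, (if u ∈ A then s * Z₁ else 0) *
            (gw w V (u :: t₁.reverse) * ENNReal.ofReal (κ (t₁.reverse.getLastD u))) := by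
          refine ENNReal.tsum_le_tsum fun t₁ => ENNReal.tsum_le_tsum fun u => (e4 t₁ u).trans ?_
          by_cases hu : u ∈ A
          · rw [if_pos hu]
            calc gw w V (u :: t₁.reverse) * ENNReal.ofReal (κ (t₁.reverse.getLastD u)) *
                  (s * mk (∅ ∪ t₁.toFinset) u) * Z₁
                ≤ gw w V (u :: t₁.reverse) * ENNReal.ofReal (κ (t₁.reverse.getLastD u)) *
                  (s * 1) * Z₁ := by
                  gcongr
                  exact hmk _ _
              _ = _ := by ring
          · rw [if_neg hu, hmA _ _ hu, mul_zero, mul_zero, zero_mul, zero_mul]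
      _ = ∑' u : U, (if u ∈ A then s * Z₁ else 0) * ∑' t₁ : List U,
            (gw w V (u :: t₁.reverse) * ENNReal.ofReal (κ (t₁.reverse.getLastD u))) := by
          rw [ENNReal.tsum_comm]
          refine tsum_congr fun u => ?_
          rw [ENNReal.tsum_mul_left]
      _ ≤ ∑' u : U, (if u ∈ A then s * Z₁ else 0) := by
          refine ENNReal.tsum_le_tsum fun u => ?_
          refine mul_le_of_le_one_right' ?_
          rw [bk_tsum_reverse (fun t₁ => gw w V (u :: t₁) * ENNReal.ofReal (κ (t₁.getLastD u)))]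
          exact bk_gw_sum hκ u
      _ = ∑ u ∈ A, s * Z₁ := by
          rw [tsum_eq_sum (s := A)]
          · refine Finset.sum_congr rfl fun u hu => ?_
            rw [if_pos hu]
          · intro u hu
            rw [if_neg hu]
      _ = s * A.card * Z₁ := by
          rw [Finset.sum_const, nsmul_eq_mul]
          ring
  rw [e1]
  exact e3.trans (add_le_add le_rfl e5)

end Pool.Agent.H39.LP
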