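import Pool.Agent.H39.LW.Limit

/-!
# LP: the infinite loop-erased walk of `ℤ^d`, `d ≥ 5`, has exponential intersection tails

Definitions and the calculus of path sums.

* `nb z r`: the box of radius `r` (sup norm) around `z`;
* `pth y F`: the sum over all finite paths `l` of simple random walk from `y` (of any length) of the
  probability of `l` times `F l`;
* `cA A l`: number of points of `A` on the loop erasure of `l`;
* `EndIn S l`: the path `l` ends in `S`;
* `wt b A P l = b ^ cA A l` if `P l`, else `0`;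
* `Q b A y`: the (discounted) number of visits of `A`;
* `Esc z L`: the probability that the walk from `z` never visits `L` after time `0`;
* `Fl f P l`: the product of `f (P + points before u) u` over the vertices `u` of `l`.
-/

open MeasureTheory ProbabilityTheory Filter
open scoped ENNReal
open Pool.Agent.H39.LW

namespace Pool.Agent.H39.LP

variable {d : ℕ}

/-! ## Boxes -/

/-- the box of radius `r` around `z` -/
noncomputable def nb (z : Zd d) (r : ℕ) : Finset (Zd d) :=
  Fintype.piFinset fun i => Finset.Icc (z i - r) (z i + r)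

lemma mem_nb {z x : Zd d} {r : ℕ} : x ∈ nb z r ↔ ∀ i, |x i - z i| ≤ r := by
  simp only [nb, Fintype.mem_piFinset, Finset.mem_Icc, abs_le]
  refine forall_congr' fun i => ?_
  constructor
  · rintro ⟨h1, h2⟩
    constructor <;> linarith
  · rintro ⟨h1, h2⟩
    constructor <;> linarith

lemma nb_comm {z x : Zd d} {r : ℕ} : x ∈ nb z r ↔ z ∈ nb x r := by
  simp only [mem_nb]
  refine forall_congr' fun i => ?_
  rw [abs_sub_comm]

lemma nb_trans {x y z : Zd d} {r s : ℕ} (h : x ∈ nb y r) (h' : y ∈ nb z s) : x ∈ nb z (r + s) := by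
  rw [mem_nb] at *
  intro i
  have h1 := h i
  have h2 := h' i
  push_cast
  calc |x i - z i| = |(x i - y i) + (y i - z i)| := by ring_nf
    _ ≤ |x i - y i| + |y i - z i| := abs_add_le _ _
    _ ≤ r + s := by linarith

lemma nb_mono {z : Zd d} {r s : ℕ} (h : r ≤ s) : nb z r ⊆ nb z s := by
  intro x hx
  rw [mem_nb] at *
  intro i
  refine (hx i).trans ?_
  exact_mod_cast h

lemma self_mem_nb (z : Zd d) (r : ℕ) : z ∈ nb z r := by
  rw [mem_nb]
  intro i
  simp

lemma card_nb (z : Zd d) (r : ℕ) : (nb z r).card = (2 * r + 1) ^ d := by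
  have h : ∀ i, (Finset.Icc (z i - r) (z i + r)).card = 2 * r + 1 := by
    intro i
    rw [Int.card_Icc]
    omega
  rw [nb, Fintype.card_piFinset, Finset.prod_congr rfl fun i _ => h i]
  simp

/-! ## Paths -/

/-- number of points of `A` on the loop erasure of `l` -/
def cA (A : Finset (Zd d)) (l : List (Zd d)) : ℕ := ((LEl l).toFinset ∩ A).card

/-- the path `l` ends in the set `S` -/
def EndIn (S : Set (Zd d)) (l : List (Zd d)) : Prop := ∃ x ∈ S, l.getLast? = some x

open Classical in
/-- discounted weight -/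
noncomputable def wt (b : ℝ≥0∞) (A : Finset (Zd d)) (P : List (Zd d) → Prop)
    (l : List (Zd d)) : ℝ≥0∞ := if P l then b ^ cA A l else 0

open Classical in
/-- the path ends in `B` and has at least `q` entries in `B` -/
noncomputable def occf (B : Set (Zd d)) (q : ℕ) (l : List (Zd d)) : ℝ≥0∞ :=
  if EndIn B l ∧ q ≤ (l.filter (fun x => decide (x ∈ B))).length then 1 else 0

/-- the path ends in `x` and its loop erasure has at least `q` points in the box of radius `r` around
`x` -/
def DenseAt (r q : ℕ) (l : List (Zd d)) : Prop :=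
  ∃ x, l.getLast? = some x ∧ q ≤ ((LEl l).toFinset ∩ nb x r).card

/-- the set of points at distance at most `r` from `A` -/
def nbA (r : ℕ) (A : Finset (Zd d)) : Set (Zd d) := {x | ∃ a ∈ A, a ∈ nb x r}

variable [NeZero d]

/-- sum over all finite paths from `y` -/
noncomputable def pth (y : Zd d) (F : List (Zd d) → ℝ≥0∞) : ℝ≥0∞ :=
  ∑' n, ∫⁻ ω, F (pre (pos y ω) n) ∂Pr d

/-- the discounted number of visits of `A` -/
noncomputable def Q (b : ℝ≥0∞) (A : Finset (Zd d)) (y : Zd d) : ℝ≥0∞ := pth y (wt b A (EndIn A))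

/-- escape probability from the tip `z` of the path `L` -/
noncomputable def Esc (z : Zd d) (L : List (Zd d)) : ℝ≥0∞ :=
  Pr d {ω | ∀ n, 1 ≤ n → pos z ω n ∉ L}

/-- the tip of the loop erasure of the path `l` is good: the walk escapes with probability `≥ c` -/
def Good (c : ℝ≥0∞) (l : List (Zd d)) : Prop := ∃ x, l.getLast? = some x ∧ c ≤ Esc x (LEl l)

omit [NeZero d] in
lemma measurable_pre (y : Zd d) (n : ℕ) (F : List (Zd d) → ℝ≥0∞) :
    Measurable fun ω : Om d => F (pre (pos y ω) n) := by
  refine measurable_of_prefix n fun ω ω' h => ?_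
  rw [pre_congr fun i hi => pos_congr y fun j hj => h j (by omega)]

omit [NeZero d] in
lemma pre_ne_nil (s : ℕ → Zd d) (n : ℕ) : pre s n ≠ [] := by simp [pre]

omit [NeZero d] in
lemma pre_head (s : ℕ → Zd d) (n : ℕ) : (pre s n).head? = some (s 0) := by
  cases n <;> simp [pre, List.head?_range, List.head?_map]

omit [NeZero d] in
lemma pre_getLast (s : ℕ → Zd d) (n : ℕ) : (pre s n).getLast? = some (s n) := by
  simp [pre, List.range_succ]

lemma pth_mono {y : Zd d} {F G : List (Zd d) → ℝ≥0∞}
    (h : ∀ l : List (Zd d), l.head? = some y → F l ≤ G l) : pth y F ≤ pth y G := by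
  refine ENNReal.tsum_le_tsum fun n => lintegral_mono fun ω => h _ ?_
  rw [pre_head, pos_zero]

lemma pth_add (y : Zd d) (F G : List (Zd d) → ℝ≥0∞) :
    pth y (fun l => F l + G l) = pth y F + pth y G := by
  unfold pth
  rw [← ENNReal.tsum_add]
  refine tsum_congr fun n => ?_
  exact lintegral_add_left (measurable_pre y n F) _

lemma pth_mul_left (y : Zd d) (c : ℝ≥0∞) (F : List (Zd d) → ℝ≥0∞) :
    pth y (fun l => c * F l) = c * pth y F := by
  unfold pth
  rw [← ENNReal.tsum_mul_left]
  refine tsum_congr fun n => ?_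
  exact lintegral_const_mul _ (measurable_pre y n F)

lemma pth_tsum (y : Zd d) (F : ℕ → List (Zd d) → ℝ≥0∞) :
    pth y (fun l => ∑' j, F j l) = ∑' j, pth y (F j) := by
  unfold pth
  rw [ENNReal.tsum_comm]
  refine tsum_congr fun n => ?_
  exact lintegral_tsum fun j => (measurable_pre y n (F j)).aemeasurable

/-! ## Products along a path -/

section Fl

variable {U : Type*} [DecidableEq U]

/-- the product over the vertices `u` of the path `l` of `f (P + vertices before u) u` -/
noncomputable def Fl (f : Finset U → U → ℝ≥0∞) : Finset U → List U → ℝ≥0∞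
  | _, [] => 1
  | P, u :: l => f P u * Fl f (insert u P) l

/-- sum over the pieces: product of `e` over all vertices, times the mark of the last vertex -/
noncomputable def Gl (e : U → ℝ≥0∞) (mk : Finset U → U → ℝ≥0∞) : Finset U → List U → ℝ≥0∞
  | _, [] => 0
  | P, u :: l => e u * (if l = [] then mk P u else Gl e mk (insert u P) l)

/-- walk sums of the product along the loop erasure (the starting point not counted) -/
noncomputable def Zf (w : U → U → ℝ) (ψ : U → ℝ) (f : Finset U → U → ℝ≥0∞) (P B : Finset U)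
    (y : U) : ℝ≥0∞ :=
  ∑' n, ws w ψ B n (fun l => Fl f (insert y P) (LEl l).tail) y

/-- the mass of the pieces from `y` to a marked point -/
noncomputable def Mf (w : U → U → ℝ) (e : U → ℝ≥0∞) (mk : Finset U → U → ℝ≥0∞) (P B : Finset U)
    (y : U) : ℝ≥0∞ :=
  ∑' n, ws w (fun _ => 1) B n (fun l => Gl e mk (insert y P) (LEl l).tail) y

end Fl

/-! ## Marks -/

/-- the walk from `x` visits `P` at or after time `T`, before it visits `A` at or after time `T` -/
noncomputable def hitp (T : ℕ) (P A : Set (Zd d)) (x : Zd d) : ℝ≥0∞ :=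
  Pr d {ω | ∃ n, T ≤ n ∧ pos x ω n ∈ P ∧ ∀ i, T ≤ i → i < n → pos x ω i ∉ A}

/-- after time `T` the walk from `x` does not visit `A` unless it has visited `E` before -/
noncomputable def esc (T : ℕ) (E A : Set (Zd d)) (x : Zd d) : ℝ≥0∞ :=
  Pr d {ω | ∀ n, T ≤ n → (∀ i ≤ n, pos x ω i ∉ E) → pos x ω n ∉ A}

open Classical in
/-- mark of class 0 -/
noncomputable def mk0 (T : ℕ) (A : Finset (Zd d)) (_P : Finset (Zd d)) (x : Zd d) : ℝ≥0∞ :=
  if x ∈ A ∧ 1 / 3 ≤ Pr d {ω | ∀ n, T ≤ n → pos x ω n ∉ A} then 1 else 0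

open Classical in
/-- mark of class 1 -/
noncomputable def mk1 (T : ℕ) (A : Finset (Zd d)) (P : Finset (Zd d)) (x : Zd d) : ℝ≥0∞ :=
  if x ∈ A ∧ 1 / 9 ≤ hitp T (P : Set (Zd d)) (A : Set (Zd d)) x then 1 else 0

/-- discount factor of a vertex -/
def ew (b : ℝ≥0∞) (A : Finset (Zd d)) (x : Zd d) : ℝ≥0∞ := if x ∈ A then b else 1

/-- factor of a vertex with past `P` -/
noncomputable def fm (s b : ℝ≥0∞) (A : Finset (Zd d)) (mk : Finset (Zd d) → Zd d → ℝ≥0∞)
    (P : Finset (Zd d)) (x : Zd d) : ℝ≥0∞ := ew b A x * (1 + s * mk P x)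

/-- few points of `L` at all scales around `z` -/
def Sparse (N m : ℕ) (L : List (Zd d)) (z : Zd d) : Prop :=
  ∀ j : ℕ, N * (L.toFinset ∩ nb z (2 * (4 ^ j * m ^ 2))).card < 24 ^ j * m ^ 5

end Pool.Agent.H39.LP
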