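import Pool.Agent.H39.LP.Base

/-!
# Common vertices of the loop erasures
-/

open MeasureTheory ProbabilityTheory Filter
open scoped ENNReal
open Pool.Agent.H39.LW

namespace Pool.Agent.H39.LP

variable {d : ℕ}

/-- common vertices of the loop erasures of the walks from `0` with steps `ω` and `ω'` -/
def cm (ω ω' : Om d) : Set (Zd d) := {y | InL (pos 0 ω) y ∧ InL (pos 0 ω') y}

end Pool.Agent.H39.LP
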