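import Pool.Agent.H39.LP.FinTail
import Pool.Agent.H39.LP.CmDef

/-!
# Module IT1: exponential tail in a box, infinite volume

* `box_tail`: for a.e. `ω, ω'` and all large `k`, for all `y ∈ nb 0 R`: `y ∈ LEf (bx d k) 0 ω ↔ InL (pos 0 ω) y`, and
  the same for `ω'` (`ev_LEf`, `ae_transient`; finitely many `y`). So
  `Pr {ω' | n ≤ encard (cm ∩ nb 0 R)} ≤ liminf_k Pr {ω' | n ≤ card (LEf (bx d k) 0 ω ∩ LEf (bx d k) 0 ω' ∩ nb 0 R)}`
  for a.e. `ω` (`measure_le_liminf_of` of Limit, up to a null set), then Fatou (`lintegral_liminf_le`) and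
  `finite_tail` (`0 ∈ bx d k`).
-/

open MeasureTheory ProbabilityTheory Filter
open scoped ENNReal
open Pool.Agent.H39.LW

namespace Pool.Agent.H39.LP

variable {d : ℕ} [NeZero d]

omit [NeZero d] in
lemma it1_zero_mem (k : ℕ) : (0 : Zd d) ∈ LM.bx d k := by
  unfold LM.bx
  rw [Fintype.mem_piFinset]
  intro i
  rw [Finset.mem_Icc]
  constructor
  · simp
  · simp

/-- the event in the box of radius `k` -/
noncomputable def it1T (R n k : ℕ) (L : List (Zd d)) : Set (Om d) :=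
  {ω' | n ≤ (L.toFinset ∩ (LEf (LM.bx d k) 0 ω').toFinset ∩ nb 0 R).card}

lemma it1_ev {R n : ℕ} {ω ω' : Om d} (h : Transient (pos 0 ω)) (h' : Transient (pos 0 ω'))
    (hn : (n : ℕ∞) ≤ (cm ω ω' ∩ ((nb 0 R : Finset (Zd d)) : Set (Zd d))).encard) :
    ∀ᶠ k in atTop, ω' ∈ it1T R n k (LEf (LM.bx d k) 0 ω) := by
  have h1 : ∀ᶠ k in atTop, ∀ y ∈ nb (0 : Zd d) R,
      (y ∈ LEf (LM.bx d k) 0 ω ↔ InL (pos 0 ω) y) :=
    (nb (0 : Zd d) R).eventually_all.2 fun y _ => LM.ev_LEf h y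
  have h2 : ∀ᶠ k in atTop, ∀ y ∈ nb (0 : Zd d) R,
      (y ∈ LEf (LM.bx d k) 0 ω' ↔ InL (pos 0 ω') y) :=
    (nb (0 : Zd d) R).eventually_all.2 fun y _ => LM.ev_LEf h' y
  filter_upwards [h1, h2] with k hk hk'
  have hset : cm ω ω' ∩ ((nb 0 R : Finset (Zd d)) : Set (Zd d)) =
      (((LEf (LM.bx d k) 0 ω).toFinset ∩ (LEf (LM.bx d k) 0 ω').toFinset ∩ nb 0 R :
        Finset (Zd d)) : Set (Zd d)) := by
    ext y
    simp only [cm, Set.mem_inter_iff, Set.mem_ofPred_eq, Finset.mem_coe, Finset.mem_inter,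
      List.mem_toFinset]
    constructor
    · rintro ⟨⟨h3, h4⟩, h5⟩
      exact ⟨⟨(hk y h5).2 h3, (hk' y h5).2 h4⟩, h5⟩
    · rintro ⟨⟨h3, h4⟩, h5⟩
      exact ⟨⟨(hk y h5).1 h3, (hk' y h5).1 h4⟩, h5⟩
  rw [hset, Set.encard_coe_eq_coe_finsetCard, Nat.cast_le] at hn
  exact hn

theorem box_tail (hd : 5 ≤ d) : ∃ (b : ℝ≥0∞) (C : ℕ), b < 1 ∧ ∀ R n : ℕ,
    ∫⁻ ω, Pr d {ω' | (n : ℕ∞) ≤ (cm ω ω' ∩ ((nb 0 R : Finset (Zd d)) : Set (Zd d))).encard} ∂Pr d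
      ≤ C * (2 * R + 1) ^ d * b ^ n := by
  obtain ⟨b, C, hb, h⟩ := finite_tail hd
  refine ⟨b, C, hb, fun R n => ?_⟩
  have hs : Summable fun m => hk m (0 : Zd d) := summable_hk_zero (by omega)
  have htr := ae_transient (fun y => summable_hk hs y) (0 : Zd d)
  calc ∫⁻ ω, Pr d {ω' | (n : ℕ∞) ≤ (cm ω ω' ∩ ((nb 0 R : Finset (Zd d)) : Set (Zd d))).encard} ∂Pr d
      ≤ ∫⁻ ω, liminf (fun k => Pr d (it1T R n k (LEf (LM.bx d k) 0 ω))) atTop ∂Pr d := by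
        refine lintegral_mono_ae ?_
        filter_upwards [htr] with ω hω
        have h1 : Pr d {ω' | (n : ℕ∞) ≤
            (cm ω ω' ∩ ((nb 0 R : Finset (Zd d)) : Set (Zd d))).encard} ≤
            Pr d {ω' | (n : ℕ∞) ≤
              (cm ω ω' ∩ ((nb 0 R : Finset (Zd d)) : Set (Zd d))).encard ∧
              Transient (pos 0 ω')} := by
          refine measure_mono_ae ?_
          filter_upwards [htr] with ω' hω' hx
          exact ⟨hx, hω'⟩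
        refine h1.trans (LM.measure_le_liminf_of _ ?_)
        rintro ω' ⟨h2, h3⟩
        exact it1_ev hω h3 h2
    _ ≤ liminf (fun k => ∫⁻ ω, Pr d (it1T R n k (LEf (LM.bx d k) 0 ω)) ∂Pr d) atTop :=
        lintegral_liminf_le fun k =>
          LM.measurable_comp_LEf (LM.bx d k) 0 (fun L => Pr d (it1T R n k L))
    _ ≤ liminf (fun _ : ℕ => (C : ℝ≥0∞) * (2 * R + 1) ^ d * b ^ n) atTop :=
        liminf_le_liminf (Eventually.of_forall fun k => h (LM.bx d k) R n (it1_zero_mem k))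
    _ = C * (2 * R + 1) ^ d * b ^ n := liminf_const _

end Pool.Agent.H39.LP
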