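import Pool.Agent.H39.LP.Marks

/-!
# Module CV: every common point is marked

* `cover`: `γ, γ'` self-avoiding, `B` a finite set, `A = γ' ∩ B`, `A' = γ ∩ B`, `x ∈ γ ∩ γ' ∩ B`.
  Let `X = (A ∪ A') \ {x}`, and let `H` be the event that the walk from `x` visits `X` at or after time
  `T`; on `H` let `N` be the first such time. `R` = the event that it visits `x` at or after time `T`,
  `Pr R ≤ 1/72`.
  - If `Pr H < 1/2`: `Pr {∀ n ≥ T, pos n ∉ A} ≥ 1 - Pr H - Pr R ≥ 1/3`, so `mk0 T A _ x ≠ 0`.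
  - If `Pr H ≥ 1/2`: `pos N ∈ X` is a vertex `≠ x` of `γ` or of `γ'`, so it is in one of the four sets
    `before γ x`, `before γ.reverse x`, `before γ' x`, `before γ'.reverse x`; one of the four events has
    probability `≥ 1/8`, say `pos N ∈ P`; removing `R` it has still probability `≥ 1/9`, and then
    the walk does not visit `A` (resp. `A'`) during `[T, N)`, as it visits neither `X` nor `x`: so
    `hitp T P A x ≥ 1/9` and `mk1 T A P x ≠ 0` for the first two sets (with `A`), and `mk1 T A' P x ≠ 0`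
    for the last two (with `A'`).
* `cover_card`: consequence for the cardinalities.
-/

open MeasureTheory ProbabilityTheory Filter
open scoped ENNReal
open Pool.Agent.H39.LW

namespace Pool.Agent.H39.LP

variable {d : ℕ}

variable [NeZero d]

omit [NeZero d] in
theorem cover_aux {a b c : ℝ≥0∞} (h : (1 : ℝ≥0∞) / 8 ≤ a) (hab : a ≤ b + c) (hc : c ≤ 1 / 72) :
    1 / 9 ≤ b := by
  by_contra hb
  rw [not_le] at hb
  have h1 : b + c < 1 / 9 + 1 / 72 := by
    refine ENNReal.add_lt_add_of_lt_of_le ?_ hb hc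
    exact ne_top_of_le_ne_top (by norm_num) hc
  have h2 : (1 : ℝ≥0∞) / 9 + 1 / 72 = 1 / 8 := by
    rw [← ENNReal.toReal_eq_toReal_iff' (by norm_num) (by norm_num)]
    rw [ENNReal.toReal_add (by norm_num) (by norm_num)]
    norm_num
  rw [h2] at h1
  exact absurd (h.trans hab) (not_le.2 h1)

omit [NeZero d] in
theorem cover_aux2 {a h r : ℝ≥0∞} (h1 : 1 ≤ a + (h + r)) (hh : h < 2⁻¹) (hr : r ≤ 1 / 72) :
    1 / 3 ≤ a := by
  by_contra ha
  rw [not_le] at ha
  have h2 : a + (h + r) < 1 / 3 + (2⁻¹ + 1 / 72) := by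
    refine ENNReal.add_lt_add_of_lt_of_le ?_ ha (add_le_add hh.le hr)
    exact ne_top_of_le_ne_top (by norm_num) (add_le_add hh.le hr)
  have h3 : (1 : ℝ≥0∞) / 3 + (2⁻¹ + 1 / 72) ≤ 1 := by
    rw [← ENNReal.toReal_le_toReal (by norm_num) (by norm_num)]
    rw [ENNReal.toReal_add (by norm_num) (by norm_num), ENNReal.toReal_add (by norm_num) (by norm_num)]
    norm_num
  exact absurd h1 (not_le.2 (h2.trans_le h3))

theorem cover {T : ℕ} {γ γ' : List (Zd d)} (hγ : γ.Nodup) (hγ' : γ'.Nodup) (B : Finset (Zd d))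
    {x : Zd d} (hT : Pr d {ω | ∃ n, T ≤ n ∧ pos x ω n = x} ≤ 1 / 72)
    (hx : x ∈ γ) (hx' : x ∈ γ') (hxB : x ∈ B) :
    mk0 T (γ'.toFinset ∩ B) (before γ x) x ≠ 0 ∨
    mk1 T (γ'.toFinset ∩ B) (before γ x) x ≠ 0 ∨
    mk1 T (γ'.toFinset ∩ B) (before γ.reverse x) x ≠ 0 ∨
    mk1 T (γ.toFinset ∩ B) (before γ' x) x ≠ 0 ∨
    mk1 T (γ.toFinset ∩ B) (before γ'.reverse x) x ≠ 0 := by
  classical
  set A : Finset (Zd d) := γ'.toFinset ∩ B with hA
  set A' : Finset (Zd d) := γ.toFinset ∩ B with hA'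
  have hxA : x ∈ A := by simp [hA, hx', hxB]
  have hxA' : x ∈ A' := by simp [hA', hx, hxB]
  set X : Finset (Zd d) := (A ∪ A').erase x with hX
  have hprob : Pr d (Set.univ : Set (Om d)) = 1 := measure_univ
  by_cases hH : Pr d {ω | ∃ n, T ≤ n ∧ pos x ω n ∈ X} < 2⁻¹
  · left
    have h1 : (1 : ℝ≥0∞) ≤ Pr d {ω | ∀ n, T ≤ n → pos x ω n ∉ A}
        + (Pr d {ω | ∃ n, T ≤ n ∧ pos x ω n ∈ X} + Pr d {ω | ∃ n, T ≤ n ∧ pos x ω n = x}) := by
      rw [← hprob]
      refine le_trans (measure_mono ?_) ((measure_union_le _ _).trans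
        (add_le_add_right (measure_union_le _ _) _))
      intro ω _
      by_cases h : ∀ n, T ≤ n → pos x ω n ∉ A
      · exact Or.inl h
      · right
        push Not at h
        obtain ⟨n, hn, hnA⟩ := h
        by_cases hxn : pos x ω n = x
        · exact Or.inr ⟨n, hn, hxn⟩
        · exact Or.inl ⟨n, hn, Finset.mem_erase.2 ⟨hxn, Finset.mem_union_left _ hnA⟩⟩
    have h2 := cover_aux2 h1 hH hT
    rw [mk0, if_pos ⟨hxA, h2⟩]
    exact one_ne_zero
  · right
    rw [not_lt] at hH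
    -- the four events
    let E : Finset (Zd d) → Set (Om d) := fun P =>
      {ω | ∃ n, T ≤ n ∧ pos x ω n ∈ P ∧ ∀ i, T ≤ i → i < n → pos x ω i ∉ X}
    have hE : ∀ (P C : Finset (Zd d)), C ⊆ A ∪ A' → 1 / 8 ≤ Pr d (E P) →
        1 / 9 ≤ hitp T (P : Set (Zd d)) (C : Set (Zd d)) x := by
      intro P C hC h8
      refine cover_aux h8 (c := Pr d {ω | ∃ n, T ≤ n ∧ pos x ω n = x}) ?_ hT
      refine le_trans (measure_mono ?_) (measure_union_le _ _)
      rintro ω ⟨n, hn, hnP, hni⟩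
      by_cases hR : ∃ n, T ≤ n ∧ pos x ω n = x
      · exact Or.inr hR
      · left
        push Not at hR
        refine ⟨n, hn, hnP, fun i hi hin hiC => hni i hi hin ?_⟩
        exact Finset.mem_erase.2 ⟨hR i hi, hC hiC⟩
    have hm1 : ∀ (P C : Finset (Zd d)), x ∈ C → C ⊆ A ∪ A' → 1 / 8 ≤ Pr d (E P) →
        mk1 T C P x ≠ 0 := by
      intro P C hxC hC h8
      rw [mk1, if_pos ⟨hxC, hE P C hC h8⟩]
      exact one_ne_zero
    have hsum : (2 : ℝ≥0∞)⁻¹ ≤ Pr d (E (before γ x)) + (Pr d (E (before γ.reverse x))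
        + (Pr d (E (before γ' x)) + Pr d (E (before γ'.reverse x)))) := by
      refine hH.trans (le_trans (measure_mono ?_) ((measure_union_le _ _).trans
        (add_le_add_right ((measure_union_le _ _).trans
          (add_le_add_right (measure_union_le _ _) _)) _)))
      rintro ω hω
      have hex : ∃ n, T ≤ n ∧ pos x ω n ∈ X := hω
      obtain ⟨hn, hnX⟩ := Nat.find_spec hex
      have hmin : ∀ i, T ≤ i → i < Nat.find hex → pos x ω i ∉ X := fun i hi hin hiX =>
        Nat.find_min hex hin ⟨hi, hiX⟩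
      obtain ⟨hne, hmem⟩ := Finset.mem_erase.1 hnX
      rcases Finset.mem_union.1 hmem with h | h
      · have hg : pos x ω (Nat.find hex) ∈ γ' := by
          have := (Finset.mem_inter.1 h).1
          simpa using this
        rcases before_reverse hγ' hx' hg hne with h' | h'
        · exact Or.inr (Or.inr (Or.inl ⟨_, hn, h', hmin⟩))
        · exact Or.inr (Or.inr (Or.inr ⟨_, hn, h', hmin⟩))
      · have hg : pos x ω (Nat.find hex) ∈ γ := by
          have := (Finset.mem_inter.1 h).1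
          simpa using this
        rcases before_reverse hγ hx hg hne with h' | h'
        · exact Or.inl ⟨_, hn, h', hmin⟩
        · exact Or.inr (Or.inl ⟨_, hn, h', hmin⟩)
    by_contra hcon
    push Not at hcon
    obtain ⟨c1, c2, c3, c4⟩ := hcon
    have d1 : Pr d (E (before γ x)) < 1 / 8 := by
      by_contra h
      exact hm1 _ _ hxA Finset.subset_union_left (not_lt.1 h) c1
    have d2 : Pr d (E (before γ.reverse x)) < 1 / 8 := by
      by_contra h
      exact hm1 _ _ hxA Finset.subset_union_left (not_lt.1 h) c2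
    have d3 : Pr d (E (before γ' x)) < 1 / 8 := by
      by_contra h
      exact hm1 _ _ hxA' Finset.subset_union_right (not_lt.1 h) c3
    have d4 : Pr d (E (before γ'.reverse x)) < 1 / 8 := by
      by_contra h
      exact hm1 _ _ hxA' Finset.subset_union_right (not_lt.1 h) c4
    have h8 : (1 : ℝ≥0∞) / 8 + (1 / 8 + (1 / 8 + 1 / 8)) = 2⁻¹ := by
      rw [← ENNReal.toReal_eq_toReal_iff' (by norm_num) (by norm_num)]
      rw [ENNReal.toReal_add (by norm_num) (by norm_num),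
        ENNReal.toReal_add (by norm_num) (by norm_num),
        ENNReal.toReal_add (by norm_num) (by norm_num)]
      norm_num
    have hlt := ENNReal.add_lt_add d1 (ENNReal.add_lt_add d2 (ENNReal.add_lt_add d3 d4))
    rw [h8] at hlt
    exact absurd hsum (not_le.2 hlt)

theorem cover_card {T : ℕ} {γ γ' : List (Zd d)} (hγ : γ.Nodup) (hγ' : γ'.Nodup)
    (B : Finset (Zd d)) (hT : ∀ x : Zd d, Pr d {ω | ∃ n, T ≤ n ∧ pos x ω n = x} ≤ 1 / 72) :
    (γ.toFinset ∩ γ'.toFinset ∩ B).card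
      ≤ (Im (mk0 T (γ'.toFinset ∩ B)) γ (γ'.toFinset ∩ B)).card
        + (Im (mk1 T (γ'.toFinset ∩ B)) γ (γ'.toFinset ∩ B)).card
        + (Im (mk1 T (γ'.toFinset ∩ B)) γ.reverse (γ'.toFinset ∩ B)).card
        + (Im (mk1 T (γ.toFinset ∩ B)) γ' (γ.toFinset ∩ B)).card
        + (Im (mk1 T (γ.toFinset ∩ B)) γ'.reverse (γ.toFinset ∩ B)).card := by
  classical
  set U1 := Im (mk0 T (γ'.toFinset ∩ B)) γ (γ'.toFinset ∩ B) with hU1
  set U2 := Im (mk1 T (γ'.toFinset ∩ B)) γ (γ'.toFinset ∩ B) with hU2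
  set U3 := Im (mk1 T (γ'.toFinset ∩ B)) γ.reverse (γ'.toFinset ∩ B) with hU3
  set U4 := Im (mk1 T (γ.toFinset ∩ B)) γ' (γ.toFinset ∩ B) with hU4
  set U5 := Im (mk1 T (γ.toFinset ∩ B)) γ'.reverse (γ.toFinset ∩ B) with hU5
  have hsub : γ.toFinset ∩ γ'.toFinset ∩ B ⊆ U1 ∪ U2 ∪ U3 ∪ U4 ∪ U5 := by
    intro x hx
    rw [Finset.mem_inter, Finset.mem_inter, List.mem_toFinset, List.mem_toFinset] at hx
    obtain ⟨⟨hx1, hx2⟩, hx3⟩ := hx
    have hmem : ∀ (mk : Finset (Zd d) → Zd d → ℝ≥0∞) (l : List (Zd d)) (C : Finset (Zd d)),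
        x ∈ l → x ∈ C → mk (before l x) x ≠ 0 → x ∈ Im mk l C := by
      intro mk l C h1 h2 h3
      rw [Im, Finset.mem_filter, Finset.mem_inter, List.mem_toFinset]
      exact ⟨⟨h1, h2⟩, h3⟩
    have hxA : x ∈ γ'.toFinset ∩ B := by simp [hx2, hx3]
    have hxA' : x ∈ γ.toFinset ∩ B := by simp [hx1, hx3]
    simp only [Finset.mem_union]
    rcases cover hγ hγ' B (hT x) hx1 hx2 hx3 with h | h | h | h | h
    · exact Or.inl (Or.inl (Or.inl (Or.inl (hmem _ _ _ hx1 hxA h))))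
    · exact Or.inl (Or.inl (Or.inl (Or.inr (hmem _ _ _ hx1 hxA h))))
    · exact Or.inl (Or.inl (Or.inr (hmem _ _ _ (List.mem_reverse.2 hx1) hxA h)))
    · exact Or.inl (Or.inr (hmem _ _ _ hx2 hxA' h))
    · exact Or.inr (hmem _ _ _ (List.mem_reverse.2 hx2) hxA' h)
  refine (Finset.card_le_card hsub).trans ?_
  refine (Finset.card_union_le _ _).trans (Nat.add_le_add_right ?_ _)
  refine (Finset.card_union_le _ _).trans (Nat.add_le_add_right ?_ _)
  refine (Finset.card_union_le _ _).trans (Nat.add_le_add_right ?_ _)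
  exact Finset.card_union_le _ _

end Pool.Agent.H39.LP
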