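import Pool.Agent.H39.LP.Base

/-!
# Module LV: loop erasure of lists (decomposition at the last visit)

* `LEl_append`: `LEl (l ++ m) = m.foldl leStep (LEl l)` (`List.foldl_append`).
* `foldl_subset`: vertices of `m.foldl leStep L` are in `L` or in `m`.
* `foldl_notMem`: `m.foldl leStep (L ++ K) = L ++ m.foldl leStep K` if no element of `m` is in `L`
  (`K` arbitrary).
* `foldl_cons_last`: starting from `u :: K`, after the walk `m ++ [u]` one has `[u]`: the head `u` is
  never erased (`leStep (u :: K) v = u :: leStep K v` for `v ≠ u`, `= [u]` for `v = u`).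
* `foldl_nodup`: a self-avoiding `m` disjoint from `L` is just appended.
* `LEl_split` (decomposition at the last visit): induction on `l` from the right,
  `LEl (l ++ [v]) = (LEl l).takeWhile (· ≠ v) ++ [v]` (`LEl_concat`). If `L2 = []` then `u = v`, take
  `l1 = l`, `l2 = []`. Otherwise `L2 = L2' ++ [v]` and `L1 ++ u :: L2'` is an initial piece of `LEl l`
  not containing `v`, say `LEl l = L1 ++ u :: (L2' ++ L3)`; by induction `l = l1 ++ u :: l2` with
  `u ∉ l2` and `L2' ⊆ l2`; take `l2 ++ [v]` (`u ≠ v`).
* `cA_le_append`, `cA_take`: consequences for `cA`.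
-/

open MeasureTheory ProbabilityTheory Filter
open scoped ENNReal
open Pool.Agent.H39.LW

namespace Pool.Agent.H39.LP

section

variable {U : Type*} [DecidableEq U]

lemma LEl_append (l m : List U) : LEl (l ++ m) = m.foldl leStep (LEl l) := by
  simp [LEl, List.foldl_append]

lemma LEl_getLast? (l : List U) : (LEl l).getLast? = l.getLast? := by
  induction l using List.reverseRecOn with
  | nil => rfl
  | append_singleton l v _ =>
    rw [LEl_concat, leStep]
    simp

lemma LEl_head? (l : List U) : (LEl l).head? = l.head? := by
  cases l with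
  | nil => rfl
  | cons v l => rw [LEl_cons]; rfl

lemma foldl_subset {m L : List U} {x : U} (h : x ∈ m.foldl leStep L) : x ∈ L ∨ x ∈ m := by
  induction m generalizing L with
  | nil => exact Or.inl h
  | cons v m ih =>
    rw [List.foldl_cons] at h
    rcases ih h with h | h
    · rw [leStep, List.mem_append, List.mem_singleton] at h
      rcases h with h | h
      · exact Or.inl ((List.takeWhile_sublist _).subset h)
      · exact Or.inr (by rw [h]; exact List.mem_cons_self)
    · exact Or.inr (List.mem_cons_of_mem _ h)

lemma leStep_append_of_notMem {L : List U} (K : List U) {v : U} (h : v ∉ L) :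
    leStep (L ++ K) v = L ++ leStep K v := by
  rw [leStep, leStep, List.takeWhile_append_of_pos, List.append_assoc]
  intro a ha
  simp only [ne_eq, decide_not, Bool.not_eq_eq_eq_not, Bool.not_true, decide_eq_false_iff_not]
  rintro rfl
  exact h ha

lemma foldl_notMem {m L : List U} (K : List U) (h : ∀ v ∈ m, v ∉ L) :
    m.foldl leStep (L ++ K) = L ++ m.foldl leStep K := by
  induction m generalizing K with
  | nil => rfl
  | cons v m ih =>
    rw [List.foldl_cons, List.foldl_cons,
      leStep_append_of_notMem K (h v List.mem_cons_self)]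
    exact ih _ fun w hw => h w (List.mem_cons_of_mem _ hw)

lemma foldl_cons_exists (u : U) (K m : List U) :
    ∃ K', m.foldl leStep (u :: K) = u :: K' := by
  induction m generalizing K with
  | nil => exact ⟨K, rfl⟩
  | cons v m ih =>
    rw [List.foldl_cons]
    by_cases hv : u = v
    · subst hv
      rw [leStep_cons_self]
      exact ih []
    · rw [leStep_cons_ne hv]
      exact ih _

lemma foldl_cons_last (u : U) (K m : List U) : (m ++ [u]).foldl leStep (u :: K) = [u] := by
  obtain ⟨K', hK'⟩ := foldl_cons_exists u K m
  rw [List.foldl_append, hK', List.foldl_cons, List.foldl_nil, leStep_cons_self]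

lemma leStep_of_notMem {L : List U} {v : U} (h : v ∉ L) : leStep L v = L ++ [v] := by
  have := leStep_append_of_notMem [] h
  rw [List.append_nil] at this
  rw [this]
  simp [leStep]

lemma foldl_nodup {m L : List U} (hm : m.Nodup) (h : ∀ v ∈ m, v ∉ L) :
    m.foldl leStep L = L ++ m := by
  induction m generalizing L with
  | nil => simp
  | cons v m ih =>
    rw [List.nodup_cons] at hm
    rw [List.foldl_cons, leStep_of_notMem (h v List.mem_cons_self), ih hm.2, List.append_assoc]
    · rfl
    · intro w hw
      rw [List.mem_append, List.mem_singleton]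
      rintro (h1 | h1)
      · exact h w (List.mem_cons_of_mem _ hw) h1
      · exact hm.1 (h1 ▸ hw)

theorem LEl_split {l L1 L2 : List U} {u : U} (h : LEl l = L1 ++ u :: L2) :
    ∃ l1 l2, l = l1 ++ u :: l2 ∧ LEl (l1 ++ [u]) = L1 ++ [u] ∧ u ∉ l2 ∧ ∀ v ∈ L2, v ∈ l2 := by
  induction l using List.reverseRecOn generalizing L2 with
  | nil => simp [LEl_nil] at h
  | append_singleton l v ih =>
    have h0 := h
    rw [LEl_concat, leStep] at h
    rcases List.eq_nil_or_concat L2 with rfl | ⟨L2', w, rfl⟩
    · obtain ⟨h1, h2⟩ := List.append_inj' h rfl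
      have h3 : v = u := by simpa using h2
      subst h3
      exact ⟨l, [], rfl, h0, by simp, by simp⟩
    · have h' : (LEl l).takeWhile (fun u => decide (u ≠ v)) ++ [v] =
          (L1 ++ u :: L2') ++ [w] := by
        rw [h]; simp
      obtain ⟨h1, h2⟩ := List.append_inj' h' rfl
      have h3 : v = w := by simpa using h2
      subst h3
      have h4 : LEl l = L1 ++ u :: (L2' ++ (LEl l).dropWhile (fun u => decide (u ≠ v))) := by
        conv_lhs => rw [← List.takeWhile_append_dropWhile (p := fun u => decide (u ≠ v))
          (l := LEl l)]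
        rw [h1]; simp
      obtain ⟨l1, l2, hl, hl1, hu, hv⟩ := ih h4
      refine ⟨l1, l2 ++ [v], ?_, hl1, ?_, ?_⟩
      · rw [hl]; simp
      · have h5 : u ∈ (LEl l).takeWhile (fun u => decide (u ≠ v)) := by
          rw [h1]; simp
        have h6 := List.mem_takeWhile_imp h5
        rw [List.mem_append, List.mem_singleton]
        rintro (h7 | h7)
        · exact hu h7
        · simp [h7] at h6
      · intro x hx
        rw [List.concat_eq_append, List.mem_append, List.mem_singleton] at hx
        rw [List.mem_append, List.mem_singleton]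
        rcases hx with hx | hx
        · exact Or.inl (hv x (List.mem_append_left _ hx))
        · exact Or.inr hx

end

variable {d : ℕ}

lemma cA_append_le (A : Finset (Zd d)) (l m : List (Zd d)) :
    cA A (l ++ m) ≤ cA A l + m.length := by
  unfold cA
  have h : (LEl (l ++ m)).toFinset ∩ A ⊆ ((LEl l).toFinset ∩ A) ∪ m.toFinset := by
    intro x hx
    rw [Finset.mem_inter, List.mem_toFinset, LEl_append] at hx
    rw [Finset.mem_union, Finset.mem_inter, List.mem_toFinset, List.mem_toFinset]
    rcases foldl_subset hx.1 with h | h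
    · exact Or.inl ⟨h, hx.2⟩
    · exact Or.inr h
  refine (Finset.card_le_card h).trans ((Finset.card_union_le _ _).trans ?_)
  exact Nat.add_le_add_left (List.toFinset_card_le m) _

lemma cA_append_le_one (A : Finset (Zd d)) (l m : List (Zd d)) (v : Zd d)
    (h : ∀ x ∈ m, x ∉ A) : cA A (l ++ m ++ [v]) ≤ cA A l + 1 := by
  unfold cA
  have h' : (LEl (l ++ m ++ [v])).toFinset ∩ A ⊆ ((LEl l).toFinset ∩ A) ∪ {v} := by
    intro x hx
    rw [Finset.mem_inter, List.mem_toFinset, List.append_assoc, LEl_append] at hx
    rw [Finset.mem_union, Finset.mem_inter, List.mem_toFinset, Finset.mem_singleton]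
    rcases foldl_subset hx.1 with h1 | h1
    · exact Or.inl ⟨h1, hx.2⟩
    · rw [List.mem_append, List.mem_singleton] at h1
      rcases h1 with h1 | h1
      · exact absurd hx.2 (h x h1)
      · exact Or.inr h1
  refine (Finset.card_le_card h').trans ((Finset.card_union_le _ _).trans ?_)
  rw [Finset.card_singleton]

/-- the loop erasure up to (and including) `u` has at most as many points in `A` -/
lemma cA_le_of_split {A : Finset (Zd d)} {l l1 L1 L2 : List (Zd d)} {u : Zd d}
    (h : LEl l = L1 ++ u :: L2) (h1 : LEl (l1 ++ [u]) = L1 ++ [u]) : cA A (l1 ++ [u]) ≤ cA A l := by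
  unfold cA
  apply Finset.card_le_card
  intro x hx
  rw [Finset.mem_inter, List.mem_toFinset, h1, List.mem_append, List.mem_singleton] at hx
  rw [Finset.mem_inter, List.mem_toFinset, h, List.mem_append, List.mem_cons]
  refine ⟨?_, hx.2⟩
  rcases hx.1 with h2 | h2
  · exact Or.inl h2
  · exact Or.inr (Or.inl h2)

end Pool.Agent.H39.LP
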