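import Pool.Agent.H39.LP.Split
import Pool.Agent.H39.LP.Lists2

/-!
# Module DN: dense loop erasures

`pth_split_le` with `F` the functional on the left, `g = wt b A (EndIn (nbA (2 r) A))` and
`h l₁ l₂ = occf (nb u (4 r)) q l₂`, where `u` is the last entry of `l₁` (e.g. `u = l₁.getLastD 0`).

* `hF`: let `l` end in `x ∈ A` with `q ≤ ((LEl l).toFinset ∩ nb x (2 r)).card`. Let `u` be the first entry of
  `LEl l` in `nb x (2 r)` (it exists: `x` itself is the last entry, `LEl_getLast?`), so
  `LEl l = L1 ++ u :: L2` with no vertex of `L1` in the box, and take `l = l1 ++ u :: l2` from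
  `LEl_split`. The term `k = l1.length` (`l.take (k+1) = l1 ++ [u]`, `l.drop k = u :: l2`) is at least
  `F l`: `u ∈ nbA (2 r) A` (as `x ∈ A`, `x ∈ nb u (2 r)`), `cA A (l1 ++ [u]) ≤ cA A l`
  (`cA_le_of_split`) and `b ≤ 1`; the path `u :: l2` ends in `x ∈ nb u (2r) ⊆ nb u (4r)`, and all
  vertices of `LEl l` in `nb x (2 r) ⊆ nb u (4 r)` are in `u :: L2 ⊆ u :: l2`, so at least `q` entries
  of `u :: l2` are in `nb u (4 r)` (`List.toFinset_card_le`).
* `hc` is the hypothesis `h`.
-/

open MeasureTheory ProbabilityTheory Filter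
open scoped ENNReal
open Pool.Agent.H39.LW

namespace Pool.Agent.H39.LP

variable {d : ℕ} [NeZero d]

private lemma exists_first {U : Type*} (P : U → Prop) :
    ∀ L : List U, (∃ x ∈ L, P x) → ∃ L1 u L2, L = L1 ++ u :: L2 ∧ P u ∧ ∀ v ∈ L1, ¬ P v := by
  intro L
  induction L with
  | nil => rintro ⟨x, hx, _⟩; exact absurd hx List.not_mem_nil
  | cons w L ih =>
    intro h
    by_cases hw : P w
    · exact ⟨[], w, L, rfl, hw, fun v hv => absurd hv List.not_mem_nil⟩
    · obtain ⟨x, hx, hPx⟩ := h
      rcases List.mem_cons.1 hx with rfl | hx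
      · exact absurd hPx hw
      · obtain ⟨L1, u, L2, h1, h2, h3⟩ := ih ⟨x, hx, hPx⟩
        refine ⟨w :: L1, u, L2, by rw [h1]; rfl, h2, ?_⟩
        intro v hv
        rcases List.mem_cons.1 hv with rfl | hv
        · exact hw
        · exact h3 v hv

theorem dense_of {r q : ℕ} {c : ℝ≥0∞}
    (h : ∀ u : Zd d, pth u (occf (nb u (4 * r) : Set (Zd d)) q) ≤ c)
    {b : ℝ≥0∞} (hb : b ≤ 1) (A : Finset (Zd d)) (y : Zd d) :
    pth y (wt b A fun l => EndIn (A : Set (Zd d)) l ∧ DenseAt (2 * r) q l)
      ≤ pth y (wt b A (EndIn (nbA (2 * r) A))) * c := by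
  classical
  refine pth_split_le (h := fun l₁ l₂ => occf (nb (l₁.getLastD 0) (4 * r) : Set (Zd d)) q l₂)
    ?_ ?_
  · intro l hl
    by_cases hP : EndIn (A : Set (Zd d)) l ∧ DenseAt (2 * r) q l
    swap
    · rw [wt, if_neg hP]
      exact zero_le
    rw [wt, if_pos hP]
    obtain ⟨⟨x, hxA, hx⟩, ⟨x', hx', hq⟩⟩ := hP
    have hxx : x' = x := by
      rw [hx] at hx'
      exact (Option.some.inj hx').symm
    subst hxx
    have hlast : (LEl l).getLast? = some x' := by rw [LEl_getLast?, hx]
    have hxmem : x' ∈ LEl l := List.mem_of_getLast? hlast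
    obtain ⟨L1, u, L2, hL, hu, hL1⟩ := exists_first (fun v => v ∈ nb x' (2 * r)) (LEl l)
      ⟨x', hxmem, self_mem_nb _ _⟩
    obtain ⟨l1, l2, hl12, hLE, hul2, hsub⟩ := LEl_split hL
    have hxu : x' ∈ nb u (2 * r) := nb_comm.1 hu
    have hlen : l1.length ∈ Finset.range l.length := by
      rw [Finset.mem_range, hl12]
      simp
    refine le_trans ?_ (Finset.single_le_sum (f := fun k => wt b A (EndIn (nbA (2 * r) A))
      (l.take (k + 1)) * occf (nb ((l.take (k + 1)).getLastD 0) (4 * r) : Set (Zd d)) q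
        (l.drop k)) (fun _ _ => zero_le) hlen)
    have ht : l.take (l1.length + 1) = l1 ++ [u] := by
      rw [hl12, show l1 ++ u :: l2 = (l1 ++ [u]) ++ l2 by simp]
      rw [List.take_left' (by simp)]
    have hd : l.drop l1.length = u :: l2 := by
      rw [hl12, List.drop_left]
    show b ^ cA A l ≤ wt b A (EndIn (nbA (2 * r) A)) (l.take (l1.length + 1)) *
      occf (nb ((l.take (l1.length + 1)).getLastD 0) (4 * r) : Set (Zd d)) q
        (l.drop l1.length)
    rw [ht, hd]
    have hgl : (l1 ++ [u]).getLastD 0 = u := by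
      rw [List.getLastD_eq_getLast?]
      simp
    rw [hgl]
    have hE : EndIn (nbA (2 * r) A) (l1 ++ [u]) := by
      refine ⟨u, ⟨x', hxA, hxu⟩, by simp⟩
    rw [wt, if_pos hE]
    have hocc : occf (nb u (4 * r) : Set (Zd d)) q (u :: l2) = 1 := by
      rw [occf, if_pos]
      refine ⟨⟨x', ?_, ?_⟩, ?_⟩
      · exact Finset.mem_coe.2 (nb_mono (by omega) hxu)
      · rw [← hx, hl12]
        rw [List.getLast?_append_of_ne_nil _ (by simp)]
      · refine hq.trans ?_
        refine le_trans (Finset.card_le_card ?_) (List.toFinset_card_le _)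
        intro v hv
        rw [Finset.mem_inter, List.mem_toFinset] at hv
        rw [List.mem_toFinset, List.mem_filter]
        have hv4 : v ∈ nb u (4 * r) := by
          have := nb_trans hv.2 hxu
          rwa [show 2 * r + 2 * r = 4 * r by ring] at this
        refine ⟨?_, by simpa using hv4⟩
        have hvL := hv.1
        rw [hL, List.mem_append, List.mem_cons] at hvL
        rcases hvL with hvL | hvL | hvL
        · exact absurd hv.2 (hL1 v hvL)
        · rw [hvL]; exact List.mem_cons_self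
        · exact List.mem_cons_of_mem _ (hsub v hvL)
    rw [hocc, mul_one]
    exact pow_le_pow_right_of_le_one' hb (cA_le_of_split hL hLE)
  · intro l x _ hx _
    have hgl : l.getLastD 0 = x := by
      rw [List.getLastD_eq_getLast?, hx]
      rfl
    show pth x (occf (nb (l.getLastD 0) (4 * r) : Set (Zd d)) q) ≤ c
    rw [hgl]
    exact h x

end Pool.Agent.H39.LP
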