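import Pool.Agent.H39.LP.CmDef

/-!
# Module EI1: common edges and common vertices

* `loopErase_injective`: for a transient path, `loopErase s` is injective (`isLoopErasure_loopErase`, `LEl_nodup`).
* `edges_le`: for `γ = loopErase (pos 0 ω)`, `γ' = loopErase (pos 0 ω')` (transient):
  `(edges γ ∩ edges γ').encard ≤ (cm ω ω').encard` (map a common edge `s(γ k, γ (k+1))` to `γ k`: injective since
  `γ` is; `γ k` is a vertex of `γ'`; `inL_iff`), and if there is a common edge then there is a common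
  vertex `y ≠ 0` (an edge has two different end points, `loopErase_adj`), visited by both walks.
-/

open MeasureTheory ProbabilityTheory Filter
open scoped ENNReal
open Pool.Agent.H39.LW

namespace Pool.Agent.H39.LP

theorem loopErase_injective {U : Type*} [DecidableEq U] {s : ℕ → U} (hs : Transient s) :
    Function.Injective (loopErase s) := by
  intro i j hij
  have hγ := isLoopErasure_loopErase hs
  obtain ⟨n, h1, h2⟩ := ((hγ i).and (hγ j)).exists
  have hnd : (LE s n).Nodup := LEl_nodup _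
  rw [← hij] at h2
  obtain ⟨hi1, hi2⟩ := List.getElem?_eq_some_iff.1 h1
  obtain ⟨hj1, hj2⟩ := List.getElem?_eq_some_iff.1 h2
  exact (List.Nodup.getElem_inj_iff hnd).1 (hi2.trans hj2.symm)

/-- a vertex of the loop erasure is a vertex of the walk -/
lemma visited_of_inL {U : Type*} [DecidableEq U] {s : ℕ → U} {y : U} (h : InL s y) :
    ∃ i, s i = y := by
  obtain ⟨m, hm⟩ := h.exists
  obtain ⟨i, _, hi⟩ := mem_range_of_mem_LE hm
  exact ⟨i, hi⟩

/-- an end point of an edge of the loop erasure is in the loop erasure -/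
lemma inL_of_mem_edge {U : Type*} [DecidableEq U] {s : ℕ → U} (hs : Transient s) {e : Sym2 U}
    (he : e ∈ edges (loopErase s)) {y : U} (hy : y ∈ e) : InL s y := by
  obtain ⟨k, rfl⟩ := he
  rcases Sym2.mem_iff.1 hy with h | h
  · exact (inL_iff hs y).2 ⟨k, h.symm⟩
  · exact (inL_iff hs y).2 ⟨k + 1, h.symm⟩

variable {d : ℕ} [NeZero d]

theorem edges_le {ω ω' : Om d} (h : Transient (pos 0 ω)) (h' : Transient (pos 0 ω')) :
    (edges (loopErase (pos 0 ω)) ∩ edges (loopErase (pos 0 ω'))).encard ≤ (cm ω ω').encard := by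
  classical
  have hex : ∀ e ∈ edges (loopErase (pos 0 ω)) ∩ edges (loopErase (pos 0 ω')),
      ∃ k, e = s(loopErase (pos 0 ω) k, loopErase (pos 0 ω) (k + 1)) := fun e he => he.1
  choose! f hf using hex
  refine Set.encard_le_encard_of_injOn (f := fun e => loopErase (pos 0 ω) (f e)) ?_ ?_
  · intro e he
    have hmem : loopErase (pos 0 ω) (f e) ∈ e := by
      have h1 : e = s(loopErase (pos 0 ω) (f e), loopErase (pos 0 ω) (f e + 1)) := hf e he
      exact (Sym2.mem_iff_exists.2 ⟨_, h1⟩)
    exact ⟨inL_of_mem_edge h he.1 hmem, inL_of_mem_edge h' he.2 hmem⟩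
  · intro e he e' he' hee
    have hk : f e = f e' := loopErase_injective h hee
    rw [hf e he, hf e' he', hk]

theorem edges_common {ω ω' : Om d} (h : Transient (pos 0 ω)) (h' : Transient (pos 0 ω'))
    (hne : (edges (loopErase (pos 0 ω)) ∩ edges (loopErase (pos 0 ω'))).Nonempty) :
    ∃ y : Zd d, y ≠ 0 ∧ (∃ i, pos 0 ω i = y) ∧ ∃ j, pos 0 ω' j = y := by
  obtain ⟨e, he, he'⟩ := hne
  obtain ⟨k, hk⟩ := id he
  have hadj := loopErase_adj h (R := fun u v => ∃ e : Step d, v = u + sv e)
    (fun n => ⟨ω n, pos_succ 0 ω n⟩) k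
  obtain ⟨st, hst⟩ := hadj
  have hne : loopErase (pos 0 ω) k ≠ loopErase (pos 0 ω) (k + 1) := by
    intro h0
    have h1 := loopErase_injective h h0
    omega
  have key : ∀ y : Zd d, y ∈ e → (∃ i, pos 0 ω i = y) ∧ ∃ j, pos 0 ω' j = y := fun y hy =>
    ⟨visited_of_inL (inL_of_mem_edge h he hy), visited_of_inL (inL_of_mem_edge h' he' hy)⟩
  by_cases h0 : loopErase (pos 0 ω) k = 0
  · refine ⟨loopErase (pos 0 ω) (k + 1), fun h1 => hne (h0.trans h1.symm), key _ ?_⟩
    rw [hk]
    exact Sym2.mem_mk_right _ _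
  · refine ⟨loopErase (pos 0 ω) k, h0, key _ ?_⟩
    rw [hk]
    exact Sym2.mem_mk_left _ _

end Pool.Agent.H39.LP
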