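import Pool.Agent.H39.LP.HKa2

/-!
# Module HKc: sums of squares of Green's function

* `sum_pairs`: `∑'_{n,m, n+m ≥ k^2} sup_x hk (n+m) x ≤ C / k`: `hk j x ≤ C j^(-5/2)` (`hk_sq_le`, `d ≥ 5`),
  there are `j + 1` pairs with `n + m = j`, and `∑_{j ≥ k^2} (j+1) j^(-5/2) ≤ 2 ∑ j^(-3/2) ≤ C / k`
  (`sum_three_halves`).
* `green_pair`: for points `p, p'` with `k^2 ≤ |p i - p' i|` for some `i`:
  `∑' x, gT 0 (x - p) * gT 0 (x - p') = ∑'_{n,m} ∑' x, hk n (x-p) hk m (x-p') = ∑'_{n,m} hk (n+m) (p - p')`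
  (`hk_add`, `hk_neg`), and `hk (n+m) (p-p') = 0` if `n + m < k^2`.
* `green_sq_far`: for `x ∉ nb 0 (k^2)`, `hk n x = 0` for `n < k^2`, so
  `gT 0 x ^ 2 = ∑'_{n,m ≥ k^2} hk n x hk m x`; sum over all `x`: `∑'_{n,m ≥ k^2} hk (n+m) 0`.
-/

open MeasureTheory ProbabilityTheory Filter
open scoped ENNReal
open Pool.Agent.H39.LW

namespace Pool.Agent.H39.LP

variable {d : ℕ} [NeZero d]

omit [NeZero d] in
theorem tsum_tsum_add (F : ℕ → ℝ≥0∞) :
    ∑' n, ∑' m, F (n + m) = ∑' j : ℕ, ((j + 1 : ℕ) : ℝ≥0∞) * F j := by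
  rw [← ENNReal.tsum_prod (f := fun n m => F (n + m)),
    ← Finset.HasAntidiagonal.sigmaAntidiagonalEquivProd.tsum_eq, ENNReal.tsum_sigma']
  refine tsum_congr fun j => ?_
  rw [tsum_fintype]
  have h1 : ∀ x : (Finset.HasAntidiagonal.antidiagonal j : Finset (ℕ × ℕ)),
      F ((Finset.HasAntidiagonal.sigmaAntidiagonalEquivProd ⟨j, x⟩).1 +
        (Finset.HasAntidiagonal.sigmaAntidiagonalEquivProd ⟨j, x⟩).2) = F j := by
    intro x
    have := Finset.HasAntidiagonal.mem_antidiagonal.mp x.2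
    simp only [Finset.HasAntidiagonal.sigmaAntidiagonalEquivProd_apply]
    rw [this]
  rw [Finset.sum_congr rfl (fun x _ => h1 x), Finset.sum_const, Finset.card_univ,
    Fintype.card_coe, Finset.Nat.card_antidiagonal, nsmul_eq_mul]

/-- convolution of two heat kernels -/
theorem conv_hk (n m : ℕ) (p p' : Zd d) :
    ∑' x : Zd d, ENNReal.ofReal (hk n (x - p)) * ENNReal.ofReal (hk m (x - p')) =
      ENNReal.ofReal (hk (n + m) (p' - p)) := by
  rw [hk_add]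
  have h1 : ∑' x : Zd d, ENNReal.ofReal (hk n (x - p)) * ENNReal.ofReal (hk m (x - p')) =
      ∑' y : Zd d, ENNReal.ofReal (hk n y * hk m (p' - p - y)) := by
    rw [← (Equiv.addRight p).tsum_eq]
    refine tsum_congr fun y => ?_
    simp only [Equiv.coe_addRight]
    rw [add_sub_cancel_right, ← ENNReal.ofReal_mul (hk_nonneg _ _), ← hk_neg m (y + p - p')]
    congr 3
    abel
  rw [h1, ENNReal.ofReal_tsum_of_nonneg]
  · intro y
    exact mul_nonneg (hk_nonneg _ _) (hk_nonneg _ _)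
  · apply summable_of_hasFiniteSupport
    exact (hk_support n).subset (fun y hy => by
      simp only [Function.mem_support] at hy ⊢
      exact left_ne_zero_of_mul hy)

theorem conv_gT (S T : ℕ) (p p' : Zd d) :
    ∑' x : Zd d, gT S (x - p) * gT T (x - p') =
      ∑' j : ℕ, ((j + 1 : ℕ) : ℝ≥0∞) * ENNReal.ofReal (hk (j + (S + T)) (p' - p)) := by
  have h1 : ∀ x : Zd d, gT S (x - p) * gT T (x - p') = ∑' n, ∑' m,
      ENNReal.ofReal (hk (n + S) (x - p)) * ENNReal.ofReal (hk (m + T) (x - p')) := by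
    intro x
    unfold gT
    rw [← ENNReal.tsum_mul_right]
    refine tsum_congr fun n => ?_
    rw [ENNReal.tsum_mul_left]
  rw [tsum_congr h1, ENNReal.tsum_comm]
  rw [← tsum_tsum_add (fun j => ENNReal.ofReal (hk (j + (S + T)) (p' - p)))]
  refine tsum_congr fun n => ?_
  rw [ENNReal.tsum_comm]
  refine tsum_congr fun m => ?_
  rw [conv_hk]
  congr 2
  ring

/-- a bound for the tail of the doubly summed kernel -/
theorem weighted_bound {C : ℝ} (hC : 0 ≤ C)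
    (hm : ∀ (n : ℕ) (x : Zd d), 1 ≤ n → hk n x * ((n : ℝ) ^ 2 * Real.sqrt n) ≤ C)
    (k a N : ℕ) (hk' : 1 ≤ k) (x : Zd d) (h1 : (a : ℝ) + 1 ≤ 2 * N)
    (hN : (a : ℝ) + 1 ≤ 2 * N) (b : ℕ) (hb : b + k ^ 2 ≤ N) :
    ((a : ℝ) + 1) * hk N x ≤
      (2 * C) * (1 / (((b : ℝ) + (k : ℝ) ^ 2) * Real.sqrt ((b : ℝ) + (k : ℝ) ^ 2))) := by
  have hk1 : 1 ≤ k ^ 2 := Nat.one_le_pow _ _ hk'
  have hN1 : 1 ≤ N := by omega
  have h2 := hm N x hN1
  have hN0 : (0 : ℝ) < N := by exact_mod_cast hN1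
  have hb' : (b : ℝ) + (k : ℝ) ^ 2 ≤ N := by exact_mod_cast hb
  have hb0 : (0 : ℝ) < (b : ℝ) + (k : ℝ) ^ 2 := by
    have : (0 : ℝ) < (k : ℝ) ^ 2 := by exact_mod_cast hk1
    positivity
  set M : ℝ := (b : ℝ) + (k : ℝ) ^ 2 with hM
  have hnn : 0 ≤ hk N x := hk_nonneg _ _
  have hs : Real.sqrt M ≤ Real.sqrt N := Real.sqrt_le_sqrt hb'
  rw [mul_one_div, le_div_iff₀ (by positivity)]
  calc ((a : ℝ) + 1) * hk N x * (M * Real.sqrt M)
      ≤ (2 * N) * hk N x * (N * Real.sqrt N) := by gcongr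
    _ = 2 * (hk N x * ((N : ℝ) ^ 2 * Real.sqrt N)) := by ring
    _ ≤ 2 * C := by linarith

theorem green_pair (hd : 5 ≤ d) : ∃ C : ℕ, ∀ k : ℕ, 1 ≤ k → ∀ p p' : Zd d,
    (∃ i, (k : ℤ) ^ 2 ≤ |p i - p' i|) →
      ∑' x : Zd d, gT 0 (x - p) * gT 0 (x - p') ≤ C / (k : ℝ≥0∞) := by
  obtain ⟨C, hC, hm⟩ := hk_five_halves hd
  refine ⟨⌈8 * C⌉₊, fun k hkk p p' hp => ?_⟩
  obtain ⟨i, hi⟩ := hp
  rw [conv_gT]
  simp only [add_zero]
  have h0 : ∀ n < k ^ 2, hk n (p' - p) = 0 := by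
    intro n hn
    apply hk_eq_zero
    have h1 : |(p' - p) i| ≤ ∑ j, |(p' - p) j| :=
      Finset.single_le_sum (f := fun j => |(p' - p) j|) (fun j _ => abs_nonneg _)
        (Finset.mem_univ i)
    have h2 : (n : ℤ) < (k : ℤ) ^ 2 := by exact_mod_cast hn
    have h3 : |(p' - p) i| = |p i - p' i| := by
      rw [Pi.sub_apply, abs_sub_comm]
    rw [h3] at h1
    linarith
  rw [← ENNReal.summable.sum_add_tsum_nat_add'
    (f := fun j : ℕ => ((j + 1 : ℕ) : ℝ≥0∞) * ENNReal.ofReal (hk j (p' - p))) (k := k ^ 2)]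
  rw [Finset.sum_eq_zero (fun n hn => by
    rw [h0 n (Finset.mem_range.mp hn), ENNReal.ofReal_zero, mul_zero]), zero_add]
  have e1 : ∀ n : ℕ, ((n + k ^ 2 + 1 : ℕ) : ℝ≥0∞) * ENNReal.ofReal (hk (n + k ^ 2) (p' - p)) =
      ENNReal.ofReal ((((n + k ^ 2 : ℕ) : ℝ) + 1) * hk (n + k ^ 2) (p' - p)) := by
    intro n
    rw [ENNReal.ofReal_mul (by positivity)]
    congr 1
    rw [← ENNReal.ofReal_natCast]
    push_cast
    rfl
  rw [tsum_congr e1]
  have hb := tsum_bound k hkk (2 * C) (by positivity)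
    (fun n => (((n + k ^ 2 : ℕ) : ℝ) + 1) * hk (n + k ^ 2) (p' - p)) (by
      intro n
      have hk1 : 1 ≤ k ^ 2 := Nat.one_le_pow _ _ hkk
      have h5 : (((n + k ^ 2 : ℕ) : ℝ) + 1) ≤ 2 * ((n + k ^ 2 : ℕ) : ℝ) := by
        have : (1 : ℝ) ≤ ((n + k ^ 2 : ℕ) : ℝ) := by exact_mod_cast (by omega : 1 ≤ n + k ^ 2)
        linarith
      exact weighted_bound hC hm k (n + k ^ 2) (n + k ^ 2) hkk _ h5 h5 n le_rfl)
  refine hb.trans ?_
  have e : 2 * C * (4 / (k : ℝ)) = 8 * C / (k : ℝ) ^ 1 := by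
    rw [pow_one]; ring
  rw [e]
  have := ofReal_div_pow_le (8 * C) k 1 hkk
  rwa [pow_one, pow_one] at *

theorem green_sq_far (hd : 5 ≤ d) : ∃ C : ℕ, ∀ k : ℕ, 1 ≤ k →
    ∑' x : Zd d, (if x ∈ nb 0 (k ^ 2) then 0 else gT 0 x ^ 2) ≤ C / (k : ℝ≥0∞) := by
  obtain ⟨C, hC, hm⟩ := hk_five_halves hd
  refine ⟨⌈8 * C⌉₊, fun k hkk => ?_⟩
  have h1 : ∀ x : Zd d, (if x ∈ nb 0 (k ^ 2) then 0 else gT 0 x ^ 2) ≤
      gT (k ^ 2) (x - 0) * gT (k ^ 2) (x - 0) := by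
    intro x
    rw [sub_zero]
    split_ifs with hx
    · exact zero_le
    · rw [mem_nb] at hx
      push Not at hx
      obtain ⟨i, hi⟩ := hx
      have h0 : ∀ n < k ^ 2, hk n x = 0 := by
        intro n hn
        apply hk_eq_zero
        have h1 : |x i| ≤ ∑ j, |x j| :=
          Finset.single_le_sum (f := fun j => |x j|) (fun j _ => abs_nonneg _)
            (Finset.mem_univ i)
        rw [Pi.zero_apply, sub_zero] at hi
        have h2 : (n : ℤ) < (k ^ 2 : ℕ) := by exact_mod_cast hn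
        linarith
      have hshift : gT 0 x = gT (k ^ 2) x := by
        unfold gT
        simp only [add_zero]
        rw [← ENNReal.summable.sum_add_tsum_nat_add' (f := fun n => ENNReal.ofReal (hk n x))
          (k := k ^ 2)]
        rw [Finset.sum_eq_zero, zero_add]
        intro n hn
        rw [h0 n (Finset.mem_range.mp hn), ENNReal.ofReal_zero]
      rw [hshift, sq]
  refine (ENNReal.tsum_le_tsum h1).trans ?_
  rw [conv_gT]
  have e1 : ∀ n : ℕ, ((n + 1 : ℕ) : ℝ≥0∞) * ENNReal.ofReal (hk (n + (k ^ 2 + k ^ 2)) (0 - 0 : Zd d)) =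
      ENNReal.ofReal (((n : ℝ) + 1) * hk (n + (k ^ 2 + k ^ 2)) (0 - 0 : Zd d)) := by
    intro n
    rw [ENNReal.ofReal_mul (by positivity)]
    congr 1
    rw [← ENNReal.ofReal_natCast]
    push_cast
    rfl
  rw [tsum_congr e1]
  have hb := tsum_bound k hkk (2 * C) (by positivity)
    (fun n => ((n : ℝ) + 1) * hk (n + (k ^ 2 + k ^ 2)) (0 - 0 : Zd d)) (by
      intro n
      have hk1 : 1 ≤ k ^ 2 := Nat.one_le_pow _ _ hkk
      have h5 : ((n : ℝ) + 1) ≤ 2 * ((n + (k ^ 2 + k ^ 2) : ℕ) : ℝ) := by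
        have : n + 1 ≤ 2 * (n + (k ^ 2 + k ^ 2)) := by omega
        exact_mod_cast this
      exact weighted_bound hC hm k n (n + (k ^ 2 + k ^ 2)) hkk _ h5 h5 n (by omega))
  refine hb.trans ?_
  have e : 2 * C * (4 / (k : ℝ)) = 8 * C / (k : ℝ) ^ 1 := by
    rw [pow_one]; ring
  rw [e]
  have := ofReal_div_pow_le (8 * C) k 1 hkk
  rwa [pow_one, pow_one] at *

end Pool.Agent.H39.LP
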