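import Pool.Agent.H39.LP.SparseSum
import Pool.Agent.H39.LP.HKc

/-!
# Module NC: with positive probability two walks meet only at the origin

Let `e = (0, true)`, `e' = (0, false)`, `K = k^2`, `p = K • sv e`, `p' = K • sv e' = -p`. Let `E` be the set of the
pairs `(ω, ω')` such that the first `K` steps of `ω` are `e` and those of `ω'` are `e'`, and the walks
`W = pos p (shift K ω)`, `W' = pos p' (shift K ω')` satisfy: no common point of `W` and `W'`; `W` does not visit
the points `j • sv e'`, `0 ≤ j ≤ K`; `W'` does not visit the points `j • sv e`, `0 ≤ j ≤ K`. On `E` the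
only common point of the two walks is `0` (times `≥ K` and `≥ K`: excluded; `≥ K` and `< K`: excluded; `< K` and
`< K`: `j • sv e = j' • sv e'` only for `j = j' = 0`).

`Pr × Pr (E) ≥ (2d)^(-2K) (1 - ∑' x, gT 0 (x - p) gT 0 (x - p') - ∑_{j ≤ K} gT 0 (j • sv e' - p) - ∑_{j ≤ K} gT 0 (j • sv e - p'))`
by `lintegral_split K` twice, and by `green_pair` (with `k`, `|p 0 - p' 0| = 2 K ≥ k^2`) and `green_far`
(`|(j • sv e') 0 - p 0| = K + j ≥ k^2`) this is `≥ (2d)^(-2K) (1 - C / k - 2 (k^2 + 1) C / k^5) > 0` for `k`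
large.
-/

open MeasureTheory ProbabilityTheory Filter
open scoped ENNReal
open Pool.Agent.H39.LW

namespace Pool.Agent.H39.LP

variable {d : ℕ}

/-- the first `K` steps are `e` -/
def firstK (K : ℕ) (e : Step d) : Set (Om d) := {ω | ∀ i < K, ω i = e}

lemma firstK_eq (K : ℕ) (e : Step d) :
    firstK K e = ((Finset.range K : Finset ℕ) : Set ℕ).pi fun _ => {e} := by
  ext ω
  simp [firstK, Set.mem_pi]

lemma measurable_firstK (K : ℕ) (e : Step d) : MeasurableSet (firstK K e) := by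
  rw [firstK_eq]
  exact MeasurableSet.pi (Set.to_countable _) fun _ _ => measurableSet_singleton _

lemma pos_firstK {K : ℕ} {e : Step d} {ω : Om d} (h : ω ∈ firstK K e) {i : ℕ} (hi : i ≤ K) :
    pos 0 ω i = i • sv e := by
  unfold pos
  rw [zero_add, Finset.sum_congr rfl fun m hm => by
    rw [h m (lt_of_lt_of_le (Finset.mem_range.1 hm) hi)], Finset.sum_const, Finset.card_range]

/-- the bad event for the two walks after time `K` -/
def Gb (K : ℕ) (e e' : Step d) (p p' : Zd d) (η η' : Om d) : Prop :=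
  (∃ i j, pos p' η' j = pos p η i) ∨ (∃ i, ∃ j ∈ Finset.range (K + 1), pos p η i = (j : ℕ) • sv e') ∨
    (∃ i, ∃ j ∈ Finset.range (K + 1), pos p' η' i = (j : ℕ) • sv e)

lemma det_bad (K : ℕ) (c : Fin d) {ω ω' : Om d} (h : ω ∈ firstK K (c, true))
    (h' : ω' ∈ firstK K (c, false))
    (hb : ∃ y : Zd d, y ≠ 0 ∧ (∃ i, pos 0 ω i = y) ∧ ∃ j, pos 0 ω' j = y) :
    Gb K (c, true) (c, false) (K • sv (c, true)) (K • sv (c, false)) (shift K ω) (shift K ω') := by
  obtain ⟨y, hy, ⟨i, hi⟩, ⟨j, hj⟩⟩ := hb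
  have e1 : ∀ n, pos (K • sv (c, true)) (shift K ω) n = pos 0 ω (K + n) := by
    intro n
    rw [← pos_firstK h le_rfl, pos_shift]
  have e2 : ∀ n, pos (K • sv (c, false)) (shift K ω') n = pos 0 ω' (K + n) := by
    intro n
    rw [← pos_firstK h' le_rfl, pos_shift]
  unfold Gb
  simp only [e1, e2]
  rcases le_or_gt K i with hKi | hKi
  · obtain ⟨i', rfl⟩ := Nat.exists_eq_add_of_le hKi
    rcases le_or_gt K j with hKj | hKj
    · obtain ⟨j', rfl⟩ := Nat.exists_eq_add_of_le hKj
      exact Or.inl ⟨i', j', by rw [hi, hj]⟩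
    · refine Or.inr (Or.inl ⟨i', j, Finset.mem_range.2 (by omega), ?_⟩)
      rw [hi, ← hj, pos_firstK h' hKj.le]
  · rcases le_or_gt K j with hKj | hKj
    · obtain ⟨j', rfl⟩ := Nat.exists_eq_add_of_le hKj
      refine Or.inr (Or.inr ⟨j', i, Finset.mem_range.2 (by omega), ?_⟩)
      rw [hj, ← hi, pos_firstK h hKi.le]
    · exfalso
      rw [pos_firstK h hKi.le] at hi
      rw [pos_firstK h' hKj.le] at hj
      have h0 : (i • sv (c, true) : Zd d) c = (j • sv (c, false) : Zd d) c := by rw [hi, hj]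
      simp only [sv, Pi.smul_apply, Pi.single_eq_same, if_true, Bool.false_eq_true, if_false,
        nsmul_eq_mul] at h0
      have hi0 : i = 0 := by omega
      apply hy
      rw [← hi, hi0, zero_smul]

variable [NeZero d]

lemma prob_firstK (K : ℕ) (e : Step d) : Pr d (firstK K e) = (1 / (2 * d : ℝ≥0∞)) ^ K := by
  rw [firstK_eq, Pr, Measure.infinitePi_pi _ fun _ _ => measurableSet_singleton _]
  rw [Finset.prod_congr rfl fun _ _ => stepLaw_singleton e]
  simp

lemma firstK_split (K : ℕ) (e : Step d) {g : Om d → ℝ≥0∞} (hg : Measurable g) :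
    ∫⁻ ω, (firstK K e).indicator (fun ω => g (shift K ω)) ω ∂Pr d
      = Pr d (firstK K e) * ∫⁻ ω, g ω ∂Pr d := by
  classical
  have h1 : ∀ ω : Om d, (firstK K e).indicator (fun ω => g (shift K ω)) ω
      = (firstK K e).indicator (1 : Om d → ℝ≥0∞) ω * g (shift K ω) := by
    intro ω
    by_cases h : ω ∈ firstK K e
    · rw [Set.indicator_of_mem h, Set.indicator_of_mem h]
      simp
    · rw [Set.indicator_of_notMem h, Set.indicator_of_notMem h, zero_mul]
  simp only [h1]
  rw [lintegral_split (d := d) K (Φ := fun ω η => (firstK K e).indicator (1 : Om d → ℝ≥0∞) ω * g η)]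
  · have h2 : ∀ ω : Om d, ∫⁻ η, (firstK K e).indicator (1 : Om d → ℝ≥0∞) ω * g η ∂Pr d
        = (firstK K e).indicator (1 : Om d → ℝ≥0∞) ω * ∫⁻ η, g η ∂Pr d := by
      intro ω
      exact lintegral_const_mul _ hg
    simp only [h2]
    rw [lintegral_mul_const _ (measurable_one.indicator (measurable_firstK K e)),
      lintegral_indicator_one (measurable_firstK K e)]
  · intro ω ω' ω₂ h
    congr 1
    have h3 : ω ∈ firstK K e ↔ ω' ∈ firstK K e := by
      unfold firstK
      simp only [Set.mem_ofPred_eq]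
      refine forall_congr' fun i => forall_congr' fun hi => ?_
      rw [h i hi]
    by_cases h4 : ω ∈ firstK K e
    · rw [Set.indicator_of_mem h4, Set.indicator_of_mem (h3.1 h4)]
      rfl
    · rw [Set.indicator_of_notMem h4, Set.indicator_of_notMem (fun h5 => h4 (h3.2 h5))]
  · intro ω
    exact hg.const_mul _

lemma firstK_prob_split (K : ℕ) (e : Step d) {S : Set (Om d)} (hS : MeasurableSet S) :
    Pr d {ω | ω ∈ firstK K e ∧ shift K ω ∈ S} = Pr d (firstK K e) * Pr d S := by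
  have h1 := firstK_split K e (measurable_one.indicator hS : Measurable (S.indicator (1 : Om d → ℝ≥0∞)))
  rw [lintegral_indicator_one hS] at h1
  rw [← h1]
  have hm : MeasurableSet {ω : Om d | ω ∈ firstK K e ∧ shift K ω ∈ S} :=
    (measurable_firstK K e).inter (measurable_shift K hS)
  rw [← lintegral_indicator_one hm]
  refine lintegral_congr fun ω => ?_
  by_cases h : ω ∈ firstK K e
  · rw [Set.indicator_of_mem h]
    by_cases h2 : shift K ω ∈ S
    · rw [Set.indicator_of_mem (show ω ∈ {ω : Om d | ω ∈ firstK K e ∧ shift K ω ∈ S} from ⟨h, h2⟩),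
        Set.indicator_of_mem h2]
      rfl
    · rw [Set.indicator_of_notMem (fun h3 => h2 h3.2), Set.indicator_of_notMem h2]
  · rw [Set.indicator_of_notMem h, Set.indicator_of_notMem (fun h3 => h h3.1)]

lemma lintegral_pos (p : Zd d) (n : ℕ) (F : Zd d → ℝ≥0∞) :
    ∫⁻ ω, F (pos p ω n) ∂Pr d = ∑' x, F x * ENNReal.ofReal (hk n (x - p)) := by
  rw [← lintegral_map (f := F) (measurable_of_countable F) (measurable_pos p n), lintegral_countable']
  refine tsum_congr fun x => ?_
  rw [Measure.map_apply (measurable_pos p n) (measurableSet_singleton x), ← prob_pos]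
  rfl

open Classical in
/-- bound for the conditional probability of the bad event -/
noncomputable def bb (K : ℕ) (e e' : Step d) (p p' : Zd d) (η : Om d) : ℝ≥0∞ :=
  ∑' i, gT 0 (pos p η i - p') +
    (∑ j ∈ Finset.range (K + 1), ∑' i, (if pos p η i = (j : ℕ) • sv e' then 1 else 0) +
      ∑ j ∈ Finset.range (K + 1), gT 0 ((j : ℕ) • sv e - p'))

omit [NeZero d] in
lemma measurable_bb (K : ℕ) (e e' : Step d) (p p' : Zd d) : Measurable (bb K e e' p p') := by
  classical
  unfold bb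
  refine Measurable.add ?_ (Measurable.add ?_ measurable_const)
  · refine Measurable.tsum fun i => ?_
    exact (measurable_of_countable fun x : Zd d => gT 0 (x - p')).comp (measurable_pos p i)
  · refine Finset.measurable_sum _ fun j _ => Measurable.tsum fun i => ?_
    exact (measurable_of_countable fun x : Zd d => if x = (j : ℕ) • sv e' then (1 : ℝ≥0∞) else 0).comp
      (measurable_pos p i)

lemma prob_Gb (K : ℕ) (e e' : Step d) (p p' : Zd d) (η : Om d) :
    Pr d {η' | Gb K e e' p p' η η'} ≤ bb K e e' p p' η := by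
  classical
  have hsub : {η' : Om d | Gb K e e' p p' η η'} ⊆
      (⋃ i, ⋃ j, {η' | pos p' η' j = pos p η i}) ∪
        ((⋃ j ∈ Finset.range (K + 1), ⋃ i, {_η' | pos p η i = (j : ℕ) • sv e'}) ∪
          (⋃ j ∈ Finset.range (K + 1), ⋃ i, {η' | pos p' η' i = (j : ℕ) • sv e})) := by
    intro η' hη'
    rcases hη' with ⟨i, j, h⟩ | ⟨i, j, hj, h⟩ | ⟨i, j, hj, h⟩
    · exact Or.inl (Set.mem_iUnion.2 ⟨i, Set.mem_iUnion.2 ⟨j, h⟩⟩)
    · exact Or.inr (Or.inl (Set.mem_iUnion₂.2 ⟨j, hj, Set.mem_iUnion.2 ⟨i, h⟩⟩))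
    · exact Or.inr (Or.inr (Set.mem_iUnion₂.2 ⟨j, hj, Set.mem_iUnion.2 ⟨i, h⟩⟩))
  refine (measure_mono hsub).trans ((measure_union_le _ _).trans ?_)
  unfold bb
  refine add_le_add ?_ ((measure_union_le _ _).trans (add_le_add ?_ ?_))
  · refine (measure_iUnion_le _).trans (ENNReal.tsum_le_tsum fun i => ?_)
    refine (measure_iUnion_le _).trans ?_
    unfold gT
    refine ENNReal.tsum_le_tsum fun j => ?_
    rw [prob_pos, add_zero]
  · refine (measure_biUnion_finset_le _ _).trans (Finset.sum_le_sum fun j _ => ?_)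
    refine (measure_iUnion_le _).trans (ENNReal.tsum_le_tsum fun i => ?_)
    split_ifs with h
    · exact prob_le_one
    · refine le_of_eq ?_
      rw [Set.eq_empty_of_forall_notMem (s := {_η' : Om d | pos p η i = (j : ℕ) • sv e'})
        fun _ h' => h h', measure_empty]
  · refine (measure_biUnion_finset_le _ _).trans (Finset.sum_le_sum fun j _ => ?_)
    refine (measure_iUnion_le _).trans ?_
    unfold gT
    refine ENNReal.tsum_le_tsum fun i => ?_
    rw [prob_pos, add_zero]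

lemma lintegral_bb (K : ℕ) (e e' : Step d) (p p' : Zd d) :
    ∫⁻ η, bb K e e' p p' η ∂Pr d ≤ ∑' x, gT 0 (x - p) * gT 0 (x - p') +
      (∑ j ∈ Finset.range (K + 1), gT 0 ((j : ℕ) • sv e' - p) +
        ∑ j ∈ Finset.range (K + 1), gT 0 ((j : ℕ) • sv e - p')) := by
  classical
  unfold bb
  have hm1 : ∀ i, Measurable fun η : Om d => gT 0 (pos p η i - p') := fun i =>
    (measurable_of_countable fun x : Zd d => gT 0 (x - p')).comp (measurable_pos p i)
  have hm2 : ∀ (j i : ℕ), Measurable fun η : Om d =>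
      (if pos p η i = (j : ℕ) • sv e' then (1 : ℝ≥0∞) else 0) := fun j i =>
    (measurable_of_countable fun x : Zd d => if x = (j : ℕ) • sv e' then (1 : ℝ≥0∞) else 0).comp
      (measurable_pos p i)
  rw [lintegral_add_left (Measurable.tsum hm1), lintegral_add_right _ measurable_const,
    lintegral_const, measure_univ, mul_one]
  refine add_le_add ?_ (add_le_add ?_ le_rfl)
  · rw [lintegral_tsum fun i => (hm1 i).aemeasurable]
    have h1 : ∀ i, ∫⁻ η, gT 0 (pos p η i - p') ∂Pr d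
        = ∑' x, gT 0 (x - p') * ENNReal.ofReal (hk i (x - p)) := fun i =>
      lintegral_pos p i fun x => gT 0 (x - p')
    simp only [h1]
    rw [ENNReal.tsum_comm]
    refine le_of_eq (tsum_congr fun x => ?_)
    rw [ENNReal.tsum_mul_left, mul_comm]
    congr 1
  · rw [lintegral_finsetSum _ fun j _ => Measurable.tsum (hm2 j)]
    refine Finset.sum_le_sum fun j _ => ?_
    rw [lintegral_tsum fun i => (hm2 j i).aemeasurable]
    unfold gT
    refine ENNReal.tsum_le_tsum fun i => ?_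
    rw [add_zero, ← prob_pos]
    have h2 : ∀ η : Om d, (if pos p η i = (j : ℕ) • sv e' then (1 : ℝ≥0∞) else 0)
        = {η : Om d | pos p η i = (j : ℕ) • sv e'}.indicator 1 η := by
      intro η
      by_cases h : pos p η i = (j : ℕ) • sv e'
      · rw [if_pos h, Set.indicator_of_mem (show η ∈ {η : Om d | pos p η i = (j : ℕ) • sv e'} from h)]
        rfl
      · rw [if_neg h, Set.indicator_of_notMem
          (show η ∉ {η : Om d | pos p η i = (j : ℕ) • sv e'} from h)]
    have h3 : MeasurableSet {η : Om d | pos p η i = (j : ℕ) • sv e'} :=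
      measurable_pos p i (measurableSet_singleton _)
    simp only [h2]
    rw [lintegral_indicator_one h3]

lemma small_sum (hd : 5 ≤ d) : ∃ k : ℕ, 1 ≤ k ∧ ∀ c : Fin d,
    ∑' x : Zd d, gT 0 (x - (k ^ 2) • sv (c, true)) * gT 0 (x - (k ^ 2) • sv (c, false)) +
      (∑ j ∈ Finset.range (k ^ 2 + 1), gT 0 ((j : ℕ) • sv (c, false) - (k ^ 2) • sv (c, true)) +
        ∑ j ∈ Finset.range (k ^ 2 + 1), gT 0 ((j : ℕ) • sv (c, true) - (k ^ 2) • sv (c, false)))
      < 1 := by
  obtain ⟨C1, h1⟩ := green_pair (d := d) hd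
  obtain ⟨C2, h2⟩ := green_far (d := d) hd
  set k : ℕ := C1 + 4 * C2 + 1 with hk
  have hk1 : 1 ≤ k := by omega
  refine ⟨k, hk1, fun c => ?_⟩
  have hk0 : (k : ℝ≥0∞) ≠ 0 := by exact_mod_cast (by omega : k ≠ 0)
  have hkt : (k : ℝ≥0∞) ≠ ⊤ := ENNReal.natCast_ne_top k
  have s1 : ∀ m : ℕ, (m • sv (c, true) : Zd d) c = m := by
    intro m
    simp [sv]
  have s2 : ∀ m : ℕ, (m • sv (c, false) : Zd d) c = -m := by
    intro m
    simp [sv]
  have hA := h1 k hk1 ((k ^ 2) • sv (c, true)) ((k ^ 2) • sv (c, false)) ⟨c, by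
    rw [s1, s2]
    push_cast
    have : (0 : ℤ) ≤ (k : ℤ) ^ 2 := by positivity
    rw [abs_of_nonneg (by linarith)]
    linarith⟩
  have hnum : ∀ j : ℕ, ∀ G : ℝ≥0∞, G ≤ C2 / (k : ℝ≥0∞) ^ 5 → G ≤ C2 / (k : ℝ≥0∞) ^ 5 := fun _ _ h => h
  have hsum : ∀ G : ℕ → ℝ≥0∞, (∀ j, G j ≤ C2 / (k : ℝ≥0∞) ^ 5) →
      ∑ j ∈ Finset.range (k ^ 2 + 1), G j ≤ 2 * C2 / (k : ℝ≥0∞) := by
    intro G hG
    refine (Finset.sum_le_card_nsmul _ _ _ fun j _ => hG j).trans ?_
    rw [Finset.card_range, nsmul_eq_mul]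
    have h3 : ((k ^ 2 + 1 : ℕ) : ℝ≥0∞) ≤ 2 * (k : ℝ≥0∞) ^ 4 := by
      have h4 : k ^ 2 + 1 ≤ 2 * k ^ 4 := by
        have h5 : 1 ≤ k ^ 2 := Nat.one_le_pow _ _ hk1
        nlinarith
      exact_mod_cast h4
    calc ((k ^ 2 + 1 : ℕ) : ℝ≥0∞) * (C2 / (k : ℝ≥0∞) ^ 5)
        ≤ 2 * (k : ℝ≥0∞) ^ 4 * (C2 / (k : ℝ≥0∞) ^ 5) := by gcongr
      _ = 2 * C2 / (k : ℝ≥0∞) := by
        have h6 : (k : ℝ≥0∞) ^ 5 = (k : ℝ≥0∞) ^ 4 * k := by ring
        rw [h6, div_eq_mul_inv, div_eq_mul_inv,
          ENNReal.mul_inv (Or.inl (pow_ne_zero _ hk0)) (Or.inl (ENNReal.pow_ne_top hkt))]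
        calc 2 * (k : ℝ≥0∞) ^ 4 * (C2 * (((k : ℝ≥0∞) ^ 4)⁻¹ * (k : ℝ≥0∞)⁻¹))
            = ((k : ℝ≥0∞) ^ 4 * ((k : ℝ≥0∞) ^ 4)⁻¹) * (2 * C2 * (k : ℝ≥0∞)⁻¹) := by ring
          _ = 2 * C2 * (k : ℝ≥0∞)⁻¹ := by
            rw [ENNReal.mul_inv_cancel (pow_ne_zero _ hk0) (ENNReal.pow_ne_top hkt), one_mul]
  have hB := hsum (fun j => gT 0 ((j : ℕ) • sv (c, false) - (k ^ 2) • sv (c, true) : Zd d)) fun j =>
    h2 k hk1 _ ⟨c, by
      rw [Pi.sub_apply, s1, s2]
      push_cast
      have h3 : (0 : ℤ) ≤ (k : ℤ) ^ 2 := by positivity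
      have h4 : (0 : ℤ) ≤ j := by positivity
      rw [abs_of_nonpos (by linarith)]
      linarith⟩
  have hC := hsum (fun j => gT 0 ((j : ℕ) • sv (c, true) - (k ^ 2) • sv (c, false) : Zd d)) fun j =>
    h2 k hk1 _ ⟨c, by
      rw [Pi.sub_apply, s1, s2]
      push_cast
      have h3 : (0 : ℤ) ≤ (k : ℤ) ^ 2 := by positivity
      have h4 : (0 : ℤ) ≤ j := by positivity
      rw [abs_of_nonneg (by linarith)]
      linarith⟩
  refine lt_of_le_of_lt (add_le_add hA (add_le_add hB hC)) ?_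
  rw [← ENNReal.add_div, ← ENNReal.add_div]
  rw [ENNReal.div_lt_iff (Or.inl hk0) (Or.inl hkt), one_mul]
  have : C1 + (2 * C2 + 2 * C2) < k := by omega
  exact_mod_cast this

theorem no_common (hd : 5 ≤ d) :
    ∫⁻ ω, Pr d {ω' : Om d | ∃ y : Zd d, y ≠ 0 ∧ (∃ i, pos 0 ω i = y) ∧ ∃ j, pos 0 ω' j = y} ∂Pr d
      < 1 := by
  classical
  obtain ⟨k, hk1, hsm⟩ := small_sum (d := d) hd
  set K := k ^ 2 with hK
  set c : Fin d := 0 with hc
  set e : Step d := (c, true) with he
  set e' : Step d := (c, false) with he'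
  set p : Zd d := K • sv e with hp
  set p' : Zd d := K • sv e' with hp'
  set q : ℝ≥0∞ := (1 / (2 * d : ℝ≥0∞)) ^ K with hq
  have hA : Pr d (firstK K e) = q := prob_firstK K e
  have hA' : Pr d (firstK K e') = q := prob_firstK K e'
  have hd0 : (d : ℝ≥0∞) ≠ 0 := by exact_mod_cast NeZero.ne d
  have hq0 : q ≠ 0 := by
    rw [hq]
    refine pow_ne_zero _ ?_
    rw [one_div]
    exact ENNReal.inv_ne_zero.2 (ENNReal.mul_ne_top (by norm_num) (ENNReal.natCast_ne_top d))
  have hq1 : q ≤ 1 := by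
    rw [← hA]
    exact prob_le_one
  have hqt : q ≠ ⊤ := ne_top_of_le_ne_top ENNReal.one_ne_top hq1
  set g : ℝ≥0∞ := ∫⁻ η, bb K e e' p p' η ∂Pr d with hg
  have hg1 : g < 1 := lt_of_le_of_lt (lintegral_bb K e e' p p') (hsm c)
  have hAc : Pr d (firstK K e)ᶜ = 1 - q := by
    rw [prob_compl_eq_one_sub (measurable_firstK K e), hA]
  have hAc' : Pr d (firstK K e')ᶜ = 1 - q := by
    rw [prob_compl_eq_one_sub (measurable_firstK K e'), hA']
  -- measurability of the bad event in the second walk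
  have hGm : ∀ η : Om d, MeasurableSet {η' : Om d | Gb K e e' p p' η η'} := by
    intro η
    have h1 : {η' : Om d | Gb K e e' p p' η η'} =
        (⋃ i, ⋃ j, {η' : Om d | pos p' η' j = pos p η i}) ∪
        ({_η' : Om d | ∃ i, ∃ j ∈ Finset.range (K + 1), pos p η i = (j : ℕ) • sv e'} ∪
          (⋃ i, ⋃ j ∈ Finset.range (K + 1), {η' | pos p' η' i = (j : ℕ) • sv e})) := by
      ext η'
      unfold Gb
      simp only [Set.mem_union, Set.mem_iUnion, Set.mem_ofPred_eq, exists_prop]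
    rw [h1]
    refine MeasurableSet.union ?_ (MeasurableSet.union (MeasurableSet.const _) ?_)
    · exact MeasurableSet.iUnion fun i => MeasurableSet.iUnion fun j =>
        measurable_pos p' j (measurableSet_singleton _)
    · exact MeasurableSet.iUnion fun i => Finset.measurableSet_biUnion _ fun j _ =>
        measurable_pos p' i (measurableSet_singleton _)
  -- the bound for the inner probability
  have hin : ∀ ω ∈ firstK K e,
      Pr d {ω' : Om d | ∃ y : Zd d, y ≠ 0 ∧ (∃ i, pos 0 ω i = y) ∧ ∃ j, pos 0 ω' j = y}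
        ≤ (1 - q) + q * bb K e e' p p' (shift K ω) := by
    intro ω hω
    have hsub : {ω' : Om d | ∃ y : Zd d, y ≠ 0 ∧ (∃ i, pos 0 ω i = y) ∧ ∃ j, pos 0 ω' j = y} ⊆
        (firstK K e')ᶜ ∪ {ω' | ω' ∈ firstK K e' ∧
          shift K ω' ∈ {η' : Om d | Gb K e e' p p' (shift K ω) η'}} := by
      intro ω' h
      by_cases h' : ω' ∈ firstK K e'
      · exact Or.inr ⟨h', det_bad K c hω h' h⟩
      · exact Or.inl h'
    refine (measure_mono hsub).trans ((measure_union_le _ _).trans ?_)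
    rw [firstK_prob_split K e' (hGm _), hAc', hA']
    gcongr
    exact prob_Gb K e e' p p' (shift K ω)
  have hout : ∀ ω : Om d,
      Pr d {ω' : Om d | ∃ y : Zd d, y ≠ 0 ∧ (∃ i, pos 0 ω i = y) ∧ ∃ j, pos 0 ω' j = y}
        ≤ (firstK K e)ᶜ.indicator 1 ω +
          (firstK K e).indicator (fun ω => (fun η => (1 - q) + q * bb K e e' p p' η) (shift K ω)) ω := by
    intro ω
    by_cases h : ω ∈ firstK K e
    · rw [Set.indicator_of_mem h]
      exact (hin ω h).trans le_add_self
    · rw [Set.indicator_of_mem (show ω ∈ (firstK K e)ᶜ from h)]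
      exact prob_le_one.trans le_self_add
  have hm := measurable_bb K e e' p p'
  have hm2 : Measurable fun η => (1 - q) + q * bb K e e' p p' η :=
    measurable_const.add (hm.const_mul q)
  refine lt_of_le_of_lt (lintegral_mono hout) ?_
  rw [lintegral_add_left (measurable_one.indicator (measurable_firstK K e).compl),
    lintegral_indicator_one (measurable_firstK K e).compl,
    firstK_split K e hm2, hAc, hA,
    lintegral_add_left measurable_const, lintegral_const_mul _ hm, lintegral_const, measure_univ,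
    mul_one, ← hg]
  have hfin : (1 - q) ≠ ⊤ := ne_top_of_le_ne_top ENNReal.one_ne_top tsub_le_self
  calc (1 - q) + q * ((1 - q) + q * g) < (1 - q) + q * ((1 - q) + q * 1) := by
        refine ENNReal.add_lt_add_left hfin ?_
        refine ENNReal.mul_lt_mul_right hq0 hqt ?_
        refine ENNReal.add_lt_add_left hfin ?_
        exact ENNReal.mul_lt_mul_right hq0 hqt hg1
    _ = 1 := by
      rw [mul_one, tsub_add_cancel_of_le hq1, mul_one, tsub_add_cancel_of_le hq1]

end Pool.Agent.H39.LP
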