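import Pool.Agent.H39.LP.Base
import Pool.Agent.H39.LW.Edges
import Pool.Agent.H39.LW.HKUpper

/-!
# Module EI2: two independent copies

* `lerw_prod_le`: `(lerwLaw d).prod (lerwLaw d) S ≤ ∫⁻ ω, Pr d {ω' | (loopErase (pos 0 ω), loopErase (pos 0 ω')) ∈ S} ∂Pr d`
  for measurable `S` (equality): `aemeasurable_loopErase`, `Measure.map_prod_map` for the measurable
  version, `Measure.prod_apply`. `{p | n < (edges p.1 ∩ edges p.2).encard}` is measurable (see `not_eit_of`).
-/

open MeasureTheory ProbabilityTheory Filter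
open scoped ENNReal
open Pool.Agent.H39.LW

namespace Pool.Agent.H39.LP

variable {d : ℕ} [NeZero d]

theorem lerw_prod_le (hd : 5 ≤ d) (S : Set ((ℕ → Zd d) × (ℕ → Zd d))) (hS : MeasurableSet S) :
    ((lerwLaw d).prod (lerwLaw d)) S
      ≤ ∫⁻ ω, Pr d {ω' | (loopErase (pos 0 ω), loopErase (pos 0 ω')) ∈ S} ∂Pr d := by
  have hf : AEMeasurable (fun ω : Om d => loopErase (pos 0 ω)) (Pr d) :=
    aemeasurable_loopErase (summable_hk_zero (by omega : 3 ≤ d))
  have hg : Measurable (hf.mk _) := hf.measurable_mk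
  have hmap : lerwLaw d = (Pr d).map (hf.mk _) := Measure.map_congr hf.ae_eq_mk
  haveI : IsProbabilityMeasure ((Pr d).map (hf.mk _)) :=
    Measure.isProbabilityMeasure_map hg.aemeasurable
  rw [hmap, Measure.prod_apply hS, lintegral_map (measurable_measure_prodMk_left hS) hg]
  refine lintegral_mono_ae ?_
  filter_upwards [hf.ae_eq_mk] with ω hω
  rw [Measure.map_apply hg (measurable_prodMk_left hS)]
  refine measure_mono_ae ?_
  filter_upwards [hf.ae_eq_mk] with ω' hω' h
  change (loopErase (pos 0 ω), loopErase (pos 0 ω')) ∈ S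
  have h' : (hf.mk _ ω, hf.mk _ ω') ∈ S := h
  rw [← hω, ← hω'] at h'
  exact h'

end Pool.Agent.H39.LP
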