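import Pool.Agent.H39.LP.InfTail
import Pool.Agent.H39.LP.NoCommon
import Pool.Agent.H39.LP.EdgeVert
import Pool.Agent.H39.LP.ProdLaw
import Pool.Agent.H39.LW.NotEIT

/-!
# Module EI3: exponential intersection tails

* `eit`: with `p₀ = ` the left side of `no_common` `< 1` and `vertex_tail`:
  `P n := (lerwLaw × lerwLaw) {n < encard} ≤ min (p₀) (C β^n)`. Choose `n₀` with `C β^(n/2) < 1` for `n ≥ n₀`
  and `θ < 1` with `θ ≥ sqrt β`, `θ^(n₀) > p₀`: for `n < n₀`, `P n ≤ p₀ < θ^(n₀) ≤ θ^n`; for `n ≥ n₀`,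
  `P n ≤ C β^n < β^(n/2) ≤ θ^n`.
-/

open MeasureTheory ProbabilityTheory Filter
open scoped ENNReal
open Pool.Agent.H39.LW

namespace Pool.Agent.H39.LP

variable {d : ℕ} [NeZero d]

namespace EI3

omit [NeZero d] in
/-- the set of the pairs of paths with more than `n` common edges is measurable -/
lemma measurableSet_encard (n : ℕ) : MeasurableSet {p : (ℕ → Zd d) × (ℕ → Zd d) |
    (n : ℕ∞) < (edges p.1 ∩ edges p.2).encard} := by
  have hm : Measurable fun p : (ℕ → Zd d) × (ℕ → Zd d) =>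
      ((edges p.1 ∩ edges p.2).encard : ℝ≥0∞) := by
    have h2 : (fun p : (ℕ → Zd d) × (ℕ → Zd d) => ((edges p.1 ∩ edges p.2).encard : ℝ≥0∞))
        = fun p => ∑' ε : Sym2 (Zd d), ({γ : ℕ → Zd d | ε ∈ edges γ} ×ˢ
          {γ : ℕ → Zd d | ε ∈ edges γ}).indicator (fun _ => (1 : ℝ≥0∞)) p := by
      funext p
      exact encard_eq_tsum p.1 p.2
    rw [h2]
    exact Measurable.ennreal_tsum fun ε => measurable_edge_indicator ε
  have h2 : {p : (ℕ → Zd d) × (ℕ → Zd d) | (n : ℕ∞) < (edges p.1 ∩ edges p.2).encard}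
      = {p | ((n : ℕ∞) : ℝ≥0∞) < ((edges p.1 ∩ edges p.2).encard : ℝ≥0∞)} := by
    ext p
    exact ENat.toENNReal_lt.symm
  rw [h2]
  exact measurableSet_lt measurable_const hm

/-- numerical choice of the base -/
lemma choice {P : ℕ → ℝ≥0∞} {p₀ : ℝ≥0∞} (hp : p₀ < 1) {β C : ℝ} (hβ0 : 0 < β) (hβ1 : β < 1)
    (h1 : ∀ n, P n ≤ p₀) (h2 : ∀ n, P n ≤ ENNReal.ofReal (C * β ^ n)) :
    ∃ θ : ℝ, 0 < θ ∧ θ < 1 ∧ ∀ n : ℕ, P n < ENNReal.ofReal (θ ^ n) := by
  set γ : ℝ := Real.sqrt β with hγ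
  have hγ0 : 0 < γ := Real.sqrt_pos.2 hβ0
  have hγ1 : γ < 1 := by
    rw [hγ, Real.sqrt_lt' one_pos]
    simpa using hβ1
  have hγγ : γ * γ = β := Real.mul_self_sqrt hβ0.le
  set C' : ℝ := max C 1 with hC'
  have hC'1 : 1 ≤ C' := le_max_right _ _
  have ht : Tendsto (fun n : ℕ => C' * γ ^ n) atTop (nhds 0) := by
    have := (tendsto_pow_atTop_nhds_zero_of_lt_one hγ0.le hγ1).const_mul C'
    simpa using this
  obtain ⟨n₀, hn₀⟩ := (ht.eventually (gt_mem_nhds zero_lt_one)).exists_forall_of_atTop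
  have hpt : p₀ ≠ ⊤ := ne_top_of_lt hp
  have hp1 : p₀.toReal < 1 := by
    rw [← ENNReal.toReal_one]
    exact (ENNReal.toReal_lt_toReal hpt ENNReal.one_ne_top).2 hp
  have hc : Tendsto (fun θ : ℝ => θ ^ n₀) (nhds 1) (nhds (1 ^ n₀)) :=
    (continuous_pow n₀).tendsto 1
  rw [one_pow] at hc
  have e1 : ∀ᶠ θ in nhdsWithin (1 : ℝ) (Set.Iio 1), p₀.toReal < θ ^ n₀ :=
    (hc.mono_left nhdsWithin_le_nhds).eventually (lt_mem_nhds hp1)
  have e2 : ∀ᶠ θ in nhdsWithin (1 : ℝ) (Set.Iio 1), γ < θ :=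
    (eventually_nhdsWithin_of_eventually_nhds (lt_mem_nhds hγ1))
  have e3 : ∀ᶠ θ in nhdsWithin (1 : ℝ) (Set.Iio 1), θ < 1 := self_mem_nhdsWithin
  obtain ⟨θ, ⟨hθ1, hθ2⟩, hθ3⟩ := ((e1.and e2).and e3).exists
  have hθ0 : 0 < θ := hγ0.trans hθ2
  refine ⟨θ, hθ0, hθ3, fun n => ?_⟩
  by_cases hn : n₀ ≤ n
  · refine (h2 n).trans_lt ?_
    refine (ENNReal.ofReal_lt_ofReal_iff (pow_pos hθ0 n)).2 ?_
    calc C * β ^ n ≤ C' * β ^ n := by
          gcongr
          exact le_max_left _ _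
      _ = (C' * γ ^ n) * γ ^ n := by
          rw [← hγγ, mul_pow]
          ring
      _ < 1 * γ ^ n := by
          have := hn₀ n hn
          have h3 : 0 < γ ^ n := pow_pos hγ0 n
          exact mul_lt_mul_of_pos_right this h3
      _ = γ ^ n := one_mul _
      _ ≤ θ ^ n := pow_le_pow_left₀ hγ0.le hθ2.le n
  · refine (h1 n).trans_lt ?_
    rw [← ENNReal.ofReal_toReal hpt]
    refine (ENNReal.ofReal_lt_ofReal_iff (pow_pos hθ0 n)).2 ?_
    exact hθ1.trans_le (pow_le_pow_of_le_one hθ0.le hθ3.le (by omega))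

end EI3

open EI3

theorem eit (hd : 5 ≤ d) : HasEIT (lerwLaw d) := by
  obtain ⟨β, C, hβ0, hβ1, hv⟩ := vertex_tail (d := d) hd
  have hs : Summable fun m => hk m (0 : Zd d) := summable_hk_zero (by omega)
  have htr := ae_transient (fun y => summable_hk hs y) (0 : Zd d)
  refine choice (C := C) (no_common (d := d) hd) hβ0 hβ1 (fun n => ?_) (fun n => ?_)
  · refine (lerw_prod_le hd _ (measurableSet_encard n)).trans (lintegral_mono_ae ?_)
    filter_upwards [htr] with ω hω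
    refine measure_mono_ae ?_
    filter_upwards [htr] with ω' hω' h
    refine edges_common hω hω' ?_
    have h' : (n : ℕ∞) < (edges (loopErase (pos 0 ω)) ∩ edges (loopErase (pos 0 ω'))).encard := h
    exact Set.encard_pos.1 (lt_of_le_of_lt bot_le h')
  · refine (lerw_prod_le hd _ (measurableSet_encard n)).trans ((lintegral_mono_ae ?_).trans (hv n))
    filter_upwards [htr] with ω hω
    refine measure_mono_ae ?_
    filter_upwards [htr] with ω' hω' h
    have h' : (n : ℕ∞) < (edges (loopErase (pos 0 ω)) ∩ edges (loopErase (pos 0 ω'))).encard := h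
    exact h'.le.trans (edges_le hω hω')

end Pool.Agent.H39.LP
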