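import Pool.Agent.H39.LP.SparseSum

/-!
# Module ES: escape along a straight segment

`esc_straight`: if none of the points `z + j • sv e`, `1 ≤ j ≤ k`, is in `L`, then
`Esc z L ≥ (2d)^(-k) * (1 - ∑_{x ∈ L} gT 0 (x - v))`, `v = z + k • sv e`: the walk makes first `k` steps `e` and
from `v` it never visits `L` (times `≥ 0`). `lintegral_split k` with
`Φ ω ω₂ = 1{∀ i < k, ω i = e} * 1{∀ n, pos v ω₂ n ∉ L}`; the probability that the first `k` steps are `e` is
`(2d)^(-k)` (induction with `lintegral_cons`), `Pr {∀ n, pos v n ∉ L} = 1 - Pr {∃ n, 0 ≤ n ∧ pos v n ∈ L} ≥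
1 - ∑_{x ∈ L} gT 0 (x - v)` (`hit_le` with `T = 0`, `prob_compl_eq_one_sub`). If the first `k` steps are `e`
then `pos z ω j = z + j • sv e` for `j ≤ k`, and `pos z ω (k + n) = pos v (shift k ω) n` (`pos_shift`).
-/

open MeasureTheory ProbabilityTheory Filter
open scoped ENNReal
open Pool.Agent.H39.LW

namespace Pool.Agent.H39.LP

variable {d : ℕ} [NeZero d]

omit [NeZero d] in
lemma measurableSet_escape (z : Zd d) (L : List (Zd d)) (N : ℕ) :
    MeasurableSet {ω : Om d | ∀ n, N ≤ n → pos z ω n ∉ L} := by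
  have h : {ω : Om d | ∀ n, N ≤ n → pos z ω n ∉ L}
      = ⋂ n : ℕ, ⋂ _ : N ≤ n, (fun ω => pos z ω n) ⁻¹' {v | v ∉ L} := by
    ext ω
    simp
  rw [h]
  exact MeasurableSet.iInter fun n => MeasurableSet.iInter fun _ =>
    measurable_pos z n (Set.to_countable _).measurableSet

lemma esc_zero (z : Zd d) (L : List (Zd d)) :
    1 - ∑ x ∈ L.toFinset, gT 0 (x - z) ≤ Pr d {ω | ∀ n, 0 ≤ n → pos z ω n ∉ L} := by
  have h1 : Pr d {ω | ∃ n, 0 ≤ n ∧ pos z ω n ∈ L.toFinset} ≤ ∑ x ∈ L.toFinset, gT 0 (x - z) :=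
    hit_le 0 z L.toFinset
  rw [tsub_le_iff_right]
  have h2 : (1 : ℝ≥0∞) ≤ Pr d {ω | ∀ n, 0 ≤ n → pos z ω n ∉ L}
      + Pr d {ω | ∃ n, 0 ≤ n ∧ pos z ω n ∈ L.toFinset} := by
    rw [← (measure_univ : Pr d Set.univ = 1)]
    refine le_trans (measure_mono ?_) (measure_union_le _ _)
    intro ω _
    by_cases h : ∀ n, 0 ≤ n → pos z ω n ∉ L
    · exact Or.inl h
    · right
      push Not at h
      obtain ⟨n, hn, hnL⟩ := h
      exact ⟨n, hn, List.mem_toFinset.2 hnL⟩
  exact h2.trans (add_le_add_right h1 _)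

lemma esc_cons (z : Zd d) (L : List (Zd d)) (e : Step d) (h : z + sv e ∉ L) :
    (2 * d : ℝ≥0∞)⁻¹ * Esc (z + sv e) L ≤ Esc z L := by
  classical
  have hm := measurableSet_escape z L 1
  have h1 : Esc z L = ∫⁻ ω, {ω : Om d | ∀ n, 1 ≤ n → pos z ω n ∉ L}.indicator 1 ω ∂Pr d := by
    rw [lintegral_indicator_one hm, Esc]
  have hmeas : Measurable ({ω : Om d | ∀ n, 1 ≤ n → pos z ω n ∉ L}.indicator
      (1 : Om d → ℝ≥0∞)) := measurable_one.indicator hm
  rw [h1, lintegral_cons hmeas, div_eq_mul_inv, mul_comm]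
  refine mul_le_mul_left ?_ _
  refine le_trans ?_ (Finset.single_le_sum (f := fun e : Step d => ∫⁻ ω,
    {ω : Om d | ∀ n, 1 ≤ n → pos z ω n ∉ L}.indicator 1 (cons e ω) ∂Pr d)
    (fun _ _ => zero_le) (Finset.mem_univ e))
  rw [Esc, ← lintegral_indicator_one (measurableSet_escape (z + sv e) L 1)]
  refine lintegral_mono fun ω => ?_
  by_cases hω : ω ∈ {ω : Om d | ∀ n, 1 ≤ n → pos (z + sv e) ω n ∉ L}
  · have h2 : cons e ω ∈ {ω : Om d | ∀ n, 1 ≤ n → pos z ω n ∉ L} := by
      intro n hn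
      obtain ⟨m, rfl⟩ : ∃ m, n = m + 1 := ⟨n - 1, by omega⟩
      rw [pos_cons_succ]
      rcases Nat.eq_zero_or_pos m with rfl | hm0
      · rw [pos_zero]
        exact h
      · exact hω m hm0
    rw [Set.indicator_of_mem hω, Set.indicator_of_mem h2]
    simp
  · rw [Set.indicator_of_notMem hω]
    exact zero_le

theorem esc_straight (z : Zd d) (L : List (Zd d)) (e : Step d) (k : ℕ)
    (h : ∀ j, 1 ≤ j → j ≤ k → z + j • sv e ∉ L) :
    ((2 * d : ℝ≥0∞)⁻¹) ^ k * (1 - ∑ x ∈ L.toFinset, gT 0 (x - (z + k • sv e))) ≤ Esc z L := by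
  induction k generalizing z with
  | zero =>
    rw [pow_zero, one_mul, zero_smul, add_zero]
    refine (esc_zero z L).trans (measure_mono ?_)
    intro ω hω n _
    exact hω n (Nat.zero_le n)
  | succ k ih =>
    have h1 : z + sv e ∉ L := by
      have := h 1 le_rfl (by omega)
      rwa [one_smul] at this
    have h2 := ih (z + sv e) fun j hj hjk => by
      have := h (j + 1) (by omega) (by omega)
      rwa [add_smul, one_smul, add_comm (j • sv e), ← add_assoc] at this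
    have h3 : z + (k + 1) • sv e = z + sv e + k • sv e := by
      rw [add_smul, one_smul, add_comm (k • sv e), ← add_assoc]
    rw [h3, pow_succ', mul_assoc]
    exact (mul_le_mul_right h2 _).trans (esc_cons z L e h1)

end Pool.Agent.H39.LP
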