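import Pool.Agent.H39.LP.HKc
import Pool.Agent.H39.LP.CmDef

/-!
# Module IT2: common points far away

* `far_le`: `∫⁻ ω, Pr {ω' | ∃ y ∈ cm ω ω', y ∉ nb 0 (k^2)} ≤ ∑' y, (if y ∈ nb 0 (k^2) then 0 else hL y ^ 2) ≤ C / k`
  (`hL y ≤ ∑' n, ofReal (hk n y) = gT 0 y`: `hL_le`; `green_sq_far`).
-/

open MeasureTheory ProbabilityTheory Filter
open scoped ENNReal
open Pool.Agent.H39.LW

namespace Pool.Agent.H39.LP

variable {d : ℕ} [NeZero d]

lemma it2_hL_le (y : Zd d) : hL y ≤ gT 0 y := by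
  unfold gT
  exact hL_le y

open Classical in
/-- the contribution of the point `y` -/
noncomputable def it2F (k : ℕ) (y : Zd d) (ω : Om d) : ℝ≥0∞ :=
  if y ∈ nb (0 : Zd d) (k ^ 2) then 0 else {ω : Om d | InL (pos 0 ω) y}.indicator (fun _ => hL y) ω

lemma it2_meas (k : ℕ) (y : Zd d) : Measurable (it2F (d := d) k y) := by
  unfold it2F
  by_cases h : y ∈ nb (0 : Zd d) (k ^ 2)
  · simp only [if_pos h]
    exact measurable_const
  · simp only [if_neg h]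
    exact measurable_const.indicator (measurableSet_inL 0 y)

lemma it2_int (k : ℕ) (y : Zd d) : ∫⁻ ω, it2F k y ω ∂Pr d =
    if y ∈ nb (0 : Zd d) (k ^ 2) then 0 else hL y ^ 2 := by
  unfold it2F
  by_cases h : y ∈ nb (0 : Zd d) (k ^ 2)
  · simp only [if_pos h, lintegral_zero]
  · simp only [if_neg h]
    rw [lintegral_indicator_const (measurableSet_inL 0 y), sq]
    rfl

lemma it2_point (k : ℕ) (ω : Om d) :
    Pr d {ω' | ∃ y ∈ cm ω ω', y ∉ nb (0 : Zd d) (k ^ 2)} ≤ ∑' y, it2F k y ω := by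
  have h1 : {ω' : Om d | ∃ y ∈ cm ω ω', y ∉ nb (0 : Zd d) (k ^ 2)} ⊆
      ⋃ y : Zd d, {ω' | y ∈ cm ω ω' ∧ y ∉ nb (0 : Zd d) (k ^ 2)} := by
    rintro ω' ⟨y, h2, h3⟩
    exact Set.mem_iUnion.2 ⟨y, h2, h3⟩
  refine (measure_mono h1).trans ((measure_iUnion_le _).trans (ENNReal.tsum_le_tsum fun y => ?_))
  unfold it2F
  by_cases h : y ∈ nb (0 : Zd d) (k ^ 2)
  · rw [if_pos h]
    have : {ω' : Om d | y ∈ cm ω ω' ∧ y ∉ nb (0 : Zd d) (k ^ 2)} = ∅ := by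
      ext ω'
      simp [h]
    rw [this, measure_empty]
  · rw [if_neg h]
    by_cases h4 : InL (pos 0 ω) y
    · rw [Set.indicator_of_mem (show ω ∈ {ω : Om d | InL (pos 0 ω) y} from h4)]
      exact measure_mono fun ω' h5 => h5.1.2
    · have : {ω' : Om d | y ∈ cm ω ω' ∧ y ∉ nb (0 : Zd d) (k ^ 2)} = ∅ := by
        ext ω'
        simp only [cm, Set.mem_ofPred_eq, Set.mem_empty_iff_false, iff_false]
        rintro ⟨⟨h5, -⟩, -⟩
        exact h4 h5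
      rw [this, measure_empty]
      exact zero_le

theorem far_le (hd : 5 ≤ d) : ∃ C : ℕ, ∀ k : ℕ, 1 ≤ k →
    ∫⁻ ω, Pr d {ω' | ∃ y ∈ cm ω ω', y ∉ nb (0 : Zd d) (k ^ 2)} ∂Pr d ≤ C / (k : ℝ≥0∞) := by
  obtain ⟨C, hC⟩ := green_sq_far hd
  refine ⟨C, fun k hk => ?_⟩
  calc ∫⁻ ω, Pr d {ω' | ∃ y ∈ cm ω ω', y ∉ nb (0 : Zd d) (k ^ 2)} ∂Pr d
      ≤ ∫⁻ ω, ∑' y, it2F k y ω ∂Pr d := lintegral_mono fun ω => it2_point k ω
    _ = ∑' y : Zd d, (if y ∈ nb (0 : Zd d) (k ^ 2) then 0 else hL y ^ 2) := by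
        rw [lintegral_tsum fun y => (it2_meas k y).aemeasurable]
        exact tsum_congr fun y => it2_int k y
    _ ≤ ∑' y : Zd d, (if y ∈ nb (0 : Zd d) (k ^ 2) then 0 else gT 0 y ^ 2) := by
        refine ENNReal.tsum_le_tsum fun y => ?_
        by_cases h : y ∈ nb (0 : Zd d) (k ^ 2)
        · rw [if_pos h, if_pos h]
        · rw [if_neg h, if_neg h]
          exact pow_le_pow_left' (it2_hL_le y) 2
    _ ≤ C / (k : ℝ≥0∞) := hC k hk

end Pool.Agent.H39.LP
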