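import Pool.Agent.H39.LP.Gen
import Pool.Agent.H39.LP.Cover

/-!
# Module FT: exponential tail in finite volume

`γ = LEf V 0 ω`, `γ' = LEf V 0 ω'` (self-avoiding), `B = nb 0 R`, `N = (γ ∩ γ' ∩ B).card`. Note
`γ.toFinset ∩ (γ'.toFinset ∩ B)` and `γ'.toFinset ∩ (γ.toFinset ∩ B)` are both this set. By
`cover_card` one of the five sets of marked points has `5 * card ≥ N`; by `Fl_eq` (`before` and `Im` for
`γ.reverse`, `γ'.reverse` are as they are; `(γ.reverse).toFinset = γ.toFinset`) the corresponding product is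
`Fl = b ^ N (1 + s) ^ card`, and if `n ≤ N` then
`1 ≤ ((1+s) b^10)^card ≤ (1+s)^card b^(2N) = b^N Fl ≤ b^n Fl`. Hence
`1{n ≤ N} ≤ b^n * (sum of the five products)`, integrate over `ω` and `ω'` (for the first three integrate
first over `ω` with `A = γ' ∩ B` fixed; for the last two first over `ω'` with `A' = γ ∩ B` fixed;
`lintegral_lintegral_swap`/`lintegral_prod` — all functions of `(ω, ω')` are of the form
`F (LEf V 0 ω) (LEf V 0 ω')`, measurable since lists are countable: `measurable_comp_LEf`) and use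
`gen` and `A.card ≤ (2R+1)^d` (`card_nb`): `≤ b^n * (3 C + 2 C (1 + (2R+1)^d)) ≤ 7 C (2R+1)^d b^n`.
-/

open MeasureTheory ProbabilityTheory Filter
open scoped ENNReal
open Pool.Agent.H39.LW

namespace Pool.Agent.H39.LP

variable {d : ℕ}

private lemma one_le_of {b s : ℝ≥0∞} (hb : b ≤ 1) (hsb : 1 ≤ (1 + s) * b ^ 10) {n N c : ℕ}
    (hn : n ≤ N) (hc : N ≤ 5 * c) : 1 ≤ b ^ n * (b ^ N * (1 + s) ^ c) := by
  calc (1 : ℝ≥0∞) ≤ ((1 + s) * b ^ 10) ^ c := one_le_pow₀ hsb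
    _ = b ^ (10 * c) * (1 + s) ^ c := by rw [mul_pow, ← pow_mul, mul_comm]
    _ ≤ b ^ (n + N) * (1 + s) ^ c :=
      mul_le_mul_left (pow_le_pow_right_of_le_one' hb (by omega)) _
    _ = b ^ n * (b ^ N * (1 + s) ^ c) := by rw [pow_add, mul_assoc]

variable [NeZero d]

/-- the five products -/
private noncomputable def g1 (T : ℕ) (s b : ℝ≥0∞) (B : Finset (Zd d)) (γ γ' : List (Zd d)) : ℝ≥0∞ :=
  Fl (fm s b (γ'.toFinset ∩ B) (mk0 T (γ'.toFinset ∩ B))) ∅ γ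

private noncomputable def g2 (T : ℕ) (s b : ℝ≥0∞) (B : Finset (Zd d)) (γ γ' : List (Zd d)) : ℝ≥0∞ :=
  Fl (fm s b (γ'.toFinset ∩ B) (mk1 T (γ'.toFinset ∩ B))) ∅ γ

private noncomputable def g3 (T : ℕ) (s b : ℝ≥0∞) (B : Finset (Zd d)) (γ γ' : List (Zd d)) : ℝ≥0∞ :=
  Fl (fm s b (γ'.toFinset ∩ B) (mk1 T (γ'.toFinset ∩ B))) ∅ γ.reverse

private lemma mk0_01 (T : ℕ) (A P : Finset (Zd d)) (x : Zd d) :
    mk0 T A P x = 0 ∨ mk0 T A P x = 1 := by
  unfold mk0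
  split_ifs
  · exact Or.inr rfl
  · exact Or.inl rfl

private lemma mk1_01 (T : ℕ) (A P : Finset (Zd d)) (x : Zd d) :
    mk1 T A P x = 0 ∨ mk1 T A P x = 1 := by
  unfold mk1
  split_ifs
  · exact Or.inr rfl
  · exact Or.inl rfl

private lemma mk0_out (T : ℕ) (A P : Finset (Zd d)) (x : Zd d) (hx : x ∉ A) :
    mk0 T A P x = 0 := by
  unfold mk0
  rw [if_neg (fun h => hx h.1)]

private lemma mk1_out (T : ℕ) (A P : Finset (Zd d)) (x : Zd d) (hx : x ∉ A) :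
    mk1 T A P x = 0 := by
  unfold mk1
  rw [if_neg (fun h => hx h.1)]

private lemma pointwise {T : ℕ} {s b : ℝ≥0∞} (hb : b ≤ 1) (hsb : 1 ≤ (1 + s) * b ^ 10)
    (hT : ∀ x : Zd d, Pr d {ω | ∃ n, T ≤ n ∧ pos x ω n = x} ≤ 1 / 72) {γ γ' : List (Zd d)}
    (hγ : γ.Nodup) (hγ' : γ'.Nodup) (B : Finset (Zd d)) {n : ℕ}
    (hn : n ≤ (γ.toFinset ∩ γ'.toFinset ∩ B).card) :
    1 ≤ b ^ n * (g1 T s b B γ γ' + g2 T s b B γ γ' + g3 T s b B γ γ' + g2 T s b B γ' γ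
      + g3 T s b B γ' γ) := by
  have hcov := cover_card hγ hγ' B hT
  set N := (γ.toFinset ∩ γ'.toFinset ∩ B).card with hN
  have e1 : (γ.toFinset ∩ (γ'.toFinset ∩ B)).card = N := by
    rw [hN, Finset.inter_assoc]
  have e2 : (γ'.toFinset ∩ (γ.toFinset ∩ B)).card = N := by
    rw [hN, ← Finset.inter_assoc, Finset.inter_comm γ'.toFinset]
  have hr : γ.reverse.toFinset = γ.toFinset := List.toFinset_reverse
  have hr' : γ'.reverse.toFinset = γ'.toFinset := List.toFinset_reverse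
  have f1 : g1 T s b B γ γ' = b ^ N * (1 + s) ^
      (Im (mk0 T (γ'.toFinset ∩ B)) γ (γ'.toFinset ∩ B)).card := by
    rw [g1, Fl_eq (mk0_01 T _) (mk0_out T _) hγ, e1]
  have f2 : g2 T s b B γ γ' = b ^ N * (1 + s) ^
      (Im (mk1 T (γ'.toFinset ∩ B)) γ (γ'.toFinset ∩ B)).card := by
    rw [g2, Fl_eq (mk1_01 T _) (mk1_out T _) hγ, e1]
  have f3 : g3 T s b B γ γ' = b ^ N * (1 + s) ^
      (Im (mk1 T (γ'.toFinset ∩ B)) γ.reverse (γ'.toFinset ∩ B)).card := by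
    rw [g3, Fl_eq (mk1_01 T _) (mk1_out T _) (List.nodup_reverse.2 hγ), hr, e1]
  have f4 : g2 T s b B γ' γ = b ^ N * (1 + s) ^
      (Im (mk1 T (γ.toFinset ∩ B)) γ' (γ.toFinset ∩ B)).card := by
    rw [g2, Fl_eq (mk1_01 T _) (mk1_out T _) hγ', e2]
  have f5 : g3 T s b B γ' γ = b ^ N * (1 + s) ^
      (Im (mk1 T (γ.toFinset ∩ B)) γ'.reverse (γ.toFinset ∩ B)).card := by
    rw [g3, Fl_eq (mk1_01 T _) (mk1_out T _) (List.nodup_reverse.2 hγ'), hr', e2]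
  set c1 := (Im (mk0 T (γ'.toFinset ∩ B)) γ (γ'.toFinset ∩ B)).card
  set c2 := (Im (mk1 T (γ'.toFinset ∩ B)) γ (γ'.toFinset ∩ B)).card
  set c3 := (Im (mk1 T (γ'.toFinset ∩ B)) γ.reverse (γ'.toFinset ∩ B)).card
  set c4 := (Im (mk1 T (γ.toFinset ∩ B)) γ' (γ.toFinset ∩ B)).card
  set c5 := (Im (mk1 T (γ.toFinset ∩ B)) γ'.reverse (γ.toFinset ∩ B)).card
  have hc : N ≤ 5 * c1 ∨ N ≤ 5 * c2 ∨ N ≤ 5 * c3 ∨ N ≤ 5 * c4 ∨ N ≤ 5 * c5 := by omega
  rcases hc with hc | hc | hc | hc | hc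
  · refine (one_le_of hb hsb hn hc).trans ?_
    rw [← f1]
    refine mul_le_mul_right ?_ _
    rw [add_assoc, add_assoc, add_assoc]
    exact le_self_add
  · refine (one_le_of hb hsb hn hc).trans ?_
    rw [← f2]
    refine mul_le_mul_right ?_ _
    rw [add_comm (g1 T s b B γ γ'), add_assoc, add_assoc, add_assoc]
    exact le_self_add
  · refine (one_le_of hb hsb hn hc).trans ?_
    rw [← f3]
    refine mul_le_mul_right ?_ _
    refine le_trans ?_ le_self_add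
    refine le_trans ?_ le_self_add
    exact le_add_self
  · refine (one_le_of hb hsb hn hc).trans ?_
    rw [← f4]
    refine mul_le_mul_right ?_ _
    refine le_trans ?_ le_self_add
    exact le_add_self
  · refine (one_le_of hb hsb hn hc).trans ?_
    rw [← f5]
    refine mul_le_mul_right ?_ _
    exact le_add_self

private lemma meas2 (V : Finset (Zd d)) (F : List (Zd d) → List (Zd d) → ℝ≥0∞) :
    Measurable fun p : Om d × Om d => F (LEf V 0 p.1) (LEf V 0 p.2) := by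
  let _ : MeasurableSpace (List (Zd d)) := ⊤
  have _ : DiscreteMeasurableSpace (List (Zd d)) := ⟨fun _ => trivial⟩
  have h : Measurable fun ω : Om d => LEf V 0 ω := fun S _ => LM.measurableSet_LEf V 0 S
  have h2 : Measurable fun p : Om d × Om d => (LEf V 0 p.1, LEf V 0 p.2) :=
    (h.comp measurable_fst).prodMk (h.comp measurable_snd)
  have h3 : Measurable fun q : List (Zd d) × List (Zd d) => F q.1 q.2 := Measurable.of_discrete
  exact h3.comp h2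

/-- double integral of a function of the two loop erasures -/
private noncomputable def dbl (V : Finset (Zd d)) (F : List (Zd d) → List (Zd d) → ℝ≥0∞) : ℝ≥0∞ :=
  ∫⁻ ω, ∫⁻ ω', F (LEf V 0 ω) (LEf V 0 ω') ∂Pr d ∂Pr d

private lemma dbl_eq (V : Finset (Zd d)) (F : List (Zd d) → List (Zd d) → ℝ≥0∞) :
    dbl V F = ∫⁻ p, F (LEf V 0 p.1) (LEf V 0 p.2) ∂((Pr d).prod (Pr d)) :=
  (lintegral_prod _ (meas2 V F).aemeasurable).symm

private lemma dbl_add (V : Finset (Zd d)) (F G : List (Zd d) → List (Zd d) → ℝ≥0∞) :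
    dbl V (fun γ γ' => F γ γ' + G γ γ') = dbl V F + dbl V G := by
  rw [dbl_eq, dbl_eq, dbl_eq]
  exact lintegral_add_left (meas2 V F) _

private lemma dbl_mul (V : Finset (Zd d)) (c : ℝ≥0∞) (F : List (Zd d) → List (Zd d) → ℝ≥0∞) :
    dbl V (fun γ γ' => c * F γ γ') = c * dbl V F := by
  rw [dbl_eq, dbl_eq]
  exact lintegral_const_mul _ (meas2 V F)

private lemma dbl_swap (V : Finset (Zd d)) (F : List (Zd d) → List (Zd d) → ℝ≥0∞) :
    dbl V F = dbl V (fun γ γ' => F γ' γ) := by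
  unfold dbl
  exact lintegral_lintegral_swap (meas2 V F).aemeasurable

private lemma dbl_le {V : Finset (Zd d)} {F : List (Zd d) → List (Zd d) → ℝ≥0∞} {c : ℝ≥0∞}
    (h : ∀ γ, ∫⁻ ω', F γ (LEf V 0 ω') ∂Pr d ≤ c) : dbl V F ≤ c := by
  unfold dbl
  calc ∫⁻ ω, ∫⁻ ω', F (LEf V 0 ω) (LEf V 0 ω') ∂Pr d ∂Pr d ≤ ∫⁻ _ω : Om d, c ∂Pr d :=
        lintegral_mono fun ω => h _
    _ = c := by rw [lintegral_const, measure_univ, mul_one]

theorem finite_tail (hd : 5 ≤ d) : ∃ (b : ℝ≥0∞) (C : ℕ), b < 1 ∧ ∀ (V : Finset (Zd d)) (R n : ℕ), 0 ∈ V →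
    ∫⁻ ω, Pr d {ω' | n ≤ ((LEf V 0 ω).toFinset ∩ (LEf V 0 ω').toFinset ∩ nb 0 R).card} ∂Pr d
      ≤ C * (2 * R + 1) ^ d * b ^ n := by
  classical
  obtain ⟨T, s, b, C, hb1, hb0, hs, hsb, hT, hgen⟩ := gen hd
  refine ⟨b, 7 * C, hb1, fun V R n hV => ?_⟩
  have hnod : ∀ ω : Om d, (LEf V 0 ω).Nodup := fun ω => LEl_nodup _
  let B := nb (0 : Zd d) R
  let K : ℝ≥0∞ := (2 * (R : ℝ≥0∞) + 1) ^ d
  have hK1 : 1 ≤ K := one_le_pow₀ le_add_self
  have hcard : ∀ γ : List (Zd d), ((γ.toFinset ∩ B).card : ℝ≥0∞) ≤ K := by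
    intro γ
    have h1 : (γ.toFinset ∩ B).card ≤ (2 * R + 1) ^ d := by
      rw [← card_nb (0 : Zd d) R]
      exact Finset.card_le_card Finset.inter_subset_right
    calc ((γ.toFinset ∩ B).card : ℝ≥0∞) ≤ (((2 * R + 1) ^ d : ℕ) : ℝ≥0∞) := by exact_mod_cast h1
      _ = K := by push_cast; rfl
  let G : List (Zd d) → List (Zd d) → ℝ≥0∞ := fun γ γ' =>
    g1 T s b B γ γ' + g2 T s b B γ γ' + g3 T s b B γ γ' + g2 T s b B γ' γ + g3 T s b B γ' γ
  have hstep : ∫⁻ ω, Pr d {ω' | n ≤ ((LEf V 0 ω).toFinset ∩ (LEf V 0 ω').toFinset ∩ nb 0 R).card}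
      ∂Pr d ≤ dbl V (fun γ γ' => b ^ n * G γ γ') := by
    refine lintegral_mono fun ω => ?_
    refine meas_le_lintegral₀
      (LM.measurable_comp_LEf V 0 (fun γ' => b ^ n * G (LEf V 0 ω) γ')).aemeasurable ?_
    intro ω' hω'
    exact pointwise hb1.le hsb hT (hnod ω) (hnod ω') B hω'
  have h1 : dbl V (g1 T s b B) ≤ C := by
    rw [dbl_swap]
    exact dbl_le fun γ => (hgen V (γ.toFinset ∩ B) hV).1
  have h2' : dbl V (fun γ γ' => g2 T s b B γ' γ) ≤ C :=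
    dbl_le fun γ => (hgen V (γ.toFinset ∩ B) hV).2.1
  have h3' : dbl V (fun γ γ' => g3 T s b B γ' γ) ≤ C * (1 + K) :=
    dbl_le fun γ => (hgen V (γ.toFinset ∩ B) hV).2.2.trans
      (mul_le_mul_right (add_le_add_right (hcard γ) 1) _)
  have h2 : dbl V (g2 T s b B) ≤ C := by
    rw [dbl_swap]
    exact h2'
  have h3 : dbl V (g3 T s b B) ≤ C * (1 + K) := by
    rw [dbl_swap]
    exact h3'
  have hG : dbl V G ≤ 7 * C * K := by
    have e : dbl V G = dbl V (g1 T s b B) + dbl V (g2 T s b B) + dbl V (g3 T s b B)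
        + dbl V (fun γ γ' => g2 T s b B γ' γ) + dbl V (fun γ γ' => g3 T s b B γ' γ) := by
      rw [← dbl_add, ← dbl_add, ← dbl_add, ← dbl_add]
    rw [e]
    have hC : (C : ℝ≥0∞) ≤ C * K := le_mul_of_one_le_right zero_le hK1
    have hC2 : (C : ℝ≥0∞) * (1 + K) ≤ 2 * (C * K) := by
      rw [mul_add, mul_one, two_mul]
      exact add_le_add_left hC _
    calc _ ≤ (C : ℝ≥0∞) + C + C * (1 + K) + C + C * (1 + K) :=
          add_le_add (add_le_add (add_le_add (add_le_add h1 h2) h3) h2') h3'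
      _ ≤ C * K + C * K + 2 * (C * K) + C * K + 2 * (C * K) :=
          add_le_add (add_le_add (add_le_add (add_le_add hC hC) hC2) hC) hC2
      _ = 7 * C * K := by ring
  calc _ ≤ dbl V (fun γ γ' => b ^ n * G γ γ') := hstep
    _ = b ^ n * dbl V G := dbl_mul V _ _
    _ ≤ b ^ n * (7 * C * K) := mul_le_mul_right hG _
    _ = ((7 * C : ℕ) : ℝ≥0∞) * (2 * R + 1) ^ d * b ^ n := by
      push_cast
      show b ^ n * (7 * C * (2 * (R : ℝ≥0∞) + 1) ^ d) = _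
      ring

end Pool.Agent.H39.LP
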