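import Pool.Agent.H39.LP.EIT
import Pool.Agent.H39.LW.Final

/-!
# The dimensions in which the infinite loop-erased walk has exponential intersection tails
-/

open Pool.Agent.H39.LW

namespace Pool.Agent.H39.LP

theorem main (d : ℕ) [NeZero d] (hd : 3 ≤ d) : HasEIT (lerwLaw d) ↔ 5 ≤ d := by
  constructor
  · intro h
    by_contra h5
    exact (Pool.Agent.H39.LW.main hd (by omega)).1 h
  · exact fun h => eit h

end Pool.Agent.H39.LP
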