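import Pool.Agent.H39.LW.GreenDet
import Pool.Agent.H39.LP.Base

/-!
# Module GW: sums over self-avoiding paths, and reversal

`gw w B l` is the sum of the weights of the walks in `B` with loop erasure `l` (without terminal weight).

* `tsum_gw`: strong induction on `B.card`. `ws_congr`/`ws_decomp` as in `wsi`: the walk sum is
  `green w B y * (ψ y * F [y] + ∑ u ∈ B.erase y, w y u * ∑' n, ws w ψ (B.erase y) n (fun l => F (y :: LEl l)) u)`,
  and the sum over all lists `l` is (the term `l = []`) `+ ∑' u, ∑' l` (the terms `u :: l`): the map
  `Option (U × List U) ≃ List U`; `gw w B (y :: u :: l) = green w B y * w y u * gw w (B.erase y) (u :: l)`,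
  which is `0` unless `u ∈ B.erase y`.
-/

open MeasureTheory ProbabilityTheory Filter
open scoped ENNReal
open Pool.Agent.H39.LW

namespace Pool.Agent.H39.LP

variable {U : Type*} [DecidableEq U]

/-- weight of the steps of a path -/
noncomputable def pw (w : U → U → ℝ) : List U → ℝ≥0∞
  | [] => 1
  | [_] => 1
  | x :: y :: l => ENNReal.ofReal (w x y) * pw w (y :: l)

/-- weight of the first step of the path `y :: l` -/
noncomputable def st (w : U → U → ℝ) (y : U) : List U → ℝ≥0∞
  | [] => 1
  | u :: _ => ENNReal.ofReal (w y u)

/-- sum of the weights of the walks in `B` with loop erasure `l` -/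
noncomputable def gw (w : U → U → ℝ) : Finset U → List U → ℝ≥0∞
  | _, [] => 1
  | B, y :: l => if y ∈ B then green w B y * st w y l * gw w (B.erase y) l else 0

theorem one_le_green (w : U → U → ℝ) {B : Finset U} {y : U} (hy : y ∈ B) : 1 ≤ green w B y := by
  unfold green
  refine le_trans ?_ (ENNReal.le_tsum 0)
  simp [ws, hy]

omit [DecidableEq U] in
private lemma tsum_list (f : List U → ℝ≥0∞) :
    ∑' l : List U, f l = f [] + ∑' u : U, ∑' l : List U, f (u :: l) := by
  classical
  rw [ENNReal.tsum_eq_add_tsum_ite []]
  congr 1
  rw [← ENNReal.tsum_prod (f := fun u l => f (u :: l))]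
  have hinj : Function.Injective (fun p : U × List U => p.1 :: p.2) := by
    rintro ⟨a, l⟩ ⟨b, m⟩ h
    simp only [List.cons.injEq] at h
    rw [h.1, h.2]
  have := hinj.tsum_eq (f := fun l : List U => if l = [] then 0 else f l) (by
    intro l hl
    cases l with
    | nil => simp at hl
    | cons a l => exact ⟨(a, l), rfl⟩)
  trans (∑' l : List U, if l = [] then 0 else f l)
  · refine tsum_congr fun l => ?_
    by_cases h : l = []
    · rw [if_pos h, if_pos h]
    · rw [if_neg h, if_neg h]
  · rw [← this]
    refine tsum_congr fun p => ?_
    simp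

theorem tsum_gw (w : U → U → ℝ) (ψ : U → ℝ) (F : List U → ℝ≥0∞) (B : Finset U) {y : U}
    (hy : y ∈ B) :
    ∑' n, ws w ψ B n (fun l => F (LEl l)) y
      = ∑' l : List U, gw w B (y :: l) * ENNReal.ofReal (ψ (l.getLastD y)) * F (y :: l) := by
  induction B using Finset.strongInduction generalizing y F with
  | H B ih =>
    have h1 : ∀ n, ws w ψ B n (fun l => F (LEl l)) y
        = ws w ψ B n (fun l => (fun m => F (y :: LEl m)) (aft y l)) y := by
      intro n
      refine ws_congr n y fun l _ => ?_
      have e1 : aft y (y :: l) = aft y l := by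
        rw [aft_cons]
        split_ifs with h1 h2
        · rfl
        · rw [aft_notMem h1]
        · exact absurd rfl h2
      simp only []
      rw [e1, LEl_cons]
    simp only [h1]
    rw [ws_decomp hy (fun m => F (y :: LEl m)), tsum_list, mul_add]
    congr 1
    · simp [gw, st, hy, LEl_nil]
      ring
    · have h2 : ∀ u ∈ B.erase y, ENNReal.ofReal (w y u) *
          ∑' n, ws w ψ (B.erase y) n (fun m => F (y :: LEl m)) u
          = ENNReal.ofReal (w y u) * ∑' l : List U,
            gw w (B.erase y) (u :: l) * ENNReal.ofReal (ψ (l.getLastD u)) * F (y :: u :: l) := by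
        intro u hu
        rw [← ih (B.erase y) (Finset.erase_ssubset hy) (fun m => F (y :: m)) hu]
      rw [Finset.sum_congr rfl h2, Finset.mul_sum]
      rw [tsum_eq_sum (s := B.erase y)]
      · refine Finset.sum_congr rfl fun u hu => ?_
        rw [← mul_assoc, ← ENNReal.tsum_mul_left]
        refine tsum_congr fun l => ?_
        have e1 : gw w B (y :: u :: l)
            = green w B y * ENNReal.ofReal (w y u) * gw w (B.erase y) (u :: l) := by
          rw [gw, if_pos hy]
          rfl
        have e2 : (u :: l).getLastD y = l.getLastD u := by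
          cases l with
          | nil => rfl
          | cons a l => rfl
        rw [e1, e2]
        ring
      · intro u hu
        rw [ENNReal.tsum_eq_zero]
        intro l
        have e1 : gw w B (y :: u :: l) = 0 := by
          rw [gw, if_pos hy, gw, if_neg hu, mul_zero]
        rw [e1, zero_mul, zero_mul]

end Pool.Agent.H39.LP
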