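import Pool.Agent.H39.LP.GW

/-!
# Module GW2: weights of self-avoiding paths, and reversal

* `gw_formula`: with `D B = ENNReal.ofReal (Dt w B)` and `D B * green w B y = D (B.erase y)`:
  `D B * gw w B l = pw w l * D (B \ l.toFinset)` for `l` self-avoiding in `B` (induction on `l`).
* `gw_zero`: `gw w B l = 0` unless `l` is self-avoiding and contained in `B`.
* `gw_split`: `gw w V (l₁ ++ x :: l₂) ≤ gw w V (x :: l₂) * gw w (V \ l₂.toFinset) (x :: l₁.reverse)`. If the left
  side is not `0`, then `l₁ ++ x :: l₂` is self-avoiding and contained in `V`. Multiply by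
  `D V * D (V \ l₂)` (positive and finite) and use `gw_formula` three times:
  left `= pw (l₁ ++ x :: l₂) * D (V \ all) * D (V \ l₂)`,
  right `= pw (x :: l₂) * D (V \ (x :: l₂)) * pw (x :: l₁.reverse) * D (V \ all)`,
  `pw (l₁ ++ x :: l₂) = pw (x :: l₁.reverse) * pw (x :: l₂)` (`w` symmetric), and
  `D (V \ l₂) ≤ D (V \ (x :: l₂)) = D (V \ l₂) * green w (V \ l₂) x` since `green ≥ 1` (the walk of length `0`).
-/

open MeasureTheory ProbabilityTheory Filter
open scoped ENNReal
open Pool.Agent.H39.LW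

namespace Pool.Agent.H39.LP

variable {U : Type*} [DecidableEq U]

lemma pw_cons (w : U → U → ℝ) (y : U) (l : List U) : pw w (y :: l) = st w y l * pw w l := by
  cases l with
  | nil => simp [pw, st]
  | cons u l => simp [pw, st]

theorem gw_zero (w : U → U → ℝ) {B : Finset U} {l : List U}
    (h : ¬ (l.Nodup ∧ ∀ x ∈ l, x ∈ B)) : gw w B l = 0 := by
  induction l generalizing B with
  | nil => exact absurd ⟨List.nodup_nil, fun x hx => absurd hx (List.not_mem_nil)⟩ h
  | cons y l ih =>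
    rw [gw]
    by_cases hy : y ∈ B
    · rw [if_pos hy, ih, mul_zero]
      rintro ⟨h1, h2⟩
      refine h ⟨List.nodup_cons.2 ⟨fun hyl => ?_, h1⟩, ?_⟩
      · exact absurd rfl (Finset.mem_erase.1 (h2 y hyl)).1
      · intro x hx
        rcases List.mem_cons.1 hx with rfl | hx
        · exact hy
        · exact (Finset.mem_erase.1 (h2 x hx)).2
    · rw [if_neg hy]

theorem gw_formula {w : U → U → ℝ} {V : Finset U} (hD : ∀ B ⊆ V, 0 < Dt w B)
    (hg : ∀ B ⊆ V, ∀ v ∈ B, ENNReal.ofReal (Dt w B) * green w B v = ENNReal.ofReal (Dt w (B.erase v)))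
    {B : Finset U} (hB : B ⊆ V) {l : List U} (hl : l.Nodup) (hlB : ∀ x ∈ l, x ∈ B) :
    ENNReal.ofReal (Dt w B) * gw w B l = pw w l * ENNReal.ofReal (Dt w (B \ l.toFinset)) := by
  induction l generalizing B with
  | nil => simp [gw, pw]
  | cons y l ih =>
    have hy : y ∈ B := hlB y List.mem_cons_self
    obtain ⟨hyl, hl'⟩ := List.nodup_cons.1 hl
    have e1 := ih (B := B.erase y) ((Finset.erase_subset _ _).trans hB) hl' (fun x hx =>
      Finset.mem_erase.2 ⟨fun h => hyl (h ▸ hx), hlB x (List.mem_cons_of_mem _ hx)⟩)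
    have e2 : B \ (y :: l).toFinset = B.erase y \ l.toFinset := by
      ext x
      simp only [List.toFinset_cons, Finset.mem_sdiff, Finset.mem_insert, Finset.mem_erase,
        List.mem_toFinset, not_or]
      tauto
    rw [gw, if_pos hy, e2, pw_cons, mul_assoc (st w y l), ← e1, ← hg B hB y hy]
    ring

lemma pw_append (w : U → U → ℝ) (l₁ l₂ : List U) (x : U) :
    pw w (l₁ ++ x :: l₂) = pw w (l₁ ++ [x]) * pw w (x :: l₂) := by
  induction l₁ with
  | nil => simp [pw]
  | cons y l ih =>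
    cases l with
    | nil => simp [pw]
    | cons z l =>
      simp only [List.cons_append, pw] at ih ⊢
      rw [ih, mul_assoc]

lemma pw_reverse {w : U → U → ℝ} (hsym : ∀ u v, w u v = w v u) (l : List U) :
    pw w l.reverse = pw w l := by
  induction l with
  | nil => rfl
  | cons y l ih =>
    cases l with
    | nil => rfl
    | cons z l =>
      rw [List.reverse_cons] at ih ⊢
      rw [List.reverse_cons, List.append_assoc, List.singleton_append, pw_append, ih]
      simp only [pw, mul_one]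
      rw [hsym z y, mul_comm]

theorem gw_split {w : U → U → ℝ} (hsym : ∀ u v, w u v = w v u) {V : Finset U}
    (hD : ∀ B ⊆ V, 0 < Dt w B)
    (hg : ∀ B ⊆ V, ∀ v ∈ B, ENNReal.ofReal (Dt w B) * green w B v = ENNReal.ofReal (Dt w (B.erase v)))
    (l₁ l₂ : List U) (x : U) :
    gw w V (l₁ ++ x :: l₂) ≤ gw w V (x :: l₂) * gw w (V \ l₂.toFinset) (x :: l₁.reverse) := by
  by_cases h : (l₁ ++ x :: l₂).Nodup ∧ ∀ y ∈ l₁ ++ x :: l₂, y ∈ V
  swap
  · rw [gw_zero w h]
    exact bot_le
  obtain ⟨hn, hm⟩ := h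
  have hn2 : (x :: l₂).Nodup := (List.nodup_append.1 hn).2.1
  have hxl₂ : x ∉ l₂ := (List.nodup_cons.1 hn2).1
  have hm2 : ∀ y ∈ x :: l₂, y ∈ V := fun y hy => hm y (List.mem_append_right _ hy)
  have hdisj : ∀ a ∈ l₁, a ∉ x :: l₂ := fun a ha hb => (List.nodup_append.1 hn).2.2 a ha a hb rfl
  have hn1 : (x :: l₁.reverse).Nodup := by
    refine List.nodup_cons.2 ⟨fun hx => hdisj x (List.mem_reverse.1 hx) List.mem_cons_self, ?_⟩
    exact List.nodup_reverse.2 (List.nodup_append.1 hn).1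
  have hm1 : ∀ y ∈ x :: l₁.reverse, y ∈ V \ l₂.toFinset := by
    intro y hy
    rw [Finset.mem_sdiff, List.mem_toFinset]
    rcases List.mem_cons.1 hy with rfl | hy
    · exact ⟨hm2 _ List.mem_cons_self, hxl₂⟩
    · have hy' := List.mem_reverse.1 hy
      exact ⟨hm y (List.mem_append_left _ hy'), fun h => hdisj y hy' (List.mem_cons_of_mem _ h)⟩
  have hV' : V \ l₂.toFinset ⊆ V := Finset.sdiff_subset
  have f1 := gw_formula hD hg (subset_refl V) hn hm
  have f2 := gw_formula hD hg (subset_refl V) hn2 hm2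
  have f3 := gw_formula hD hg hV' hn1 hm1
  have hx : x ∈ V \ l₂.toFinset := hm1 x List.mem_cons_self
  have f4 := hg _ hV' x hx
  have f5 : (V \ l₂.toFinset).erase x = V \ (x :: l₂).toFinset := by
    ext y
    simp only [List.toFinset_cons, Finset.mem_sdiff, Finset.mem_insert, Finset.mem_erase,
      List.mem_toFinset, not_or]
    tauto
  have f6 : (V \ l₂.toFinset) \ (x :: l₁.reverse).toFinset = V \ (l₁ ++ x :: l₂).toFinset := by
    ext y
    simp only [List.toFinset_cons, Finset.mem_sdiff, Finset.mem_insert, List.toFinset_append,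
      Finset.mem_union, List.mem_toFinset, not_or, List.mem_reverse]
    tauto
  have f7 : pw w (l₁ ++ x :: l₂) = pw w (x :: l₁.reverse) * pw w (x :: l₂) := by
    rw [pw_append, ← pw_reverse hsym (l₁ ++ [x])]
    simp
  have hgr : 1 ≤ green w (V \ l₂.toFinset) x := one_le_green w hx
  have hle : ENNReal.ofReal (Dt w (V \ l₂.toFinset)) ≤ ENNReal.ofReal (Dt w (V \ (x :: l₂).toFinset)) := by
    rw [← f5, ← f4]
    calc ENNReal.ofReal (Dt w (V \ l₂.toFinset)) = ENNReal.ofReal (Dt w (V \ l₂.toFinset)) * 1 := by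
          rw [mul_one]
      _ ≤ _ := by gcongr
  set a := ENNReal.ofReal (Dt w V) with ha
  set b := ENNReal.ofReal (Dt w (V \ l₂.toFinset)) with hb
  have ha0 : a ≠ 0 := by
    rw [ha, Ne, ENNReal.ofReal_eq_zero, not_le]
    exact hD _ (subset_refl _)
  have hb0 : b ≠ 0 := by
    rw [hb, Ne, ENNReal.ofReal_eq_zero, not_le]
    exact hD _ hV'
  have hat : a ≠ ⊤ := ENNReal.ofReal_ne_top
  have hbt : b ≠ ⊤ := ENNReal.ofReal_ne_top
  have key : (a * b) * gw w V (l₁ ++ x :: l₂)
      ≤ (a * b) * (gw w V (x :: l₂) * gw w (V \ l₂.toFinset) (x :: l₁.reverse)) := by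
    calc (a * b) * gw w V (l₁ ++ x :: l₂) = b * (a * gw w V (l₁ ++ x :: l₂)) := by ring
      _ = b * ((pw w (x :: l₁.reverse) * pw w (x :: l₂))
            * ENNReal.ofReal (Dt w (V \ (l₁ ++ x :: l₂).toFinset))) := by rw [f1, f7]
      _ ≤ ENNReal.ofReal (Dt w (V \ (x :: l₂).toFinset)) * ((pw w (x :: l₁.reverse) * pw w (x :: l₂))
            * ENNReal.ofReal (Dt w (V \ (l₁ ++ x :: l₂).toFinset))) := by gcongr
      _ = (pw w (x :: l₂) * ENNReal.ofReal (Dt w (V \ (x :: l₂).toFinset)))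
            * (pw w (x :: l₁.reverse) * ENNReal.ofReal (Dt w (V \ (l₁ ++ x :: l₂).toFinset))) := by
          ring
      _ = (a * gw w V (x :: l₂)) * (b * gw w (V \ l₂.toFinset) (x :: l₁.reverse)) := by
          rw [f2, f3, f6]
      _ = _ := by ring
  exact (ENNReal.mul_le_mul_iff_right (mul_ne_zero ha0 hb0) (ENNReal.mul_ne_top hat hbt)).1 key

end Pool.Agent.H39.LP
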