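import Pool.Agent.H39.LP.HKa2

/-!
# Module SS: hitting probability of sparse sets

* `hit_le`: `Pr {ω | ∃ n, T ≤ n ∧ pos v ω n ∈ L} ≤ ∑ x ∈ L.toFinset, gT T (x - v)` (union bound and
  `prob_pos`).
* `sparse_sum_out`: split the points `x ∉ nb z (2 m^2)` of `L` by scale: `x ∉ nb z (2·4^j·m^2)` and
  `x ∈ nb z (2·4^(j+1)·m^2)`; their number is `< 24^(j+1) m^5 / N`. Since `v ∈ nb z (m^2)` there is a
  coordinate with `|x i - v i| ≥ 4^j m^2 = (2^j m)^2`, so `gT 0 (x - v) ≤ C / (2^j m)^5`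
  (`green_far`), and the sum is at most `∑' j, 24^(j+1) m^5 / N * C / (32^j m^5) = 96 C / N`.
* `sparse_acc`: points in `nb z (2 m^2)`: there are `< m^5 / N` of them and each has
  `gT (m^4) ≤ C / m^6` (`green_late`); the others: `gT (m^4) ≤ gT 0` and `sparse_sum_out` with
  `v = z`.
-/

open MeasureTheory ProbabilityTheory Filter
open scoped ENNReal
open Pool.Agent.H39.LW

namespace Pool.Agent.H39.LP

variable {d : ℕ} [NeZero d]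

theorem hit_le (T : ℕ) (v : Zd d) (L : Finset (Zd d)) :
    Pr d {ω | ∃ n, T ≤ n ∧ pos v ω n ∈ L} ≤ ∑ x ∈ L, gT T (x - v) := by
  have hsub : {ω : Om d | ∃ n, T ≤ n ∧ pos v ω n ∈ L} ⊆
      ⋃ x ∈ L, ⋃ n : ℕ, {ω | pos v ω (n + T) = x} := by
    rintro ω ⟨n, hn, hx⟩
    refine Set.mem_biUnion hx ?_
    refine Set.mem_iUnion.2 ⟨n - T, ?_⟩
    show pos v ω (n - T + T) = pos v ω n
    rw [Nat.sub_add_cancel hn]
  refine (measure_mono hsub).trans ((measure_biUnion_finset_le _ _).trans ?_)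
  refine Finset.sum_le_sum fun x _ => ?_
  refine (measure_iUnion_le _).trans ?_
  unfold gT
  refine ENNReal.tsum_le_tsum fun n => ?_
  rw [prob_pos]

omit [NeZero d] in
private lemma gT_le (T : ℕ) (x : Zd d) : gT T x ≤ gT 0 x := by
  unfold gT
  exact ENNReal.tsum_comp_le_tsum_of_injective (f := fun n : ℕ => n + T)
    (fun a b h => Nat.add_right_cancel h) (fun n => ENNReal.ofReal (hk (n + 0) x))

omit [NeZero d] in
private lemma exists_scale {m : ℕ} (hm : 0 < m) {x z : Zd d} (h : x ∉ nb z (2 * m ^ 2)) :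
    ∃ j : ℕ, x ∈ nb z (2 * (4 ^ (j + 1) * m ^ 2)) ∧ x ∉ nb z (2 * (4 ^ j * m ^ 2)) := by
  classical
  have hex : ∃ j : ℕ, x ∈ nb z (2 * (4 ^ j * m ^ 2)) := by
    refine ⟨(∑ i, |x i - z i|).toNat, ?_⟩
    rw [mem_nb]
    intro i
    have h1 : |x i - z i| ≤ ∑ i, |x i - z i| :=
      Finset.single_le_sum (f := fun i => |x i - z i|) (fun i _ => abs_nonneg _)
        (Finset.mem_univ i)
    have h0 : 0 ≤ ∑ i, |x i - z i| := Finset.sum_nonneg fun i _ => abs_nonneg _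
    set J := (∑ i, |x i - z i|).toNat with hJ
    have h2 : (J : ℤ) = ∑ i, |x i - z i| := Int.toNat_of_nonneg h0
    have h3 : J ≤ 4 ^ J := (Nat.lt_pow_self (by norm_num)).le
    have h4 : 1 ≤ m ^ 2 := Nat.one_le_pow _ _ hm
    have h5 : J ≤ 2 * (4 ^ J * m ^ 2) := by nlinarith
    calc |x i - z i| ≤ (J : ℤ) := by rw [h2]; exact h1
      _ ≤ ((2 * (4 ^ J * m ^ 2) : ℕ) : ℤ) := by exact_mod_cast h5
  have h0 : ¬ x ∈ nb z (2 * (4 ^ 0 * m ^ 2)) := by simpa using h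
  have hpos : 0 < Nat.find hex := by
    rw [Nat.pos_iff_ne_zero]
    intro h'
    have := Nat.find_spec hex
    rw [h'] at this
    exact h0 this
  refine ⟨Nat.find hex - 1, ?_, ?_⟩
  · rw [Nat.sub_add_cancel hpos]
    exact Nat.find_spec hex
  · exact Nat.find_min hex (by omega)

omit [NeZero d] in
private lemma far_coord {m j : ℕ} {x z v : Zd d} (h : x ∉ nb z (2 * (4 ^ j * m ^ 2)))
    (hv : v ∈ nb z (m ^ 2)) : ∃ i, (((2 ^ j * m : ℕ) : ℤ)) ^ 2 ≤ |(x - v) i| := by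
  rw [mem_nb] at h
  push Not at h
  obtain ⟨i, hi⟩ := h
  refine ⟨i, ?_⟩
  rw [mem_nb] at hv
  have h1 := hv i
  have h2 : |x i - z i| ≤ |x i - v i| + |v i - z i| := by
    calc |x i - z i| = |(x i - v i) + (v i - z i)| := by ring_nf
      _ ≤ _ := abs_add_le _ _
  have h3 : ((m ^ 2 : ℕ) : ℤ) ≤ ((4 ^ j * m ^ 2 : ℕ) : ℤ) := by
    have : m ^ 2 ≤ 4 ^ j * m ^ 2 := Nat.le_mul_of_pos_left _ (by positivity)
    exact_mod_cast this
  have h4 : (((2 ^ j * m : ℕ) : ℤ)) ^ 2 = ((4 ^ j * m ^ 2 : ℕ) : ℤ) := by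
    push_cast
    rw [mul_pow, ← pow_mul, mul_comm j 2, pow_mul]
    norm_num
  have h5 : ((2 * (4 ^ j * m ^ 2) : ℕ) : ℤ) = 2 * ((4 ^ j * m ^ 2 : ℕ) : ℤ) := by
    push_cast
    ring
  rw [h4, Pi.sub_apply]
  rw [h5] at hi
  linarith

theorem sparse_sum_out (hd : 5 ≤ d) : ∃ C : ℕ, ∀ (N m : ℕ) (L : List (Zd d)) (z v : Zd d),
    0 < N → 0 < m → Sparse N m L z → v ∈ nb z (m ^ 2) →
      ∑ x ∈ L.toFinset \ nb z (2 * m ^ 2), gT 0 (x - v) ≤ C / (N : ℝ≥0∞) := by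
  classical
  obtain ⟨C, hC⟩ := green_far hd
  refine ⟨96 * C, fun N m L z v hN hm hS hv => ?_⟩
  have hN0 : (N : ℝ≥0∞) ≠ 0 := by exact_mod_cast hN.ne'
  have hNt : (N : ℝ≥0∞) ≠ ⊤ := ENNReal.natCast_ne_top N
  have hm0 : (m : ℝ≥0∞) ≠ 0 := by exact_mod_cast hm.ne'
  have hmt : (m : ℝ≥0∞) ≠ ⊤ := ENNReal.natCast_ne_top m
  let S := L.toFinset \ nb z (2 * m ^ 2)
  let c : ℕ → ℝ≥0∞ := fun j => C / ((2 ^ j * m : ℕ) : ℝ≥0∞) ^ 5
  let I : ℕ → Zd d → ℝ≥0∞ := fun j x =>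
    if x ∈ nb z (2 * (4 ^ (j + 1) * m ^ 2)) ∧ x ∉ nb z (2 * (4 ^ j * m ^ 2)) then c j else 0
  have hpt : ∀ x ∈ S, gT 0 (x - v) ≤ ∑' j, I j x := by
    intro x hx
    obtain ⟨j, hj1, hj2⟩ := exists_scale hm (Finset.mem_sdiff.1 hx).2
    refine le_trans ?_ (ENNReal.le_tsum j)
    show gT 0 (x - v) ≤ if _ then c j else 0
    rw [if_pos ⟨hj1, hj2⟩]
    exact hC (2 ^ j * m) (Nat.mul_pos (by positivity) hm) (x - v) (far_coord hj2 hv)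
  have hterm : ∀ j, ∑ x ∈ S, I j x ≤ (24 * C : ℝ≥0∞) / N * (3 / 4) ^ j := by
    intro j
    have h1 : ∑ x ∈ S, I j x ≤
        ((L.toFinset ∩ nb z (2 * (4 ^ (j + 1) * m ^ 2))).card : ℝ≥0∞) * c j := by
      calc ∑ x ∈ S, I j x ≤ ∑ x ∈ S.filter (fun x => x ∈ nb z (2 * (4 ^ (j + 1) * m ^ 2))), c j := by
            rw [Finset.sum_filter]
            refine Finset.sum_le_sum fun x _ => ?_
            show (if _ then c j else 0) ≤ if _ then c j else 0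
            by_cases h : x ∈ nb z (2 * (4 ^ (j + 1) * m ^ 2))
            · rw [if_pos h]
              split_ifs
              · exact le_rfl
              · exact zero_le
            · rw [if_neg h, if_neg (fun h' => h h'.1)]
        _ = ((S.filter (fun x => x ∈ nb z (2 * (4 ^ (j + 1) * m ^ 2)))).card : ℝ≥0∞) * c j := by
            rw [Finset.sum_const, nsmul_eq_mul]
        _ ≤ _ := by
            gcongr
            intro x hx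
            rw [Finset.mem_filter] at hx
            rw [Finset.mem_inter]
            exact ⟨(Finset.mem_sdiff.1 hx.1).1, hx.2⟩
    refine h1.trans ?_
    have hcard := hS (j + 1)
    set K := (L.toFinset ∩ nb z (2 * (4 ^ (j + 1) * m ^ 2))).card with hK
    have h2 : (N : ℝ≥0∞) * K ≤ 24 ^ (j + 1) * (m : ℝ≥0∞) ^ 5 := by exact_mod_cast hcard.le
    have h3 : (K : ℝ≥0∞) ≤ 24 ^ (j + 1) * (m : ℝ≥0∞) ^ 5 / N := by
      rw [ENNReal.le_div_iff_mul_le (Or.inl hN0) (Or.inl hNt), mul_comm]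
      exact h2
    have h4 : c j = (C : ℝ≥0∞) / (32 ^ j * (m : ℝ≥0∞) ^ 5) := by
      show (C : ℝ≥0∞) / ((2 ^ j * m : ℕ) : ℝ≥0∞) ^ 5 = _
      congr 1
      push_cast
      rw [mul_pow, ← pow_mul, mul_comm j 5, pow_mul]
      norm_num
    calc (K : ℝ≥0∞) * c j ≤ 24 ^ (j + 1) * (m : ℝ≥0∞) ^ 5 / N * c j := by gcongr
      _ = (24 * C : ℝ≥0∞) / N * (3 / 4) ^ j := by
        rw [h4]
        have hm5 : (m : ℝ≥0∞) ^ 5 ≠ 0 := pow_ne_zero _ hm0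
        have hm5t : (m : ℝ≥0∞) ^ 5 ≠ ⊤ := ENNReal.pow_ne_top hmt
        have h34 : (3 / 4 : ℝ≥0∞) ^ j = 24 ^ j / 32 ^ j := by
          have : (3 / 4 : ℝ≥0∞) = 24 / 32 := by
            rw [ENNReal.div_eq_div_iff (by norm_num) (by norm_num) (by norm_num) (by norm_num)]
            norm_num
          rw [this, div_eq_mul_inv, div_eq_mul_inv, mul_pow, ENNReal.inv_pow]
        rw [h34]
        rw [div_eq_mul_inv, div_eq_mul_inv, div_eq_mul_inv, div_eq_mul_inv,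
          ENNReal.mul_inv (Or.inr hm5t) (Or.inr hm5)]
        calc 24 ^ (j + 1) * (m : ℝ≥0∞) ^ 5 * (N : ℝ≥0∞)⁻¹ * (C * ((32 ^ j)⁻¹ * ((m : ℝ≥0∞) ^ 5)⁻¹))
            = ((m : ℝ≥0∞) ^ 5 * ((m : ℝ≥0∞) ^ 5)⁻¹) *
              (24 * C * (N : ℝ≥0∞)⁻¹ * (24 ^ j * (32 ^ j)⁻¹)) := by ring
          _ = 24 * C * (N : ℝ≥0∞)⁻¹ * (24 ^ j * (32 ^ j)⁻¹) := by
            rw [ENNReal.mul_inv_cancel hm5 hm5t, one_mul]
  calc ∑ x ∈ S, gT 0 (x - v) ≤ ∑ x ∈ S, ∑' j, I j x := Finset.sum_le_sum hpt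
    _ = ∑' j, ∑ x ∈ S, I j x := by
      rw [Summable.tsum_finsetSum]
      exact fun _ _ => ENNReal.summable
    _ ≤ ∑' j : ℕ, (24 * C : ℝ≥0∞) / N * (3 / 4) ^ j := ENNReal.tsum_le_tsum hterm
    _ = ((96 * C : ℕ) : ℝ≥0∞) / N := by
      rw [ENNReal.tsum_mul_left, ENNReal.tsum_geometric]
      have : (1 - 3 / 4 : ℝ≥0∞)⁻¹ = 4 := by
        have h1 : (1 - 3 / 4 : ℝ≥0∞) = 1 / 4 := by
          have h2 : (1 : ℝ≥0∞) = 3 / 4 + 1 / 4 := by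
            rw [← ENNReal.add_div]
            norm_num
            rw [ENNReal.div_self] <;> norm_num
          nth_rewrite 1 [h2]
          rw [ENNReal.add_sub_cancel_left]
          exact ENNReal.div_ne_top (by norm_num) (by norm_num)
        rw [h1, one_div, inv_inv]
      rw [this]
      push_cast
      rw [div_eq_mul_inv, div_eq_mul_inv]
      ring

theorem sparse_acc (hd : 5 ≤ d) : ∃ C : ℕ, ∀ (N m : ℕ) (L : List (Zd d)) (z : Zd d),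
    0 < N → 0 < m → Sparse N m L z →
      Pr d {ω | ∃ n, m ^ 4 ≤ n ∧ pos z ω n ∈ L} ≤ C / (N : ℝ≥0∞) := by
  classical
  obtain ⟨C₁, h₁⟩ := sparse_sum_out hd
  obtain ⟨C₂, h₂⟩ := green_late hd
  refine ⟨C₁ + C₂, fun N m L z hN hm hS => ?_⟩
  have hN0 : (N : ℝ≥0∞) ≠ 0 := by exact_mod_cast hN.ne'
  have hNt : (N : ℝ≥0∞) ≠ ⊤ := ENNReal.natCast_ne_top N
  have hm0 : (m : ℝ≥0∞) ≠ 0 := by exact_mod_cast hm.ne'
  have hmt : (m : ℝ≥0∞) ≠ ⊤ := ENNReal.natCast_ne_top m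
  have hset : {ω : Om d | ∃ n, m ^ 4 ≤ n ∧ pos z ω n ∈ L} =
      {ω | ∃ n, m ^ 4 ≤ n ∧ pos z ω n ∈ L.toFinset} := by
    ext ω
    simp
  rw [hset]
  refine (hit_le _ _ _).trans ?_
  rw [← Finset.sum_inter_add_sum_sdiff L.toFinset (nb z (2 * m ^ 2))]
  have hA : ∑ x ∈ L.toFinset ∩ nb z (2 * m ^ 2), gT (m ^ 4) (x - z) ≤ C₂ / (N : ℝ≥0∞) := by
    calc ∑ x ∈ L.toFinset ∩ nb z (2 * m ^ 2), gT (m ^ 4) (x - z)
        ≤ ∑ x ∈ L.toFinset ∩ nb z (2 * m ^ 2), C₂ / (m : ℝ≥0∞) ^ 6 :=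
          Finset.sum_le_sum fun x _ => h₂ m hm _
      _ = ((L.toFinset ∩ nb z (2 * m ^ 2)).card : ℝ≥0∞) * (C₂ / (m : ℝ≥0∞) ^ 6) := by
          rw [Finset.sum_const, nsmul_eq_mul]
      _ ≤ ((m : ℝ≥0∞) ^ 5 / N) * (C₂ / (m : ℝ≥0∞) ^ 6) := by
          gcongr
          have h := hS 0
          rw [pow_zero, one_mul, pow_zero, one_mul] at h
          rw [ENNReal.le_div_iff_mul_le (Or.inl hN0) (Or.inl hNt), mul_comm]
          exact_mod_cast h.le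
      _ ≤ C₂ / (N : ℝ≥0∞) := by
          have hm5 : (m : ℝ≥0∞) ^ 5 ≠ 0 := pow_ne_zero _ hm0
          have hm5t : (m : ℝ≥0∞) ^ 5 ≠ ⊤ := ENNReal.pow_ne_top hmt
          have hm1 : ((m : ℝ≥0∞))⁻¹ ≤ 1 := by
            rw [ENNReal.inv_le_one]
            exact_mod_cast hm
          rw [show (m : ℝ≥0∞) ^ 6 = (m : ℝ≥0∞) ^ 5 * m from pow_succ _ _]
          rw [div_eq_mul_inv, div_eq_mul_inv, div_eq_mul_inv,
            ENNReal.mul_inv (Or.inl hm5) (Or.inl hm5t)]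
          calc (m : ℝ≥0∞) ^ 5 * (N : ℝ≥0∞)⁻¹ * (C₂ * (((m : ℝ≥0∞) ^ 5)⁻¹ * (m : ℝ≥0∞)⁻¹))
              = ((m : ℝ≥0∞) ^ 5 * ((m : ℝ≥0∞) ^ 5)⁻¹) * (C₂ * (N : ℝ≥0∞)⁻¹) * (m : ℝ≥0∞)⁻¹ := by
                ring
            _ ≤ ((m : ℝ≥0∞) ^ 5 * ((m : ℝ≥0∞) ^ 5)⁻¹) * (C₂ * (N : ℝ≥0∞)⁻¹) * 1 := by gcongr
            _ = C₂ * (N : ℝ≥0∞)⁻¹ := by rw [ENNReal.mul_inv_cancel hm5 hm5t, one_mul, mul_one]
  have hB : ∑ x ∈ L.toFinset \ nb z (2 * m ^ 2), gT (m ^ 4) (x - z) ≤ C₁ / (N : ℝ≥0∞) :=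
    (Finset.sum_le_sum fun x _ => gT_le _ _).trans (h₁ N m L z z hN hm hS (self_mem_nb _ _))
  calc _ ≤ C₂ / (N : ℝ≥0∞) + C₁ / (N : ℝ≥0∞) := add_le_add hA hB
    _ = ((C₁ + C₂ : ℕ) : ℝ≥0∞) / N := by
      rw [← ENNReal.add_div]
      push_cast
      rw [add_comm]

end Pool.Agent.H39.LP
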