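import Pool.Agent.H39.LP.ZRec

/-!
# Module ZB: bound for the generating function

* `Z_bound`: strong induction on `B.card` of
  `Zf w ψ f P B y ≤ Zf w ψ (fun _ => e) P B y + s * (2 * C₀) * Mf w e mk P B y ≤ 2 C₀`
  (second inequality: hypotheses), with `f P u = e u * (1 + s * mk P u)`:
  `Zf f P B y = green (ψ y + ∑ w y u * e u * (1 + s * mk (insert y P) u) * Zf f (insert y P) (B.erase y) u)`
  and `(1 + s mk) Z ≤ Z + s * mk * 2 C₀` by the second inequality for smaller `B`, then the first one
  for `Z`, and `Zf_rec` for `fun _ => e` and `Mf_rec`.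
  (`B.erase y ⊆ V` and `Disjoint (insert y P) (B.erase y)`.)
-/

open MeasureTheory ProbabilityTheory Filter
open scoped ENNReal
open Pool.Agent.H39.LW

namespace Pool.Agent.H39.LP

variable {U : Type*} [DecidableEq U]

theorem Z_bound (w : U → U → ℝ) (ψ : U → ℝ) (e : U → ℝ≥0∞) (mk : Finset U → U → ℝ≥0∞)
    (s K C₀ : ℝ≥0∞) (V : Finset U)
    (hK : ∀ P B : Finset U, B ⊆ V → Disjoint P B → ∀ y ∈ B, Mf w e mk P B y ≤ K)
    (hC : ∀ P B : Finset U, B ⊆ V → ∀ y ∈ B, Zf w ψ (fun _ => e) P B y ≤ C₀)
    (hs : s * K ≤ 2⁻¹) (P B : Finset U) (hB : B ⊆ V) (hPB : Disjoint P B) {y : U} (hy : y ∈ B) :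
    Zf w ψ (fun P u => e u * (1 + s * mk P u)) P B y ≤ 2 * C₀ := by
  have hsum : ∀ P B : Finset U, B ⊆ V → Disjoint P B → ∀ y ∈ B,
      Zf w ψ (fun _ => e) P B y + s * (2 * C₀) * Mf w e mk P B y ≤ 2 * C₀ := by
    intro P B hB hPB y hy
    calc Zf w ψ (fun _ => e) P B y + s * (2 * C₀) * Mf w e mk P B y
        ≤ C₀ + s * (2 * C₀) * K := add_le_add (hC P B hB y hy) (mul_le_mul' le_rfl (hK P B hB hPB y hy))
      _ = C₀ + (s * K) * (2 * C₀) := by ring
      _ ≤ C₀ + 2⁻¹ * (2 * C₀) := add_le_add le_rfl (mul_le_mul' hs le_rfl)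
      _ = C₀ + C₀ := by
          rw [← mul_assoc, ENNReal.inv_mul_cancel (by simp) (by simp), one_mul]
      _ = 2 * C₀ := (two_mul _).symm
  have key : ∀ (n : ℕ) (P B : Finset U), B.card = n → B ⊆ V → Disjoint P B → ∀ y ∈ B,
      Zf w ψ (fun P u => e u * (1 + s * mk P u)) P B y
        ≤ Zf w ψ (fun _ => e) P B y + s * (2 * C₀) * Mf w e mk P B y := by
    intro n
    induction n with
    | zero =>
      intro P B hc _ _ y hy
      rw [Finset.card_eq_zero] at hc
      rw [hc] at hy
      exact absurd hy (Finset.notMem_empty y)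
    | succ n ih =>
      intro P B hc hB hPB y hy
      have hc' : (B.erase y).card = n := by
        rw [Finset.card_erase_of_mem hy, hc]
        rfl
      have hB' : B.erase y ⊆ V := (Finset.erase_subset y B).trans hB
      have hPB' : Disjoint (insert y P) (B.erase y) := by
        rw [Finset.disjoint_insert_left]
        exact ⟨Finset.notMem_erase y B, hPB.mono_right (Finset.erase_subset y B)⟩
      rw [Zf_rec w ψ (fun P u => e u * (1 + s * mk P u)) P B hy, Zf_rec w ψ (fun _ => e) P B hy]
      set Z1 := fun u => Zf w ψ (fun P u => e u * (1 + s * mk P u)) (insert y P) (B.erase y) u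
        with hZ1
      set Z0 := fun u => Zf w ψ (fun _ => e) (insert y P) (B.erase y) u with hZ0
      set M0 := fun u => Mf w e mk (insert y P) (B.erase y) u with hM0
      have h1 : ∀ u ∈ B.erase y, e u * (1 + s * mk (insert y P) u) * Z1 u
          ≤ e u * Z0 u + s * (2 * C₀) * (e u * (mk (insert y P) u + M0 u)) := by
        intro u hu
        have h2 : Z1 u ≤ Z0 u + s * (2 * C₀) * M0 u := ih (insert y P) (B.erase y) hc' hB' hPB' u hu
        have h3 : Z1 u ≤ 2 * C₀ := h2.trans (hsum _ _ hB' hPB' u hu)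
        calc e u * (1 + s * mk (insert y P) u) * Z1 u
            = e u * Z1 u + e u * (s * mk (insert y P) u) * Z1 u := by ring
          _ ≤ e u * (Z0 u + s * (2 * C₀) * M0 u) + e u * (s * mk (insert y P) u) * (2 * C₀) :=
              add_le_add (mul_le_mul' le_rfl h2) (mul_le_mul' le_rfl h3)
          _ = _ := by ring
      calc green w B y * (ENNReal.ofReal (ψ y) + ∑ u ∈ B.erase y, ENNReal.ofReal (w y u) *
              (e u * (1 + s * mk (insert y P) u) * Z1 u))
          ≤ green w B y * (ENNReal.ofReal (ψ y) + ∑ u ∈ B.erase y, ENNReal.ofReal (w y u) *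
              (e u * Z0 u + s * (2 * C₀) * (e u * (mk (insert y P) u + M0 u)))) :=
            mul_le_mul' le_rfl (add_le_add le_rfl
              (Finset.sum_le_sum fun u hu => mul_le_mul' le_rfl (h1 u hu)))
        _ = green w B y * (ENNReal.ofReal (ψ y) + ∑ u ∈ B.erase y, ENNReal.ofReal (w y u) *
              (e u * Z0 u)) + s * (2 * C₀) * (green w B y * ∑ u ∈ B.erase y,
                ENNReal.ofReal (w y u) * (e u * (mk (insert y P) u + M0 u))) := by
            have h4 : ∑ u ∈ B.erase y, ENNReal.ofReal (w y u) *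
              (e u * Z0 u + s * (2 * C₀) * (e u * (mk (insert y P) u + M0 u)))
              = ∑ u ∈ B.erase y, ENNReal.ofReal (w y u) * (e u * Z0 u)
                + s * (2 * C₀) * ∑ u ∈ B.erase y,
                ENNReal.ofReal (w y u) * (e u * (mk (insert y P) u + M0 u)) := by
              rw [Finset.mul_sum, ← Finset.sum_add_distrib]
              refine Finset.sum_congr rfl fun u _ => ?_
              ring
            rw [h4]
            ring
        _ ≤ green w B y * (ENNReal.ofReal (ψ y) + ∑ u ∈ B.erase y, ENNReal.ofReal (w y u) *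
              (e u * Z0 u)) + s * (2 * C₀) * Mf w e mk P B y :=
            add_le_add le_rfl (mul_le_mul' le_rfl (Mf_rec w e mk P B hy))
  exact (key B.card P B rfl hB hPB y hy).trans (hsum P B hB hPB y hy)

end Pool.Agent.H39.LP
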