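import Pool.Agent.H39.LP.HKa1

/-!
# Module HKa2: Green's function in dimension `d ≥ 5`

* `sum_three_halves`: `∑' n, 1 / ((n + k^2) * sqrt (n + k^2)) ≤ C / k` for `k ≥ 1` (telescoping,
  `1/(n sqrt n) ≤ 4 (1/sqrt n - 1/sqrt (n+1))` for `n ≥ 1`), stated in `ℝ≥0∞`.
* `green_far`: if `k^2 ≤ |x i|` then `hk n x = 0` for `n < k^2` (`hk_eq_zero`) and
  `hk n x ≤ C n^(-3/2) / k^4` for `n ≥ k^2` by `hk_moment`; sum.
* `green_late`: `hk n x ≤ C n^(-5/2) ≤ C n^(-3/2) / m^4` for `n ≥ m^4` (`hk_sq_le`, `d ≥ 5`), and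
  `∑_{n ≥ m^4} n^(-3/2) ≤ C / m^2` (`sum_three_halves` with `k = m^2`).
* `green_le`: `gT 0 x ≤ C` for all `x` (`hk 0 x ≤ 1` and `gT 1 x ≤ C` by `green_late` with `m = 1`).
-/

open MeasureTheory ProbabilityTheory Filter
open scoped ENNReal
open Pool.Agent.H39.LW

namespace Pool.Agent.H39.LP

variable {d : ℕ} [NeZero d]

theorem tel_aux (y : ℝ) (hy : 1 ≤ y) :
    1 / (y * Real.sqrt y) ≤ 4 * (1 / Real.sqrt y - 1 / Real.sqrt (y + 1)) := by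
  set a := Real.sqrt y with ha
  set b := Real.sqrt (y + 1) with hb
  have ha2 : a ^ 2 = y := Real.sq_sqrt (by linarith)
  have hb2 : b ^ 2 = y + 1 := Real.sq_sqrt (by linarith)
  have ha1 : 1 ≤ a := by rw [ha]; exact Real.one_le_sqrt.mpr hy
  have hb0 : 0 < b := Real.sqrt_pos.mpr (by linarith)
  have hba : b ≤ 3 / 2 * a := by
    nlinarith
  have hab : a < b := Real.sqrt_lt_sqrt (by linarith) (by linarith)
  rw [← ha2]
  have h1 : 1 / a - 1 / b = 1 / (a * b * (a + b)) := by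
    have : b ^ 2 - a ^ 2 = 1 := by rw [ha2, hb2]; ring
    field_simp
    nlinarith
  rw [h1, mul_one_div, div_le_div_iff₀ (by positivity) (by positivity)]
  have h2 : b * (a + b) ≤ 4 * a ^ 2 := by nlinarith
  have h3 : a * (b * (a + b)) ≤ a * (4 * a ^ 2) := mul_le_mul_of_nonneg_left h2 (by linarith)
  nlinarith

theorem tsum_tel (k : ℕ) (hk : 1 ≤ k) :
    ∑' n : ℕ, ENNReal.ofReal (1 / (((n : ℝ) + (k : ℝ) ^ 2) * Real.sqrt ((n : ℝ) + (k : ℝ) ^ 2)))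
      ≤ ENNReal.ofReal (4 / k) := by
  have hk1 : (1 : ℝ) ≤ k := by exact_mod_cast hk
  have hk2 : (1 : ℝ) ≤ (k : ℝ) ^ 2 := one_le_pow₀ hk1
  refine ENNReal.tsum_le_of_sum_range_le fun N => ?_
  rw [← ENNReal.ofReal_sum_of_nonneg (fun n _ => by positivity)]
  apply ENNReal.ofReal_le_ofReal
  have key : ∀ N : ℕ, ∑ n ∈ Finset.range N,
      1 / (((n : ℝ) + (k : ℝ) ^ 2) * Real.sqrt ((n : ℝ) + (k : ℝ) ^ 2)) ≤
      4 * (1 / Real.sqrt ((k : ℝ) ^ 2) - 1 / Real.sqrt ((N : ℝ) + (k : ℝ) ^ 2)) := by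
    intro N
    induction N with
    | zero => simp
    | succ N ih =>
      rw [Finset.sum_range_succ]
      have h1 := tel_aux ((N : ℝ) + (k : ℝ) ^ 2) (by
        have : (0 : ℝ) ≤ N := Nat.cast_nonneg N
        linarith)
      have h2 : ((N : ℝ) + (k : ℝ) ^ 2 + 1) = ((N + 1 : ℕ) : ℝ) + (k : ℝ) ^ 2 := by push_cast; ring
      rw [h2] at h1
      linarith
  refine (key N).trans ?_
  rw [Real.sqrt_sq (by linarith)]
  have h3 : 0 ≤ 1 / Real.sqrt ((N : ℝ) + (k : ℝ) ^ 2) := by positivity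
  have h4 : (4 : ℝ) / k = 4 * (1 / k) := by ring
  rw [h4]
  linarith

omit [NeZero d] in
theorem sum_three_halves : ∃ C : ℝ, 0 < C ∧ ∀ k : ℕ, 1 ≤ k →
    ∑' n : ℕ, ENNReal.ofReal (1 / (((n : ℝ) + (k : ℝ) ^ 2) * Real.sqrt ((n : ℝ) + (k : ℝ) ^ 2)))
      ≤ ENNReal.ofReal (C / k) :=
  ⟨4, by norm_num, tsum_tel⟩

/-- summation of a bound `c / (N sqrt N)` for `N ≥ k ^ 2` -/
theorem tsum_bound (k : ℕ) (hk : 1 ≤ k) (c : ℝ) (hc : 0 ≤ c) (g : ℕ → ℝ)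
    (hg : ∀ n : ℕ, g n ≤ c * (1 / (((n : ℝ) + (k : ℝ) ^ 2) * Real.sqrt ((n : ℝ) + (k : ℝ) ^ 2)))) :
    ∑' n : ℕ, ENNReal.ofReal (g n) ≤ ENNReal.ofReal (c * (4 / k)) := by
  calc ∑' n : ℕ, ENNReal.ofReal (g n) ≤ ∑' n : ℕ, ENNReal.ofReal c *
        ENNReal.ofReal (1 / (((n : ℝ) + (k : ℝ) ^ 2) * Real.sqrt ((n : ℝ) + (k : ℝ) ^ 2))) := by
        refine ENNReal.tsum_le_tsum fun n => ?_
        rw [← ENNReal.ofReal_mul hc]
        exact ENNReal.ofReal_le_ofReal (hg n)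
    _ = ENNReal.ofReal c * ∑' n : ℕ,
        ENNReal.ofReal (1 / (((n : ℝ) + (k : ℝ) ^ 2) * Real.sqrt ((n : ℝ) + (k : ℝ) ^ 2))) :=
        ENNReal.tsum_mul_left
    _ ≤ ENNReal.ofReal c * ENNReal.ofReal (4 / k) := mul_le_mul_right (tsum_tel k hk) _
    _ = _ := (ENNReal.ofReal_mul hc).symm

/-- conversion of a real bound `c / k ^ e` to `ℝ≥0∞` -/
theorem ofReal_div_pow_le (c : ℝ) (k e : ℕ) (hk : 1 ≤ k) :
    ENNReal.ofReal (c / (k : ℝ) ^ e) ≤ (⌈c⌉₊ : ℝ≥0∞) / (k : ℝ≥0∞) ^ e := by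
  have hk0 : (0 : ℝ) < k := by exact_mod_cast hk
  rw [ENNReal.ofReal_div_of_pos (by positivity), ENNReal.ofReal_pow hk0.le, ENNReal.ofReal_natCast]
  refine ENNReal.div_le_div_right ?_ _
  calc ENNReal.ofReal c ≤ ENNReal.ofReal (⌈c⌉₊ : ℝ) := ENNReal.ofReal_le_ofReal (Nat.le_ceil c)
    _ = _ := ENNReal.ofReal_natCast _

theorem green_far (hd : 5 ≤ d) : ∃ C : ℕ, ∀ k : ℕ, 1 ≤ k → ∀ x : Zd d,
    (∃ i, (k : ℤ) ^ 2 ≤ |x i|) → gT 0 x ≤ C / (k : ℝ≥0∞) ^ 5 := by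
  obtain ⟨C, hC, hm⟩ := hk_moment hd
  refine ⟨⌈4 * Real.sqrt C⌉₊, fun k hkk x hx => ?_⟩
  obtain ⟨i, hi⟩ := hx
  have hk1 : (1 : ℝ) ≤ k := by exact_mod_cast hkk
  have hk0 : (0 : ℝ) < k := by linarith
  have hxi : (k : ℝ) ^ 2 ≤ |(x i : ℝ)| := by exact_mod_cast hi
  have hxi2 : (k : ℝ) ^ 4 ≤ (x i : ℝ) ^ 2 := by
    rw [← sq_abs]
    calc (k : ℝ) ^ 4 = ((k : ℝ) ^ 2) ^ 2 := by ring
      _ ≤ _ := pow_le_pow_left₀ (by positivity) hxi 2
  have h0 : ∀ n < k ^ 2, hk n x = 0 := by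
    intro n hn
    apply hk_eq_zero
    have h1 : |x i| ≤ ∑ j, |x j| :=
      Finset.single_le_sum (f := fun j => |x j|) (fun j _ => abs_nonneg _) (Finset.mem_univ i)
    have h2 : (n : ℤ) < (k : ℤ) ^ 2 := by exact_mod_cast hn
    linarith
  have hshift : gT 0 x = ∑' n, ENNReal.ofReal (hk (n + k ^ 2) x) := by
    unfold gT
    simp only [add_zero]
    rw [← ENNReal.summable.sum_add_tsum_nat_add' (f := fun n => ENNReal.ofReal (hk n x))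
      (k := k ^ 2)]
    rw [Finset.sum_eq_zero, zero_add]
    intro n hn
    rw [h0 n (Finset.mem_range.mp hn), ENNReal.ofReal_zero]
  rw [hshift]
  have hb := tsum_bound k hkk (Real.sqrt C / (k : ℝ) ^ 4) (by positivity)
    (fun n => hk (n + k ^ 2) x) (by
      intro n
      have hN : (0 : ℝ) < (n : ℝ) + (k : ℝ) ^ 2 := by positivity
      have h1 := hm (n + k ^ 2) x i
      push_cast at h1
      set N : ℝ := (n : ℝ) + (k : ℝ) ^ 2 with hNdef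
      set h := hk (n + k ^ 2) x with hh
      have hnn : 0 ≤ h := hk_nonneg _ _
      have h2 : h * (x i : ℝ) ^ 2 * (N * Real.sqrt N) ≤ Real.sqrt C := by
        apply Real.le_sqrt_of_sq_le
        calc (h * (x i : ℝ) ^ 2 * (N * Real.sqrt N)) ^ 2
            = (h * (x i : ℝ) ^ 2) ^ 2 * (N ^ 2 * (Real.sqrt N) ^ 2) := by ring
          _ = (h * (x i : ℝ) ^ 2) ^ 2 * N ^ 3 := by rw [Real.sq_sqrt hN.le]; ring
          _ ≤ C := h1
      have h3 : 0 < N * Real.sqrt N := by positivity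
      have h4 : h * (k : ℝ) ^ 4 * (N * Real.sqrt N) ≤ Real.sqrt C := by
        refine le_trans ?_ h2
        gcongr
      rw [div_mul_div_comm, mul_one, le_div_iff₀ (by positivity)]
      linarith)
  refine hb.trans ?_
  have e : Real.sqrt C / (k : ℝ) ^ 4 * (4 / k) = 4 * Real.sqrt C / (k : ℝ) ^ 5 := by
    field_simp
  rw [e]
  exact ofReal_div_pow_le _ k 5 hkk

theorem hk_five_halves (hd : 5 ≤ d) : ∃ C : ℝ, 0 ≤ C ∧ ∀ (n : ℕ) (x : Zd d), 1 ≤ n →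
    hk n x * ((n : ℝ) ^ 2 * Real.sqrt n) ≤ C := by
  obtain ⟨C, hC, hm⟩ := hk_sq_le (d := d)
  refine ⟨Real.sqrt C, Real.sqrt_nonneg _, fun n x hn => ?_⟩
  have hn1 : (1 : ℝ) ≤ n := by exact_mod_cast hn
  apply Real.le_sqrt_of_sq_le
  calc (hk n x * ((n : ℝ) ^ 2 * Real.sqrt n)) ^ 2
      = hk n x ^ 2 * ((n : ℝ) ^ 4 * (Real.sqrt n) ^ 2) := by ring
    _ = hk n x ^ 2 * (n : ℝ) ^ 5 := by rw [Real.sq_sqrt (by linarith)]; ring
    _ ≤ hk n x ^ 2 * (n : ℝ) ^ d := by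
      have := pow_le_pow_right₀ hn1 hd
      gcongr
    _ ≤ C := hm n x

theorem green_late (hd : 5 ≤ d) : ∃ C : ℕ, ∀ m : ℕ, 1 ≤ m → ∀ x : Zd d,
    gT (m ^ 4) x ≤ C / (m : ℝ≥0∞) ^ 6 := by
  obtain ⟨C, hC, hm⟩ := hk_five_halves hd
  refine ⟨⌈4 * C⌉₊, fun m hm1 x => ?_⟩
  have hm1' : (1 : ℝ) ≤ m := by exact_mod_cast hm1
  have hm0 : (0 : ℝ) < m := by linarith
  unfold gT
  have hb := tsum_bound (m ^ 2) (Nat.one_le_pow _ _ hm1) (C / (m : ℝ) ^ 4) (by positivity)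
    (fun n => hk (n + m ^ 4) x) (by
      intro n
      have h1 := hm (n + m ^ 4) x (by have := Nat.one_le_pow 4 m hm1; omega)
      push_cast at h1 ⊢
      have e : ((m : ℝ) ^ 2) ^ 2 = (m : ℝ) ^ 4 := by ring
      rw [e]
      set N : ℝ := (n : ℝ) + (m : ℝ) ^ 4 with hNdef
      have hn0 : (0 : ℝ) ≤ n := Nat.cast_nonneg n
      have hN : (0 : ℝ) < N := by positivity
      have hNm : (m : ℝ) ^ 4 ≤ N := by linarith
      set h := hk (n + m ^ 4) x with hh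
      have hnn : 0 ≤ h := hk_nonneg _ _
      have h3 : 0 < N * Real.sqrt N := by positivity
      have h4 : h * (m : ℝ) ^ 4 * (N * Real.sqrt N) ≤ C := by
        refine le_trans ?_ h1
        calc h * (m : ℝ) ^ 4 * (N * Real.sqrt N) ≤ h * N * (N * Real.sqrt N) := by gcongr
          _ = h * (N ^ 2 * Real.sqrt N) := by ring
      rw [div_mul_div_comm, mul_one, le_div_iff₀ (by positivity)]
      linarith)
  refine hb.trans ?_
  push_cast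
  have e : C / (m : ℝ) ^ 4 * (4 / (m : ℝ) ^ 2) = 4 * C / (m : ℝ) ^ 6 := by
    field_simp
  rw [e]
  exact ofReal_div_pow_le _ m 6 hm1

theorem green_le (hd : 5 ≤ d) : ∃ C : ℕ, ∀ x : Zd d, gT 0 x ≤ C := by
  obtain ⟨C, hC⟩ := green_late (d := d) hd
  refine ⟨1 + C, fun x => ?_⟩
  have h1 := hC 1 le_rfl x
  have h2 : gT 0 x = ENNReal.ofReal (hk 0 x) + gT 1 x := by
    unfold gT
    simp only [add_zero]
    rw [tsum_eq_zero_add' ENNReal.summable]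
  rw [h2]
  simp only [one_pow, Nat.cast_one, div_one] at h1
  have h3 : ENNReal.ofReal (hk 0 x) ≤ 1 := by
    have : hk 0 x ≤ 1 := by
      simp only [hk]
      split_ifs <;> norm_num
    calc ENNReal.ofReal (hk 0 x) ≤ ENNReal.ofReal 1 := ENNReal.ofReal_le_ofReal this
      _ = 1 := ENNReal.ofReal_one
  push_cast
  exact add_le_add h3 h1

end Pool.Agent.H39.LP
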