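import Pool.Agent.H39.LP.ZRec
import Pool.Agent.H39.LP.HKa2
import Pool.Agent.H39.LW.HKUpper

/-!
# Module ZZ: walk sums without marks

`Fl (fun _ => ew b A) P l ≤ 1` as `b ≤ 1`, so `Zf ≤ ∑' n, ws pk ψ B n (fun _ => 1) y`, which is monotone in `B`
(`ws_mono_set` of GreenDet).
* `exit_mass`: `∑' n, ws pk (kap V) V n 1 y = 1` for `y ∈ V` (`tsum_ws_exit`, `ae_exit`).
* `end_mass`: `∑' n, ws pk 1_{0} V n 1 y ≤ ∑' n, Pr (pos y n = 0) = gT 0 (0 - y)` (`ws_eq_lintegral`,
  `prob_pos`), bounded by `green_le`.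
-/

open MeasureTheory ProbabilityTheory Filter
open scoped ENNReal
open Pool.Agent.H39.LW

namespace Pool.Agent.H39.LP

variable {d : ℕ} [NeZero d]

theorem summable_zero (hd : 5 ≤ d) : Summable fun m => hk m (0 : Zd d) :=
  summable_hk_zero (by omega)

namespace ZZero

lemma ws_mono {U : Type*} [DecidableEq U] {w : U → U → ℝ} {ψ : U → ℝ} {B : Finset U} (n : ℕ)
    {F G : List U → ℝ≥0∞} (h : ∀ l, F l ≤ G l) (v : U) : ws w ψ B n F v ≤ ws w ψ B n G v := by
  induction n generalizing F G v with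
  | zero =>
    simp only [ws]
    split_ifs
    · exact mul_le_mul_right (h _) _
    · exact le_rfl
  | succ n ih =>
    simp only [ws]
    split_ifs
    · exact Finset.sum_le_sum fun u _ => mul_le_mul_right (ih (fun l => h _) u) _
    · exact le_rfl

lemma Fl_le_one {U : Type*} [DecidableEq U] {f : U → ℝ≥0∞} (hf : ∀ u, f u ≤ 1) (P : Finset U)
    (l : List U) : Fl (fun _ => f) P l ≤ 1 := by
  induction l generalizing P with
  | nil => simp [Fl]
  | cons u l ih =>
    simp only [Fl]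
    exact mul_le_one' (hf u) (ih _)

omit [NeZero d] in
lemma ew_le_one {b : ℝ≥0∞} (hb : b ≤ 1) (A : Finset (Zd d)) (x : Zd d) : ew b A x ≤ 1 := by
  unfold ew
  split_ifs
  · exact hb
  · exact le_rfl

end ZZero

theorem exit_mass (hd : 5 ≤ d) {V : Finset (Zd d)} {y : Zd d} (hy : y ∈ V) :
    ∑' n, ws pk (kap V) V n (fun _ => 1) y = 1 := by
  rw [tsum_ws_exit hy (ae_exit (fun z => summable_hk_of (summable_zero hd) z) y V)]
  simp

theorem Zf_exit_le (hd : 5 ≤ d) {b : ℝ≥0∞} (hb : b ≤ 1) (A : Finset (Zd d)) {V : Finset (Zd d)}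
    (P B : Finset (Zd d)) (hB : B ⊆ V) (y : Zd d) (hy : y ∈ B) :
    Zf pk (kap V) (fun _ => ew b A) P B y ≤ 1 := by
  unfold Zf
  rw [← exit_mass hd (hB hy)]
  refine ENNReal.tsum_le_tsum fun n => ?_
  refine (ZZero.ws_mono n (fun l => ?_) y).trans (ws_mono_set hB n (fun _ => 1) y)
  exact ZZero.Fl_le_one (ZZero.ew_le_one hb A) _ _

theorem Zf_end_le (hd : 5 ≤ d) : ∃ C : ℕ, ∀ b : ℝ≥0∞, b ≤ 1 → ∀ (A P B : Finset (Zd d)) (y : Zd d),
    Zf pk (fun u => if u = 0 then 1 else 0) (fun _ => ew b A) P B y ≤ C := by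
  obtain ⟨C, hC⟩ := green_le (d := d) hd
  refine ⟨C, fun b hb A P B y => le_trans ?_ (hC (0 - y))⟩
  unfold Zf gT
  refine ENNReal.tsum_le_tsum fun n => ?_
  refine (ZZero.ws_mono n (G := fun _ => 1)
    (fun l => ZZero.Fl_le_one (ZZero.ew_le_one hb A) _ _) y).trans ?_
  have hm : MeasurableSet {ω : Om d | pos y ω n = 0} :=
    (measurable_pos y n) (measurableSet_singleton 0)
  rw [ws_eq_lintegral, Nat.add_zero, ← prob_pos, ← lintegral_indicator_one hm]
  refine lintegral_mono fun ω => ?_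
  by_cases h : pos y ω n = 0
  · rw [Set.indicator_of_mem (by exact h)]
    simp only [Pi.one_apply]
    split_ifs <;> simp
  · rw [if_neg h]
    simp

end Pool.Agent.H39.LP
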