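import Pool.Agent.H39.LP.MBound
import Pool.Agent.H39.LP.ZZero
import Pool.Agent.H39.LP.Backward
import Pool.Agent.H39.LP.ZBound
import Pool.Agent.H39.LP.SparseSum

/-!
# Module GF: exponential moments of the number of marked points

Choice of the constants. Let `C₁` be the constant of `acc_le`, `C₂` that of `green_late`, `C₃` that of
`Zf_end_le`. Take a natural number `m ≥ 1` with `m ≥ 1600 C₁` and `m ≥ 72 C₂`; `T = m^4`,
`s = 1 / (40 T)`, `b = 1 - 1 / (800 T)` (so `1 - b = s / 20`, `b ≥ 1/2`, `b⁻¹ ≤ 2`).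

* `1 ≤ (1 + s) * b ^ 10`: `b^10 ≥ 1 - 10/(800 T) = 1 - s/2` (Bernoulli) and `(1+s)(1-s/2) ≥ 1` for `s ≤ 1`.
* return: `Pr {∃ n ≥ T, pos x n = x} ≤ gT T 0 ≤ C₂ / m^6 ≤ 1/72` (`hit_le` with `L = {x}`).
* `K = 18 T + b⁻¹ (C₁ / m) (1 - b)⁻¹ ≤ 18 T + 2 (C₁ / m) 800 T`, so `s K ≤ 18/40 + 40 C₁ / m ≤ 1/2`, and
  `3 T ≤ K`. By `Mf_le_zero`, `Mf_le_one`, `acc_le`: `Mf ≤ K` for `mk0`, `mk1`.
* Forward: `tsum_ws_exit` (with `ae_exit`) gives
  `∫⁻ ω, Fl f ∅ (LEf V 0 ω) = ∑' n, ws pk (kap V) V n (fun l => Fl f ∅ (LEl l)) 0`, and for lists starting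
  with `0`, `Fl f ∅ (LEl l) = f ∅ 0 * Fl f (insert 0 ∅) (LEl l).tail ≤ 2 * …`, so it is at most
  `2 * Zf pk (kap V) f ∅ V 0 ≤ 2 * 2` by `Z_bound` with `Zf_exit_le`.
* Backward: `backward` with `κ = kap V`, `Z₁ = 2 C₃` (`Z_bound` with `Zf_end_le`), `pk_symm`, `Dt_green`
  (`tsum_ws_green`), `exit_mass`. `C = 4 + 2 C₃`.
-/

open MeasureTheory ProbabilityTheory Filter
open scoped ENNReal
open Pool.Agent.H39.LW

namespace Pool.Agent.H39.LP

variable {d : ℕ} [NeZero d]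

namespace GF

omit [NeZero d] in
lemma ws_const_mul {U : Type*} [DecidableEq U] (w : U → U → ℝ) (ψ : U → ℝ) (B : Finset U)
    (c : ℝ≥0∞) : ∀ (n : ℕ) (F : List U → ℝ≥0∞) (v : U),
      ws w ψ B n (fun l => c * F l) v = c * ws w ψ B n F v
  | 0, F, v => by
    unfold ws
    split_ifs
    · ring
    · simp
  | n + 1, F, v => by
    unfold ws
    split_ifs
    · rw [Finset.mul_sum]
      refine Finset.sum_congr rfl fun u _ => ?_
      rw [ws_const_mul w ψ B c n (fun l => F (v :: l)) u]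
      ring
    · simp

lemma mk0_le (T : ℕ) (A P : Finset (Zd d)) (x : Zd d) : mk0 T A P x ≤ 1 := by
  unfold mk0
  split_ifs
  · exact le_rfl
  · exact bot_le

lemma mk1_le (T : ℕ) (A P : Finset (Zd d)) (x : Zd d) : mk1 T A P x ≤ 1 := by
  unfold mk1
  split_ifs
  · exact le_rfl
  · exact bot_le

lemma mk1_off (T : ℕ) (A P : Finset (Zd d)) (x : Zd d) (h : x ∉ A) : mk1 T A P x = 0 := by
  unfold mk1
  rw [if_neg]
  exact fun h' => h h'.1

omit [NeZero d] in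
lemma ew_le {b : ℝ≥0∞} (hb : b ≤ 1) (A : Finset (Zd d)) (x : Zd d) : ew b A x ≤ 1 := by
  unfold ew
  split_ifs
  · exact hb
  · exact le_rfl

lemma exit_eq (hd : 5 ≤ d) {V : Finset (Zd d)} (h0 : 0 ∈ V) (F : List (Zd d) → ℝ≥0∞) :
    ∫⁻ ω, F (LEf V 0 ω) ∂Pr d = ∑' n, ws pk (kap V) V n (fun l => F (LEl l)) 0 := by
  have hs := summable_zero (d := d) hd
  rw [tsum_ws_exit h0 (ae_exit (fun y => summable_hk hs y) 0 V)]
  rfl

lemma forward_of (hd : 5 ≤ d) {V : Finset (Zd d)} (h0 : 0 ∈ V) (A : Finset (Zd d))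
    {s b K : ℝ≥0∞} (hb : b ≤ 1) (hs : s ≤ 1) {mk : Finset (Zd d) → Zd d → ℝ≥0∞}
    (hmk : ∀ P x, mk P x ≤ 1)
    (hK : ∀ P B : Finset (Zd d), Disjoint P B → ∀ y ∈ B, Mf pk (ew b A) mk P B y ≤ K)
    (hsK : s * K ≤ 2⁻¹) : ∫⁻ ω, Fl (fm s b A mk) ∅ (LEf V 0 ω) ∂Pr d ≤ 4 := by
  rw [exit_eq hd h0]
  have h1 : ∀ n, ws pk (kap V) V n (fun l => Fl (fm s b A mk) ∅ (LEl l)) 0
      = fm s b A mk ∅ 0 *
        ws pk (kap V) V n (fun l => Fl (fm s b A mk) (insert 0 ∅) (LEl l).tail) 0 := by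
    intro n
    rw [← ws_const_mul]
    refine ws_congr n 0 fun l _ => ?_
    rw [LEl_cons]
    rfl
  simp only [h1]
  rw [ENNReal.tsum_mul_left]
  have h2 : fm s b A mk ∅ 0 ≤ 2 := by
    unfold fm
    calc ew b A 0 * (1 + s * mk ∅ 0) ≤ 1 * (1 + 1 * 1) :=
          mul_le_mul' (ew_le hb A 0) (add_le_add le_rfl (mul_le_mul' hs (hmk _ _)))
      _ = 2 := by norm_num
  have h3 : Zf pk (kap V) (fun P u => ew b A u * (1 + s * mk P u)) ∅ V 0 ≤ 2 * 1 :=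
    Z_bound pk (kap V) (ew b A) mk s K 1 V (fun P B _ hPB y hy => hK P B hPB y hy)
      (fun P B hB y hy => Zf_exit_le hd hb A P B hB y hy) hsK ∅ V subset_rfl
      (Finset.disjoint_empty_left V) h0
  calc fm s b A mk ∅ 0 *
        ∑' n, ws pk (kap V) V n (fun l => Fl (fm s b A mk) (insert 0 ∅) (LEl l).tail) 0
      ≤ 2 * (2 * 1) := mul_le_mul' h2 h3
    _ = 4 := by norm_num

lemma backward_of (hd : 5 ≤ d) {V : Finset (Zd d)} (h0 : 0 ∈ V) (A : Finset (Zd d))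
    {s b K C : ℝ≥0∞} (hb : b ≤ 1) (hs : s ≤ 1) {mk : Finset (Zd d) → Zd d → ℝ≥0∞}
    (hmk : ∀ P x, mk P x ≤ 1) (hmA : ∀ P x, x ∉ A → mk P x = 0)
    (hC : ∀ (P B : Finset (Zd d)) (y : Zd d),
      Zf pk (fun u => if u = 0 then 1 else 0) (fun _ => ew b A) P B y ≤ C)
    (hK : ∀ P B : Finset (Zd d), Disjoint P B → ∀ y ∈ B, Mf pk (ew b A) mk P B y ≤ K)
    (hsK : s * K ≤ 2⁻¹) :
    ∫⁻ ω, Fl (fm s b A mk) ∅ (LEf V 0 ω).reverse ∂Pr d ≤ 1 + A.card * (2 * C) := by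
  rw [exit_eq hd h0 (fun l => Fl (fm s b A mk) ∅ l.reverse)]
  have hsum := summable_zero (d := d) hd
  obtain ⟨hD, hg⟩ := Dt_green (w := pk) pk_nonneg (Λ := V)
    (fun v _ u _ => tsum_ws_green hsum V u v)
  have h1 := backward (w := pk) pk_symm (V := V) (A := A) hD hg (κ := kap V) (e := ew b A)
    (mk := mk) (s := s) (Z₁ := 2 * C) (o := 0) h0 (ew_le hb A) hmk hmA
    (fun u hu => (exit_mass hd hu).le)
    (fun P B hB hPB y hy => Z_bound pk (fun u => if u = 0 then 1 else 0) (ew b A) mk s K C V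
      (fun P B _ hPB y hy => hK P B hPB y hy) (fun P B _ y _ => hC P B y) hsK P B hB hPB hy)
  refine h1.trans ?_
  calc 1 + s * A.card * (2 * C) ≤ 1 + 1 * A.card * (2 * C) := by gcongr
    _ = 1 + A.card * (2 * C) := by rw [one_mul]

end GF

open GF

theorem gen (hd : 5 ≤ d) : ∃ (T : ℕ) (s b : ℝ≥0∞) (C : ℕ), b < 1 ∧ b ≠ 0 ∧ s ≠ ⊤ ∧ 1 ≤ (1 + s) * b ^ 10 ∧
    (∀ x : Zd d, Pr d {ω | ∃ n, T ≤ n ∧ pos x ω n = x} ≤ 1 / 72) ∧
    ∀ V A : Finset (Zd d), 0 ∈ V →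
      ∫⁻ ω, Fl (fm s b A (mk0 T A)) ∅ (LEf V 0 ω) ∂Pr d ≤ C ∧
      ∫⁻ ω, Fl (fm s b A (mk1 T A)) ∅ (LEf V 0 ω) ∂Pr d ≤ C ∧
      ∫⁻ ω, Fl (fm s b A (mk1 T A)) ∅ (LEf V 0 ω).reverse ∂Pr d ≤ C * (1 + A.card) := by
  obtain ⟨C₁, h1⟩ := acc_le (d := d) hd
  obtain ⟨C₂, h2⟩ := green_late (d := d) hd
  obtain ⟨C₃, h3⟩ := Zf_end_le (d := d) hd
  set m : ℕ := 1600 * C₁ + 72 * C₂ + 1 with hm
  have hm1 : 1 ≤ m := by omega
  set x : ℝ := ((m ^ 4 : ℕ) : ℝ) with hx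
  have hx1 : 1 ≤ x := by
    rw [hx]
    exact_mod_cast Nat.one_le_pow 4 m hm1
  have hx0 : 0 < x := by linarith
  have hmR : (1 : ℝ) ≤ m := by exact_mod_cast hm1
  set s : ℝ≥0∞ := ENNReal.ofReal (1 / (40 * x)) with hs
  set b : ℝ≥0∞ := ENNReal.ofReal (1 - 1 / (800 * x)) with hb
  have hy : 1 / (800 * x) ≤ 1 / 800 := by
    rw [div_le_div_iff₀ (by positivity) (by norm_num)]
    linarith
  have hy0 : 0 < 1 / (800 * x) := by positivity
  have hbhalf : 2⁻¹ ≤ b := by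
    rw [hb]
    have : (2 : ℝ≥0∞)⁻¹ = ENNReal.ofReal (1 / 2) := by
      rw [one_div, ENNReal.ofReal_inv_of_pos (by norm_num)]
      simp
    rw [this]
    exact ENNReal.ofReal_le_ofReal (by linarith)
  have hb1 : b < 1 := by
    rw [hb, ← ENNReal.ofReal_one]
    exact (ENNReal.ofReal_lt_ofReal_iff (by norm_num)).2 (by linarith)
  have hb0 : b ≠ 0 := by
    intro h
    rw [h] at hbhalf
    simp at hbhalf
  have hs1 : s ≤ 1 := by
    rw [hs, ← ENNReal.ofReal_one]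
    refine ENNReal.ofReal_le_ofReal ?_
    rw [div_le_one (by positivity)]
    linarith
  have hbinv : b⁻¹ ≤ 2 := by
    rw [ENNReal.inv_le_iff_inv_le]
    exact hbhalf
  have h1b : (1 - b)⁻¹ = ENNReal.ofReal (800 * x) := by
    rw [hb, ← ENNReal.ofReal_one, ← ENNReal.ofReal_sub _ (by linarith)]
    rw [show (1 : ℝ) - (1 - 1 / (800 * x)) = (800 * x)⁻¹ by rw [one_div]; ring]
    rw [ENNReal.ofReal_inv_of_pos (by positivity), inv_inv]
  set K : ℝ≥0∞ := ENNReal.ofReal (18 * x + 1600 * C₁ * x / m) with hK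
  have hTx : ((m ^ 4 : ℕ) : ℝ≥0∞) = ENNReal.ofReal x := by
    rw [hx, ENNReal.ofReal_natCast]
  have hC1 : (0 : ℝ) ≤ C₁ := Nat.cast_nonneg _
  have hK3 : 3 * ((m ^ 4 : ℕ) : ℝ≥0∞) ≤ K := by
    rw [hTx, hK, show (3 : ℝ≥0∞) = ENNReal.ofReal 3 by simp, ← ENNReal.ofReal_mul (by norm_num)]
    refine ENNReal.ofReal_le_ofReal ?_
    have : 0 ≤ 1600 * C₁ * x / m := by positivity
    linarith
  have hK1 : 18 * ((m ^ 4 : ℕ) : ℝ≥0∞) + b⁻¹ * (C₁ / (m : ℝ≥0∞) * (1 - b)⁻¹) ≤ K := by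
    have e1 : (C₁ : ℝ≥0∞) / (m : ℝ≥0∞) = ENNReal.ofReal ((C₁ : ℝ) / m) := by
      rw [ENNReal.ofReal_div_of_pos (by positivity), ENNReal.ofReal_natCast,
        ENNReal.ofReal_natCast]
    calc 18 * ((m ^ 4 : ℕ) : ℝ≥0∞) + b⁻¹ * (C₁ / (m : ℝ≥0∞) * (1 - b)⁻¹)
        ≤ 18 * ((m ^ 4 : ℕ) : ℝ≥0∞) + 2 * (C₁ / (m : ℝ≥0∞) * (1 - b)⁻¹) := by gcongr
      _ = K := by
          rw [h1b, e1, hTx, hK, show (18 : ℝ≥0∞) = ENNReal.ofReal 18 by simp,
            show (2 : ℝ≥0∞) = ENNReal.ofReal 2 by simp, ← ENNReal.ofReal_mul (by norm_num),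
            ← ENNReal.ofReal_mul (by positivity), ← ENNReal.ofReal_mul (by norm_num),
            ← ENNReal.ofReal_add (by positivity) (by positivity)]
          congr 1
          field_simp
          ring
  have hsK : s * K ≤ 2⁻¹ := by
    have : (2 : ℝ≥0∞)⁻¹ = ENNReal.ofReal (1 / 2) := by
      rw [one_div, ENNReal.ofReal_inv_of_pos (by norm_num)]
      simp
    rw [this, hs, hK, ← ENNReal.ofReal_mul (by positivity)]
    refine ENNReal.ofReal_le_ofReal ?_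
    have e1 : 1 / (40 * x) * (18 * x + 1600 * C₁ * x / m) = 18 / 40 + 40 * C₁ / m := by
      field_simp
      ring
    rw [e1]
    have e2 : 40 * (C₁ : ℝ) / m ≤ 1 / 40 := by
      rw [div_le_div_iff₀ (by positivity) (by norm_num)]
      have : (1600 * C₁ : ℝ) ≤ m := by
        have h : 1600 * C₁ ≤ m := by omega
        exact_mod_cast h
      linarith
    linarith
  have hM0 : ∀ A : Finset (Zd d), ∀ P B : Finset (Zd d), Disjoint P B → ∀ y ∈ B,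
      Mf pk (ew b A) (mk0 (m ^ 4) A) P B y ≤ K := fun A P B hPB y hy =>
    (Mf_le_zero (m ^ 4) hb1.le A P B hPB hy).trans hK3
  have hM1 : ∀ A : Finset (Zd d), ∀ P B : Finset (Zd d), Disjoint P B → ∀ y ∈ B,
      Mf pk (ew b A) (mk1 (m ^ 4) A) P B y ≤ K := fun A P B hPB y hy =>
    (Mf_le_one (m ^ 4) hb0 hb1.le A P B hPB hy).trans
      ((add_le_add le_rfl (mul_le_mul' le_rfl (h1 m hm1 b hbhalf hb1 A y))).trans hK1)
  refine ⟨m ^ 4, s, b, 4 + 2 * C₃, hb1, hb0, ENNReal.ofReal_ne_top, ?_, ?_, ?_⟩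
  · -- (1 + s) b ^ 10 ≥ 1
    rw [hs, hb, ← ENNReal.ofReal_pow (by linarith), ← ENNReal.ofReal_one,
      ← ENNReal.ofReal_add (by norm_num) (by positivity), ← ENNReal.ofReal_mul (by positivity)]
    refine ENNReal.ofReal_le_ofReal ?_
    have e1 : 1 + (10 : ℕ) * (-(1 / (800 * x))) ≤ (1 + -(1 / (800 * x))) ^ 10 :=
      one_add_mul_le_pow (by linarith) 10
    have e2 : (1 : ℝ) - 1 / (80 * x) ≤ (1 - 1 / (800 * x)) ^ 10 := by
      have e3 : 1 + (10 : ℕ) * (-(1 / (800 * x))) = (1 : ℝ) - 1 / (80 * x) := by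
        push_cast
        field_simp
        ring
      rw [e3] at e1
      exact e1
    have e4 : 1 ≤ (1 + 1 / (40 * x)) * (1 - 1 / (80 * x)) := by
      have e5 : (1 + 1 / (40 * x)) * (1 - 1 / (80 * x)) = 1 + (1 / (80 * x)) * (1 - 1 / (40 * x)) := by
        field_simp
        ring
      rw [e5]
      have e6 : 1 / (40 * x) ≤ 1 := by
        rw [div_le_one (by positivity)]
        linarith
      have e7 : 0 ≤ (1 / (80 * x)) * (1 - 1 / (40 * x)) := mul_nonneg (by positivity) (by linarith)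
      linarith
    calc 1 ≤ (1 + 1 / (40 * x)) * (1 - 1 / (80 * x)) := e4
      _ ≤ (1 + 1 / (40 * x)) * (1 - 1 / (800 * x)) ^ 10 := by gcongr
  · intro z
    have e1 := hit_le (m ^ 4) z {z}
    simp only [Finset.mem_singleton, Finset.sum_singleton, sub_self] at e1
    refine e1.trans ((h2 m hm1 0).trans ?_)
    have e2 : (C₂ : ℝ≥0∞) / (m : ℝ≥0∞) ^ 6 ≤ C₂ / (m : ℝ≥0∞) := by
      gcongr
      have : (m : ℝ≥0∞) = (m : ℝ≥0∞) ^ 1 := (pow_one _).symm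
      calc (m : ℝ≥0∞) = (m : ℝ≥0∞) ^ 1 := (pow_one _).symm
        _ ≤ (m : ℝ≥0∞) ^ 6 := pow_le_pow_right₀ (by exact_mod_cast hm1) (by norm_num)
    refine e2.trans ?_
    rw [ENNReal.div_le_iff (by simp only [ne_eq, Nat.cast_eq_zero]; omega)
      (ENNReal.natCast_ne_top m), one_div, ← ENNReal.div_eq_inv_mul,
      ENNReal.le_div_iff_mul_le (Or.inl (by simp)) (Or.inl (by simp))]
    have : C₂ * 72 ≤ m := by omega
    exact_mod_cast this
  · intro V A h0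
    refine ⟨?_, ?_, ?_⟩
    · refine (forward_of hd h0 A hb1.le hs1 (mk0_le _ A) (hM0 A) hsK).trans ?_
      push_cast
      exact le_self_add
    · refine (forward_of hd h0 A hb1.le hs1 (mk1_le _ A) (hM1 A) hsK).trans ?_
      push_cast
      exact le_self_add
    · refine (backward_of hd h0 A hb1.le hs1 (mk1_le _ A) (mk1_off _ A)
        (fun P B y => h3 b hb1.le A P B y) (hM1 A) hsK).trans ?_
      push_cast
      have e8 : (1 : ℝ≥0∞) ≤ 4 + 2 * C₃ := le_trans (by norm_num) (le_self_add (a := 4))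
      have e9 : (A.card : ℝ≥0∞) * (2 * C₃) ≤ (4 + 2 * C₃) * A.card := by
        rw [mul_comm]
        exact mul_le_mul' le_add_self le_rfl
      calc 1 + (A.card : ℝ≥0∞) * (2 * C₃) ≤ 4 + 2 * C₃ + (4 + 2 * C₃) * A.card := add_le_add e8 e9
        _ = (4 + 2 * C₃) * (1 + A.card) := by ring

end Pool.Agent.H39.LP
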