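import Pool.Agent.H39.LP.Base

/-!
# Expected number of visits at late times
-/

open MeasureTheory ProbabilityTheory Filter
open scoped ENNReal
open Pool.Agent.H39.LW

namespace Pool.Agent.H39.LP

variable {d : ℕ}

/-- expected number of visits of `x` at times `≥ T` -/
noncomputable def gT (T : ℕ) (x : Zd d) : ℝ≥0∞ := ∑' n, ENNReal.ofReal (hk (n + T) x)

end Pool.Agent.H39.LP
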