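import Pool.Agent.H39.LP.GreenDef
import Pool.Agent.H39.LW.HKUpper
import Pool.Agent.H39.LW.HKLower
import Pool.Agent.H39.LW.HKDiff

/-!
# Module HKa1: pointwise heat kernel bounds

* `hk_sq_le`: `hk n x ^ 2 * n ^ d ≤ C`. From `hk_zero_le` (HKUpper):
  `hk m 0 ^ 2 ≤ d^d m! / (m+d)! ≤ d^d / (m+1)^d`, and `hk (m+m) x ≤ hk (m+m) 0`,
  `hk (m+m+1) x ≤ hk (m+m) 0` (`HD.hk_even_le`, `HD.hk_odd_le` of HKDiff).
* `hk_moment`: `(hk n x * (x i)^2)^2 * n^3 ≤ C`. Write `n = a + b` with `a = n/2`, `b = n - n/2`,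
  `hk n x = ∑' y, hk a y * hk b (x - y)` (`hk_add`), `(x i)^2 ≤ 2 (y i)^2 + 2 ((x-y) i)^2`,
  bound one factor by its supremum `≤ sqrt (C / a^d)` and use the second moment
  `∑' y, hk a y * ∑ i, (y i)^2 = a` (`hk_second_moment`, HKLower); so `hk n x (x i)^2 ≤ C n * n^(-5/2)`
  for `n ≥ 2` (`d ≥ 5`, `a ≥ n/3`), and `n ≤ 1` is trivial.
-/

open MeasureTheory ProbabilityTheory Filter
open scoped ENNReal
open Pool.Agent.H39.LW

namespace Pool.Agent.H39.LP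

variable {d : ℕ} [NeZero d]

namespace HKa1

lemma hk_zero_sq_le (m : ℕ) : hk m (0 : Zd d) ^ 2 * ((m : ℝ) + 1) ^ d ≤ (d : ℝ) ^ d := by
  have h1 := hk_zero_le (d := d) m
  have h2 : (m.factorial : ℝ) * ((m : ℝ) + 1) ^ d ≤ ((m + d).factorial : ℝ) := by
    have ha := Nat.factorial_mul_ascFactorial m d
    have hb := Nat.pow_succ_le_ascFactorial (m + 1) d
    have : m.factorial * (m + 1) ^ d ≤ (m + d).factorial := by
      rw [← ha]
      exact Nat.mul_le_mul_left _ hb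
    exact_mod_cast this
  have hf2 : (0 : ℝ) < (m + d).factorial := Nat.cast_pos.mpr (Nat.factorial_pos _)
  have hd : (0 : ℝ) ≤ (d : ℝ) ^ d := by positivity
  calc hk m (0 : Zd d) ^ 2 * ((m : ℝ) + 1) ^ d
      ≤ ((d : ℝ) ^ d * (m.factorial : ℝ) / ((m + d).factorial : ℝ)) * ((m : ℝ) + 1) ^ d := by gcongr
    _ = (d : ℝ) ^ d * ((m.factorial : ℝ) * ((m : ℝ) + 1) ^ d) / ((m + d).factorial : ℝ) := by ring
    _ ≤ (d : ℝ) ^ d * ((m + d).factorial : ℝ) / ((m + d).factorial : ℝ) := by gcongr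
    _ = (d : ℝ) ^ d := by field_simp

lemma hk_sq_le' (n : ℕ) (x : Zd d) : hk n x ^ 2 * (n : ℝ) ^ d ≤ (d : ℝ) ^ d := by
  rcases Nat.even_or_odd' n with ⟨m, rfl | rfl⟩
  · have h1 := HD.hk_even_le m x
    have h2 := hk_zero_sq_le (d := d) (m + m)
    have h0 := hk_nonneg (m + m) x
    rw [two_mul]
    refine le_trans ?_ h2
    gcongr
    push_cast
    linarith
  · have h1 := HD.hk_odd_le m x
    have h2 := hk_zero_sq_le (d := d) (m + m)
    have h0 := hk_nonneg (m + m + 1) x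
    rw [two_mul]
    refine le_trans ?_ h2
    gcongr
    push_cast
    linarith

/-- the mixed sum -/
lemma moment_split (a b : ℕ) (x : Zd d) (i : Fin d) {S T : ℝ} (hS : ∀ y : Zd d, hk b y ≤ S)
    (hT : ∀ y : Zd d, hk a y ≤ T) :
    hk (a + b) x * (x i : ℝ) ^ 2 ≤ 2 * S * a + 2 * T * b := by
  have hm1 := hk_second_moment (d := d) a
  have hm2 := hk_second_moment (d := d) b
  have hS0 : 0 ≤ S := (hk_nonneg b 0).trans (hS 0)
  have hT0 : 0 ≤ T := (hk_nonneg a 0).trans (hT 0)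
  have e2 : ∑' y : Zd d, hk b (x - y) * (∑ i, ((x - y) i : ℝ) ^ 2) = b := by
    rw [← hm2]
    exact (Equiv.subLeft x).tsum_eq fun y => hk b y * (∑ i, (y i : ℝ) ^ 2)
  have s1 : Summable fun y : Zd d => hk a y * (∑ i, (y i : ℝ) ^ 2) := summable_hk_mul' a _
  have s2 : Summable fun y : Zd d => hk b (x - y) * (∑ i, ((x - y) i : ℝ) ^ 2) := by
    have := (Equiv.subLeft x).summable_iff.2 (summable_hk_mul' (d := d) b fun y => ∑ i, (y i : ℝ) ^ 2)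
    exact this
  have s0 : Summable fun y : Zd d => hk a y * (hk b (x - y) * (x i : ℝ) ^ 2) := summable_hk_mul' a _
  rw [hk_add, ← tsum_mul_right]
  have hle : ∀ y : Zd d, hk a y * hk b (x - y) * (x i : ℝ) ^ 2 ≤
      2 * S * (hk a y * (∑ i, (y i : ℝ) ^ 2)) +
      2 * T * (hk b (x - y) * (∑ i, ((x - y) i : ℝ) ^ 2)) := by
    intro y
    have ha := hk_nonneg a y
    have hb := hk_nonneg b (x - y)
    have q1 : (x i : ℝ) ^ 2 ≤ 2 * (y i : ℝ) ^ 2 + 2 * ((x - y) i : ℝ) ^ 2 := by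
      simp only [Pi.sub_apply, Int.cast_sub]
      nlinarith [sq_nonneg ((y i : ℝ) - ((x i : ℝ) - (y i : ℝ)))]
    have q2 : (y i : ℝ) ^ 2 ≤ ∑ i, (y i : ℝ) ^ 2 :=
      Finset.single_le_sum (f := fun i => (y i : ℝ) ^ 2) (fun j _ => sq_nonneg _) (Finset.mem_univ i)
    have q3 : ((x - y) i : ℝ) ^ 2 ≤ ∑ i, ((x - y) i : ℝ) ^ 2 :=
      Finset.single_le_sum (f := fun i => ((x - y) i : ℝ) ^ 2) (fun j _ => sq_nonneg _)
        (Finset.mem_univ i)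
    have q4 : 0 ≤ ∑ i, (y i : ℝ) ^ 2 := Finset.sum_nonneg fun j _ => sq_nonneg _
    have q5 : 0 ≤ ∑ i, ((x - y) i : ℝ) ^ 2 := Finset.sum_nonneg fun j _ => sq_nonneg _
    calc hk a y * hk b (x - y) * (x i : ℝ) ^ 2
        ≤ hk a y * hk b (x - y) * (2 * (∑ i, (y i : ℝ) ^ 2) + 2 * ∑ i, ((x - y) i : ℝ) ^ 2) := by
          gcongr
          linarith
      _ = 2 * (hk b (x - y)) * (hk a y * (∑ i, (y i : ℝ) ^ 2)) +
          2 * (hk a y) * (hk b (x - y) * (∑ i, ((x - y) i : ℝ) ^ 2)) := by ring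
      _ ≤ _ := by
          have t1 := hS (x - y)
          have t2 := hT y
          gcongr
  have s0' : Summable fun y : Zd d => hk a y * hk b (x - y) * (x i : ℝ) ^ 2 := by
    simpa only [mul_assoc] using s0
  refine (s0'.tsum_le_tsum hle ((s1.mul_left _).add (s2.mul_left _))).trans ?_
  rw [(s1.mul_left _).tsum_add (s2.mul_left _), tsum_mul_left, tsum_mul_left, hm1, e2]

lemma hk_le_sqrt {n a : ℕ} (hn : 1 ≤ n) (hna : n ≤ 3 * a) (y : Zd d) :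
    hk a y ≤ Real.sqrt ((d : ℝ) ^ d * 3 ^ d / (n : ℝ) ^ d) := by
  have h0 := hk_nonneg a y
  refine Real.le_sqrt_of_sq_le ?_
  have h1 := hk_sq_le' a y
  have hn' : (0 : ℝ) < n := by exact_mod_cast hn
  rw [le_div_iff₀ (by positivity)]
  have h2 : (n : ℝ) ^ d ≤ (3 * a) ^ d := by
    gcongr
    exact_mod_cast hna
  calc hk a y ^ 2 * (n : ℝ) ^ d ≤ hk a y ^ 2 * (3 * a) ^ d := by gcongr
    _ = hk a y ^ 2 * (a : ℝ) ^ d * 3 ^ d := by rw [mul_pow]; ring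
    _ ≤ (d : ℝ) ^ d * 3 ^ d := by gcongr

end HKa1

theorem hk_sq_le : ∃ C : ℝ, 0 < C ∧ ∀ (n : ℕ) (x : Zd d), hk n x ^ 2 * (n : ℝ) ^ d ≤ C := by
  refine ⟨(d : ℝ) ^ d, ?_, fun n x => HKa1.hk_sq_le' n x⟩
  have : (0 : ℝ) < d := by exact_mod_cast Nat.pos_of_ne_zero (NeZero.ne d)
  positivity

theorem hk_moment (hd : 5 ≤ d) : ∃ C : ℝ, 0 < C ∧ ∀ (n : ℕ) (x : Zd d) (i : Fin d),
    (hk n x * (x i : ℝ) ^ 2) ^ 2 * (n : ℝ) ^ 3 ≤ C := by
  have hd0 : (0 : ℝ) < d := by exact_mod_cast Nat.pos_of_ne_zero (NeZero.ne d)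
  refine ⟨4 * ((d : ℝ) ^ d * 3 ^ d) + 1, by positivity, fun n x i => ?_⟩
  have hC : (0 : ℝ) ≤ 4 * ((d : ℝ) ^ d * 3 ^ d) := by positivity
  rcases Nat.lt_or_ge n 2 with hn | hn
  · interval_cases n
    · simp
      linarith
    · have h1 := hk_second_moment (d := d) 1
      have h2 : hk 1 x * (∑ i, (x i : ℝ) ^ 2) ≤ 1 := by
        have h3 := (summable_hk_mul' (d := d) 1 fun x => (∑ i, (x i : ℝ) ^ 2)).le_tsum x
          fun y _ => mul_nonneg (hk_nonneg _ _) (Finset.sum_nonneg fun j _ => sq_nonneg _)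
        rw [h1] at h3
        simpa using h3
      have h4 : (x i : ℝ) ^ 2 ≤ ∑ i, (x i : ℝ) ^ 2 :=
        Finset.single_le_sum (f := fun i => (x i : ℝ) ^ 2) (fun j _ => sq_nonneg _)
          (Finset.mem_univ i)
      have h5 : hk 1 x * (x i : ℝ) ^ 2 ≤ 1 :=
        (mul_le_mul_of_nonneg_left h4 (hk_nonneg _ _)).trans h2
      have h6 : 0 ≤ hk 1 x * (x i : ℝ) ^ 2 := mul_nonneg (hk_nonneg _ _) (sq_nonneg _)
      have h7 : (hk 1 x * (x i : ℝ) ^ 2) ^ 2 ≤ 1 := by nlinarith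
      simp
      linarith
  · set a := n / 2 with ha
    set b := n - n / 2 with hb
    have hab : a + b = n := by omega
    have hR := HKa1.moment_split a b x i (fun y => HKa1.hk_le_sqrt (n := n) (a := b) (by omega) (by omega) y)
      (fun y => HKa1.hk_le_sqrt (n := n) (a := a) (by omega) (by omega) y)
    set R := Real.sqrt ((d : ℝ) ^ d * 3 ^ d / (n : ℝ) ^ d) with hRdef
    have hR0 : 0 ≤ R := Real.sqrt_nonneg _
    rw [hab] at hR
    have hnn : (a : ℝ) + b = n := by exact_mod_cast hab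
    have h1 : hk n x * (x i : ℝ) ^ 2 ≤ 2 * R * n := by
      rw [← hnn]
      linarith
    have h0 : 0 ≤ hk n x * (x i : ℝ) ^ 2 := mul_nonneg (hk_nonneg _ _) (sq_nonneg _)
    have hn1 : (1 : ℝ) ≤ n := by exact_mod_cast (by omega : 1 ≤ n)
    have hRsq : R ^ 2 = (d : ℝ) ^ d * 3 ^ d / (n : ℝ) ^ d := Real.sq_sqrt (by positivity)
    have hpow : (n : ℝ) ^ 5 ≤ (n : ℝ) ^ d := pow_le_pow_right₀ hn1 hd
    calc (hk n x * (x i : ℝ) ^ 2) ^ 2 * (n : ℝ) ^ 3 ≤ (2 * R * n) ^ 2 * (n : ℝ) ^ 3 := by gcongr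
      _ = 4 * R ^ 2 * (n : ℝ) ^ 5 := by ring
      _ = 4 * ((d : ℝ) ^ d * 3 ^ d) * ((n : ℝ) ^ 5 / (n : ℝ) ^ d) := by rw [hRsq]; ring
      _ ≤ 4 * ((d : ℝ) ^ d * 3 ^ d) * 1 := by
          gcongr
          rw [div_le_one (by positivity)]
          exact hpow
      _ ≤ _ := by linarith

end Pool.Agent.H39.LP
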