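import Pool.Agent.H39.LP.HKa2

/-!
# Module HKa3: occupation time of a box

`occ_le`: `∑' n, Pr (pos u n ∈ nb z r) ≤ r^2 + ∑_{n ≥ r^2} (2r+1)^d sqrt (C / n^d)` (`hk_sq_le`, `card_nb`,
`prob_pos`: `Pr (pos u n = x) = ofReal (hk n (x - u))`) and `n^(-d/2) ≤ r^(3-d) n^(-3/2)` for `n ≥ r^2`
(`d ≥ 3`), so it is at most `r^2 + (3 r)^d C' r^(3-d) C'' / r` (`sum_three_halves` with `k = r`).
-/

open MeasureTheory ProbabilityTheory Filter
open scoped ENNReal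
open Pool.Agent.H39.LW

namespace Pool.Agent.H39.LP

variable {d : ℕ} [NeZero d]

/-- heat kernel at late times -/
lemma hk_late_le (hd : 5 ≤ d) {C : ℝ} (hC : 0 < C)
    (h : ∀ (n : ℕ) (x : Zd d), hk n x ^ 2 * (n : ℝ) ^ d ≤ C) (m r : ℕ) (hr : 1 ≤ r) (x : Zd d) :
    hk (m + r ^ 2) x ≤ Real.sqrt C / (r : ℝ) ^ (d - 3) *
      (1 / (((m : ℝ) + (r : ℝ) ^ 2) * Real.sqrt ((m : ℝ) + (r : ℝ) ^ 2))) := by
  have hr' : (1 : ℝ) ≤ r := by exact_mod_cast hr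
  have hr0 : (0 : ℝ) < r := by linarith
  set N : ℝ := (m : ℝ) + (r : ℝ) ^ 2 with hN
  have hNr : (r : ℝ) ^ 2 ≤ N := by
    have : (0 : ℝ) ≤ m := Nat.cast_nonneg m
    linarith
  have hN0 : 0 < N := lt_of_lt_of_le (by positivity) hNr
  have hcast : ((m + r ^ 2 : ℕ) : ℝ) = N := by push_cast; rfl
  have h1 := h (m + r ^ 2) x
  rw [hcast] at h1
  have hk0 := hk_nonneg (m + r ^ 2) x
  have hsq : Real.sqrt N ^ 2 = N := Real.sq_sqrt hN0.le
  have hsq0 : 0 < Real.sqrt N := Real.sqrt_pos.2 hN0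
  have hpow : ((r : ℝ) ^ (d - 3)) ^ 2 * N ^ 3 ≤ N ^ d := by
    have e1 : N ^ d = N ^ (d - 3) * N ^ 3 := by rw [← pow_add]; congr 1; omega
    have e2 : ((r : ℝ) ^ (d - 3)) ^ 2 = ((r : ℝ) ^ 2) ^ (d - 3) := by
      rw [← pow_mul, ← pow_mul]; congr 1; ring
    rw [e1, e2]
    exact mul_le_mul_of_nonneg_right (pow_le_pow_left₀ (by positivity) hNr _) (by positivity)
  have h2 : hk (m + r ^ 2) x * ((r : ℝ) ^ (d - 3) * (N * Real.sqrt N)) ≤ Real.sqrt C := by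
    rw [Real.le_sqrt (by positivity) hC.le]
    calc (hk (m + r ^ 2) x * ((r : ℝ) ^ (d - 3) * (N * Real.sqrt N))) ^ 2
        = hk (m + r ^ 2) x ^ 2 * (((r : ℝ) ^ (d - 3)) ^ 2 * (N ^ 2 * Real.sqrt N ^ 2)) := by ring
      _ = hk (m + r ^ 2) x ^ 2 * (((r : ℝ) ^ (d - 3)) ^ 2 * N ^ 3) := by rw [hsq]; ring
      _ ≤ hk (m + r ^ 2) x ^ 2 * N ^ d := mul_le_mul_of_nonneg_left hpow (by positivity)
      _ ≤ C := h1
  rw [div_mul_div_comm, mul_one, le_div_iff₀ (by positivity)]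
  exact h2

theorem occ_le (hd : 5 ≤ d) : ∃ C : ℕ, 0 < C ∧ ∀ (u z : Zd d) (r : ℕ), 1 ≤ r →
    ∑' n, Pr d {ω | pos u ω n ∈ (nb z r : Set (Zd d))} ≤ ((C * r ^ 2 : ℕ) : ℝ≥0∞) := by
  obtain ⟨C1, hC1, h1⟩ := hk_sq_le (d := d)
  obtain ⟨C2, hC2, h2⟩ := sum_three_halves
  set K : ℝ := 3 ^ d * Real.sqrt C1 * C2 with hK
  have hK0 : 0 ≤ K := by positivity
  refine ⟨⌈K⌉₊ + 1, by omega, ?_⟩
  intro u z r hr
  have hr' : (1 : ℝ) ≤ r := by exact_mod_cast hr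
  have hr0 : (0 : ℝ) < r := by linarith
  -- the probability of a box
  have hp : ∀ n, Pr d {ω | pos u ω n ∈ (nb z r : Set (Zd d))} ≤
      ∑ x ∈ nb z r, ENNReal.ofReal (hk n (x - u)) := by
    intro n
    have hset : {ω : Om d | pos u ω n ∈ (nb z r : Set (Zd d))} ⊆
        ⋃ x ∈ nb z r, {ω | pos u ω n = x} := by
      intro ω hω
      simp only [Set.mem_iUnion]
      exact ⟨pos u ω n, hω, rfl⟩
    refine (measure_mono hset).trans ((measure_biUnion_finset_le _ _).trans ?_)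
    exact Finset.sum_le_sum fun x _ => (prob_pos n u x).le
  have hlate : ∀ m, Pr d {ω | pos u ω (m + r ^ 2) ∈ (nb z r : Set (Zd d))} ≤
      ENNReal.ofReal ((3 * r : ℝ) ^ d * (Real.sqrt C1 / (r : ℝ) ^ (d - 3))) * ENNReal.ofReal
        (1 / (((m : ℝ) + (r : ℝ) ^ 2) * Real.sqrt ((m : ℝ) + (r : ℝ) ^ 2))) := by
    intro m
    refine (hp (m + r ^ 2)).trans ?_
    have hx : ∀ x ∈ nb z r, ENNReal.ofReal (hk (m + r ^ 2) (x - u)) ≤
        ENNReal.ofReal (Real.sqrt C1 / (r : ℝ) ^ (d - 3) *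
          (1 / (((m : ℝ) + (r : ℝ) ^ 2) * Real.sqrt ((m : ℝ) + (r : ℝ) ^ 2)))) :=
      fun x _ => ENNReal.ofReal_le_ofReal (hk_late_le hd hC1 h1 m r hr (x - u))
    refine (Finset.sum_le_sum hx).trans ?_
    rw [Finset.sum_const, nsmul_eq_mul, card_nb, ← ENNReal.ofReal_natCast,
      ← ENNReal.ofReal_mul (by positivity), ← ENNReal.ofReal_mul (by positivity)]
    apply ENNReal.ofReal_le_ofReal
    rw [mul_assoc]
    apply mul_le_mul_of_nonneg_right _ (by positivity)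
    push_cast
    apply pow_le_pow_left₀ (by positivity)
    linarith
  have hsum := (ENNReal.summable (f := fun n =>
    Pr d {ω | pos u ω (n + r ^ 2) ∈ (nb z r : Set (Zd d))})).sum_add_tsum_nat_add'
    (f := fun n => Pr d {ω | pos u ω n ∈ (nb z r : Set (Zd d))}) (k := r ^ 2)
  rw [← hsum]
  have hA : ∑ i ∈ Finset.range (r ^ 2), Pr d {ω | pos u ω i ∈ (nb z r : Set (Zd d))} ≤
      ((r ^ 2 : ℕ) : ℝ≥0∞) := by
    refine (Finset.sum_le_sum fun i _ => prob_le_one).trans ?_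
    simp
  have hB : ∑' m, Pr d {ω | pos u ω (m + r ^ 2) ∈ (nb z r : Set (Zd d))} ≤
      ((⌈K⌉₊ * r ^ 2 : ℕ) : ℝ≥0∞) := by
    refine (ENNReal.tsum_le_tsum hlate).trans ?_
    rw [ENNReal.tsum_mul_left]
    refine (mul_le_mul_right (h2 r hr) _).trans ?_
    rw [← ENNReal.ofReal_mul (by positivity), ← ENNReal.ofReal_natCast]
    apply ENNReal.ofReal_le_ofReal
    have e : (3 * r : ℝ) ^ d * (Real.sqrt C1 / (r : ℝ) ^ (d - 3)) * (C2 / r) = K * r ^ 2 := by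
      have e1 : (3 * r : ℝ) ^ d = 3 ^ d * ((r : ℝ) ^ (d - 3) * r ^ 3) := by
        rw [mul_pow, ← pow_add]
        congr 2
        omega
      rw [e1, hK]
      have : (r : ℝ) ^ (d - 3) ≠ 0 := by positivity
      field_simp
    rw [e]
    push_cast
    apply mul_le_mul_of_nonneg_right (Nat.le_ceil K) (by positivity)
  refine (add_le_add hA hB).trans (le_of_eq ?_)
  push_cast
  ring

end Pool.Agent.H39.LP
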