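import Pool.Agent.H39.LP.HKb1
import Pool.Agent.H39.LW.HKLower

/-!
# Module HKb: heat kernel lower bound

`hit_lower`: for `a ∈ nb y ρ` there is `n ≤ C ρ^2` with `Pr (pos y n = a) ≥ 1 / (C ρ^d)`.

Let `u n = hk (n+n) 0`, `δ n = u n - u (n+1)`.
* For a two-step vector `z = sv e + sv e'`: `∑_{e,e'} hk (n+n) (sv e + sv e') / (2d)^2 = u (n+1)` (`hk` recursion,
  `hk_neg`) and every term is at most `u n` (`HD.hk_even_le`), so `u n - hk (n+n) z ≤ (2d)^2 δ n`, and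
  `∑' x, (hk n x - hk n (x - z))^2 = 2 (u n - hk (n+n) z) ≤ 8 d^2 δ n` (`hk_two_mul`, `hk_add`, `hk_neg`).
* If `x` is a sum of `k` two-step vectors, `∑' w, (hk n w - hk n (w - x))^2 ≤ k^2 * 8 d^2 δ n` (telescope
  along the partial sums and Cauchy-Schwarz; translation invariance of the sum over `w`; all functions
  have finite support), i.e. `hk (n+n) x ≥ u n - 4 d^2 k^2 δ n`.
* `hk_lower`: `u n ≥ 1 / (4 (2 sqrt(2n) + 1)^d) ≥ c n^(-d/2)`; `delta_le`: `δ n ≤ C n^(-1-d/2)`. So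
  `hk (n+n) x ≥ (c/2) n^(-d/2)` when `n ≥ (8 d^2 C / c) k^2`.
* If `∑ i, |x i|` is even, `x` is a sum of `k = ∑ i, |x i| / 2 ≤ d ρ` two-step vectors (induction); if it is
  odd, subtract a unit vector first (`hk (n+1) x ≥ hk n (x - sv e) / (2 d)`).
* Take `n = C ρ^2` (resp. `n + 1`) for a suitable integer `C`; `prob_pos` with `x = a - y`, `|x i| ≤ ρ`.
  (The inverse of a natural number in `ℝ≥0∞`: `ENNReal.ofReal`-conversion.)
-/

open MeasureTheory ProbabilityTheory Filter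
open scoped ENNReal
open Pool.Agent.H39.LW

namespace Pool.Agent.H39.LP

variable {d : ℕ}

namespace HKb

/-- `l²` norm squared of the difference of `hk n` and its translate -/
noncomputable def S (n : ℕ) (x : Zd d) : ℝ := ∑' w : Zd d, (hk n w - hk n (w - x)) ^ 2

lemma summable_fin (n : ℕ) (x y : Zd d) :
    Summable fun w : Zd d => (hk n (w - x) - hk n (w - y)) ^ 2 := by
  refine summable_of_hasFiniteSupport ?_
  refine (((hk_support (d := d) n).preimage (f := fun z => z - x)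
    (sub_left_injective.injOn)).union ((hk_support (d := d) n).preimage (f := fun z => z - y)
    (sub_left_injective.injOn))).subset ?_
  intro w hw
  by_contra hcon
  rw [Set.mem_union, not_or, Set.mem_preimage, Set.mem_preimage, Function.mem_support,
    Function.mem_support, not_not, not_not] at hcon
  refine hw ?_
  simp only [hcon.1, hcon.2, sub_zero]
  norm_num

lemma summable_S (n : ℕ) (x : Zd d) : Summable fun w : Zd d => (hk n w - hk n (w - x)) ^ 2 := by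
  have := summable_fin n 0 x
  simpa only [sub_zero] using this

lemma summable_mul (n : ℕ) (x y : Zd d) : Summable fun w : Zd d => hk n (w - x) * hk n (w - y) :=
  summable_hk_mul n x fun w => hk n (w - y)

lemma S_eq (n : ℕ) (x : Zd d) : S n x = 2 * (hk (n + n) (0 : Zd d) - hk (n + n) x) := by
  have h1 : ∀ w : Zd d, (hk n w - hk n (w - x)) ^ 2 =
      (hk n w ^ 2 + hk n (w - x) ^ 2) - 2 * (hk n w * hk n (x - w)) := by
    intro w
    rw [← hk_neg n (x - w), neg_sub]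
    ring
  have s1 : Summable fun w : Zd d => hk n w ^ 2 := by
    have := summable_mul (d := d) n 0 0
    simpa only [sub_zero, sq] using this
  have s2 : Summable fun w : Zd d => hk n (w - x) ^ 2 := by
    have := summable_mul (d := d) n x x
    simpa only [sq] using this
  have s3 : Summable fun w : Zd d => hk n w * hk n (x - w) := summable_hk_mul' n _
  have h2 : ∑' w : Zd d, hk n (w - x) ^ 2 = hk (n + n) (0 : Zd d) := by
    rw [hk_two_mul]
    exact (Equiv.subRight x).tsum_eq fun w => hk n w ^ 2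
  unfold S
  simp only [h1]
  rw [(s1.add s2).tsum_sub (s3.mul_left 2), s1.tsum_add s2, tsum_mul_left, ← hk_add, h2,
    ← hk_two_mul]
  ring

lemma S_nonneg (n : ℕ) (x : Zd d) : 0 ≤ S n x := tsum_nonneg fun _ => sq_nonneg _

lemma S_add (n : ℕ) (x z : Zd d) (t : ℝ) (ht : 0 < t) :
    S n (x + z) ≤ (1 + t) * S n z + (1 + 1 / t) * S n x := by
  have h1 : S n x = ∑' w : Zd d, (hk n (w - z) - hk n (w - (x + z))) ^ 2 := by
    unfold S
    rw [← (Equiv.subRight z).tsum_eq fun w => (hk n w - hk n (w - x)) ^ 2]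
    refine tsum_congr fun w => ?_
    simp only [Equiv.subRight_apply]
    rw [show w - z - x = w - (x + z) by abel]
  rw [h1]
  unfold S
  rw [← tsum_mul_left, ← tsum_mul_left,
    ← ((summable_S n z).mul_left _).tsum_add ((summable_fin n z (x + z)).mul_left _)]
  refine Summable.tsum_le_tsum (fun w => ?_) (summable_S n (x + z))
    (((summable_S n z).mul_left _).add ((summable_fin n z (x + z)).mul_left _))
  set a := hk n w - hk n (w - z)
  set b := hk n (w - z) - hk n (w - (x + z))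
  have h2 : hk n w - hk n (w - (x + z)) = a + b := by
    simp only [a, b]
    ring
  rw [h2]
  have h3 : (1 + t) * a ^ 2 + (1 + 1 / t) * b ^ 2 - (a + b) ^ 2 = (t * a - b) ^ 2 / t := by
    field_simp
    ring
  have h4 : 0 ≤ (t * a - b) ^ 2 / t := div_nonneg (sq_nonneg _) ht.le
  linarith

lemma exists_step {x : Zd d} (hx : 0 < ∑ i, |x i|) :
    ∃ e : Step d, ∑ i, |(x - sv e) i| = ∑ i, |x i| - 1 := by
  classical
  have h1 : ∃ i, x i ≠ 0 := by
    by_contra hcon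
    push Not at hcon
    simp [hcon] at hx
  obtain ⟨i, hi⟩ := h1
  refine ⟨(i, decide (0 < x i)), ?_⟩
  have h2 : ∀ j, |(x - sv (i, decide (0 < x i))) j| = |x j| - if j = i then 1 else 0 := by
    intro j
    by_cases hj : j = i
    · subst hj
      simp only [sv, Pi.sub_apply, Pi.single_eq_same, if_true]
      rcases lt_or_gt_of_ne hi with h | h
      · have : decide (0 < x j) = false := by simp [h.le]
        rw [this]
        simp only [Bool.false_eq_true, if_false]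
        rw [abs_of_neg h, abs_of_nonpos (by omega)]
        ring
      · have : decide (0 < x j) = true := by simp [h]
        rw [this]
        simp only [if_true]
        rw [abs_of_pos h, abs_of_nonneg (by omega)]
    · simp [sv, hj]
  rw [Finset.sum_congr rfl fun j _ => h2 j, Finset.sum_sub_distrib]
  simp

variable [NeZero d]

lemma two_step (n : ℕ) (e e' : Step d) : S n (sv e + sv e') ≤
    8 * (d : ℝ) ^ 2 * (hk (n + n) (0 : Zd d) - hk (n + 1 + (n + 1)) (0 : Zd d)) := by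
  have hd : (0 : ℝ) < d := by exact_mod_cast Nat.pos_of_ne_zero (NeZero.ne d)
  have hc : (Fintype.card (Step d) : ℝ) = 2 * d := by
    simp [Step, mul_comm]
  rw [S_eq]
  set u := hk (n + n) (0 : Zd d) with hu
  have h1 : hk (n + 1 + (n + 1)) (0 : Zd d) =
      (∑ f : Step d, ∑ f' : Step d, hk (n + n) (0 - sv f - sv f')) / (2 * d) / (2 * d) := by
    rw [show n + 1 + (n + 1) = (n + n + 1) + 1 by ring]
    simp only [hk]
    rw [← Finset.sum_div]
  have h2 : ∑ f : Step d, ∑ f' : Step d, (u - hk (n + n) (0 - sv f - sv f')) =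
      (2 * d) ^ 2 * (u - hk (n + 1 + (n + 1)) (0 : Zd d)) := by
    rw [h1]
    simp only [Finset.sum_sub_distrib, Finset.sum_const, Finset.card_univ, nsmul_eq_mul, hc]
    field_simp
  have h3 : ∀ f f' : Step d, 0 ≤ u - hk (n + n) (0 - sv f - sv f') := fun f f' =>
    sub_nonneg.2 (HD.hk_even_le n _)
  have h4 : u - hk (n + n) (0 - sv e - sv e') ≤
      ∑ f : Step d, ∑ f' : Step d, (u - hk (n + n) (0 - sv f - sv f')) := by
    refine le_trans ?_ (Finset.single_le_sum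
      (f := fun f => ∑ f' : Step d, (u - hk (n + n) (0 - sv f - sv f')))
      (fun f _ => Finset.sum_nonneg fun f' _ => h3 f f') (Finset.mem_univ e))
    exact Finset.single_le_sum (f := fun f' => (u - hk (n + n) (0 - sv e - sv f')))
      (fun f' _ => h3 e f') (Finset.mem_univ e')
  have h5 : hk (n + n) (0 - sv e - sv e') = hk (n + n) (sv e + sv e') := by
    rw [← hk_neg]
    congr 1
    abel
  rw [h2, h5] at h4
  nlinarith

lemma S_le (n : ℕ) (k : ℕ) (x : Zd d) (hx : ∑ i, |x i| = 2 * (k : ℤ)) :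
    S n x ≤ (k : ℝ) ^ 2 * (8 * (d : ℝ) ^ 2 *
      (hk (n + n) (0 : Zd d) - hk (n + 1 + (n + 1)) (0 : Zd d))) := by
  set A : ℝ := 8 * (d : ℝ) ^ 2 *
      (hk (n + n) (0 : Zd d) - hk (n + 1 + (n + 1)) (0 : Zd d)) with hA
  have hA0 : 0 ≤ A := mul_nonneg (by positivity) (delta_nonneg n)
  induction k generalizing x with
  | zero =>
    have h1 : ∀ i, x i = 0 := by
      intro i
      have h2 : |x i| ≤ ∑ i, |x i| :=
        Finset.single_le_sum (f := fun i => |x i|) (fun j _ => abs_nonneg _) (Finset.mem_univ i)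
      rw [hx] at h2
      have h3 : |x i| ≤ 0 := by simpa using h2
      exact abs_nonpos_iff.1 h3
    have h2 : x = 0 := funext h1
    rw [h2, S_eq]
    simp
  | succ k ih =>
    obtain ⟨e, he⟩ := exists_step (x := x) (by rw [hx]; positivity)
    obtain ⟨e', he'⟩ := exists_step (x := x - sv e) (by rw [he, hx]; push_cast; linarith)
    set y : Zd d := x - sv e - sv e' with hy
    have hy1 : ∑ i, |y i| = 2 * (k : ℤ) := by
      rw [he', he, hx]
      push_cast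
      ring
    have hxy : x = y + (sv e + sv e') := by
      rw [hy]
      abel
    have h1 := ih y hy1
    have h2 := two_step (d := d) n e e'
    rw [← hA] at h2
    rcases Nat.eq_zero_or_pos k with hk0 | hk0
    · subst hk0
      have h3 : y = 0 := by
        funext i
        have h4 : |y i| ≤ ∑ i, |y i| :=
          Finset.single_le_sum (f := fun i => |y i|) (fun j _ => abs_nonneg _) (Finset.mem_univ i)
        rw [hy1] at h4
        have h3 : |y i| ≤ 0 := by simpa using h4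
        exact abs_nonpos_iff.1 h3
      rw [hxy, h3, zero_add]
      simpa using h2
    · have hk1 : (0 : ℝ) < k := by exact_mod_cast hk0
      have h3 := S_add n y (sv e + sv e') k hk1
      rw [← hxy] at h3
      refine h3.trans ?_
      have h4 : (1 + (k : ℝ)) * S n (sv e + sv e') ≤ (1 + k) * A :=
        mul_le_mul_of_nonneg_left h2 (by positivity)
      have h5 : (1 + 1 / (k : ℝ)) * S n y ≤ (1 + 1 / (k : ℝ)) * ((k : ℝ) ^ 2 * A) :=
        mul_le_mul_of_nonneg_left h1 (by positivity)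
      have h6 : (1 + (k : ℝ)) * A + (1 + 1 / (k : ℝ)) * ((k : ℝ) ^ 2 * A) =
          (((k + 1 : ℕ) : ℝ)) ^ 2 * A := by
        push_cast
        field_simp
        ring
      linarith

/-- the even case -/
lemma even_lower (n k : ℕ) (x : Zd d) (hx : ∑ i, |x i| = 2 * (k : ℤ)) :
    hk (n + n) (0 : Zd d) - 4 * (d : ℝ) ^ 2 * (k : ℝ) ^ 2 *
      (hk (n + n) (0 : Zd d) - hk (n + 1 + (n + 1)) (0 : Zd d)) ≤ hk (n + n) x := by
  have h1 := S_le n k x hx
  rw [S_eq] at h1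
  nlinarith

/-- numerical part: choice of the constant -/
lemma main_even : ∃ M : ℕ, 0 < M ∧ ∀ ρ : ℕ, 1 ≤ ρ → ∀ k : ℕ, k ≤ d * ρ → ∀ x : Zd d,
    ∑ i, |x i| = 2 * (k : ℤ) →
    1 / (8 * (5 * (M : ℝ) * ρ) ^ d) ≤ hk (M * ρ ^ 2 + M * ρ ^ 2) x := by
  obtain ⟨C, hC, hC'⟩ := delta_le (d := d)
  have hd : (0 : ℝ) < d := by exact_mod_cast Nat.pos_of_ne_zero (NeZero.ne d)
  obtain ⟨M, hM⟩ := exists_nat_gt (1024 * (d : ℝ) ^ 8 * C * 18 ^ d)
  have hM0 : (0 : ℝ) < M := lt_of_le_of_lt (by positivity) hM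
  have hM1 : 0 < M := by exact_mod_cast hM0
  have hM2 : (1 : ℝ) ≤ M := by exact_mod_cast hM1
  refine ⟨M, hM1, fun ρ hρ k hkρ x hx => ?_⟩
  have hρ1 : (1 : ℝ) ≤ ρ := by exact_mod_cast hρ
  set n := M * ρ ^ 2 with hn
  have hn1 : 0 < n := by positivity
  have hnR : (n : ℝ) = M * ρ ^ 2 := by rw [hn]; push_cast; ring
  have hnR0 : (0 : ℝ) < n := by exact_mod_cast hn1
  refine le_trans ?_ (even_lower n k x hx)
  have hδ := delta_nonneg (d := d) n
  have hδ1 := hC' n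
  set δ : ℝ := hk (n + n) (0 : Zd d) - hk (n + 1 + (n + 1)) (0 : Zd d) with hδdef
  have hu := hk_lower (d := d) n
  set u : ℝ := hk (n + n) (0 : Zd d) with hudef
  set r : ℕ := Nat.sqrt (2 * n) with hr
  have hr2 : r ^ 2 ≤ 2 * n := Nat.sqrt_le' _
  have hr1 : 1 ≤ r := by
    rw [hr]
    exact Nat.le_sqrt'.2 (by omega)
  have hrR : (1 : ℝ) ≤ r := by exact_mod_cast hr1
  have hrR2 : (r : ℝ) ^ 2 ≤ 2 * n := by exact_mod_cast hr2
  -- upper bound of 2 r + 1
  have hr3 : r ≤ 2 * M * ρ := by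
    have h1 : r ^ 2 ≤ (2 * M * ρ) ^ 2 := by
      refine hr2.trans ?_
      rw [hn]
      nlinarith [Nat.mul_le_mul hM1 (Nat.le_refl (M * ρ ^ 2)), Nat.zero_le (M * ρ ^ 2)]
    exact (Nat.pow_le_pow_iff_left (by norm_num)).1 h1
  have hr4 : 2 * (r : ℝ) + 1 ≤ 5 * M * ρ := by
    have h1 : (r : ℝ) ≤ 2 * M * ρ := by exact_mod_cast hr3
    have h2 : (1 : ℝ) ≤ M * ρ := by nlinarith
    nlinarith
  have hP : (0 : ℝ) < (2 * (r : ℝ) + 1) ^ d := by positivity
  have hQ : (2 * (r : ℝ) + 1) ^ d ≤ (5 * (M : ℝ) * ρ) ^ d :=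
    pow_le_pow_left₀ (by positivity) hr4 d
  have h18 : ((2 * (r : ℝ) + 1) ^ d) ^ 2 ≤ 18 ^ d * (n : ℝ) ^ d := by
    rw [← pow_mul, mul_comm d 2, pow_mul, ← mul_pow]
    refine pow_le_pow_left₀ (by positivity) ?_ d
    nlinarith
  -- the error is at most half of the lower bound
  have hk1 : (k : ℝ) ≤ d * ρ := by exact_mod_cast hkρ
  have herr : 4 * (d : ℝ) ^ 2 * (k : ℝ) ^ 2 * δ ≤ 1 / (8 * (2 * (r : ℝ) + 1) ^ d) := by
    have h1 : (k : ℝ) ^ 2 ≤ (d * ρ) ^ 2 := pow_le_pow_left₀ (Nat.cast_nonneg _) hk1 2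
    have h2 : 4 * (d : ℝ) ^ 2 * (k : ℝ) ^ 2 * δ ≤ 4 * (d : ℝ) ^ 2 * (d * ρ) ^ 2 * δ := by
      gcongr
    refine h2.trans ?_
    rw [← pow_le_pow_iff_left₀ (by positivity) (by positivity) (two_ne_zero), div_pow, one_pow,
      le_div_iff₀ (by positivity)]
    have h5 : (4 * (d : ℝ) ^ 2 * (d * ρ) ^ 2 * δ) ^ 2 * (M : ℝ) ^ 2 * (n : ℝ) ^ d ≤
        16 * (d : ℝ) ^ 8 * C := by
      calc (4 * (d : ℝ) ^ 2 * (d * ρ) ^ 2 * δ) ^ 2 * (M : ℝ) ^ 2 * (n : ℝ) ^ d =
            16 * (d : ℝ) ^ 8 * ((δ * n) ^ 2 * (n : ℝ) ^ d) := by rw [hnR]; ring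
        _ ≤ 16 * (d : ℝ) ^ 8 * C := mul_le_mul_of_nonneg_left hδ1 (by positivity)
    set X2 : ℝ := (4 * (d : ℝ) ^ 2 * (d * ρ) ^ 2 * δ) ^ 2 with hX2
    have hX0 : 0 ≤ X2 := sq_nonneg _
    have h6 : X2 * (8 * (2 * (r : ℝ) + 1) ^ d) ^ 2 ≤ 64 * 18 ^ d * (X2 * (n : ℝ) ^ d) := by
      calc X2 * (8 * (2 * (r : ℝ) + 1) ^ d) ^ 2 = 64 * X2 * ((2 * (r : ℝ) + 1) ^ d) ^ 2 := by ring
        _ ≤ 64 * X2 * (18 ^ d * (n : ℝ) ^ d) := mul_le_mul_of_nonneg_left h18 (by positivity)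
        _ = _ := by ring
    refine h6.trans ?_
    have h7 : 64 * 18 ^ d * (X2 * (n : ℝ) ^ d) * (M : ℝ) ^ 2 ≤ M ^ 2 := by
      calc 64 * 18 ^ d * (X2 * (n : ℝ) ^ d) * (M : ℝ) ^ 2 =
            64 * 18 ^ d * (X2 * (M : ℝ) ^ 2 * (n : ℝ) ^ d) := by ring
        _ ≤ 64 * 18 ^ d * (16 * (d : ℝ) ^ 8 * C) := mul_le_mul_of_nonneg_left h5 (by positivity)
        _ = 1024 * (d : ℝ) ^ 8 * C * 18 ^ d := by ring
        _ ≤ M := hM.le
        _ ≤ M ^ 2 := by nlinarith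
    have h8 : (0 : ℝ) < (M : ℝ) ^ 2 := by positivity
    exact le_of_mul_le_mul_right (by rw [one_mul]; exact h7) h8
  have h3 : 1 / (8 * (5 * (M : ℝ) * ρ) ^ d) ≤ 1 / (8 * (2 * (r : ℝ) + 1) ^ d) := by
    gcongr
  have h4 : 1 / (4 * (2 * (r : ℝ) + 1) ^ d) = 1 / (8 * (2 * (r : ℝ) + 1) ^ d) +
      1 / (8 * (2 * (r : ℝ) + 1) ^ d) := by
    field_simp
    norm_num
  linarith

end HKb

variable [NeZero d]

theorem hit_lower : ∃ C : ℕ, 0 < C ∧ ∀ ρ : ℕ, 1 ≤ ρ → ∀ y a : Zd d, a ∈ nb y ρ →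
    ∃ n ≤ C * ρ ^ 2, (((C * ρ ^ d : ℕ) : ℝ≥0∞))⁻¹ ≤ Pr d {ω | pos y ω n = a} := by
  obtain ⟨M, hM, hmain⟩ := HKb.main_even (d := d)
  have hdN : 0 < d := Nat.pos_of_ne_zero (NeZero.ne d)
  have hd : (1 : ℝ) ≤ d := by exact_mod_cast hdN
  have hMR : (1 : ℝ) ≤ M := by exact_mod_cast hM
  set C : ℕ := (2 * M + 1) * (16 * d * (5 * M) ^ d) with hC
  have hC0 : 0 < C := by positivity
  have hCa : 2 * M + 1 ≤ C := Nat.le_mul_of_pos_right _ (by positivity)
  have hCb : 16 * d * (5 * M) ^ d ≤ C := Nat.le_mul_of_pos_left _ (by positivity)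
  refine ⟨C, hC0, fun ρ hρ y a ha => ?_⟩
  have hρR : (1 : ℝ) ≤ ρ := by exact_mod_cast hρ
  rw [mem_nb] at ha
  set x : Zd d := a - y with hx
  have hsum : ∑ i, |x i| ≤ ((d * ρ : ℕ) : ℤ) := by
    calc ∑ i, |x i| ≤ ∑ _i : Fin d, (ρ : ℤ) := Finset.sum_le_sum fun i _ => ha i
      _ = ((d * ρ : ℕ) : ℤ) := by simp
  have hsum0 : 0 ≤ ∑ i, |x i| := Finset.sum_nonneg fun i _ => abs_nonneg _
  have hCR : (((C * ρ ^ d : ℕ) : ℝ≥0∞))⁻¹ = ENNReal.ofReal (1 / ((C : ℝ) * (ρ : ℝ) ^ d)) := by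
    have h1 : (0 : ℝ) < (C : ℝ) * (ρ : ℝ) ^ d := by positivity
    rw [one_div, ENNReal.ofReal_inv_of_pos h1, ← Nat.cast_pow, ← Nat.cast_mul,
      ENNReal.ofReal_natCast]
  have hlow : 1 / ((C : ℝ) * (ρ : ℝ) ^ d) ≤ 1 / (8 * (5 * (M : ℝ) * ρ) ^ d) / (2 * d) := by
    rw [div_div]
    refine one_div_le_one_div_of_le (by positivity) ?_
    have h1 : (16 * (d : ℝ) * (5 * M) ^ d) ≤ C := by exact_mod_cast hCb
    calc 8 * (5 * (M : ℝ) * ρ) ^ d * (2 * d) = (16 * (d : ℝ) * (5 * M) ^ d) * (ρ : ℝ) ^ d := by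
          rw [mul_pow]; ring
      _ ≤ (C : ℝ) * (ρ : ℝ) ^ d := mul_le_mul_of_nonneg_right h1 (by positivity)
  have hq0 : 0 ≤ 1 / (8 * (5 * (M : ℝ) * ρ) ^ d) := by positivity
  obtain ⟨s, hs⟩ := Int.eq_ofNat_of_zero_le hsum0
  rcases Nat.even_or_odd' s with ⟨k, hk' | hk'⟩
  · have h1 : ∑ i, |x i| = 2 * (k : ℤ) := by rw [hs, hk']; push_cast; ring
    have h2 : k ≤ d * ρ := by
      have h3 : 2 * (k : ℤ) ≤ ((d * ρ : ℕ) : ℤ) := h1 ▸ hsum
      omega
    refine ⟨M * ρ ^ 2 + M * ρ ^ 2, ?_, ?_⟩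
    · calc M * ρ ^ 2 + M * ρ ^ 2 ≤ (2 * M + 1) * ρ ^ 2 := by nlinarith [Nat.zero_le (ρ ^ 2)]
        _ ≤ C * ρ ^ 2 := Nat.mul_le_mul_right _ hCa
    · rw [prob_pos, hCR]
      refine ENNReal.ofReal_le_ofReal (hlow.trans ?_)
      refine le_trans ?_ (hmain ρ hρ k h2 x h1)
      exact div_le_self hq0 (by linarith)
  · have h1 : ∑ i, |x i| = 2 * (k : ℤ) + 1 := by rw [hs, hk']; push_cast; ring
    obtain ⟨e, he⟩ := HKb.exists_step (x := x) (by rw [h1]; positivity)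
    have h2 : k ≤ d * ρ := by
      have h3 : 2 * (k : ℤ) + 1 ≤ ((d * ρ : ℕ) : ℤ) := h1 ▸ hsum
      omega
    have h4 : ∑ i, |(x - sv e) i| = 2 * (k : ℤ) := by rw [he, h1]; ring
    refine ⟨M * ρ ^ 2 + M * ρ ^ 2 + 1, ?_, ?_⟩
    · have h5 : 1 ≤ ρ ^ 2 := Nat.one_le_pow _ _ hρ
      calc M * ρ ^ 2 + M * ρ ^ 2 + 1 ≤ (2 * M + 1) * ρ ^ 2 := by nlinarith
        _ ≤ C * ρ ^ 2 := Nat.mul_le_mul_right _ hCa
    · rw [prob_pos, hCR]
      refine ENNReal.ofReal_le_ofReal (hlow.trans ?_)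
      have h6 := hmain ρ hρ k h2 (x - sv e) h4
      simp only [hk]
      refine div_le_div_of_nonneg_right (h6.trans ?_) (by positivity)
      exact Finset.single_le_sum (f := fun e => hk (M * ρ ^ 2 + M * ρ ^ 2) (x - sv e))
        (fun e _ => hk_nonneg _ _) (Finset.mem_univ e)

end Pool.Agent.H39.LP
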