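import Pool.Agent.H39.LP.HKa1

/-!
# Module HKb1: differences of the return probabilities

Let `u n = hk (n+n) 0`. By `hk_le`, `u (n+1) = hk (n + (n+2)) 0 ≤ sqrt (u n * u (n+2)) ≤ (u n + u (n+2)) / 2`: `u` is
convex. As it is also nonincreasing (`HD.hk_even_le`-type: `u (n+1) ≤ u n`, e.g. since
`hk (n+1+(n+1)) 0 = (average over two steps) hk (n+n) (…) ≤ hk (n+n) 0`, or: a bounded convex sequence is
nonincreasing), the differences `δ n = u n - u (n+1)` are nonnegative and nonincreasing, and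
`(n - n/2) δ n ≤ ∑_{n/2 ≤ k < n} δ k ≤ u (n/2)`. With `hk_sq_le` (`u (n/2) ≤ sqrt (C / (2 (n/2))^d)`, for `n ≥ 2`;
`n = 1` is trivial) this gives `(δ n * n)^2 * n^d ≤ C'`.
-/

open MeasureTheory ProbabilityTheory Filter
open scoped ENNReal
open Pool.Agent.H39.LW

namespace Pool.Agent.H39.LP

variable {d : ℕ} [NeZero d]

theorem delta_nonneg (n : ℕ) : 0 ≤ hk (n + n) (0 : Zd d) - hk (n + 1 + (n + 1)) (0 : Zd d) := by
  have hd : (0 : ℝ) < 2 * d := by
    have : (0 : ℝ) < d := by exact_mod_cast Nat.pos_of_ne_zero (NeZero.ne d)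
    positivity
  have h2 : hk (n + 1 + (n + 1)) (0 : Zd d) = (∑ e : Step d, hk (n + n + 1) (0 - sv e)) / (2 * d) := by
    rw [show n + 1 + (n + 1) = (n + n + 1) + 1 by ring]
    rfl
  have h3 : hk (n + 1 + (n + 1)) (0 : Zd d) ≤ hk (n + n) (0 : Zd d) := by
    rw [h2, div_le_iff₀ hd]
    refine (Finset.sum_le_sum fun e _ => HD.hk_odd_le n (0 - sv e)).trans ?_
    rw [Finset.sum_const, Finset.card_univ]
    have hc : (Fintype.card (Step d) : ℝ) = 2 * d := by
      simp [Step, mul_comm]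
    rw [nsmul_eq_mul, hc, mul_comm]
  linarith

omit [NeZero d] in
private lemma conv (n : ℕ) : 2 * hk (n + 1 + (n + 1)) (0 : Zd d) ≤
    hk (n + n) (0 : Zd d) + hk (n + 2 + (n + 2)) (0 : Zd d) := by
  have h1 := hk_le n (n + 2) (0 : Zd d)
  rw [show n + (n + 2) = n + 1 + (n + 1) by ring] at h1
  have ha := hk_nonneg (n + n) (0 : Zd d)
  have hb := hk_nonneg (n + 2 + (n + 2)) (0 : Zd d)
  have h2 : Real.sqrt (hk (n + n) (0 : Zd d) * hk (n + 2 + (n + 2)) (0 : Zd d)) ≤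
      (hk (n + n) (0 : Zd d) + hk (n + 2 + (n + 2)) (0 : Zd d)) / 2 := by
    rw [Real.sqrt_le_iff]
    constructor
    · positivity
    · nlinarith [sq_nonneg (hk (n + n) (0 : Zd d) - hk (n + 2 + (n + 2)) (0 : Zd d))]
  linarith

omit [NeZero d] in
private lemma delta_anti : Antitone fun n : ℕ =>
    hk (n + n) (0 : Zd d) - hk (n + 1 + (n + 1)) (0 : Zd d) := by
  refine antitone_nat_of_succ_le fun n => ?_
  have h1 := conv (d := d) n
  rw [show n + 1 + 1 = n + 2 by ring]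
  linarith

omit [NeZero d] in
private lemma delta_sum (m k : ℕ) :
    (k : ℝ) * (hk (m + k + (m + k)) (0 : Zd d) - hk (m + k + 1 + (m + k + 1)) (0 : Zd d)) ≤
      hk (m + m) (0 : Zd d) := by
  have h1 : ∀ k : ℕ, ∑ j ∈ Finset.range k, (hk (m + j + (m + j)) (0 : Zd d) -
      hk (m + j + 1 + (m + j + 1)) (0 : Zd d)) =
      hk (m + m) (0 : Zd d) - hk (m + k + (m + k)) (0 : Zd d) := by
    intro k
    induction k with
    | zero => simp
    | succ k ih =>
      rw [Finset.sum_range_succ, ih, show m + (k + 1) = m + k + 1 by ring]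
      ring
  have h2 : ∑ j ∈ Finset.range k, (hk (m + k + (m + k)) (0 : Zd d) -
      hk (m + k + 1 + (m + k + 1)) (0 : Zd d)) ≤
      ∑ j ∈ Finset.range k, (hk (m + j + (m + j)) (0 : Zd d) -
      hk (m + j + 1 + (m + j + 1)) (0 : Zd d)) := by
    refine Finset.sum_le_sum fun j hj => ?_
    rw [Finset.mem_range] at hj
    exact delta_anti (d := d) (show m + j ≤ m + k by omega)
  rw [h1 k, Finset.sum_const, Finset.card_range, nsmul_eq_mul] at h2
  have h3 := hk_nonneg (m + k + (m + k)) (0 : Zd d)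
  linarith

theorem delta_le : ∃ C : ℝ, 0 < C ∧ ∀ n : ℕ,
    ((hk (n + n) (0 : Zd d) - hk (n + 1 + (n + 1)) (0 : Zd d)) * n) ^ 2 * (n : ℝ) ^ d ≤ C := by
  obtain ⟨C, hC, hC'⟩ := hk_sq_le (d := d)
  refine ⟨4 * 2 ^ d * C, by positivity, fun n => ?_⟩
  have hδ := delta_nonneg (d := d) n
  set δ : ℝ := hk (n + n) (0 : Zd d) - hk (n + 1 + (n + 1)) (0 : Zd d) with hδdef
  rcases Nat.lt_or_ge n 2 with hn | hn
  · have h1 : (δ * n) ^ 2 * (n : ℝ) ^ d ≤ hk (n + n) (0 : Zd d) ^ 2 * ((n + n : ℕ) : ℝ) ^ d := by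
      have h2 : δ ≤ hk (n + n) (0 : Zd d) := by
        have := hk_nonneg (n + 1 + (n + 1)) (0 : Zd d)
        linarith
      have hn1 : (n : ℝ) ≤ 1 := by exact_mod_cast Nat.lt_succ_iff.1 hn
      have hn0 : (0 : ℝ) ≤ n := Nat.cast_nonneg n
      refine mul_le_mul ?_ ?_ (by positivity) (by positivity)
      · refine pow_le_pow_left₀ (by positivity) ?_ 2
        nlinarith
      · refine pow_le_pow_left₀ (by positivity) ?_ d
        push_cast
        linarith
    refine (h1.trans (hC' (n + n) 0)).trans ?_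
    have h3 : (1 : ℝ) ≤ 2 ^ d := one_le_pow₀ (by norm_num)
    nlinarith
  · have hm : n = n / 2 + (n - n / 2) := by omega
    set m := n / 2 with hmdef
    have h1 := delta_sum (d := d) m (n - m)
    rw [← hm] at h1
    have h2 : (n : ℝ) / 2 ≤ ((n - m : ℕ) : ℝ) := by
      have h3 : n ≤ 2 * (n - m) := by omega
      have h4 : (n : ℝ) ≤ 2 * ((n - m : ℕ) : ℝ) := by exact_mod_cast h3
      linarith
    have h5 : δ * n ≤ 2 * hk (m + m) (0 : Zd d) := by nlinarith
    have h6 : (n : ℝ) ^ d ≤ 2 ^ d * ((m + m : ℕ) : ℝ) ^ d := by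
      rw [← mul_pow]
      refine pow_le_pow_left₀ (by positivity) ?_ d
      have h7 : n ≤ 2 * (m + m) := by omega
      exact_mod_cast h7
    have h8 := hC' (m + m) 0
    have h9 : (δ * n) ^ 2 ≤ (2 * hk (m + m) (0 : Zd d)) ^ 2 :=
      pow_le_pow_left₀ (by positivity) h5 2
    calc (δ * n) ^ 2 * (n : ℝ) ^ d ≤ (2 * hk (m + m) (0 : Zd d)) ^ 2 *
          (2 ^ d * ((m + m : ℕ) : ℝ) ^ d) := mul_le_mul h9 h6 (by positivity) (by positivity)
      _ = 4 * 2 ^ d * (hk (m + m) (0 : Zd d) ^ 2 * ((m + m : ℕ) : ℝ) ^ d) := by ring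
      _ ≤ 4 * 2 ^ d * C := mul_le_mul_of_nonneg_left h8 (by positivity)

end Pool.Agent.H39.LP
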