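import Pool.Agent.H39.LP.BoxTail
import Pool.Agent.H39.LP.FarTail

/-!
# Module IT3: exponential tail of the number of common vertices

* `vertex_tail`: with `R = k^2`: `Pr (n ≤ encard cm) ≤ C (2 k^2 + 1)^d b^n + C / k`; choose
  `k = ⌈a^n⌉` where `a > 1` satisfies `a^(2d) b ≤ a^(-1)` (`b < 1`): the sum is `≤ C' a^(-n)`; `β = a⁻¹`.
-/

open MeasureTheory ProbabilityTheory Filter
open scoped ENNReal
open Pool.Agent.H39.LW

namespace Pool.Agent.H39.LP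

variable {d : ℕ} [NeZero d]

open Classical in
/-- the vertices of the loop erasure in the box -/
noncomputable def it3A (R : ℕ) (ω : Om d) : Finset (Zd d) :=
  (nb (0 : Zd d) R).filter fun y => InL (pos 0 ω) y

lemma it3_measA (R : ℕ) (A : Finset (Zd d)) : MeasurableSet {ω : Om d | it3A R ω = A} := by
  classical
  have h1 : {ω : Om d | it3A R ω = A} =
      ⋂ y : Zd d, {ω : Om d | (y ∈ nb (0 : Zd d) R ∧ InL (pos 0 ω) y) ↔ y ∈ A} := by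
    ext ω
    rw [Set.mem_iInter]
    constructor
    · intro h y
      have h2 : it3A R ω = A := h
      show (y ∈ nb (0 : Zd d) R ∧ InL (pos 0 ω) y) ↔ y ∈ A
      rw [← h2, it3A, Finset.mem_filter]
    · intro h
      show it3A R ω = A
      ext y
      rw [it3A, Finset.mem_filter]
      exact h y
  rw [h1]
  refine MeasurableSet.iInter fun y => ?_
  by_cases h2 : y ∈ nb (0 : Zd d) R
  · by_cases h3 : y ∈ A
    · have : {ω : Om d | (y ∈ nb (0 : Zd d) R ∧ InL (pos 0 ω) y) ↔ y ∈ A} =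
          {ω : Om d | InL (pos 0 ω) y} := by
        ext ω
        simp [h2, h3]
      rw [this]
      exact measurableSet_inL 0 y
    · have : {ω : Om d | (y ∈ nb (0 : Zd d) R ∧ InL (pos 0 ω) y) ↔ y ∈ A} =
          {ω : Om d | InL (pos 0 ω) y}ᶜ := by
        ext ω
        simp [h2, h3]
      rw [this]
      exact (measurableSet_inL 0 y).compl
  · have : {ω : Om d | (y ∈ nb (0 : Zd d) R ∧ InL (pos 0 ω) y) ↔ y ∈ A} =
        {_ω : Om d | y ∉ A} := by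
      ext ω
      simp [h2]
    rw [this]
    exact MeasurableSet.const _

lemma it3_meas (R n : ℕ) : Measurable fun ω : Om d =>
    Pr d {ω' : Om d | (n : ℕ∞) ≤ (cm ω ω' ∩ ((nb 0 R : Finset (Zd d)) : Set (Zd d))).encard} := by
  have h1 : (fun ω : Om d =>
      Pr d {ω' : Om d | (n : ℕ∞) ≤ (cm ω ω' ∩ ((nb 0 R : Finset (Zd d)) : Set (Zd d))).encard}) =
      fun ω => (fun A : Finset (Zd d) =>
        Pr d {ω' : Om d | (n : ℕ∞) ≤ ((A : Set (Zd d)) ∩ {y | InL (pos 0 ω') y}).encard})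
        (it3A R ω) := by
    funext ω
    show _ = Pr d {ω' : Om d | (n : ℕ∞) ≤
      (((it3A R ω : Finset (Zd d)) : Set (Zd d)) ∩ {y | InL (pos 0 ω') y}).encard}
    congr 1
    ext ω'
    show (n : ℕ∞) ≤ (cm ω ω' ∩ ((nb 0 R : Finset (Zd d)) : Set (Zd d))).encard ↔
      (n : ℕ∞) ≤ (((it3A R ω : Finset (Zd d)) : Set (Zd d)) ∩ {y | InL (pos 0 ω') y}).encard
    have h2 : cm ω ω' ∩ ((nb 0 R : Finset (Zd d)) : Set (Zd d)) =
        ((it3A R ω : Finset (Zd d)) : Set (Zd d)) ∩ {y | InL (pos 0 ω') y} := by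
      classical
      ext y
      simp only [cm, it3A, Set.mem_inter_iff, Set.mem_ofPred_eq, Finset.mem_coe, Finset.mem_filter]
      tauto
    rw [h2]
  rw [h1]
  intro S _
  have h3 : ((fun ω : Om d => (fun A : Finset (Zd d) =>
        Pr d {ω' : Om d | (n : ℕ∞) ≤ ((A : Set (Zd d)) ∩ {y | InL (pos 0 ω') y}).encard})
        (it3A R ω)) ⁻¹' S) =
      ⋃ A ∈ ((fun A : Finset (Zd d) =>
        Pr d {ω' : Om d | (n : ℕ∞) ≤ ((A : Set (Zd d)) ∩ {y | InL (pos 0 ω') y}).encard}) ⁻¹' S),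
        {ω : Om d | it3A R ω = A} := by
    ext ω
    simp only [Set.mem_preimage, Set.mem_iUnion, Set.mem_ofPred_eq, exists_prop, exists_eq_right']
  rw [h3]
  exact MeasurableSet.biUnion (Set.to_countable _) fun A _ => it3_measA R A

/-- the union bound -/
lemma it3_union (hd : 5 ≤ d) : ∃ (b : ℝ≥0∞) (C D : ℕ), b < 1 ∧ ∀ k n : ℕ, 1 ≤ k →
    ∫⁻ ω, Pr d {ω' : Om d | (n : ℕ∞) ≤ (cm ω ω').encard} ∂Pr d ≤
      C * (2 * (k ^ 2 : ℕ) + 1) ^ d * b ^ n + D / (k : ℝ≥0∞) := by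
  obtain ⟨b, C, hb, h1⟩ := box_tail hd
  obtain ⟨D, h2⟩ := far_le hd
  refine ⟨b, C, D, hb, fun k n hk => ?_⟩
  have hpt : ∀ ω : Om d, Pr d {ω' : Om d | (n : ℕ∞) ≤ (cm ω ω').encard} ≤
      Pr d {ω' : Om d | (n : ℕ∞) ≤
        (cm ω ω' ∩ ((nb 0 (k ^ 2) : Finset (Zd d)) : Set (Zd d))).encard} +
      Pr d {ω' | ∃ y ∈ cm ω ω', y ∉ nb (0 : Zd d) (k ^ 2)} := by
    intro ω
    refine (measure_mono ?_).trans (measure_union_le _ _)
    intro ω' hn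
    by_cases hy : ∃ y ∈ cm ω ω', y ∉ nb (0 : Zd d) (k ^ 2)
    · exact Or.inr hy
    · left
      push Not at hy
      have hn' : (n : ℕ∞) ≤ (cm ω ω').encard := hn
      show (n : ℕ∞) ≤ (cm ω ω' ∩ ((nb 0 (k ^ 2) : Finset (Zd d)) : Set (Zd d))).encard
      rw [Set.inter_eq_left.2 (fun y h => Finset.mem_coe.2 (hy y h))]
      exact hn'
  calc ∫⁻ ω, Pr d {ω' : Om d | (n : ℕ∞) ≤ (cm ω ω').encard} ∂Pr d
      ≤ ∫⁻ ω, (Pr d {ω' : Om d | (n : ℕ∞) ≤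
        (cm ω ω' ∩ ((nb 0 (k ^ 2) : Finset (Zd d)) : Set (Zd d))).encard} +
      Pr d {ω' | ∃ y ∈ cm ω ω', y ∉ nb (0 : Zd d) (k ^ 2)}) ∂Pr d := lintegral_mono hpt
    _ = ∫⁻ ω, Pr d {ω' : Om d | (n : ℕ∞) ≤
        (cm ω ω' ∩ ((nb 0 (k ^ 2) : Finset (Zd d)) : Set (Zd d))).encard} ∂Pr d +
      ∫⁻ ω, Pr d {ω' | ∃ y ∈ cm ω ω', y ∉ nb (0 : Zd d) (k ^ 2)} ∂Pr d :=
        lintegral_add_left (it3_meas (k ^ 2) n) _
    _ ≤ _ := add_le_add (h1 (k ^ 2) n) (h2 k hk)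

lemma it3_real (d : ℕ) (C D : ℕ) {b' : ℝ} (hb0 : 0 < b') (hb1 : b' < 1) :
    ∃ β : ℝ, 0 < β ∧ β < 1 ∧ ∀ n : ℕ, ∃ k : ℕ, 1 ≤ k ∧
      (C : ℝ) * (2 * (k : ℝ) ^ 2 + 1) ^ d * b' ^ n + (D : ℝ) / k ≤
        ((C : ℝ) * 12 ^ d + D) * β ^ n := by
  refine ⟨b' ^ ((1 : ℝ) / (2 * d + 1 : ℕ)), Real.rpow_pos_of_pos hb0 _,
    Real.rpow_lt_one hb0.le hb1 (by positivity), fun n => ?_⟩
  set β : ℝ := b' ^ ((1 : ℝ) / (2 * d + 1 : ℕ)) with hβ
  have hβ0 : 0 < β := Real.rpow_pos_of_pos hb0 _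
  have hβ1 : β < 1 := Real.rpow_lt_one hb0.le hb1 (by positivity)
  have hpow : β ^ (2 * d + 1) = b' := by
    rw [hβ, one_div]
    exact Real.rpow_inv_natCast_pow hb0.le (by omega)
  set a : ℝ := (β ^ n)⁻¹ with ha
  have hβn0 : 0 < β ^ n := pow_pos hβ0 n
  have hβn1 : β ^ n ≤ 1 := pow_le_one₀ hβ0.le hβ1.le
  have ha1 : 1 ≤ a := (one_le_inv₀ hβn0).2 hβn1
  have ha0 : 0 < a := by linarith
  refine ⟨⌈a⌉₊, Nat.one_le_ceil_iff.2 ha0, ?_⟩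
  have hk1 : a ≤ (⌈a⌉₊ : ℝ) := Nat.le_ceil a
  have hk2 : (⌈a⌉₊ : ℝ) ≤ 2 * a := by
    have := (Nat.ceil_lt_add_one ha0.le).le
    linarith
  have hk0 : (0 : ℝ) < (⌈a⌉₊ : ℝ) := by linarith
  have h1 : (2 * (⌈a⌉₊ : ℝ) ^ 2 + 1) ≤ 12 * a ^ 2 := by nlinarith
  have h2 : (2 * (⌈a⌉₊ : ℝ) ^ 2 + 1) ^ d ≤ 12 ^ d * (a ^ 2) ^ d := by
    rw [← mul_pow]
    exact pow_le_pow_left₀ (by positivity) h1 d
  have h3 : (a ^ 2) ^ d * b' ^ n = β ^ n := by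
    rw [← hpow, ha, inv_pow, inv_pow, ← pow_mul, ← pow_mul, ← pow_mul, inv_mul_eq_iff_eq_mul₀
      (pow_ne_zero _ hβ0.ne'), ← pow_add]
    congr 1
    ring
  have h4 : (C : ℝ) * (2 * (⌈a⌉₊ : ℝ) ^ 2 + 1) ^ d * b' ^ n ≤ (C : ℝ) * 12 ^ d * β ^ n := by
    calc (C : ℝ) * (2 * (⌈a⌉₊ : ℝ) ^ 2 + 1) ^ d * b' ^ n
        ≤ (C : ℝ) * (12 ^ d * (a ^ 2) ^ d) * b' ^ n := by
          refine mul_le_mul_of_nonneg_right ?_ (pow_nonneg hb0.le n)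
          exact mul_le_mul_of_nonneg_left h2 (Nat.cast_nonneg C)
      _ = (C : ℝ) * 12 ^ d * ((a ^ 2) ^ d * b' ^ n) := by ring
      _ = (C : ℝ) * 12 ^ d * β ^ n := by rw [h3]
  have h5 : (D : ℝ) / (⌈a⌉₊ : ℝ) ≤ D * β ^ n := by
    rw [div_eq_mul_inv]
    refine mul_le_mul_of_nonneg_left ?_ (Nat.cast_nonneg D)
    rw [inv_le_comm₀ hk0 hβn0]
    exact hk1
  calc _ ≤ (C : ℝ) * 12 ^ d * β ^ n + D * β ^ n := add_le_add h4 h5
    _ = _ := by ring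

theorem vertex_tail (hd : 5 ≤ d) : ∃ (β C : ℝ), 0 < β ∧ β < 1 ∧ ∀ n : ℕ,
    ∫⁻ ω, Pr d {ω' : Om d | (n : ℕ∞) ≤ (cm ω ω').encard} ∂Pr d ≤ ENNReal.ofReal (C * β ^ n) := by
  obtain ⟨b, C, D, hb, h⟩ := it3_union hd
  have hbt : b ≠ ∞ := (hb.trans ENNReal.one_lt_top).ne
  have hbr : b.toReal < 1 := by
    have := (ENNReal.toReal_lt_toReal hbt ENNReal.one_ne_top).2 hb
    rwa [ENNReal.toReal_one] at this
  set b' : ℝ := max b.toReal (1 / 2) with hb'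
  have hb0 : 0 < b' := lt_of_lt_of_le (by norm_num) (le_max_right _ _)
  have hb1 : b' < 1 := max_lt hbr (by norm_num)
  have hbb : b ≤ ENNReal.ofReal b' := by
    rw [← ENNReal.ofReal_toReal hbt]
    exact ENNReal.ofReal_le_ofReal (le_max_left _ _)
  obtain ⟨β, hβ0, hβ1, hk⟩ := it3_real d C D hb0 hb1
  refine ⟨β, (C : ℝ) * 12 ^ d + D, hβ0, hβ1, fun n => ?_⟩
  obtain ⟨k, hk1, hk2⟩ := hk n
  refine (h k n hk1).trans (le_trans ?_ (ENNReal.ofReal_le_ofReal hk2))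
  have hk0 : (0 : ℝ) < k := by exact_mod_cast hk1
  rw [ENNReal.ofReal_add (by positivity) (by positivity)]
  refine add_le_add ?_ ?_
  · rw [ENNReal.ofReal_mul (by positivity), ENNReal.ofReal_mul (by positivity),
      ENNReal.ofReal_pow hb0.le, ENNReal.ofReal_natCast, ENNReal.ofReal_pow (by positivity)]
    refine mul_le_mul' (mul_le_mul' le_rfl ?_) (pow_le_pow_left' hbb n)
    refine pow_le_pow_left' ?_ d
    have : (2 * (k : ℝ) ^ 2 + 1) = ((2 * k ^ 2 + 1 : ℕ) : ℝ) := by push_cast; ring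
    rw [this, ENNReal.ofReal_natCast]
    push_cast
    exact le_rfl
  · rw [ENNReal.ofReal_div_of_pos hk0, ENNReal.ofReal_natCast, ENNReal.ofReal_natCast]

end Pool.Agent.H39.LP
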