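import Pool.Agent.H39.LP.Base

/-!
# Module KV: killed visits

For `ω`, let `T_ω` be the set of the times `t` such that `pos y ω i ∉ E` for all `i ≤ t`, `x = pos y ω t ∈ A`,
`c ≤ esc T E A x`, and `F_t`: for all `n ≥ T`, if `pos y ω (t + i) ∉ E` for all `i ≤ n` then
`pos y ω (t + n) ∉ A`.

* Markov property (`lintegral_split t`, `pos_shift`):
  `c * Pr (no visit of E up to t, pos t ∈ {x ∈ A | c ≤ esc T E A x}) ≤ Pr (t ∈ T_ω)`.
  (Measurability of `{ω₂ | ∀ n, T ≤ n → (∀ i ≤ n, pos x ω₂ i ∉ E) → pos x ω₂ n ∉ A}`: countable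
  intersection of sets depending on finitely many steps.)
* Pathwise `#T_ω ≤ T` (in `ℝ≥0∞`: `∑' t, 1{t ∈ T_ω} ≤ T`): if `t₀` is the least element and `t ∈ T_ω`
  with `t ≥ t₀ + T`, then `n = t - t₀ ≥ T` and `pos y ω (t₀ + i) ∉ E` for `i ≤ n`, so by `F_{t₀}`
  `pos y ω t ∉ A`, a contradiction. So `T_ω ⊆ [t₀, t₀ + T)`.
* Sum over `t` (`lintegral_tsum`).
-/

open MeasureTheory ProbabilityTheory Filter
open scoped ENNReal
open Pool.Agent.H39.LW

namespace Pool.Agent.H39.LP

variable {d : ℕ} [NeZero d]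

open Classical in
/-- visits of the set of the points `x ∈ A` with escape probability `≥ c`, before the walk visits `E` -/
noncomputable def kvf (T : ℕ) (c : ℝ≥0∞) (E A : Set (Zd d)) (l : List (Zd d)) : ℝ≥0∞ :=
  if (∀ u ∈ l, u ∉ E) ∧ EndIn {x | x ∈ A ∧ c ≤ esc T E A x} l then 1 else 0

/-- the event of `esc` -/
def escS (T : ℕ) (E A : Set (Zd d)) (x : Zd d) : Set (Om d) :=
  {ω | ∀ n, T ≤ n → (∀ i ≤ n, pos x ω i ∉ E) → pos x ω n ∉ A}

omit [NeZero d] in
lemma measurableSet_escS (T : ℕ) (E A : Set (Zd d)) (x : Zd d) : MeasurableSet (escS T E A x) := by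
  have h : escS T E A x = ⋂ n, {ω | T ≤ n → (∀ i ≤ n, pos x ω i ∉ E) → pos x ω n ∉ A} := by
    ext ω
    simp only [escS, Set.mem_ofPred_eq, Set.mem_iInter]
  rw [h]
  refine MeasurableSet.iInter fun n => ?_
  have hm : Measurable fun ω : Om d => (T ≤ n → (∀ i ≤ n, pos x ω i ∉ E) → pos x ω n ∉ A) := by
    refine measurable_of_prefix n fun ω ω' h => ?_
    have h1 : ∀ i ≤ n, pos x ω i = pos x ω' i := fun i hi => pos_congr x fun j hj => h j (by omega)
    rw [h1 n le_rfl]
    have h2 : (∀ i ≤ n, pos x ω i ∉ E) ↔ (∀ i ≤ n, pos x ω' i ∉ E) := by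
      refine forall_congr' fun i => forall_congr' fun hi => ?_
      rw [h1 i hi]
    rw [h2]
  exact measurableSet_setOfPred.2 hm

omit [NeZero d] in
lemma count_le (T : ℕ) (E A : Set (Zd d)) (y : Zd d) (ω : Om d) (S : Set ℕ)
    (hS : ∀ t ∈ S, (∀ i ≤ t, pos y ω i ∉ E) ∧ pos y ω t ∈ A ∧
      shift t ω ∈ escS T E A (pos y ω t)) :
    ∑' t, S.indicator (fun _ => (1 : ℝ≥0∞)) t ≤ T := by
  rcases S.eq_empty_or_nonempty with rfl | hne
  · simp
  classical
  set t₀ := sInf S with ht₀
  have h0 : t₀ ∈ S := Nat.sInf_mem hne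
  have hsub : ∀ t ∈ S, t ∈ Finset.Ico t₀ (t₀ + T) := by
    intro t ht
    have h1 : t₀ ≤ t := Nat.sInf_le ht
    rw [Finset.mem_Ico]
    refine ⟨h1, ?_⟩
    by_contra hcon
    push Not at hcon
    have h2 := (hS t₀ h0).2.2
    simp only [escS, Set.mem_ofPred_eq] at h2
    have h3 := h2 (t - t₀) (by omega) ?_
    · rw [pos_shift] at h3
      have h4 : t₀ + (t - t₀) = t := by omega
      rw [h4] at h3
      exact h3 (hS t ht).2.1
    · intro i hi
      rw [pos_shift]
      exact (hS t ht).1 _ (by omega)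
  calc ∑' t, S.indicator (fun _ => (1 : ℝ≥0∞)) t
      ≤ ∑' t, ((Finset.Ico t₀ (t₀ + T) : Finset ℕ) : Set ℕ).indicator (fun _ => (1 : ℝ≥0∞)) t := by
        refine ENNReal.tsum_le_tsum fun t => ?_
        refine Set.indicator_le_indicator_of_subset (fun t ht => hsub t ht) (fun _ => bot_le) t
    _ = ∑ t ∈ Finset.Ico t₀ (t₀ + T), (1 : ℝ≥0∞) := by
        rw [← Finset.tsum_subtype, ← tsum_subtype]
        rfl
    _ = T := by simp

theorem killed_le (T : ℕ) (c : ℝ≥0∞) (E A : Set (Zd d)) (y : Zd d) :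
    c * pth y (kvf T c E A) ≤ T := by
  classical
  set C : Set (Zd d) := {x | x ∈ A ∧ c ≤ esc T E A x} with hC
  set N : ℕ → Set (Om d) := fun t => {ω | (∀ i ≤ t, pos y ω i ∉ E) ∧ pos y ω t ∈ C} with hN
  have hk : ∀ t (ω : Om d), kvf T c E A (pre (pos y ω) t) = (N t).indicator (fun _ => (1 : ℝ≥0∞)) ω := by
    intro t ω
    have h1 : ((∀ u ∈ pre (pos y ω) t, u ∉ E) ∧ EndIn {x | x ∈ A ∧ c ≤ esc T E A x}
        (pre (pos y ω) t)) ↔ ω ∈ N t := by
      simp only [hN, Set.mem_ofPred_eq, EndIn, pre_getLast]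
      constructor
      · rintro ⟨ha, x, hx, hx'⟩
        refine ⟨fun i hi => ha _ ?_, ?_⟩
        · simp only [pre, List.mem_map, List.mem_range]
          exact ⟨i, by omega, rfl⟩
        · rw [Option.some_inj.1 hx']
          exact hx
      · rintro ⟨ha, hx⟩
        refine ⟨fun u hu => ?_, _, hx, rfl⟩
        simp only [pre, List.mem_map, List.mem_range] at hu
        obtain ⟨i, hi, rfl⟩ := hu
        exact ha i (by omega)
    rw [kvf, Set.indicator_apply]
    by_cases h : ω ∈ N t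
    · rw [if_pos h, if_pos (h1.2 h)]
    · rw [if_neg h, if_neg fun h' => h (h1.1 h')]
  -- Markov property
  have hM : ∀ t, c * ∫⁻ ω, kvf T c E A (pre (pos y ω) t) ∂Pr d
      ≤ ∫⁻ ω, (N t ∩ {ω | shift t ω ∈ escS T E A (pos y ω t)}).indicator
          (fun _ => (1 : ℝ≥0∞)) ω ∂Pr d := by
    intro t
    set Φ : Om d → Om d → ℝ≥0∞ := fun ω ω₂ =>
      (N t).indicator (fun _ => (1 : ℝ≥0∞)) ω * (escS T E A (pos y ω t)).indicator (fun _ => 1) ω₂
      with hΦ
    have hpre : ∀ ω ω' : Om d, (∀ i < t, ω i = ω' i) → (ω ∈ N t ↔ ω' ∈ N t) := by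
      intro ω ω' h
      have h1 : ∀ i ≤ t, pos y ω i = pos y ω' i := fun i hi => pos_congr y fun j hj => h j (by omega)
      simp only [hN, Set.mem_ofPred_eq]
      rw [h1 t le_rfl]
      have h2 : (∀ i ≤ t, pos y ω i ∉ E) ↔ (∀ i ≤ t, pos y ω' i ∉ E) := by
        refine forall_congr' fun i => forall_congr' fun hi => ?_
        rw [h1 i hi]
      rw [h2]
    have h1 : ∀ ω ω' ω₂, (∀ i < t, ω i = ω' i) → Φ ω ω₂ = Φ ω' ω₂ := by
      intro ω ω' ω₂ h
      simp only [hΦ]
      rw [pos_congr y h]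
      congr 1
      by_cases hω : ω ∈ N t
      · rw [Set.indicator_of_mem hω, Set.indicator_of_mem ((hpre ω ω' h).1 hω)]
      · rw [Set.indicator_of_notMem hω, Set.indicator_of_notMem fun h' => hω ((hpre ω ω' h).2 h')]
    have h2 : ∀ ω, Measurable (Φ ω) := by
      intro ω
      exact (measurable_const.indicator (measurableSet_escS T E A (pos y ω t))).const_mul _
    have h3 := lintegral_split (d := d) t h1 h2
    have h4 : ∀ ω, ∫⁻ ω₂, Φ ω ω₂ ∂Pr d
        = (N t).indicator (fun _ => (1 : ℝ≥0∞)) ω * esc T E A (pos y ω t) := by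
      intro ω
      simp only [hΦ]
      rw [lintegral_const_mul _ (measurable_const.indicator (measurableSet_escS T E A (pos y ω t))),
        lintegral_indicator_const (measurableSet_escS T E A (pos y ω t)), one_mul]
      rfl
    calc c * ∫⁻ ω, kvf T c E A (pre (pos y ω) t) ∂Pr d
        = ∫⁻ ω, c * kvf T c E A (pre (pos y ω) t) ∂Pr d :=
          (lintegral_const_mul _ (measurable_pre y t _)).symm
      _ ≤ ∫⁻ ω, ∫⁻ ω₂, Φ ω ω₂ ∂Pr d ∂Pr d := by
          refine lintegral_mono fun ω => ?_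
          show c * kvf T c E A (pre (pos y ω) t) ≤ ∫⁻ ω₂, Φ ω ω₂ ∂Pr d
          rw [h4, hk]
          by_cases hω : ω ∈ N t
          · rw [Set.indicator_of_mem hω, mul_one, one_mul]
            exact hω.2.2
          · rw [Set.indicator_of_notMem hω, mul_zero, zero_mul]
      _ = ∫⁻ ω, Φ ω (shift t ω) ∂Pr d := h3.symm
      _ = _ := by
          refine lintegral_congr fun ω => ?_
          simp only [hΦ]
          by_cases hω : ω ∈ N t
          · by_cases hω' : shift t ω ∈ escS T E A (pos y ω t)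
            · rw [Set.indicator_of_mem hω, Set.indicator_of_mem hω', Set.indicator_of_mem
                (show ω ∈ N t ∩ {ω | shift t ω ∈ escS T E A (pos y ω t)} from ⟨hω, hω'⟩), one_mul]
            · rw [Set.indicator_of_notMem hω', Set.indicator_of_notMem
                (show ω ∉ N t ∩ {ω | shift t ω ∈ escS T E A (pos y ω t)} from fun h => hω' h.2),
                mul_zero]
          · rw [Set.indicator_of_notMem hω, Set.indicator_of_notMem
                (show ω ∉ N t ∩ {ω | shift t ω ∈ escS T E A (pos y ω t)} from fun h => hω h.1),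
                zero_mul]
  have hmeas : ∀ t, Measurable fun ω : Om d => (N t ∩ {ω | shift t ω ∈ escS T E A (pos y ω t)}).indicator
          (fun _ => (1 : ℝ≥0∞)) ω := by
    intro t
    have hmN : MeasurableSet (N t) := by
      have hm : Measurable fun ω : Om d => ω ∈ N t := by
        refine measurable_of_prefix t fun ω ω' h => ?_
        have h1 : ∀ i ≤ t, pos y ω i = pos y ω' i := fun i hi => pos_congr y fun j hj => h j (by omega)
        simp only [hN, Set.mem_ofPred_eq]
        rw [h1 t le_rfl]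
        have h2 : (∀ i ≤ t, pos y ω i ∉ E) ↔ (∀ i ≤ t, pos y ω' i ∉ E) := by
          refine forall_congr' fun i => forall_congr' fun hi => ?_
          rw [h1 i hi]
        rw [h2]
      exact measurableSet_setOfPred.2 hm
    have hmE : MeasurableSet {ω : Om d | shift t ω ∈ escS T E A (pos y ω t)} := by
      have hm : Measurable fun ω : Om d => (fun ω ω₂ : Om d => ω₂ ∈ escS T E A (pos y ω t)) ω (shift t ω) := by
        refine measurable_of_prefix_shift t (fun ω ω' ω₂ h => ?_) fun ω => ?_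
        · show (ω₂ ∈ escS T E A (pos y ω t)) = (ω₂ ∈ escS T E A (pos y ω' t))
          rw [pos_congr y h]
        · exact measurableSet_setOfPred.1 (measurableSet_escS T E A (pos y ω t))
      exact measurableSet_setOfPred.2 hm
    exact measurable_const.indicator (hmN.inter hmE)
  calc c * pth y (kvf T c E A) = ∑' t, c * ∫⁻ ω, kvf T c E A (pre (pos y ω) t) ∂Pr d := by
        rw [pth, ENNReal.tsum_mul_left]
    _ ≤ ∑' t, ∫⁻ ω, (N t ∩ {ω | shift t ω ∈ escS T E A (pos y ω t)}).indicator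
          (fun _ => (1 : ℝ≥0∞)) ω ∂Pr d := ENNReal.tsum_le_tsum hM
    _ = ∫⁻ ω, ∑' t, (N t ∩ {ω | shift t ω ∈ escS T E A (pos y ω t)}).indicator
          (fun _ => (1 : ℝ≥0∞)) ω ∂Pr d :=
        (lintegral_tsum fun t => (hmeas t).aemeasurable).symm
    _ ≤ ∫⁻ _, (T : ℝ≥0∞) ∂Pr d := by
        refine lintegral_mono fun ω => ?_
        have h := count_le T E A y ω {t | ω ∈ N t ∩ {ω | shift t ω ∈ escS T E A (pos y ω t)}}
          (fun t ht => ⟨ht.1.1, ht.1.2.1, ht.2⟩)
        refine le_trans (le_of_eq ?_) h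
        refine tsum_congr fun t => ?_
        by_cases ht : ω ∈ N t ∩ {ω | shift t ω ∈ escS T E A (pos y ω t)}
        · rw [Set.indicator_of_mem ht, Set.indicator_of_mem (show t ∈ {t | ω ∈ N t ∩
            {ω | shift t ω ∈ escS T E A (pos y ω t)}} from ht)]
        · rw [Set.indicator_of_notMem ht, Set.indicator_of_notMem (show t ∉ {t | ω ∈ N t ∩
            {ω | shift t ω ∈ escS T E A (pos y ω t)}} from ht)]
    _ = T := by simp

end Pool.Agent.H39.LP
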