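import Pool.Agent.H39.LP.Base

/-!
# Module ZR: the generating function of the marked points

* `Zf_rec`: every list occurring in `ws w ψ B n F y` starts with `y`, and `LEl (y :: l) = y :: LEl (aft y l)`,
  so the tail of `LEl` of the whole walk is `LEl` of the part `aft y _` after the last visit of `y`.
  `ws_congr` and `ws_decomp` (WalkSum) with `F m = Fl f (insert y P) (LEl m)` give
  `Zf = green w B y * (ψ y * 1 + ∑ u ∈ B.erase y, w y u * ∑' n, ws w ψ (B.erase y) n (fun l => Fl f (insert y P) (LEl l)) u)`
  and for `l` starting with `u`, `LEl l = u :: (LEl l).tail`, so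
  `Fl f (insert y P) (LEl l) = f (insert y P) u * Fl f (insert u (insert y P)) (LEl l).tail`
  (constants out of `ws`: `ws_mul_left`, induction on `n`).
* `Mf_rec`: the same with `Gl`; `Gl e mk P' (u :: t) ≥ e u * (mk P' u * 1{t = []} + Gl e mk (insert u P') t)` and
  the mass of the walks from `u` in `B.erase y` with loop erasure `[u]` is at least that of the walk of
  length `0`, which is `1` (here `u ∈ B.erase y`).
-/

open MeasureTheory ProbabilityTheory Filter
open scoped ENNReal
open Pool.Agent.H39.LW

namespace Pool.Agent.H39.LP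

variable {U : Type*} [DecidableEq U]

/-- constants come out of walk sums -/
private lemma ws_mul_left_zr (w : U → U → ℝ) (ψ : U → ℝ) (B : Finset U) (c : ℝ≥0∞) (n : ℕ) :
    ∀ (F : List U → ℝ≥0∞) (v : U), ws w ψ B n (fun l => c * F l) v = c * ws w ψ B n F v := by
  induction n with
  | zero =>
    intro F v
    simp only [ws]
    split_ifs
    · ring
    · rw [mul_zero]
  | succ n ih =>
    intro F v
    simp only [ws]
    split_ifs
    · rw [Finset.mul_sum]
      refine Finset.sum_congr rfl fun u _ => ?_
      rw [ih (fun l => F (v :: l)) u]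
      ring
    · rw [mul_zero]

private lemma ws_add_zr (w : U → U → ℝ) (ψ : U → ℝ) (B : Finset U) (n : ℕ) :
    ∀ (F G : List U → ℝ≥0∞) (v : U),
      ws w ψ B n (fun l => F l + G l) v = ws w ψ B n F v + ws w ψ B n G v := by
  induction n with
  | zero =>
    intro F G v
    simp only [ws]
    split_ifs
    · ring
    · rw [add_zero]
  | succ n ih =>
    intro F G v
    simp only [ws]
    split_ifs
    · rw [← Finset.sum_add_distrib]
      refine Finset.sum_congr rfl fun u _ => ?_
      rw [ih (fun l => F (v :: l)) (fun l => G (v :: l)) u]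
      ring
    · rw [add_zero]

private lemma aft_cons_self_zr (v : U) (l : List U) : aft v (v :: l) = aft v l := by
  rw [aft_cons]
  split_ifs with h1 h2
  · rfl
  · rw [aft_notMem h1]
  · exact absurd rfl h2

theorem Zf_rec (w : U → U → ℝ) (ψ : U → ℝ) (f : Finset U → U → ℝ≥0∞) (P B : Finset U) {y : U}
    (hy : y ∈ B) :
    Zf w ψ f P B y = green w B y * (ENNReal.ofReal (ψ y) + ∑ u ∈ B.erase y,
      ENNReal.ofReal (w y u) * (f (insert y P) u * Zf w ψ f (insert y P) (B.erase y) u)) := by
  have h1 : ∀ n, ws w ψ B n (fun l => Fl f (insert y P) (LEl l).tail) y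
      = ws w ψ B n (fun l => (fun m => Fl f (insert y P) (LEl m)) (aft y l)) y := by
    intro n
    refine ws_congr n y fun l _ => ?_
    rw [aft_cons_self_zr, LEl_cons, List.tail_cons]
  unfold Zf
  simp only [h1]
  rw [ws_decomp hy (fun m => Fl f (insert y P) (LEl m)), LEl_nil]
  have h0 : Fl f (insert y P) ([] : List U) = 1 := rfl
  rw [h0, mul_one]
  congr 2
  refine Finset.sum_congr rfl fun u _ => ?_
  congr 1
  rw [← ENNReal.tsum_mul_left]
  refine tsum_congr fun n => ?_
  rw [← ws_mul_left_zr]
  refine ws_congr n u fun l _ => ?_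
  rw [LEl_cons, List.tail_cons]
  rfl

theorem Mf_rec (w : U → U → ℝ) (e : U → ℝ≥0∞) (mk : Finset U → U → ℝ≥0∞) (P B : Finset U) {y : U}
    (hy : y ∈ B) :
    green w B y * ∑ u ∈ B.erase y, ENNReal.ofReal (w y u) *
        (e u * (mk (insert y P) u + Mf w e mk (insert y P) (B.erase y) u)) ≤ Mf w e mk P B y := by
  have h1 : ∀ n, ws w (fun _ => 1) B n (fun l => Gl e mk (insert y P) (LEl l).tail) y
      = ws w (fun _ => 1) B n (fun l => (fun m => Gl e mk (insert y P) (LEl m)) (aft y l)) y := by
    intro n
    refine ws_congr n y fun l _ => ?_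
    rw [aft_cons_self_zr, LEl_cons, List.tail_cons]
  unfold Mf
  simp only [h1]
  rw [ws_decomp hy (fun m => Gl e mk (insert y P) (LEl m)), LEl_nil]
  have h0 : Gl e mk (insert y P) ([] : List U) = 0 := rfl
  rw [h0, mul_zero, zero_add]
  gcongr with u hu
  have h2 : ∀ n, ws w (fun _ => 1) (B.erase y) n (fun m => Gl e mk (insert y P) (LEl m)) u
      = e u * (mk (insert y P) u *
          ws w (fun _ => 1) (B.erase y) n (fun l => if (LEl l).tail = [] then 1 else 0) u
        + ws w (fun _ => 1) (B.erase y) n
            (fun l => Gl e mk (insert u (insert y P)) (LEl l).tail) u) := by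
    intro n
    rw [← ws_mul_left_zr, ← ws_add_zr, ← ws_mul_left_zr]
    refine ws_congr n u fun l _ => ?_
    rw [LEl_cons, List.tail_cons]
    have h3 : Gl e mk (insert y P) (u :: LEl (aft u l)) = e u *
        (if LEl (aft u l) = [] then mk (insert y P) u
          else Gl e mk (insert u (insert y P)) (LEl (aft u l))) := rfl
    rw [h3]
    congr 1
    by_cases h4 : LEl (aft u l) = []
    · rw [if_pos h4, if_pos h4, h4]
      have h5 : Gl e mk (insert u (insert y P)) ([] : List U) = 0 := rfl
      rw [h5, mul_one, add_zero]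
    · rw [if_neg h4, if_neg h4, mul_zero, zero_add]
  simp only [h2]
  rw [ENNReal.tsum_mul_left, ENNReal.tsum_add, ENNReal.tsum_mul_left]
  gcongr
  have h6 : ws w (fun _ => (1 : ℝ)) (B.erase y) 0
      (fun l => if (LEl l).tail = [] then 1 else 0) u = 1 := by
    have h7 : (LEl [u]).tail = [] := by
      rw [LEl_cons, List.tail_cons]
      simp [aft, LEl_nil]
    simp only [ws, if_pos hu, h7, if_true, mul_one, ENNReal.ofReal_one]
  have h8 := ENNReal.le_tsum (f := fun n => ws w (fun _ => (1 : ℝ)) (B.erase y) n
      (fun l => if (LEl l).tail = [] then 1 else 0) u) 0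
  rw [h6] at h8
  calc mk (insert y P) u = mk (insert y P) u * 1 := (mul_one _).symm
    _ ≤ _ := by gcongr

end Pool.Agent.H39.LP
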