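import Pool.Agent.H39.LP.Acc
import Pool.Agent.H39.LP.Killed
import Pool.Agent.H39.LP.ZRec

/-!
# Module MB: the mass of the pieces

Comparison with the walk in infinite volume (`ws_eq_lintegral` with `ψ = 1`): for `y ∈ B`, `Disjoint P B`

`Mf pk e mk P B y = ∑' n, ∫⁻ ω, (if ∀ i ≤ n, pos y ω i ∈ B then Gl e mk (insert y P) (LEl (pre (pos y ω) n)).tail else 0)
  ≤ pth y (fun l => if ∀ u ∈ l, u ∉ P then Gl e mk (insert y P) (LEl l).tail else 0)`.

* `Gl_le`: for `e = ew b A`, `0 < b ≤ 1`, and a path `l` from `y` with last entry `x`: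
  `Gl e mk (insert y P) (LEl l).tail ≤ b⁻¹ * b ^ cA A l * mk (P ∪ (LEl l).dropLast.toFinset) x`, and also
  `≤ mk (P ∪ (LEl l).dropLast.toFinset) x` (if the tail of `LEl l = y :: t` is empty then `Gl = 0`;
  otherwise `Gl = (∏_{x ∈ t} e x) * mk (insert y P ∪ t.dropLast.toFinset) (last t)` by induction on `t`,
  and `∏_{x ∈ t} e x = b ^ (number of entries of t in A)` where that number is `≥ cA A l - 1`).
* `Mf_le_zero`: `mk0 T A P' x = 1` implies `x ∈ A` and `1/3 ≤ esc T P A x`, so the mass is at most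
  `pth y (kvf T (1/3) P A) ≤ 3 T` (`killed_le`).
* `Mf_le_one`: `P' = P ∪ (LEl l).dropLast.toFinset`. If `1/9 ≤ hitp T P' A x` then
  `1/18 ≤ hitp T P A x` or `1/18 ≤ Pr {∃ n ≥ T, pos x n ∈ LEl l}` (union bound). In the first case
  `1/18 ≤ esc T P A x` (if `pos x n ∈ P`, `n ≥ T`, and the walk does not visit `A` during `[T, n)`, then the
  event of `esc` holds): this contributes at most `pth y (kvf T (1/18) P A) ≤ 18 T`. In the second
  case `AccTip T l`, which contributes at most `b⁻¹ * pth y (wt b A (EndIn A ∧ AccTip T))`.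
-/

open MeasureTheory ProbabilityTheory Filter
open scoped ENNReal
open Pool.Agent.H39.LW

namespace Pool.Agent.H39.LP

variable {d : ℕ} [NeZero d]

lemma mb_Gl (e : Zd d → ℝ≥0∞) (mk : Finset (Zd d) → Zd d → ℝ≥0∞) (t : List (Zd d)) :
    ∀ (P : Finset (Zd d)) (x : Zd d), t.getLast? = some x →
      Gl e mk P t = (t.map e).prod * mk (P ∪ t.dropLast.toFinset) x := by
  induction t with
  | nil => intro P x h; simp at h
  | cons u t ih =>
    intro P x h
    by_cases ht : t = []
    · subst ht
      have hx : u = x := by simpa using h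
      subst hx
      simp [Gl]
    · have h1 : t.getLast? = some x := by
        rw [List.getLast?_cons] at h
        obtain ⟨a, ha⟩ := Option.isSome_iff_exists.1 (List.getLast?_isSome.2 ht)
        rw [ha] at h ⊢
        simpa using h
      rw [Gl, if_neg ht, ih _ _ h1, List.map_cons, List.prod_cons, mul_assoc]
      congr 3
      rw [List.dropLast_cons_of_ne_nil ht, List.toFinset_cons]
      ext v
      simp only [Finset.mem_union, Finset.mem_insert]
      tauto

lemma mb_prod (b : ℝ≥0∞) (A : Finset (Zd d)) (t : List (Zd d)) (ht : t.Nodup) :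
    (t.map (ew b A)).prod = b ^ (t.toFinset ∩ A).card := by
  induction t with
  | nil => simp
  | cons u t ih =>
    rw [List.nodup_cons] at ht
    rw [List.map_cons, List.prod_cons, ih ht.2, List.toFinset_cons]
    have hu : u ∉ t.toFinset ∩ A := fun h =>
      ht.1 (List.mem_toFinset.1 (Finset.mem_inter.1 h).1)
    by_cases hA : u ∈ A
    · rw [ew, if_pos hA, Finset.insert_inter_of_mem hA, Finset.card_insert_of_notMem hu, pow_succ,
        mul_comm]
    · rw [ew, if_neg hA, Finset.insert_inter_of_notMem hA, one_mul]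

/-- the value of `Gl` on the tail of a loop erasure: it is `0` or the discount of the tail times
the mark -/
lemma mb_Gl_cases (b : ℝ≥0∞) (A P : Finset (Zd d))
    (mk : Finset (Zd d) → Zd d → ℝ≥0∞) (y : Zd d) (l : List (Zd d)) (hl : l.head? = some y)
    (x : Zd d) (hx : l.getLast? = some x) :
    Gl (ew b A) mk (insert y P) (LEl l).tail
        ≤ b ^ ((LEl l).tail.toFinset ∩ A).card * mk (P ∪ (LEl l).dropLast.toFinset) x := by
  have hhead : (LEl l).head? = some y := by rw [LEl_head?, hl]
  have hlast : (LEl l).getLast? = some x := by rw [LEl_getLast?, hx]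
  have hnd := LEl_nodup l
  generalize LEl l = L at *
  cases L with
  | nil => simp at hhead
  | cons v t =>
    have hv : v = y := by simpa using hhead
    subst hv
    rw [List.tail_cons]
    by_cases ht : t = []
    · subst ht
      rw [Gl]
      exact bot_le
    · have h1 : t.getLast? = some x := by
        rw [List.getLast?_cons] at hlast
        obtain ⟨a, ha⟩ := Option.isSome_iff_exists.1 (List.getLast?_isSome.2 ht)
        rw [ha] at hlast ⊢
        simpa using hlast
      rw [mb_Gl _ _ _ _ _ h1, mb_prod _ _ _ (List.nodup_cons.1 hnd).2]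
      refine mul_le_mul_right (le_of_eq ?_) _
      congr 1
      rw [List.dropLast_cons_of_ne_nil ht, List.toFinset_cons]
      ext v
      simp only [Finset.mem_union, Finset.mem_insert]
      tauto

lemma mb_pow {b : ℝ≥0∞} (hb0 : b ≠ 0) (hb : b ≤ 1) (A : Finset (Zd d)) (l : List (Zd d)) :
    b ^ ((LEl l).tail.toFinset ∩ A).card ≤ b⁻¹ * b ^ cA A l := by
  have hbt : b ≠ ⊤ := ne_top_of_le_ne_top ENNReal.one_ne_top hb
  have hnd := LEl_nodup l
  unfold cA
  generalize LEl l = L at *
  have hinv : 1 ≤ b⁻¹ := by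
    rw [ENNReal.one_le_inv]
    exact hb
  cases L with
  | nil => simpa using hinv
  | cons v t =>
    rw [List.tail_cons, List.toFinset_cons]
    by_cases hA : v ∈ A
    · have hv : v ∉ t.toFinset ∩ A := fun h =>
        (List.nodup_cons.1 hnd).1 (List.mem_toFinset.1 (Finset.mem_inter.1 h).1)
      rw [Finset.insert_inter_of_mem hA, Finset.card_insert_of_notMem hv, pow_succ', ← mul_assoc,
        ENNReal.inv_mul_cancel hb0 hbt, one_mul]
    · rw [Finset.insert_inter_of_notMem hA]
      exact le_mul_of_one_le_left' hinv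

/-- comparison of the mass with a path sum -/
lemma mb_Mf_le (b : ℝ≥0∞) (A P B : Finset (Zd d))
    (mk : Finset (Zd d) → Zd d → ℝ≥0∞) (hPB : Disjoint P B) (y : Zd d)
    (F : List (Zd d) → ℝ≥0∞)
    (hF : ∀ l : List (Zd d), l.head? = some y → (∀ u ∈ l, u ∉ P) → ∀ x, l.getLast? = some x →
      b ^ ((LEl l).tail.toFinset ∩ A).card * mk (P ∪ (LEl l).dropLast.toFinset) x ≤ F l) :
    Mf pk (ew b A) mk P B y ≤ pth y F := by
  unfold Mf pth
  refine ENNReal.tsum_le_tsum fun n => ?_
  rw [ws_eq_lintegral]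
  refine lintegral_mono fun ω => ?_
  show (if ∀ i ≤ n, pos y ω i ∈ B then ENNReal.ofReal 1 *
    Gl (ew b A) mk (insert y P) (LEl (pre (pos y ω) n)).tail else 0) ≤ F (pre (pos y ω) n)
  split_ifs with h
  · rw [ENNReal.ofReal_one, one_mul]
    have h1 : (pre (pos y ω) n).head? = some y := by rw [pre_head, pos_zero]
    refine (mb_Gl_cases b A P mk y _ h1 _ (pre_getLast _ _)).trans
      (hF _ h1 ?_ _ (pre_getLast _ _))
    intro u hu huP
    simp only [pre, List.mem_map, List.mem_range] at hu
    obtain ⟨i, hi, rfl⟩ := hu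
    exact Finset.disjoint_left.1 hPB huP (h i (by omega))
  · exact bot_le

theorem Mf_le_zero (T : ℕ) {b : ℝ≥0∞} (hb : b ≤ 1) (A P B : Finset (Zd d)) (hPB : Disjoint P B)
    {y : Zd d} (hy : y ∈ B) : Mf pk (ew b A) (mk0 T A) P B y ≤ 3 * T := by
  have h1 : Mf pk (ew b A) (mk0 T A) P B y
      ≤ pth y (kvf T (1 / 3) (P : Set (Zd d)) (A : Set (Zd d))) := by
    refine mb_Mf_le b A P B _ hPB y _ fun l _ hP x hx => ?_
    refine (mul_le_of_le_one_left' (pow_le_one₀ bot_le hb)).trans ?_
    unfold mk0 kvf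
    split_ifs with h h2
    · exact le_rfl
    · exfalso
      apply h2
      refine ⟨fun u hu => by simpa using hP u hu, x, ⟨by simpa using h.1, ?_⟩, hx⟩
      refine h.2.trans (measure_mono ?_)
      intro ω hω n hn _
      simpa using hω n hn
    · exact bot_le
    · exact le_rfl
  have h2 := killed_le T (1 / 3) (P : Set (Zd d)) (A : Set (Zd d)) y
  have h3 : (3 : ℝ≥0∞) * (1 / 3) = 1 := by
    rw [one_div, ENNReal.mul_inv_cancel (by norm_num) (by norm_num)]
  calc Mf pk (ew b A) (mk0 T A) P B y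
      ≤ 3 * ((1 / 3) * pth y (kvf T (1 / 3) (P : Set (Zd d)) (A : Set (Zd d)))) := by
        rw [← mul_assoc, h3, one_mul]
        exact h1
    _ ≤ 3 * T := by gcongr

theorem Mf_le_one (T : ℕ) {b : ℝ≥0∞} (hb0 : b ≠ 0) (hb : b ≤ 1) (A P B : Finset (Zd d))
    (hPB : Disjoint P B) {y : Zd d} (hy : y ∈ B) :
    Mf pk (ew b A) (mk1 T A) P B y
      ≤ 18 * T + b⁻¹ * pth y (wt b A fun l => EndIn (A : Set (Zd d)) l ∧ AccTip T l) := by
  have h1 : Mf pk (ew b A) (mk1 T A) P B y
      ≤ pth y (fun l => kvf T (1 / 18) (P : Set (Zd d)) (A : Set (Zd d)) l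
        + b⁻¹ * wt b A (fun l => EndIn (A : Set (Zd d)) l ∧ AccTip T l) l) := by
    refine mb_Mf_le b A P B _ hPB y _ fun l _ hP x hx => ?_
    unfold mk1
    split_ifs with h
    · rw [mul_one]
      have hun : {ω : Om d | ∃ n, T ≤ n ∧ pos x ω n ∈
            ((P ∪ (LEl l).dropLast.toFinset : Finset (Zd d)) : Set (Zd d)) ∧
            ∀ i, T ≤ i → i < n → pos x ω i ∉ (A : Set (Zd d))}
          ⊆ {ω | ∀ n, T ≤ n → (∀ i ≤ n, pos x ω i ∉ (P : Set (Zd d))) →
              pos x ω n ∉ (A : Set (Zd d))}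
            ∪ {ω | ∃ n, T ≤ n ∧ pos x ω n ∈ LEl l} := by
        rintro ω ⟨n, hn, hnP, hi⟩
        rw [Finset.coe_union, Set.mem_union] at hnP
        rcases hnP with hnP | hnP
        · left
          intro m hm hmP
          refine hi m hm ?_
          by_contra hcon
          exact hmP n (by omega) hnP
        · right
          refine ⟨n, hn, ?_⟩
          rw [Finset.mem_coe, List.mem_toFinset] at hnP
          exact List.mem_of_mem_dropLast hnP
      have hle : (1 : ℝ≥0∞) / 9 ≤ esc T (P : Set (Zd d)) (A : Set (Zd d)) x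
          + Pr d {ω | ∃ n, T ≤ n ∧ pos x ω n ∈ LEl l} :=
        (h.2.trans (measure_mono hun)).trans (measure_union_le _ _)
      by_cases hE : (1 : ℝ≥0∞) / 18 ≤ esc T (P : Set (Zd d)) (A : Set (Zd d)) x
      · have hk : kvf T (1 / 18) (P : Set (Zd d)) (A : Set (Zd d)) l = 1 := by
          rw [kvf, if_pos]
          exact ⟨fun u hu => by simpa using hP u hu, x, ⟨by simpa using h.1, hE⟩, hx⟩
        rw [hk]
        exact (pow_le_one₀ bot_le hb).trans le_self_add
      · have hA : (1 : ℝ≥0∞) / 18 ≤ Pr d {ω | ∃ n, T ≤ n ∧ pos x ω n ∈ LEl l} := by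
          by_contra hcon
          push Not at hE hcon
          have h3 : (1 : ℝ≥0∞) / 9 = 1 / 18 + 1 / 18 := by
            rw [← ENNReal.add_div]
            rw [ENNReal.div_eq_div_iff] <;> norm_num
          have h4 := ENNReal.add_lt_add hE hcon
          rw [← h3] at h4
          exact absurd hle (not_le.2 h4)
        have hw : wt b A (fun l => EndIn (A : Set (Zd d)) l ∧ AccTip T l) l = b ^ cA A l := by
          rw [wt, if_pos]
          exact ⟨⟨x, by simpa using h.1, hx⟩, x, hx, hA⟩
        rw [hw]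
        exact (mb_pow hb0 hb A l).trans le_add_self
    · rw [mul_zero]
      exact bot_le
  rw [pth_add, pth_mul_left] at h1
  refine h1.trans (add_le_add ?_ le_rfl)
  have h2 := killed_le T (1 / 18) (P : Set (Zd d)) (A : Set (Zd d)) y
  have h3 : (18 : ℝ≥0∞) * (1 / 18) = 1 := by
    rw [one_div, ENNReal.mul_inv_cancel (by norm_num) (by norm_num)]
  calc pth y (kvf T (1 / 18) (P : Set (Zd d)) (A : Set (Zd d)))
      = 18 * ((1 / 18) * pth y (kvf T (1 / 18) (P : Set (Zd d)) (A : Set (Zd d)))) := by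
        rw [← mul_assoc, h3, one_mul]
    _ ≤ 18 * T := by gcongr

end Pool.Agent.H39.LP
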