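import Pool.Agent.H39.LP.Base

/-!
# Module MA: the set of the marked vertices

`before l x` is the set of the vertices of `l` before the first occurrence of `x`;
`Im mk l A` is the set of the vertices `x ∈ A` of `l` with `mk (before l x) x ≠ 0`.

* `Fl_eq`: `Fl (fm s b A mk) ∅ l = b ^ (l.toFinset ∩ A).card * (1 + s) ^ (Im mk l A).card` for a
  self-avoiding `l`, `mk P x ∈ {0, 1}`, `mk P x = 0` for `x ∉ A` (prove by induction on `l` for
  `Fl f P l` with `P` in place of `∅`, `before` replaced by `P ∪ before l x`).
* `before_reverse`: for `l` self-avoiding and `x ∈ l`, every vertex `y ≠ x` of `l` is in `before l x` or in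
  `before l.reverse x`.
-/

open MeasureTheory ProbabilityTheory Filter
open scoped ENNReal
open Pool.Agent.H39.LW

namespace Pool.Agent.H39.LP

variable {d : ℕ}

/-- vertices of `l` before `x` -/
def before (l : List (Zd d)) (x : Zd d) : Finset (Zd d) :=
  (l.takeWhile (fun u => decide (u ≠ x))).toFinset

open Classical in
/-- the marked vertices of `l` -/
noncomputable def Im (mk : Finset (Zd d) → Zd d → ℝ≥0∞) (l : List (Zd d)) (A : Finset (Zd d)) :
    Finset (Zd d) := (l.toFinset ∩ A).filter fun x => mk (before l x) x ≠ 0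

lemma before_cons_self (u : Zd d) (t : List (Zd d)) : before (u :: t) u = ∅ := by
  simp [before]

lemma before_cons_ne {u x : Zd d} (h : u ≠ x) (t : List (Zd d)) :
    before (u :: t) x = insert u (before t x) := by
  simp [before, h]

open Classical in
lemma Fl_eq_aux {s b : ℝ≥0∞} {A : Finset (Zd d)} {mk : Finset (Zd d) → Zd d → ℝ≥0∞}
    (h01 : ∀ P x, mk P x = 0 ∨ mk P x = 1) (hA : ∀ P x, x ∉ A → mk P x = 0) (l : List (Zd d))
    (hl : l.Nodup) (P : Finset (Zd d)) :
    Fl (fm s b A mk) P l = b ^ (l.toFinset ∩ A).card *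
      (1 + s) ^ ((l.toFinset ∩ A).filter fun x => mk (P ∪ before l x) x ≠ 0).card := by
  induction l generalizing P with
  | nil => simp [Fl]
  | cons u t ih =>
    have hut : u ∉ t := (List.nodup_cons.1 hl).1
    have ht : t.Nodup := (List.nodup_cons.1 hl).2
    have hfil : ((t.toFinset ∩ A).filter fun x => mk (P ∪ before (u :: t) x) x ≠ 0)
        = ((t.toFinset ∩ A).filter fun x => mk (insert u P ∪ before t x) x ≠ 0) := by
      refine Finset.filter_congr fun x hx => ?_
      have hxt : x ∈ t := by
        have := (Finset.mem_inter.1 hx).1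
        exact List.mem_toFinset.1 this
      have hux : u ≠ x := fun h => hut (h ▸ hxt)
      rw [before_cons_ne hux, Finset.union_insert, Finset.insert_union]
    rw [Fl, ih ht (insert u P)]
    by_cases hu : u ∈ A
    · have hni : u ∉ t.toFinset ∩ A := fun h =>
        hut (List.mem_toFinset.1 (Finset.mem_inter.1 h).1)
      have hins : (u :: t).toFinset ∩ A = insert u (t.toFinset ∩ A) := by
        rw [List.toFinset_cons, Finset.insert_inter_of_mem hu]
      rw [hins, Finset.card_insert_of_notMem hni, Finset.filter_insert, before_cons_self,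
        Finset.union_empty, hfil]
      rcases h01 P u with h | h
      · rw [if_neg (by simpa using h)]
        simp only [fm, ew, if_pos hu, h]
        ring
      · rw [if_pos (by rw [h]; exact one_ne_zero), Finset.card_insert_of_notMem]
        · simp only [fm, ew, if_pos hu, h]
          ring
        · intro h'
          exact hni (Finset.mem_filter.1 h').1
    · have hins : (u :: t).toFinset ∩ A = t.toFinset ∩ A := by
        rw [List.toFinset_cons, Finset.insert_inter_of_notMem hu]
      rw [hins, hfil]
      simp only [fm, ew, if_neg hu, hA P u hu]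
      ring

theorem Fl_eq {s b : ℝ≥0∞} {A : Finset (Zd d)} {mk : Finset (Zd d) → Zd d → ℝ≥0∞}
    (h01 : ∀ P x, mk P x = 0 ∨ mk P x = 1) (hA : ∀ P x, x ∉ A → mk P x = 0) {l : List (Zd d)}
    (hl : l.Nodup) :
    Fl (fm s b A mk) ∅ l = b ^ (l.toFinset ∩ A).card * (1 + s) ^ (Im mk l A).card := by
  rw [Fl_eq_aux h01 hA l hl ∅]
  simp only [Finset.empty_union, Im]

theorem before_reverse {l : List (Zd d)} (hl : l.Nodup) {x y : Zd d} (hx : x ∈ l) (hy : y ∈ l)
    (hxy : y ≠ x) : y ∈ before l x ∨ y ∈ before l.reverse x := by
  obtain ⟨l₁, l₂, rfl⟩ := List.append_of_mem hx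
  have hn := List.nodup_append.1 hl
  have hx1 : x ∉ l₁ := fun h => hn.2.2 x h x (by simp) rfl
  have hx2 : x ∉ l₂ := (List.nodup_cons.1 hn.2.1).1
  have key : ∀ l₁ l₂ : List (Zd d), x ∉ l₁ →
      (l₁ ++ x :: l₂).takeWhile (fun u => decide (u ≠ x)) = l₁ := by
    intro l₁ l₂ h
    induction l₁ with
    | nil => simp
    | cons a l ih =>
      have ha : a ≠ x := fun h' => h (by simp [h'])
      have hl' : x ∉ l := fun h' => h (by simp [h'])
      rw [List.cons_append, List.takeWhile_cons, if_pos (by simpa using ha), ih hl']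
  rcases List.mem_append.1 hy with h | h
  · left
    rw [before, key _ _ hx1]
    exact List.mem_toFinset.2 h
  · right
    have h2 : y ∈ l₂ := by
      rcases List.mem_cons.1 h with h | h
      · exact absurd h hxy
      · exact h
    have hrev : (l₁ ++ x :: l₂).reverse = l₂.reverse ++ x :: l₁.reverse := by simp
    rw [before, hrev, key _ _ (by simpa using hx2)]
    exact List.mem_toFinset.2 (by simpa using h2)

end Pool.Agent.H39.LP
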