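import Pool.Agent.H39.LP.Base

/-!
# Module MP: monotone lattice paths and straight segments

* `mono_path`: a self-avoiding nearest-neighbour path from `u` to `z` inside the smallest box
  containing `u` and `z`, of length `∑ i, |u i - z i|`. Induction on that number: if `u ≠ z` pick `i`
  with `u i ≠ z i` and step from `u` to `u' = u ± e_i` towards `z`; the box of `u'` and `z` is contained in
  the box of `u` and `z` and does not contain `u`.
* `chain_reverse`: the reversed path is a path (`sv_opp`).
* `pth_path`: the probability that the walk follows a given nearest-neighbour path `z :: π` is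
  `(2 d)^(-π.length)`: `pth z (fun l => if l = z :: π then 1 else 0) ≥ ((2d)⁻¹)^π.length`
  (induction on `π` with the first-step decomposition `lintegral_cons` and `pre_cons`; or:
  choose steps `e_0, …` and use that `Pr {ω | ∀ i < n, ω i = e_i} = (2d)^(-n)` by induction).
-/

open MeasureTheory ProbabilityTheory Filter
open scoped ENNReal
open Pool.Agent.H39.LW

namespace Pool.Agent.H39.LP

variable {d : ℕ}

/-- nearest neighbours -/
def Adj (u v : Zd d) : Prop := ∃ e : Step d, v = u + sv e

theorem mono_path (u z : Zd d) : ∃ σ : List (Zd d), (u :: σ).IsChain Adj ∧ (u :: σ).Nodup ∧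
    (u :: σ).getLast? = some z ∧ σ.length = ∑ i, (u i - z i).natAbs ∧
    ∀ x ∈ u :: σ, ∀ i, min (u i) (z i) ≤ x i ∧ x i ≤ max (u i) (z i) := by
  obtain ⟨n, hn⟩ : ∃ n : ℕ, ∑ i, (u i - z i).natAbs = n := ⟨_, rfl⟩
  induction n generalizing u with
  | zero =>
    have huz : u = z := by
      funext i
      have := (Finset.sum_eq_zero_iff.1 hn) i (Finset.mem_univ i)
      omega
    subst huz
    refine ⟨[], by simp, by simp, by simp, by simp, ?_⟩
    intro x hx i
    simp only [List.mem_singleton] at hx
    subst hx
    simp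
  | succ n ih =>
    obtain ⟨i, hi⟩ : ∃ i, u i ≠ z i := by
      by_contra hcon
      push Not at hcon
      have : ∑ i, (u i - z i).natAbs = 0 := by
        refine Finset.sum_eq_zero fun i _ => ?_
        rw [hcon i]; simp
      omega
    set e : Step d := (i, decide (u i < z i)) with he
    have hsvi : sv e i = if u i < z i then 1 else -1 := by
      have h1 : sv e i = if decide (u i < z i) = true then 1 else -1 := Pi.single_eq_same _ _
      rw [h1]
      by_cases hlt : u i < z i
      · rw [if_pos hlt, if_pos (decide_eq_true hlt)]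
      · rw [if_neg hlt, if_neg (by simpa using hlt)]
    have hsvj : ∀ j, j ≠ i → sv e j = 0 := by
      intro j hj
      exact Pi.single_eq_of_ne hj _
    set u' : Zd d := u + sv e with hu'
    have hu'i : u' i = u i + if u i < z i then 1 else -1 := by
      rw [hu', Pi.add_apply, hsvi]
    have hu'j : ∀ j, j ≠ i → u' j = u j := by
      intro j hj
      rw [hu', Pi.add_apply, hsvj j hj, add_zero]
    have hsum : ∑ j, (u' j - z j).natAbs = n := by
      have h1 := Finset.add_sum_erase Finset.univ (fun j => (u j - z j).natAbs) (Finset.mem_univ i)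
      have h2 := Finset.add_sum_erase Finset.univ (fun j => (u' j - z j).natAbs) (Finset.mem_univ i)
      have h3 : ∑ j ∈ Finset.univ.erase i, (u' j - z j).natAbs
          = ∑ j ∈ Finset.univ.erase i, (u j - z j).natAbs := by
        refine Finset.sum_congr rfl fun j hj => ?_
        rw [hu'j j (Finset.ne_of_mem_erase hj)]
      have h4 : (u' i - z i).natAbs + 1 = (u i - z i).natAbs := by
        rw [hu'i]
        split_ifs with hlt
        · omega
        · omega
      omega
    obtain ⟨σ, hc, hnd, hlast, hlen, hbox⟩ := ih u' hsum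
    refine ⟨u' :: σ, ?_, ?_, ?_, ?_, ?_⟩
    · exact List.isChain_cons_cons.2 ⟨⟨e, hu'⟩, hc⟩
    · refine List.nodup_cons.2 ⟨fun hmem => ?_, hnd⟩
      have := hbox u hmem i
      rw [hu'i] at this
      split_ifs at this with hlt
      · omega
      · omega
    · rw [List.getLast?_cons_cons]
      exact hlast
    · rw [List.length_cons, hlen, hsum, hn]
    · intro x hx j
      rcases List.mem_cons.1 hx with rfl | hx
      · exact ⟨min_le_left _ _, le_max_left _ _⟩
      · have := hbox x hx j
        by_cases hj : j = i
        · subst hj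
          rw [hu'i] at this
          split_ifs at this with hlt
          · omega
          · omega
        · rw [hu'j j hj] at this
          exact this

theorem chain_reverse {l : List (Zd d)} (h : l.IsChain Adj) : l.reverse.IsChain Adj := by
  rw [List.isChain_reverse]
  refine h.imp fun a b hab => ?_
  obtain ⟨e, he⟩ := hab
  refine ⟨opp d e, ?_⟩
  rw [sv_opp, he]
  simp

variable [NeZero d]

open Classical in
theorem pth_path {z : Zd d} {π : List (Zd d)} (h : (z :: π).IsChain Adj) :
    ((2 * d : ℝ≥0∞)⁻¹) ^ π.length ≤ pth z (fun l => if l = z :: π then 1 else 0) := by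
  induction π generalizing z with
  | nil =>
    unfold pth
    refine le_trans ?_ (ENNReal.le_tsum 0)
    have : ∀ ω : Om d, (if pre (pos z ω) 0 = [z] then (1 : ℝ≥0∞) else 0) = 1 := by
      intro ω
      rw [if_pos]
      simp [pre]
    simp only [this, lintegral_const, measure_univ, mul_one, List.length_nil, pow_zero, le_refl]
  | cons v π ih =>
    obtain ⟨⟨e, he⟩, hc⟩ := List.isChain_cons_cons.1 h
    have ih' := ih hc
    have key : ∀ n : ℕ, (2 * d : ℝ≥0∞)⁻¹ *
        ∫⁻ ω, (if pre (pos v ω) n = v :: π then (1 : ℝ≥0∞) else 0) ∂Pr d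
        ≤ ∫⁻ ω, (if pre (pos z ω) (n + 1) = z :: v :: π then (1 : ℝ≥0∞) else 0) ∂Pr d := by
      intro n
      rw [lintegral_cons (measurable_pre z (n + 1) fun l => if l = z :: v :: π then 1 else 0),
        ENNReal.div_eq_inv_mul]
      refine mul_le_mul_right ?_ _
      refine le_trans ?_ (Finset.single_le_sum (f := fun e' : Step d =>
        ∫⁻ ω, (if pre (pos z (cons e' ω)) (n + 1) = z :: v :: π then (1 : ℝ≥0∞) else 0) ∂Pr d)
        (fun _ _ => bot_le) (Finset.mem_univ e))
      refine lintegral_mono fun ω => ?_
      rw [pre_cons, ← he]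
      simp only [List.cons.injEq, true_and]
      exact le_rfl
    unfold pth
    rw [List.length_cons, pow_succ']
    calc (2 * d : ℝ≥0∞)⁻¹ * (2 * d : ℝ≥0∞)⁻¹ ^ π.length
        ≤ (2 * d : ℝ≥0∞)⁻¹ * pth v (fun l => if l = v :: π then 1 else 0) := by gcongr
      _ = ∑' n, (2 * d : ℝ≥0∞)⁻¹ *
        ∫⁻ ω, (if pre (pos v ω) n = v :: π then (1 : ℝ≥0∞) else 0) ∂Pr d := by
          unfold pth
          rw [ENNReal.tsum_mul_left]
      _ ≤ ∑' n, ∫⁻ ω, (if pre (pos z ω) (n + 1) = z :: v :: π then (1 : ℝ≥0∞) else 0) ∂Pr d :=
          ENNReal.tsum_le_tsum key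
      _ ≤ _ := ENNReal.tsum_comp_le_tsum_of_injective (add_left_injective 1)
          (fun n => ∫⁻ ω, (if pre (pos z ω) n = z :: v :: π then (1 : ℝ≥0∞) else 0) ∂Pr d)

end Pool.Agent.H39.LP
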