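import Pool.Agent.H39.LP.Split

/-!
# Module NR: visits near `A` are followed by visits of `A`

`pth_split_ge` with `F l = (T + 1) * wt b A (EndIn A) l`, `g = fun l => b * wt b A (EndIn (nbA ρ A)) l`,
`h _ l₂ = if EndIn A l₂ ∧ (∀ x ∈ l₂.dropLast, x ∉ A) ∧ l₂.length ≤ T + 1 then 1 else 0`.

* `hF`: let `l = l₁ · l₂` (`l₁ = l.take (k+1)`, `l₂ = l.drop k`) with non-zero term. The loop erasure of
  `l` is `l₂.tail.foldl leStep (LEl l₁)`, all its vertices are in `LEl l₁` or in `l₂.tail`, and only
  the last one of `l₂` is in `A`, so `cA A l ≤ cA A l₁ + 1` and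
  `b * b ^ cA A l₁ ≤ b ^ cA A l` as `b ≤ 1`; `EndIn A l` as `l` and `l₂` have the same last entry.
  At most `T + 1` values `k < l.length` have `(l.drop k).length ≤ T + 1`.
* `hc`: if `x ∈ nbA ρ A`, say `a ∈ A`, `a ∈ nb x ρ`, take the `n ≤ T` of the hypothesis `h`. If
  `pos x ω n = a` then the first time `m` with `pos x ω m ∈ A` is `≤ n ≤ T` and
  `pre (pos x ω) m` is one of the paths counted by `h`; so
  `p ≤ Pr {pos x ω n = a} ≤ ∑_{m ≤ T} Pr {first visit of A at time m} ≤ pth x (h _)`.
-/

open MeasureTheory ProbabilityTheory Filter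
open scoped ENNReal
open Pool.Agent.H39.LW

namespace Pool.Agent.H39.LP

variable {d : ℕ} [NeZero d]

omit [NeZero d] in
lemma mem_foldl_leStep {L l : List (Zd d)} {x : Zd d} (h : x ∈ l.foldl leStep L) :
    x ∈ L ∨ x ∈ l := by
  induction l generalizing L with
  | nil => left; exact h
  | cons v l ih =>
    rw [List.foldl_cons] at h
    rcases ih h with h | h
    · unfold leStep at h
      rw [List.mem_append, List.mem_singleton] at h
      rcases h with h | h
      · left
        exact (List.takeWhile_sublist _).subset h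
      · right; rw [h]; exact List.mem_cons_self
    · right; exact List.mem_cons_of_mem _ h

omit [NeZero d] in
lemma cA_le_split {A : Finset (Zd d)} {l : List (Zd d)} {k : ℕ}
    (h2 : ∀ x ∈ (l.drop k).dropLast, x ∉ A) :
    cA A l ≤ cA A (l.take (k + 1)) + 1 := by
  classical
  have e : LEl l = (l.drop (k + 1)).foldl leStep (LEl (l.take (k + 1))) := by
    conv_lhs => rw [← List.take_append_drop (k + 1) l]
    unfold LEl
    rw [List.foldl_append]
  have key : ∀ x ∈ A, x ∈ LEl l → x ∉ LEl (l.take (k + 1)) → (l.drop k).getLast? = some x := by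
    intro x hxA hx hx1
    rw [e] at hx
    rcases mem_foldl_leStep hx with h | h
    · exact absurd h hx1
    · have hmem : x ∈ l.drop k := by
        rw [← List.drop_drop] at h
        exact List.mem_of_mem_drop (by simpa [add_comm] using h)
      have hne : l.drop k ≠ [] := List.ne_nil_of_mem hmem
      rw [← List.dropLast_append_getLast hne, List.mem_append, List.mem_singleton] at hmem
      rcases hmem with h' | h'
      · exact absurd hxA (h2 x h')
      · rw [h', List.getLast?_eq_getLast_of_ne_nil hne]
  unfold cA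
  rcases hl : (l.drop k).getLast? with _ | z
  · have hsub : (LEl l).toFinset ∩ A ⊆ (LEl (l.take (k + 1))).toFinset ∩ A := by
      intro x hx
      rw [Finset.mem_inter, List.mem_toFinset] at hx ⊢
      refine ⟨?_, hx.2⟩
      by_contra hc
      have := key x hx.2 hx.1 hc
      rw [hl] at this
      exact absurd this (by simp)
    exact (Finset.card_le_card hsub).trans (Nat.le_succ _)
  · have hsub : (LEl l).toFinset ∩ A ⊆ insert z ((LEl (l.take (k + 1))).toFinset ∩ A) := by
      intro x hx
      rw [Finset.mem_inter, List.mem_toFinset] at hx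
      rw [Finset.mem_insert, Finset.mem_inter, List.mem_toFinset]
      by_cases hc : x ∈ LEl (l.take (k + 1))
      · right; exact ⟨hc, hx.2⟩
      · left
        have := key x hx.2 hx.1 hc
        rw [hl] at this
        exact (Option.some.inj this).symm
    exact (Finset.card_le_card hsub).trans (Finset.card_insert_le _ _)

open Classical in
/-- first visits of `A` before time `T + 1` -/
noncomputable def fstv (A : Finset (Zd d)) (T : ℕ) (l₂ : List (Zd d)) : ℝ≥0∞ :=
  if EndIn (A : Set (Zd d)) l₂ ∧ (∀ x ∈ l₂.dropLast, x ∉ A) ∧ l₂.length ≤ T + 1 then 1 else 0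

omit [NeZero d] in
lemma near_term {b : ℝ≥0∞} (hb : b ≤ 1) (A : Finset (Zd d)) (S : Set (Zd d)) (T : ℕ)
    (l : List (Zd d)) (k : ℕ) (hk : k < l.length) :
    b * wt b A (EndIn S) (l.take (k + 1)) * fstv A T (l.drop k) ≤
      if l.length ≤ k + (T + 1) then wt b A (EndIn (A : Set (Zd d))) l else 0 := by
  classical
  by_cases hf : EndIn (A : Set (Zd d)) (l.drop k) ∧ (∀ x ∈ (l.drop k).dropLast, x ∉ A) ∧
      (l.drop k).length ≤ T + 1
  · have hlen : l.length ≤ k + (T + 1) := by
      have := hf.2.2
      rw [List.length_drop] at this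
      omega
    rw [if_pos hlen]
    have hend : EndIn (A : Set (Zd d)) l := by
      obtain ⟨x, hx, hxl⟩ := hf.1
      refine ⟨x, hx, ?_⟩
      rw [← hxl, List.getLast?_drop, if_neg (by omega)]
    unfold wt fstv
    rw [if_pos hf, if_pos hend, mul_one]
    split_ifs with h1
    · calc b * b ^ cA A (l.take (k + 1)) = b ^ (cA A (l.take (k + 1)) + 1) := by
            rw [pow_succ, mul_comm]
        _ ≤ b ^ cA A l := pow_le_pow_of_le_one zero_le hb (cA_le_split hf.2.1)
    · rw [mul_zero]; exact zero_le
  · unfold fstv
    rw [if_neg hf, mul_zero]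
    exact zero_le

theorem near_of {ρ T : ℕ} {p : ℝ≥0∞}
    (h : ∀ y a : Zd d, a ∈ nb y ρ → ∃ n ≤ T, p ≤ Pr d {ω | pos y ω n = a})
    {b : ℝ≥0∞} (hb : b ≤ 1) (A : Finset (Zd d)) (y : Zd d) :
    b * pth y (wt b A (EndIn (nbA ρ A))) * p ≤ (T + 1) * Q b A y := by
  classical
  unfold Q
  rw [← pth_mul_left, ← pth_mul_left]
  refine pth_split_ge (h := fun _ l₂ => fstv A T l₂) ?_ ?_
  · intro l _
    calc ∑ k ∈ Finset.range l.length, b * wt b A (EndIn (nbA ρ A)) (l.take (k + 1)) *
          fstv A T (l.drop k)
        ≤ ∑ k ∈ Finset.range l.length,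
          (if l.length ≤ k + (T + 1) then wt b A (EndIn (A : Set (Zd d))) l else 0) :=
          Finset.sum_le_sum fun k hk => near_term hb A _ T l k (Finset.mem_range.1 hk)
      _ = ((Finset.range l.length).filter (fun k => l.length ≤ k + (T + 1))).card *
          wt b A (EndIn (A : Set (Zd d))) l := by
          rw [← Finset.sum_filter, Finset.sum_const, nsmul_eq_mul]
      _ ≤ (T + 1) * wt b A (EndIn (A : Set (Zd d))) l := by
          gcongr
          have hsub : (Finset.range l.length).filter (fun k => l.length ≤ k + (T + 1)) ⊆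
              Finset.Ico (l.length - (T + 1)) l.length := by
            intro k hk
            rw [Finset.mem_filter, Finset.mem_range] at hk
            rw [Finset.mem_Ico]
            omega
          have hc := Finset.card_le_card hsub
          rw [Nat.card_Ico] at hc
          have : ((Finset.range l.length).filter (fun k => l.length ≤ k + (T + 1))).card ≤ T + 1 := by
            omega
          exact_mod_cast this
  · intro l x _ hx hg
    have hend : EndIn (nbA ρ A) l := by
      by_contra hc
      apply hg
      unfold wt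
      rw [if_neg hc, mul_zero]
    obtain ⟨x', ⟨a, haA, hax⟩, hx'⟩ := hend
    rw [hx, Option.some.injEq] at hx'
    rw [← hx'] at hax
    obtain ⟨n, hn, hp⟩ := h x a hax
    refine hp.trans ?_
    have hsub : {ω : Om d | pos x ω n = a} ⊆ ⋃ m ∈ Finset.range (T + 1),
        {ω | pos x ω m ∈ A ∧ ∀ i < m, pos x ω i ∉ A} := by
      intro ω hω
      have hω' : pos x ω n = a := hω
      have hex : ∃ m, pos x ω m ∈ A := ⟨n, by rw [hω']; exact haA⟩
      rw [Set.mem_iUnion₂]
      refine ⟨Nat.find hex, ?_, Nat.find_spec hex, fun i hi => Nat.find_min hex hi⟩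
      rw [Finset.mem_range]
      have := Nat.find_min' hex (show pos x ω n ∈ A by rw [hω']; exact haA)
      omega
    refine (measure_mono hsub).trans ((measure_biUnion_finset_le _ _).trans ?_)
    unfold pth
    refine le_trans (Finset.sum_le_sum fun m hm => ?_) (ENNReal.sum_le_tsum (Finset.range (T + 1)))
    refine meas_le_lintegral₀ (measurable_pre x m _).aemeasurable fun ω hω => ?_
    have hpre : pre (pos x ω) m = (List.range m).map (pos x ω) ++ [pos x ω m] := by
      unfold pre
      rw [List.range_succ, List.map_append]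
      rfl
    have h1 : EndIn (A : Set (Zd d)) (pre (pos x ω) m) :=
      ⟨pos x ω m, hω.1, pre_getLast _ _⟩
    have h2 : ∀ z ∈ (pre (pos x ω) m).dropLast, z ∉ A := by
      intro z hz
      rw [hpre, List.dropLast_concat, List.mem_map] at hz
      obtain ⟨i, hi, rfl⟩ := hz
      exact hω.2 i (List.mem_range.1 hi)
    have h3 : (pre (pos x ω) m).length ≤ T + 1 := by
      have := Finset.mem_range.1 hm
      simp only [pre, List.length_map, List.length_range]
      omega
    unfold fstv
    rw [if_pos ⟨h1, h2, h3⟩]

end Pool.Agent.H39.LP
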