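import Mathlib

/-!
# Module NUM: a numerical series

With `q_j = ⌈24^j m^5 / N⌉ ≥ 24^j m^5 / N` and `K_j = C₃ (4·4^j m^2)^2 = 16 C₃ 16^j m^4`, the exponent is
`⌊q_j / (4 K_j)⌋ ≥ x_j - 1`, `x_j = (3/2)^j m / (64 N C₃)` (`24/16 = 3/2`), and
`2^(-x) ≤ (k / x)^k` for `x > 0` (e.g. `x ≤ 2^x` applied to `x / k`). With `k = 4 (d + 5)`:
`x_j^(-k) ≤ C 4^(-j (d+5)) m^(-4 (d+5))` as `(3/2)^4 ≥ 4`. The polynomial factor is at most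
`C (4^j m^2)^(d+4)`. So the sum is at most `∑ C 4^(-j) m^(2 (d+4) - 4 (d+5)) ≤ C' / m`.
It may be convenient to bound the `j`-th term by `C 4^(-j) / m` in `ℝ` and then to convert.
-/

open scoped ENNReal

namespace Pool.Agent.H39.LP

/-- `2 ^ M` dominates the `k`-th power of `M / k + 1` -/
theorem num_two_pow (M k : ℕ) : (M / k + 1) ^ k ≤ 2 ^ M := by
  calc (M / k + 1) ^ k ≤ (2 ^ (M / k)) ^ k := Nat.pow_le_pow_left Nat.lt_two_pow_self _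
    _ = 2 ^ (M / k * k) := (pow_mul _ _ _).symm
    _ ≤ 2 ^ M := Nat.pow_le_pow_right (by norm_num) (Nat.div_mul_le_self _ _)

/-- the exponential factor -/
theorem num_exp (d N C₃ : ℕ) (hN : 0 < N) (h3 : 0 < C₃) (m j : ℕ) (hm : 1 ≤ m) :
    (4 ^ j * m ^ 4) ^ (d + 5) ≤ (64 * (4 * (d + 5)) * N * C₃) ^ (4 * (d + 5)) *
      (2 * 2 ^ (((24 ^ j * m ^ 5 + N - 1) / N) / (4 * (C₃ * (4 * (4 ^ j * m ^ 2)) ^ 2)))) := by
  set K : ℕ := C₃ * (4 * (4 ^ j * m ^ 2)) ^ 2 with hK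
  set q : ℕ := (24 ^ j * m ^ 5 + N - 1) / N with hq
  set k : ℕ := 4 * (d + 5) with hk
  have hKpos : 0 < K := by positivity
  have hkpos : 0 < k := by positivity
  set M : ℕ := q / (4 * K) + 1 with hM
  set f : ℕ := M / k + 1 with hf
  have h1 : 24 ^ j * m ^ 5 ≤ q * N := by
    have h := Nat.lt_div_mul_add (a := 24 ^ j * m ^ 5 + N - 1) hN
    rw [← hq] at h
    omega
  have h2 : q ≤ M * (4 * K) := by
    have h := Nat.lt_div_mul_add (a := q) (b := 4 * K) (by positivity)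
    rw [hM, add_mul, one_mul]
    exact h.le
  have h3' : M ≤ f * k := by
    have h := Nat.lt_div_mul_add (a := M) (b := k) hkpos
    rw [hf, add_mul, one_mul]
    exact h.le
  have h4 : 24 ^ j * m ^ 5 ≤ f * k * (4 * K) * N :=
    h1.trans (Nat.mul_le_mul_right _ (h2.trans (Nat.mul_le_mul_right _ h3')))
  have h16 : (16 : ℕ) ^ j = (4 ^ j) ^ 2 := by
    rw [← pow_mul, mul_comm j 2, pow_mul]; norm_num
  have h5 : 24 ^ j * m ≤ f * (64 * k * N * C₃) * 16 ^ j := by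
    have hm4 : 0 < m ^ 4 := by positivity
    refine Nat.le_of_mul_le_mul_right ?_ hm4
    calc 24 ^ j * m * m ^ 4 = 24 ^ j * m ^ 5 := by ring
      _ ≤ f * k * (4 * K) * N := h4
      _ = f * (64 * k * N * C₃) * 16 ^ j * m ^ 4 := by rw [hK, h16]; ring
  have h6 : 4 ^ j * m ^ 4 ≤ (f * (64 * k * N * C₃)) ^ 4 := by
    have h16p : 0 < ((16 : ℕ) ^ 4) ^ j := by positivity
    refine Nat.le_of_mul_le_mul_right ?_ h16p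
    calc 4 ^ j * m ^ 4 * (16 ^ 4) ^ j = (4 * 16 ^ 4) ^ j * m ^ 4 := by rw [mul_pow]; ring
      _ ≤ (24 ^ 4) ^ j * m ^ 4 := by
          refine Nat.mul_le_mul_right _ (Nat.pow_le_pow_left (by norm_num) _)
      _ = (24 ^ j * m) ^ 4 := by rw [mul_pow, ← pow_mul, ← pow_mul, mul_comm 4 j]
      _ ≤ (f * (64 * k * N * C₃) * 16 ^ j) ^ 4 := Nat.pow_le_pow_left h5 _
      _ = (f * (64 * k * N * C₃)) ^ 4 * (16 ^ 4) ^ j := by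
          rw [mul_pow (f * (64 * k * N * C₃)) (16 ^ j) 4, ← pow_mul 16 j 4, ← pow_mul 16 4 j,
            mul_comm 4 j]
  calc (4 ^ j * m ^ 4) ^ (d + 5) ≤ ((f * (64 * k * N * C₃)) ^ 4) ^ (d + 5) :=
        Nat.pow_le_pow_left h6 _
    _ = f ^ k * (64 * k * N * C₃) ^ k := by rw [← pow_mul, ← hk, mul_pow]
    _ ≤ 2 ^ M * (64 * k * N * C₃) ^ k := Nat.mul_le_mul_right _ (num_two_pow M k)
    _ = (64 * k * N * C₃) ^ k * (2 * 2 ^ (q / (4 * K))) := by rw [hM, pow_succ]; ring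

/-- the polynomial factor -/
theorem num_poly (d C₃ C₄ m j : ℕ) (hm : 1 ≤ m) :
    (C₃ * (4 * (4 ^ j * m ^ 2)) ^ 2) * ((C₄ * (2 * (4 ^ j * m ^ 2)) ^ 2 + 1) *
      (C₄ * (2 * (4 ^ j * m ^ 2)) ^ d)) * (4 ^ j * m)
      ≤ (16 * C₃ * (4 * C₄ + 1) * C₄ * 2 ^ d) * (4 ^ j * m ^ 4) ^ (d + 5) := by
  set t : ℕ := 4 ^ j * m ^ 2 with ht
  have htpos : 1 ≤ t := Nat.one_le_iff_ne_zero.2 (by positivity)
  have h1 : C₄ * (2 * t) ^ 2 + 1 ≤ (4 * C₄ + 1) * t ^ 2 := by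
    have : 1 ≤ t ^ 2 := Nat.one_le_pow _ _ htpos
    nlinarith
  calc (C₃ * (4 * t) ^ 2) * ((C₄ * (2 * t) ^ 2 + 1) * (C₄ * (2 * t) ^ d)) * (4 ^ j * m)
      ≤ (C₃ * (4 * t) ^ 2) * (((4 * C₄ + 1) * t ^ 2) * (C₄ * (2 * t) ^ d)) * (4 ^ j * m) := by
        gcongr
    _ = (16 * C₃ * (4 * C₄ + 1) * C₄ * 2 ^ d) * (t ^ (d + 4) * (4 ^ j * m)) := by ring
    _ ≤ (16 * C₃ * (4 * C₄ + 1) * C₄ * 2 ^ d) * (4 ^ j * m ^ 4) ^ (d + 5) := by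
        refine Nat.mul_le_mul_left _ ?_
        rw [ht]
        calc (4 ^ j * m ^ 2) ^ (d + 4) * (4 ^ j * m)
            = (4 ^ j) ^ (d + 5) * m ^ (2 * (d + 4) + 1) := by ring
          _ ≤ (4 ^ j) ^ (d + 5) * m ^ (4 * (d + 5)) := by
              refine Nat.mul_le_mul_left _ (Nat.pow_le_pow_right hm (by omega))
          _ = (4 ^ j * m ^ 4) ^ (d + 5) := by ring

/-- the numerical series -/
theorem num_bound (d N C₃ C₄ : ℕ) (hN : 0 < N) (h3 : 0 < C₃) (h4 : 0 < C₄) :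
    ∃ C : ℕ, ∀ m : ℕ, 1 ≤ m →
      ∑' j : ℕ, (2 * ((C₃ * (4 * (4 ^ j * m ^ 2)) ^ 2 : ℕ) : ℝ≥0∞) *
          (2 : ℝ≥0∞)⁻¹ ^ (((24 ^ j * m ^ 5 + N - 1) / N) / (4 * (C₃ * (4 * (4 ^ j * m ^ 2)) ^ 2)))
        * (2 * (((C₄ * (2 * (4 ^ j * m ^ 2)) ^ 2 + 1) *
            (C₄ * (2 * (4 ^ j * m ^ 2)) ^ d) : ℕ) : ℝ≥0∞)))
        ≤ C / (m : ℝ≥0∞) := by
  set c₁ : ℕ := (64 * (4 * (d + 5)) * N * C₃) ^ (4 * (d + 5)) with hc₁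
  set c₂ : ℕ := 16 * C₃ * (4 * C₄ + 1) * C₄ * 2 ^ d with hc₂
  set c₃ : ℕ := 8 * c₂ * c₁ with hc₃
  refine ⟨2 * c₃, fun m hm => ?_⟩
  have hm0 : (m : ℝ≥0∞) ≠ 0 := by
    simp only [ne_eq, Nat.cast_eq_zero]; omega
  have hmt : (m : ℝ≥0∞) ≠ ∞ := ENNReal.natCast_ne_top m
  have key : ∀ j : ℕ, (2 * ((C₃ * (4 * (4 ^ j * m ^ 2)) ^ 2 : ℕ) : ℝ≥0∞) *
          (2 : ℝ≥0∞)⁻¹ ^ (((24 ^ j * m ^ 5 + N - 1) / N) / (4 * (C₃ * (4 * (4 ^ j * m ^ 2)) ^ 2)))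
        * (2 * (((C₄ * (2 * (4 ^ j * m ^ 2)) ^ 2 + 1) *
            (C₄ * (2 * (4 ^ j * m ^ 2)) ^ d) : ℕ) : ℝ≥0∞)))
        ≤ (c₃ : ℝ≥0∞) / m * (4 : ℝ≥0∞)⁻¹ ^ j := by
    intro j
    have he := num_exp d N C₃ hN h3 m j hm
    have hp := num_poly d C₃ C₄ m j hm
    set e : ℕ := ((24 ^ j * m ^ 5 + N - 1) / N) / (4 * (C₃ * (4 * (4 ^ j * m ^ 2)) ^ 2)) with hedef
    set K : ℕ := C₃ * (4 * (4 ^ j * m ^ 2)) ^ 2 with hK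
    set L : ℕ := (C₄ * (2 * (4 ^ j * m ^ 2)) ^ 2 + 1) * (C₄ * (2 * (4 ^ j * m ^ 2)) ^ d) with hL
    have hnat : 4 * (K * L) * (4 ^ j * m) ≤ c₃ * 2 ^ e := by
      calc 4 * (K * L) * (4 ^ j * m) = 4 * (K * L * (4 ^ j * m)) := by ring
        _ ≤ 4 * (c₂ * (4 ^ j * m ^ 4) ^ (d + 5)) := Nat.mul_le_mul_left _ hp
        _ ≤ 4 * (c₂ * (c₁ * (2 * 2 ^ e))) := by
            refine Nat.mul_le_mul_left _ (Nat.mul_le_mul_left _ he)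
        _ = c₃ * 2 ^ e := by rw [hc₃]; ring
    have hcast : (4 * ((K : ℝ≥0∞) * L)) * (4 ^ j * m) ≤ c₃ * 2 ^ e := by
      exact_mod_cast hnat
    have h2e0 : (2 : ℝ≥0∞) ^ e ≠ 0 := by positivity
    have h2et : (2 : ℝ≥0∞) ^ e ≠ ∞ := ENNReal.pow_ne_top (by norm_num)
    have h4j0 : (4 : ℝ≥0∞) ^ j ≠ 0 := by positivity
    have h4jt : (4 : ℝ≥0∞) ^ j ≠ ∞ := ENNReal.pow_ne_top (by norm_num)
    calc 2 * (K : ℝ≥0∞) * (2 : ℝ≥0∞)⁻¹ ^ e * (2 * (L : ℝ≥0∞))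
        = (4 * ((K : ℝ≥0∞) * L)) / 2 ^ e := by
          rw [← ENNReal.inv_pow, div_eq_mul_inv]; ring
      _ ≤ (c₃ : ℝ≥0∞) / (4 ^ j * m) := by
          rw [ENNReal.div_le_iff h2e0 h2et, ENNReal.div_eq_inv_mul, mul_assoc,
            ← ENNReal.div_eq_inv_mul,
            ENNReal.le_div_iff_mul_le (Or.inl (mul_ne_zero h4j0 hm0))
              (Or.inl (ENNReal.mul_ne_top h4jt hmt))]
          exact hcast
      _ = (c₃ : ℝ≥0∞) / m * (4 : ℝ≥0∞)⁻¹ ^ j := by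
          rw [← ENNReal.inv_pow, div_eq_mul_inv, div_eq_mul_inv,
            ENNReal.mul_inv (Or.inl h4j0) (Or.inl h4jt)]
          ring
  calc _ ≤ ∑' j : ℕ, (c₃ : ℝ≥0∞) / m * (4 : ℝ≥0∞)⁻¹ ^ j := ENNReal.tsum_le_tsum key
    _ = (c₃ : ℝ≥0∞) / m * (1 - (4 : ℝ≥0∞)⁻¹)⁻¹ := by
        rw [ENNReal.tsum_mul_left, ENNReal.tsum_geometric]
    _ ≤ (c₃ : ℝ≥0∞) / m * 2 := by
        refine mul_le_mul_right ?_ _
        rw [ENNReal.inv_le_iff_inv_le]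
        have h : (2 : ℝ≥0∞)⁻¹ + (4 : ℝ≥0∞)⁻¹ ≤ 1 := by
          calc (2 : ℝ≥0∞)⁻¹ + (4 : ℝ≥0∞)⁻¹ ≤ (2 : ℝ≥0∞)⁻¹ + (2 : ℝ≥0∞)⁻¹ := by
                refine add_le_add_right ?_ _
                rw [ENNReal.inv_le_inv]
                norm_num
            _ = 1 := ENNReal.inv_two_add_inv_two
        exact ENNReal.le_sub_of_add_le_right (by norm_num) h
    _ = ((2 * c₃ : ℕ) : ℝ≥0∞) / m := by
        push_cast
        rw [div_eq_mul_inv, div_eq_mul_inv]; ring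

end Pool.Agent.H39.LP
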