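import Pool.Agent.H39.LP.Occ
import Pool.Agent.H39.LP.Near
import Pool.Agent.H39.LP.Dense
import Pool.Agent.H39.LP.HKb
import Pool.Agent.H39.LP.HKa3
import Pool.Agent.H39.LP.Num

/-!
# Module NS: visits with a loop erasure which is dense at some scale

Assembly of `hit_lower` (K4), `near_of`, `occ_le` (K3), `occ_tail_of`, `dense_of`.

Let `C₄` be the constant of `hit_lower` and `C₃` that of `occ_le`. For `r ≥ 1`:
* `near_of` with `ρ = 2 r`, `T = C₄ (2r)^2`, `p = (C₄ (2r)^d)⁻¹` (and `b⁻¹ ≤ 2`) gives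
  `pth y (wt b A (EndIn (nbA (2r) A))) ≤ 2 (T + 1) C₄ (2r)^d * Q b A y`.
* `occ_tail_of` with `B = nb u (4r)`, `K = C₃ (4r)^2` gives
  `pth u (occf (nb u (4r)) q) ≤ 2 K 2^(-(q / (4K)))`.
* `dense_of` with `q = q_j := ` the least natural number with `24^j m^5 ≤ N q`
  (`⌈24^j m^5 / N⌉ = (24^j m^5 + N - 1) / N`), `r = r_j := 4^j m^2`: not sparse means that for some `j`
  `24^j m^5 ≤ N * card`, i.e. `q_j ≤ card`, i.e. `DenseAt (2 r_j) q_j`; so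
  `wt b A (… ¬ Sparse …) l ≤ ∑' j, wt b A (EndIn A ∧ DenseAt (2 r_j) q_j) l`, `pth_tsum`.
* `num_bound` (Num.lean) is the remaining numerical series (multiply the two bounds for each `j`, with
  `d` the dimension).
-/

open MeasureTheory ProbabilityTheory Filter
open scoped ENNReal
open Pool.Agent.H39.LW

namespace Pool.Agent.H39.LP

variable {d : ℕ} [NeZero d]

theorem notsparse_le (hd : 5 ≤ d) (N : ℕ) (hN : 0 < N) : ∃ C : ℕ, ∀ m : ℕ, 1 ≤ m →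
    ∀ b : ℝ≥0∞, 2⁻¹ ≤ b → b ≤ 1 → ∀ (A : Finset (Zd d)) (y : Zd d),
      pth y (wt b A fun l => EndIn (A : Set (Zd d)) l ∧
        ∃ x, l.getLast? = some x ∧ ¬ Sparse N m (LEl l) x) ≤ C / (m : ℝ≥0∞) * Q b A y := by
  obtain ⟨C₄, h4, hit⟩ := hit_lower (d := d)
  obtain ⟨C₃, h3, occ⟩ := occ_le (d := d) hd
  obtain ⟨C, hC⟩ := num_bound d N C₃ C₄ hN h3 h4
  refine ⟨C, fun m hm b hb1 hb2 A y => ?_⟩
  have hr : ∀ j : ℕ, 1 ≤ 4 ^ j * m ^ 2 := fun j => Nat.one_le_iff_ne_zero.2 (by positivity)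
  -- step 1: pointwise bound
  have step1 : pth y (wt b A fun l => EndIn (A : Set (Zd d)) l ∧
        ∃ x, l.getLast? = some x ∧ ¬ Sparse N m (LEl l) x)
      ≤ ∑' j : ℕ, pth y (wt b A fun l => EndIn (A : Set (Zd d)) l ∧
          DenseAt (2 * (4 ^ j * m ^ 2)) ((24 ^ j * m ^ 5 + N - 1) / N) l) := by
    rw [← pth_tsum]
    refine pth_mono fun l _ => ?_
    unfold wt
    split_ifs with hP
    · obtain ⟨hE, x, hx, hS⟩ := hP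
      unfold Sparse at hS
      push Not at hS
      obtain ⟨j, hj⟩ := hS
      have hD : EndIn (A : Set (Zd d)) l ∧
          DenseAt (2 * (4 ^ j * m ^ 2)) ((24 ^ j * m ^ 5 + N - 1) / N) l := by
        refine ⟨hE, x, hx, ?_⟩
        refine Nat.lt_succ_iff.1 ((Nat.div_lt_iff_lt_mul hN).2 ?_)
        have : (((LEl l).toFinset ∩ nb x (2 * (4 ^ j * m ^ 2))).card + 1) * N
            = N * ((LEl l).toFinset ∩ nb x (2 * (4 ^ j * m ^ 2))).card + N := by ring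
        rw [Nat.succ_eq_add_one, this]
        omega
      refine le_trans ?_ (ENNReal.le_tsum j)
      rw [if_pos hD]
    · exact bot_le
  -- step 2: each scale
  have step2 : ∀ j : ℕ, pth y (wt b A fun l => EndIn (A : Set (Zd d)) l ∧
          DenseAt (2 * (4 ^ j * m ^ 2)) ((24 ^ j * m ^ 5 + N - 1) / N) l)
      ≤ (2 * ((C₃ * (4 * (4 ^ j * m ^ 2)) ^ 2 : ℕ) : ℝ≥0∞) *
          (2 : ℝ≥0∞)⁻¹ ^ (((24 ^ j * m ^ 5 + N - 1) / N) / (4 * (C₃ * (4 * (4 ^ j * m ^ 2)) ^ 2)))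
        * (2 * (((C₄ * (2 * (4 ^ j * m ^ 2)) ^ 2 + 1) *
            (C₄ * (2 * (4 ^ j * m ^ 2)) ^ d) : ℕ) : ℝ≥0∞))) * Q b A y := by
    intro j
    have hrj := hr j
    generalize 4 ^ j * m ^ 2 = r at hrj ⊢
    generalize (24 ^ j * m ^ 5 + N - 1) / N = q
    have hK : 0 < C₃ * (4 * r) ^ 2 := by positivity
    have hM : 0 < C₄ * (2 * r) ^ d := by positivity
    have hocc : ∀ u : Zd d, pth u (occf (nb u (4 * r) : Set (Zd d)) q)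
        ≤ 2 * ((C₃ * (4 * r) ^ 2 : ℕ) : ℝ≥0∞) * (2 : ℝ≥0∞)⁻¹ ^ (q / (4 * (C₃ * (4 * r) ^ 2))) := by
      intro u
      exact occ_tail_of hK (fun v => occ v u (4 * r) (by omega)) u q
    have h1 := dense_of (r := r) (q := q) hocc hb2 A y
    have h2 := near_of (ρ := 2 * r) (T := C₄ * (2 * r) ^ 2) (p := (((C₄ * (2 * r) ^ d : ℕ) : ℝ≥0∞))⁻¹)
      (fun z a ha => hit (2 * r) (by omega) z a ha) hb2 A y
    set X := pth y (wt b A (EndIn (nbA (2 * r) A))) with hX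
    have hM0 : ((C₄ * (2 * r) ^ d : ℕ) : ℝ≥0∞) ≠ 0 := by
      rw [Nat.cast_ne_zero]; exact hM.ne'
    have hMt : ((C₄ * (2 * r) ^ d : ℕ) : ℝ≥0∞) ≠ ∞ := ENNReal.natCast_ne_top _
    have h3' : X ≤ 2 * (((C₄ * (2 * r) ^ 2 + 1) * (C₄ * (2 * r) ^ d) : ℕ) : ℝ≥0∞) * Q b A y := by
      have h2' : 2⁻¹ * X * (((C₄ * (2 * r) ^ d : ℕ) : ℝ≥0∞))⁻¹
          ≤ (((C₄ * (2 * r) ^ 2 : ℕ) : ℝ≥0∞) + 1) * Q b A y := by
        refine le_trans ?_ h2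
        gcongr
      calc X = 2 * ((C₄ * (2 * r) ^ d : ℕ) : ℝ≥0∞) *
            (2⁻¹ * X * (((C₄ * (2 * r) ^ d : ℕ) : ℝ≥0∞))⁻¹) := by
            have e1 : (2 : ℝ≥0∞) * 2⁻¹ = 1 := ENNReal.mul_inv_cancel (by norm_num) (by norm_num)
            have e2 := ENNReal.mul_inv_cancel hM0 hMt
            calc X = 1 * X * 1 := by rw [one_mul, mul_one]
              _ = (2 * 2⁻¹) * X * (((C₄ * (2 * r) ^ d : ℕ) : ℝ≥0∞) *
                  (((C₄ * (2 * r) ^ d : ℕ) : ℝ≥0∞))⁻¹) := by rw [e1, e2]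
              _ = _ := by ring
        _ ≤ 2 * ((C₄ * (2 * r) ^ d : ℕ) : ℝ≥0∞) *
            ((((C₄ * (2 * r) ^ 2 : ℕ) : ℝ≥0∞) + 1) * Q b A y) := by gcongr
        _ = 2 * (((C₄ * (2 * r) ^ 2 + 1) * (C₄ * (2 * r) ^ d) : ℕ) : ℝ≥0∞) * Q b A y := by
            push_cast; ring
    calc _ ≤ X * (2 * ((C₃ * (4 * r) ^ 2 : ℕ) : ℝ≥0∞) *
          (2 : ℝ≥0∞)⁻¹ ^ (q / (4 * (C₃ * (4 * r) ^ 2)))) := h1
      _ ≤ (2 * (((C₄ * (2 * r) ^ 2 + 1) * (C₄ * (2 * r) ^ d) : ℕ) : ℝ≥0∞) * Q b A y) *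
          (2 * ((C₃ * (4 * r) ^ 2 : ℕ) : ℝ≥0∞) *
          (2 : ℝ≥0∞)⁻¹ ^ (q / (4 * (C₃ * (4 * r) ^ 2)))) := by gcongr
      _ = _ := by ring
  calc _ ≤ _ := step1
    _ ≤ ∑' j : ℕ, (2 * ((C₃ * (4 * (4 ^ j * m ^ 2)) ^ 2 : ℕ) : ℝ≥0∞) *
          (2 : ℝ≥0∞)⁻¹ ^ (((24 ^ j * m ^ 5 + N - 1) / N) / (4 * (C₃ * (4 * (4 ^ j * m ^ 2)) ^ 2)))
        * (2 * (((C₄ * (2 * (4 ^ j * m ^ 2)) ^ 2 + 1) *
            (C₄ * (2 * (4 ^ j * m ^ 2)) ^ d) : ℕ) : ℝ≥0∞))) * Q b A y :=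
        ENNReal.tsum_le_tsum step2
    _ = (∑' j : ℕ, (2 * ((C₃ * (4 * (4 ^ j * m ^ 2)) ^ 2 : ℕ) : ℝ≥0∞) *
          (2 : ℝ≥0∞)⁻¹ ^ (((24 ^ j * m ^ 5 + N - 1) / N) / (4 * (C₃ * (4 * (4 ^ j * m ^ 2)) ^ 2)))
        * (2 * (((C₄ * (2 * (4 ^ j * m ^ 2)) ^ 2 + 1) *
            (C₄ * (2 * (4 ^ j * m ^ 2)) ^ d) : ℕ) : ℝ≥0∞)))) * Q b A y := by
        rw [ENNReal.tsum_mul_right]
    _ ≤ C / (m : ℝ≥0∞) * Q b A y := by
        have := hC m hm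
        gcongr

end Pool.Agent.H39.LP
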