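import Pool.Agent.H39.LP.Split

/-!
# Module OC: exponential tail of the occupation time

`B` any set with `E_u #{n : W_n ∈ B} ≤ K` for all `u`. Put `s = 1 / (2 K)` and for `N : ℕ`

  `F_N l = if EndIn B l ∧ l.length ≤ N then (1 + s) ^ (number of entries of l.dropLast in B) else 0`,
  `h_N u = pth u F_N ≤ N (1 + s)^N < ∞`.

For a path `l` with last vertex in `B`:
`(1 + s) ^ (count of l.dropLast) ≤ 1 + ∑_{k < l.length, l[k] ∈ B} s * (1 + s) ^ (count of (l.drop k).dropLast)`
(induction on `l`: `(1+s)^(m+1) = (1+s)^m + s (1+s)^m`), so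
`F_N l ≤ 1{EndIn B l} + ∑_{k < l.length} (s * 1{EndIn B (l.take (k+1))}) * F_N (l.drop k)`. Hence, by
`pth_add` and `pth_split_le`, `h_N u ≤ K + s K sup_v h_N v`; as `sup_v h_N v < ∞` this gives
`sup_v h_N v ≤ 2 K`. Let `N → ∞` (monotone: `F_N` agrees with the full functional on paths of length
`≤ N`; `ENNReal.tsum_eq_iSup_nat`): the sum `pth u (if EndIn B l then (1+s)^(count of dropLast) else 0)`
is at most `2 K`. Finally the number of entries in `B` of `l` is `≤ 1 +` that of `l.dropLast`, so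
`1{EndIn B l, q ≤ count l} ≤ (1 + s)^{-(q-1)} (1+s)^(count l.dropLast)` for `q ≥ 1`, and
`(1 + s) ^ (2 K) ≥ 2` (Bernoulli) gives `(1+s)^{q-1} ≥ 2 ^ ⌊(q-1)/(2K)⌋ ≥ 2 ^ ⌊q/(4K)⌋`
when `q ≥ 4 K` (and for `q < 4 K` the exponent `q / (4 K)` is `0` and the bound is `K ≤ 2 K`).
Note `pth u (fun l => if EndIn B l then 1 else 0) = ∑' n, Pr {ω | pos u ω n ∈ B} ≤ K`
(`pre_getLast`, `lintegral_indicator`; `{ω | pos u ω n ∈ B}` is measurable by `measurable_of_prefix`
or `measurable_pos`).
-/

open MeasureTheory ProbabilityTheory Filter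
open scoped ENNReal
open Pool.Agent.H39.LW

namespace Pool.Agent.H39.LP

variable {d : ℕ}

open Classical in
/-- number of entries of `l` in `B` -/
noncomputable def cB (B : Set (Zd d)) (l : List (Zd d)) : ℕ :=
  (l.filter (fun x => decide (x ∈ B))).length

lemma cB_nil (B : Set (Zd d)) : cB B [] = 0 := rfl

lemma cB_cons_mem {B : Set (Zd d)} {a : Zd d} (h : a ∈ B) (l : List (Zd d)) :
    cB B (a :: l) = cB B l + 1 := by
  simp [cB, h]

lemma cB_cons_notMem {B : Set (Zd d)} {a : Zd d} (h : a ∉ B) (l : List (Zd d)) :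
    cB B (a :: l) = cB B l := by
  simp [cB, h]

lemma cB_le_length (B : Set (Zd d)) (l : List (Zd d)) : cB B l ≤ l.length :=
  List.length_filter_le _ _

lemma cB_append (B : Set (Zd d)) (l m : List (Zd d)) : cB B (l ++ m) = cB B l + cB B m := by
  simp [cB, List.filter_append]

lemma EndIn_cons {B : Set (Zd d)} {a : Zd d} {l : List (Zd d)} (hl : l ≠ []) :
    EndIn B (a :: l) ↔ EndIn B l := by
  unfold EndIn
  obtain ⟨b, l', rfl⟩ := List.exists_cons_of_ne_nil hl
  rw [List.getLast?_cons_cons]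

lemma EndIn_singleton {B : Set (Zd d)} {a : Zd d} : EndIn B [a] ↔ a ∈ B := by
  simp [EndIn]

lemma EndIn_drop {B : Set (Zd d)} {l : List (Zd d)} (h : EndIn B l) {k : ℕ} (hk : k < l.length) :
    EndIn B (l.drop k) := by
  obtain ⟨x, hx, hl⟩ := h
  refine ⟨x, hx, ?_⟩
  rw [List.getLast?_drop, if_neg (by omega), hl]

open Classical in
lemma cB_key (s : ℝ≥0∞) (B : Set (Zd d)) (l : List (Zd d)) :
    (1 + s) ^ cB B l.dropLast ≤ 1 + ∑ k ∈ Finset.range l.length,
      (s * if EndIn B (l.take (k + 1)) then 1 else 0) * (1 + s) ^ cB B (l.drop k).dropLast := by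
  induction l with
  | nil => simp [cB_nil]
  | cons a l ih =>
    rcases eq_or_ne l [] with rfl | hl
    · simp [cB_nil]
    · have h1 : (a :: l).dropLast = a :: l.dropLast := by
        obtain ⟨b, l', rfl⟩ := List.exists_cons_of_ne_nil hl
        simp
      rw [h1, List.length_cons, Finset.sum_range_succ']
      have h2 : ∀ k ∈ Finset.range l.length,
          (s * if EndIn B ((a :: l).take (k + 1 + 1)) then 1 else 0)
            * (1 + s) ^ cB B ((a :: l).drop (k + 1)).dropLast
          = (s * if EndIn B (l.take (k + 1)) then 1 else 0)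
            * (1 + s) ^ cB B (l.drop k).dropLast := by
        intro k hk
        have h3 : l.take (k + 1) ≠ [] := by
          obtain ⟨b, l', rfl⟩ := List.exists_cons_of_ne_nil hl
          simp
        have h4 : EndIn B ((a :: l).take (k + 1 + 1)) ↔ EndIn B (l.take (k + 1)) := by
          rw [List.take_succ_cons, EndIn_cons h3]
        simp only [h4, List.drop_succ_cons]
      rw [Finset.sum_congr rfl h2]
      by_cases ha : a ∈ B
      · have h5 : EndIn B ((a :: l).take (0 + 1)) := by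
          simp only [zero_add, List.take_succ_cons, List.take_zero]
          exact EndIn_singleton.2 ha
        rw [if_pos h5, mul_one, List.drop_zero, h1, cB_cons_mem ha, ← add_assoc]
        have h6 : (1 + s) ^ (cB B l.dropLast + 1)
            = (1 + s) ^ cB B l.dropLast + s * (1 + s) ^ cB B l.dropLast := by
          ring
        conv_lhs => rw [h6]
        refine add_le_add ih ?_
        gcongr
        · exact le_self_add
        · omega
      · rw [cB_cons_notMem ha, ← add_assoc]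
        exact ih.trans le_self_add

variable [NeZero d]

open Classical in
/-- truncated functional -/
noncomputable def FN (s : ℝ≥0∞) (B : Set (Zd d)) (N : ℕ) (l : List (Zd d)) : ℝ≥0∞ :=
  if EndIn B l ∧ l.length ≤ N then (1 + s) ^ cB B l.dropLast else 0

open Classical in
lemma pth_endIn {B : Set (Zd d)} (u : Zd d) :
    pth u (fun l => if EndIn B l then 1 else 0) = ∑' n, Pr d {ω | pos u ω n ∈ B} := by
  unfold pth
  refine tsum_congr fun n => ?_
  have h1 : ∀ ω : Om d, (if EndIn B (pre (pos u ω) n) then (1 : ℝ≥0∞) else 0)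
      = Set.indicator {ω | pos u ω n ∈ B} 1 ω := by
    intro ω
    have h2 : EndIn B (pre (pos u ω) n) ↔ pos u ω n ∈ B := by
      unfold EndIn
      rw [pre_getLast]
      simp
    by_cases h : pos u ω n ∈ B
    · rw [if_pos (h2.2 h), Set.indicator_of_mem (by exact h)]
      rfl
    · rw [if_neg (fun hc => h (h2.1 hc)), Set.indicator_of_notMem (by exact h)]
  simp only [h1]
  rw [lintegral_indicator_one]
  exact measurable_pos u n (MeasurableSet.of_discrete (s := B))

lemma FN_fin {s : ℝ≥0∞} (B : Set (Zd d)) (N : ℕ) (u : Zd d) :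
    pth u (FN s B N) ≤ N * (1 + s) ^ N := by
  classical
  unfold pth
  have h1 : ∀ n, ∫⁻ ω, FN s B N (pre (pos u ω) n) ∂Pr d ≤ if n < N then (1 + s) ^ N else 0 := by
    intro n
    calc ∫⁻ ω, FN s B N (pre (pos u ω) n) ∂Pr d
        ≤ ∫⁻ _ω, (if n < N then (1 + s) ^ N else 0) ∂Pr d := by
          refine lintegral_mono fun ω => ?_
          have hlen : (pre (pos u ω) n).length = n + 1 := by simp [pre]
          unfold FN
          by_cases hn : n < N
          · rw [if_pos hn]
            split_ifs with h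
            · have h2 : cB B (pre (pos u ω) n).dropLast ≤ N := by
                refine (cB_le_length _ _).trans ?_
                rw [List.length_dropLast]
                omega
              exact pow_le_pow_right₀ le_self_add h2
            · exact zero_le
          · rw [if_neg (by
              rintro ⟨-, h⟩
              omega)]
            exact zero_le
      _ = if n < N then (1 + s) ^ N else 0 := by simp
  refine (ENNReal.tsum_le_tsum h1).trans ?_
  rw [tsum_eq_sum (s := Finset.range N)]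
  · rw [Finset.sum_congr rfl fun n hn => if_pos (Finset.mem_range.1 hn)]
    simp
  · intro n hn
    rw [if_neg (by simpa using hn)]

lemma FN_bound {B : Set (Zd d)} {K : ℕ} (hK : 0 < K)
    (h : ∀ u, ∑' n, Pr d {ω | pos u ω n ∈ B} ≤ K) (N : ℕ) (u : Zd d) :
    pth u (FN ((2 * K : ℝ≥0∞)⁻¹) B N) ≤ 2 * K := by
  classical
  set s : ℝ≥0∞ := (2 * K : ℝ≥0∞)⁻¹ with hs
  have hK0 : (2 * K : ℝ≥0∞) ≠ 0 := by
    simp [hK.ne']
  have hKt : (2 * K : ℝ≥0∞) ≠ ⊤ := ENNReal.mul_ne_top (by norm_num) (ENNReal.natCast_ne_top K)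
  have hst : s ≠ ⊤ := ENNReal.inv_ne_top.2 hK0
  set M : ℝ≥0∞ := ⨆ v, pth v (FN s B N) with hM
  have hMt : M ≠ ⊤ := by
    have h1 : M ≤ N * (1 + s) ^ N := iSup_le fun v => FN_fin B N v
    refine ne_top_of_le_ne_top ?_ h1
    exact ENNReal.mul_ne_top (ENNReal.natCast_ne_top N)
      (ENNReal.pow_ne_top (ENNReal.add_ne_top.2 ⟨ENNReal.one_ne_top, hst⟩))
  have hstep : ∀ v, pth v (FN s B N) ≤ K + 2⁻¹ * M := by
    intro v
    have h1 : ∀ l : List (Zd d), l.head? = some v → FN s B N l ≤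
        (if EndIn B l then 1 else 0) + ∑ k ∈ Finset.range l.length,
          (s * if EndIn B (l.take (k + 1)) then 1 else 0) * FN s B N (l.drop k) := by
      intro l _
      unfold FN
      by_cases hl : EndIn B l ∧ l.length ≤ N
      · rw [if_pos hl, if_pos hl.1]
        refine (cB_key s B l).trans (le_of_eq ?_)
        congr 1
        refine Finset.sum_congr rfl fun k hk => ?_
        have hk' := Finset.mem_range.1 hk
        congr 1
        rw [if_pos]
        refine ⟨EndIn_drop hl.1 hk', ?_⟩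
        rw [List.length_drop]
        omega
      · rw [if_neg hl]
        exact zero_le
    refine (pth_mono h1).trans ?_
    rw [pth_add, pth_endIn]
    refine add_le_add (h v) ?_
    have h2 : pth v (fun l => ∑ k ∈ Finset.range l.length,
          (s * if EndIn B (l.take (k + 1)) then 1 else 0) * FN s B N (l.drop k))
        ≤ pth v (fun l => s * if EndIn B l then 1 else 0) * M := by
      refine pth_split_le (g := fun l => s * if EndIn B l then 1 else 0)
        (h := fun _ l => FN s B N l) (fun l _ => le_rfl) ?_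
      intro l x _ _ _
      exact le_iSup (fun v => pth v (FN s B N)) x
    refine h2.trans ?_
    rw [pth_mul_left, pth_endIn]
    gcongr
    calc s * ∑' n, Pr d {ω | pos v ω n ∈ B} ≤ s * K := by gcongr; exact h v
      _ = 2⁻¹ := by
        rw [hs, ENNReal.mul_inv (Or.inl (by norm_num)) (Or.inl (by norm_num)), mul_assoc,
          ENNReal.inv_mul_cancel (by exact_mod_cast hK.ne') (ENNReal.natCast_ne_top K), mul_one]
  have hMle : M ≤ K + 2⁻¹ * M := iSup_le hstep
  have h3 : M ≤ 2 * K := by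
    have h4 : M = 2⁻¹ * M + 2⁻¹ * M := by
      rw [← add_mul, ENNReal.inv_two_add_inv_two, one_mul]
    have h5 : 2⁻¹ * M ≠ ⊤ := ENNReal.mul_ne_top (by norm_num) hMt
    have h6 : 2⁻¹ * M ≤ K := by
      have h7 : 2⁻¹ * M + 2⁻¹ * M ≤ K + 2⁻¹ * M := by
        rw [← h4]
        exact hMle
      exact (ENNReal.add_le_add_iff_right h5).1 h7
    calc M = 2 * (2⁻¹ * M) := by
          rw [← mul_assoc, ENNReal.mul_inv_cancel (by norm_num) (by norm_num), one_mul]
      _ ≤ 2 * K := by gcongr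
  exact (le_iSup (fun v => pth v (FN s B N)) u).trans h3

open Classical in
lemma Finf_bound {B : Set (Zd d)} {K : ℕ} (hK : 0 < K)
    (h : ∀ u, ∑' n, Pr d {ω | pos u ω n ∈ B} ≤ K) (u : Zd d) :
    pth u (fun l => if EndIn B l then (1 + (2 * K : ℝ≥0∞)⁻¹) ^ cB B l.dropLast else 0) ≤ 2 * K := by
  refine ENNReal.tsum_le_of_sum_range_le fun N => ?_
  refine le_trans ?_ (FN_bound hK h N u)
  unfold pth
  refine le_trans (le_of_eq ?_) (ENNReal.sum_le_tsum (Finset.range N))
  refine Finset.sum_congr rfl fun n hn => ?_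
  refine lintegral_congr fun ω => ?_
  have hlen : (pre (pos u ω) n).length = n + 1 := by simp [pre]
  have hn' := Finset.mem_range.1 hn
  unfold FN
  have h1 : (EndIn B (pre (pos u ω) n) ∧ (pre (pos u ω) n).length ≤ N)
      ↔ EndIn B (pre (pos u ω) n) := by
    rw [hlen]
    exact and_iff_left (by omega)
  simp only [h1]

omit [NeZero d] in
lemma bernoulli_enn (x : ℝ≥0∞) (n : ℕ) : 1 + (n : ℝ≥0∞) * x ≤ (1 + x) ^ n := by
  induction n with
  | zero => simp
  | succ n ih =>
    calc 1 + ((n + 1 : ℕ) : ℝ≥0∞) * x ≤ (1 + (n : ℝ≥0∞) * x) * (1 + x) := by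
          push_cast
          have h : (1 + (n : ℝ≥0∞) * x) * (1 + x) = 1 + ((n : ℝ≥0∞) + 1) * x + (n : ℝ≥0∞) * x * x := by
            ring
          rw [h]
          exact le_self_add
      _ ≤ (1 + x) ^ n * (1 + x) := by gcongr
      _ = (1 + x) ^ (n + 1) := by rw [pow_succ]

lemma pow_le_num {K : ℕ} (hK : 0 < K) (q : ℕ) :
    (2 : ℝ≥0∞) ^ (q / (4 * K)) ≤ (1 + (2 * K : ℝ≥0∞)⁻¹) ^ (q - 1) := by
  have hK0 : (2 * K : ℝ≥0∞) ≠ 0 := by
    simp [hK.ne']
  have hKt : (2 * K : ℝ≥0∞) ≠ ⊤ := ENNReal.mul_ne_top (by norm_num) (ENNReal.natCast_ne_top K)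
  have h1 : (2 : ℝ≥0∞) ≤ (1 + (2 * K : ℝ≥0∞)⁻¹) ^ (2 * K) := by
    have h2 : (1 : ℝ≥0∞) + ((2 * K : ℕ) : ℝ≥0∞) * (2 * K : ℝ≥0∞)⁻¹
        ≤ (1 + (2 * K : ℝ≥0∞)⁻¹) ^ (2 * K) := bernoulli_enn _ _
    refine le_trans (le_of_eq ?_) h2
    push_cast
    rw [ENNReal.mul_inv_cancel hK0 hKt]
    norm_num
  set m := q / (4 * K) with hm
  rcases Nat.eq_zero_or_pos m with h0 | h0
  · rw [h0, pow_zero]
    exact one_le_pow₀ le_self_add
  · have h3 : 4 * K * m ≤ q := Nat.mul_div_le q (4 * K)
    have h4 : 2 * K * m ≤ q - 1 := by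
      have h5 : 1 ≤ 2 * K * m := Nat.one_le_iff_ne_zero.2 (by positivity)
      have h6 : 4 * K * m = 2 * K * m + 2 * K * m := by ring
      omega
    calc (2 : ℝ≥0∞) ^ m ≤ ((1 + (2 * K : ℝ≥0∞)⁻¹) ^ (2 * K)) ^ m := by gcongr
      _ = (1 + (2 * K : ℝ≥0∞)⁻¹) ^ (2 * K * m) := by rw [← pow_mul]
      _ ≤ (1 + (2 * K : ℝ≥0∞)⁻¹) ^ (q - 1) := pow_le_pow_right₀ le_self_add h4

theorem occ_tail_of {B : Set (Zd d)} {K : ℕ} (hK : 0 < K)
    (h : ∀ u, ∑' n, Pr d {ω | pos u ω n ∈ B} ≤ K) (u : Zd d) (q : ℕ) :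
    pth u (occf B q) ≤ 2 * K * (2 : ℝ≥0∞)⁻¹ ^ (q / (4 * K)) := by
  classical
  have hK0 : (2 * K : ℝ≥0∞) ≠ 0 := by
    simp [hK.ne']
  have hst : (2 * K : ℝ≥0∞)⁻¹ ≠ ⊤ := ENNReal.inv_ne_top.2 hK0
  set t : ℝ≥0∞ := 1 + (2 * K : ℝ≥0∞)⁻¹ with ht
  have ht1 : 1 ≤ t := le_self_add
  have htt : t ≠ ⊤ := ENNReal.add_ne_top.2 ⟨ENNReal.one_ne_top, hst⟩
  have h1 : ∀ l : List (Zd d), l.head? = some u → occf B q l ≤
      (t ^ (q - 1))⁻¹ * (if EndIn B l then t ^ cB B l.dropLast else 0) := by
    intro l _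
    unfold occf
    split_ifs with h2 h3
    · have h4 : q - 1 ≤ cB B l.dropLast := by
        have h5 : cB B l ≤ cB B l.dropLast + 1 := by
          obtain ⟨x, _, hx⟩ := h2.1
          have hne : l ≠ [] := by
            rintro rfl
            simp at hx
          conv_lhs => rw [← List.dropLast_append_getLast hne]
          rw [cB_append]
          have := cB_le_length B [l.getLast hne]
          simpa using this
        have h6 : q ≤ cB B l := h2.2
        omega
      calc (1 : ℝ≥0∞) = (t ^ (q - 1))⁻¹ * t ^ (q - 1) := by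
            rw [ENNReal.inv_mul_cancel (pow_ne_zero _ (by
              intro h0
              rw [h0] at ht1
              simp at ht1)) (ENNReal.pow_ne_top htt)]
        _ ≤ (t ^ (q - 1))⁻¹ * t ^ cB B l.dropLast := by
            gcongr
    · exact absurd h2.1 h3
    · exact zero_le
    · exact zero_le
  refine (pth_mono h1).trans ?_
  rw [pth_mul_left]
  calc (t ^ (q - 1))⁻¹ * pth u (fun l => if EndIn B l then t ^ cB B l.dropLast else 0)
      ≤ ((2 : ℝ≥0∞) ^ (q / (4 * K)))⁻¹ * (2 * K) := by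
        refine mul_le_mul' ?_ (Finf_bound hK h u)
        exact ENNReal.inv_le_inv.2 (pow_le_num hK q)
    _ = 2 * K * (2 : ℝ≥0∞)⁻¹ ^ (q / (4 * K)) := by
        rw [ENNReal.inv_pow, mul_comm]

end Pool.Agent.H39.LP
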