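import Pool.Agent.H39.LP.Split
import Pool.Agent.H39.LP.Lists2
import Pool.Agent.H39.LP.Mono

/-!
# Module RO: good tips after a bounded number of steps

* `rec_of`: `pth_split_ge` with `F l = (M + 1) * wt b A (EndIn A ∧ Good c) l`,
  `g l = b ^ M * wt b A (EndIn A ∧ ∃ x, last = x ∧ Sp (LEl l) x) l` and
  `h l₁ l₂ = if l₂ = z :: π then 1 else 0` (`z` the last entry of `l₁` and `π` chosen by the hypothesis for
  `L = LEl l₁`, `LEl_nodup`, `LEl_getLast?`). `hF`: if `l.take (k+1) = l₁` and `l.drop k = z :: π` then
  `l = l₁ ++ π`, `LEl l = π.foldl leStep (LEl l₁)` (`LEl_append`), `l` ends in `z ∈ A`,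
  `cA A l ≤ cA A l₁ + M` (`cA_append_le`), so the term is `≤ wt b A (EndIn A ∧ Good c) l`; at most
  `M + 1` values of `k < l.length` have `(l.drop k).length ≤ M + 1`. `hc`: `pth_path`.
-/

open MeasureTheory ProbabilityTheory Filter
open scoped ENNReal
open Pool.Agent.H39.LW

namespace Pool.Agent.H39.LP

variable {d : ℕ} [NeZero d]

/-- at most `M + 1` terminal pieces of a list have length at most `M + 1` -/
lemma card_short (N M : ℕ) :
    ((Finset.range N).filter fun k => N - k ≤ M + 1).card ≤ M + 1 := by
  have h : ((Finset.range N).filter fun k => N - k ≤ M + 1) ⊆ Finset.Ico (N - (M + 1)) N := by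
    intro k hk
    rw [Finset.mem_filter, Finset.mem_range] at hk
    rw [Finset.mem_Ico]
    omega
  refine (Finset.card_le_card h).trans ?_
  rw [Nat.card_Ico]
  omega

theorem rec_of {M : ℕ} {c : ℝ≥0∞} {Sp : List (Zd d) → Zd d → Prop}
    (h : ∀ (L : List (Zd d)) (z : Zd d), L.Nodup → L.getLast? = some z → Sp L z →
      ∃ π : List (Zd d), π.length ≤ M ∧ (z :: π).IsChain Adj ∧ (z :: π).getLast? = some z ∧
        c ≤ Esc z (π.foldl leStep L))
    {b : ℝ≥0∞} (hb : b ≤ 1) (A : Finset (Zd d)) (y : Zd d) :
    b ^ M * pth y (wt b A fun l => EndIn (A : Set (Zd d)) l ∧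
        ∃ x, l.getLast? = some x ∧ Sp (LEl l) x) * ((2 * d : ℝ≥0∞)⁻¹) ^ M
      ≤ (M + 1) * pth y (wt b A fun l => EndIn (A : Set (Zd d)) l ∧ Good c l) := by
  classical
  have hex : ∀ l : List (Zd d), ∃ q : Zd d × List (Zd d),
      (∃ x, l.getLast? = some x ∧ Sp (LEl l) x) → l.getLast? = some q.1 ∧ q.2.length ≤ M ∧
        (q.1 :: q.2).IsChain Adj ∧ (q.1 :: q.2).getLast? = some q.1 ∧
        c ≤ Esc q.1 (q.2.foldl leStep (LEl l)) := by
    intro l
    by_cases hl : ∃ x, l.getLast? = some x ∧ Sp (LEl l) x
    · obtain ⟨x, hx, hSp⟩ := hl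
      obtain ⟨π, h1, h2, h3, h4⟩ := h (LEl l) x (LEl_nodup l) (by rw [LEl_getLast?, hx]) hSp
      exact ⟨(x, π), fun _ => ⟨hx, h1, h2, h3, h4⟩⟩
    · exact ⟨(0, []), fun h' => absurd h' hl⟩
  choose Z hZ using hex
  set P₁ : List (Zd d) → Prop := fun l => EndIn (A : Set (Zd d)) l ∧
        ∃ x, l.getLast? = some x ∧ Sp (LEl l) x with hP₁
  set P₂ : List (Zd d) → Prop := fun l => EndIn (A : Set (Zd d)) l ∧ Good c l with hP₂
  have key := pth_split_ge (y := y) (F := fun l => (M + 1) * wt b A P₂ l)
    (g := fun l => b ^ M * wt b A P₁ l)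
    (h := fun l₁ l₂ => if l₂ = (Z l₁).1 :: (Z l₁).2 then 1 else 0)
    (c := ((2 * d : ℝ≥0∞)⁻¹) ^ M) ?_ ?_
  · rw [pth_mul_left, pth_mul_left] at key
    exact key
  · intro l _
    have hterm : ∀ k ∈ Finset.range l.length,
        b ^ M * wt b A P₁ (l.take (k + 1)) *
          (if l.drop k = (Z (l.take (k + 1))).1 :: (Z (l.take (k + 1))).2 then 1 else 0)
        ≤ if l.length - k ≤ M + 1 then wt b A P₂ l else 0 := by
      intro k hk
      rw [Finset.mem_range] at hk
      by_cases hd : l.drop k = (Z (l.take (k + 1))).1 :: (Z (l.take (k + 1))).2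
      · by_cases hP : P₁ (l.take (k + 1))
        · obtain ⟨hA, hx⟩ := hP
          obtain ⟨e1, e2, e3, e4, e5⟩ := hZ (l.take (k + 1)) hx
          set z := (Z (l.take (k + 1))).1 with hz
          set π := (Z (l.take (k + 1))).2 with hπ
          have hlen : l.length - k = π.length + 1 := by
            rw [← List.length_drop, hd, List.length_cons]
          have hl : l = l.take (k + 1) ++ π := by
            conv_lhs => rw [← List.take_append_drop (k + 1) l]
            rw [← List.tail_drop, hd, List.tail_cons]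
          have hlast : l.getLast? = some z := by
            conv_lhs => rw [← List.take_append_drop k l]
            rw [List.getLast?_append, hd, e4]
            rfl
          have hzA : z ∈ (A : Set (Zd d)) := by
            obtain ⟨x, hxA, hx'⟩ := hA
            rw [e1] at hx'
            rw [Option.some.inj hx']
            exact hxA
          have hgood : P₂ l := by
            refine ⟨⟨z, hzA, hlast⟩, z, hlast, ?_⟩
            rw [hl, LEl_append]
            exact e5
          have hcA : cA A l ≤ M + cA A (l.take (k + 1)) := by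
            have := cA_append_le A (l.take (k + 1)) π
            rw [← hl] at this
            omega
          rw [if_pos hd, if_pos (by omega), mul_one]
          simp only [wt]
          rw [if_pos ⟨hA, hx⟩, if_pos hgood, ← pow_add]
          exact pow_le_pow_right_of_le_one' hb hcA
        · have : wt b A P₁ (l.take (k + 1)) = 0 := by simp only [wt]; rw [if_neg hP]
          rw [this, mul_zero, zero_mul]
          exact zero_le
      · rw [if_neg hd, mul_zero]
        exact zero_le
    refine (Finset.sum_le_sum hterm).trans ?_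
    rw [← Finset.sum_filter, Finset.sum_const, nsmul_eq_mul]
    refine mul_le_mul_left ?_ _
    exact_mod_cast card_short l.length M
  · intro l x _ hx hg
    have hP : P₁ l := by
      by_contra hP
      apply hg
      simp only [wt]
      rw [if_neg hP, mul_zero]
    obtain ⟨e1, e2, e3, e4, e5⟩ := hZ l hP.2
    have hzx : (Z l).1 = x := by
      rw [hx] at e1
      exact (Option.some.inj e1).symm
    have h2 := pth_path e3
    rw [hzx] at h2
    refine le_trans (pow_le_pow_right_of_le_one' ?_ e2) (h2.trans (le_of_eq ?_))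
    · rw [ENNReal.inv_le_one]
      have hd1 : (1 : ℝ≥0∞) ≤ d := by
        exact_mod_cast Nat.one_le_iff_ne_zero.2 (NeZero.ne d)
      calc (1 : ℝ≥0∞) ≤ d := hd1
        _ ≤ 2 * d := by
            rw [two_mul]
            exact le_self_add
    · simp only [hzx]

end Pool.Agent.H39.LP
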