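import Pool.Agent.H39.LP.Base

/-!
# Module GT: good tips

Fix `N`. For `t < N` let `fin_t` be the event `∀ j, 1 ≤ j → t + j < N → pos y ω (t + j) ∉ LE (pos y ω) t`.

1. `∫⁻ ω, wt … (pre (pos y ω) t) * Esc (pos y ω t) (LEl (pre (pos y ω) t)) ≤
   ∫⁻ ω, (if pos y ω t ∈ A ∧ fin_t then b ^ cA A (pre (pos y ω) t) else 0)`: Markov property
   `lintegral_split t` with `Φ ω ω₂ = (if pos y ω t ∈ A then b ^ cA … else 0) *
   (if ∀ j, 1 ≤ j → t + j < N → pos (pos y ω t) ω₂ j ∉ LEl (pre (pos y ω) t) then 1 else 0)` and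
   `Esc … ≤ Pr {ω₂ | ∀ j, 1 ≤ j → t + j < N → …}` (`pos_shift`).
2. Pathwise: if `t < t' < N`, `fin_t`, `pos y ω t' ∈ A`, then `LE (pos y ω) t` is an initial piece of
   `LE (pos y ω) t'` (induction with `LE_succ`: the vertices `pos y ω (t+1), …, pos y ω t'` are not in
   `LE (pos y ω) t`, so `leStep (L ++ K) v = L ++ leStep K v` for `v ∉ L`), and
   `pos y ω t' ∈ LE (pos y ω) t'` is a point of `A` which is not in `LE (pos y ω) t`; hence
   `cA A (pre (pos y ω) t) < cA A (pre (pos y ω) t')`.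
   So `t ↦ cA A (pre (pos y ω) t)` is injective on the finite set of the `t < N` with `fin_t` and
   `pos y ω t ∈ A`, and `∑ b ^ cA ≤ ∑' k, b ^ k = (1 - b)⁻¹` (`ENNReal.tsum_geometric`;
   `Finset.sum_image` and `ENNReal.sum_le_tsum`).
3. Sum over `t < N` and let `N → ∞` (`ENNReal.tsum_eq_iSup_nat`).
   `c * wt … ≤ wt … * Esc …` by the definition of `Good`.
-/

open MeasureTheory ProbabilityTheory Filter
open scoped ENNReal
open Pool.Agent.H39.LW

namespace Pool.Agent.H39.LP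

variable {d : ℕ}

lemma gt_leStep_append {U : Type*} [DecidableEq U] {L K : List U} {v : U} (h : v ∉ L) :
    leStep (L ++ K) v = L ++ leStep K v := by
  unfold leStep
  rw [List.takeWhile_append_of_pos]
  · rw [List.append_assoc]
  · intro a ha
    rw [decide_eq_true_iff]
    rintro rfl
    exact h ha

lemma gt_prefix {U : Type*} [DecidableEq U] (s : ℕ → U) (t k : ℕ)
    (h : ∀ j, 1 ≤ j → j ≤ k → s (t + j) ∉ LE s t) : ∃ K, LE s (t + k) = LE s t ++ K := by
  induction k with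
  | zero => exact ⟨[], by simp⟩
  | succ k ih =>
    obtain ⟨K, hK⟩ := ih fun j h1 h2 => h j h1 (h2.trans (Nat.le_succ k))
    refine ⟨leStep K (s (t + (k + 1))), ?_⟩
    have h1 : s (t + k + 1) ∉ LW.LE s t := h (k + 1) (Nat.succ_le_succ (Nat.zero_le _)) le_rfl
    show LW.LE s (t + k + 1) = LW.LE s t ++ leStep K (s (t + k + 1))
    rw [LE_succ, hK, gt_leStep_append h1]

lemma gt_lt (A : Finset (Zd d)) (s : ℕ → Zd d) (N t t' : ℕ) (htt : t < t') (ht' : t' < N)
    (h : ∀ j, 1 ≤ j → t + j < N → s (t + j) ∉ LE s t) (hA : s t' ∈ A) :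
    cA A (pre s t) < cA A (pre s t') := by
  obtain ⟨k, rfl⟩ := Nat.exists_eq_add_of_le htt.le
  obtain ⟨K, hK⟩ := gt_prefix s t k fun j h1 h2 => h j h1 (by omega)
  unfold cA
  refine Finset.card_lt_card ?_
  have e1 : LEl (pre s (t + k)) = LEl (pre s t) ++ K := hK
  refine ⟨?_, ?_⟩
  · intro x hx
    rw [Finset.mem_inter, List.mem_toFinset] at hx ⊢
    refine ⟨?_, hx.2⟩
    rw [e1]
    exact List.mem_append_left _ hx.1
  · intro hsub
    have h1 : s (t + k) ∈ (LEl (pre s (t + k))).toFinset ∩ A := by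
      rw [Finset.mem_inter, List.mem_toFinset]
      exact ⟨self_mem_LE s (t + k), hA⟩
    have h2 := hsub h1
    rw [Finset.mem_inter, List.mem_toFinset] at h2
    exact h k (by omega) ht' h2.1

open Classical in
/-- the discounted weight at time `t` when the tip is final up to time `N` -/
noncomputable def gtG (b : ℝ≥0∞) (A : Finset (Zd d)) (y : Zd d) (N t : ℕ) (ω : Om d) : ℝ≥0∞ :=
  if pos y ω t ∈ A ∧ ∀ j, 1 ≤ j → t + j < N → pos y ω (t + j) ∉ LE (pos y ω) t then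
    b ^ cA A (pre (pos y ω) t) else 0

lemma gt_pre_congr (y : Zd d) {t M : ℕ} (htM : t ≤ M) {ω ω' : Om d} (h : ∀ i < M, ω i = ω' i) :
    pre (pos y ω) t = pre (pos y ω') t :=
  pre_congr fun i hi => pos_congr y fun j hj => h j (by omega)

lemma gtG_measurable (b : ℝ≥0∞) (A : Finset (Zd d)) (y : Zd d) (N t : ℕ) :
    Measurable (gtG b A y N t) := by
  refine measurable_of_prefix (t + N) fun ω ω' h => ?_
  have e1 : pre (pos y ω) t = pre (pos y ω') t := gt_pre_congr y (Nat.le_add_right _ _) h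
  have e2 : pos y ω t = pos y ω' t := pos_congr y fun j hj => h j (by omega)
  have e3 : (∀ j, 1 ≤ j → t + j < N → pos y ω (t + j) ∉ LE (pos y ω) t) ↔
      (∀ j, 1 ≤ j → t + j < N → pos y ω' (t + j) ∉ LE (pos y ω') t) := by
    refine forall_congr' fun j => forall_congr' fun _ => forall_congr' fun hj => ?_
    have e4 : pos y ω (t + j) = pos y ω' (t + j) := pos_congr y fun i hi => h i (by omega)
    unfold LW.LE
    rw [e1, e4]
  unfold gtG
  rw [e1, e2]
  by_cases hc : pos y ω' t ∈ A ∧ ∀ j, 1 ≤ j → t + j < N → pos y ω' (t + j) ∉ LE (pos y ω') t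
  · rw [if_pos hc, if_pos ⟨hc.1, e3.2 hc.2⟩]
  · rw [if_neg hc, if_neg fun hc' => hc ⟨hc'.1, e3.1 hc'.2⟩]

lemma gtG_sum (b : ℝ≥0∞) (A : Finset (Zd d)) (y : Zd d) (N : ℕ) (ω : Om d) :
    ∑ t ∈ Finset.range N, gtG b A y N t ω ≤ (1 - b)⁻¹ := by
  classical
  unfold gtG
  rw [← Finset.sum_filter]
  have hinj : Set.InjOn (fun t => cA A (pre (pos y ω) t))
      (((Finset.range N).filter fun t => pos y ω t ∈ A ∧
        ∀ j, 1 ≤ j → t + j < N → pos y ω (t + j) ∉ LE (pos y ω) t : Finset ℕ) : Set ℕ) := by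
    intro t ht t' ht' he
    rw [Finset.mem_coe, Finset.mem_filter, Finset.mem_range] at ht ht'
    rcases lt_trichotomy t t' with hlt | heq | hlt
    · exact absurd he (gt_lt A (pos y ω) N t t' hlt ht'.1 ht.2.2 ht'.2.1).ne
    · exact heq
    · exact absurd he (gt_lt A (pos y ω) N t' t hlt ht.1 ht'.2.2 ht.2.1).ne'
  rw [← ENNReal.tsum_geometric, ← Finset.sum_image (f := fun k => b ^ k) hinj]
  exact ENNReal.sum_le_tsum _

variable [NeZero d]

lemma gtG_lower (b : ℝ≥0∞) (A : Finset (Zd d)) (y : Zd d) (c : ℝ≥0∞) (N t : ℕ) :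
    c * ∫⁻ ω, wt b A (fun l => EndIn (A : Set (Zd d)) l ∧ Good c l) (pre (pos y ω) t) ∂Pr d
      ≤ ∫⁻ ω, gtG b A y N t ω ∂Pr d := by
  classical
  set Ψ : Zd d → List (Zd d) → Om d → ℝ≥0∞ := fun x l ω₂ =>
    (if x ∈ A then b ^ cA A l else 0) *
      (if ∀ j, 1 ≤ j → t + j < N → pos x ω₂ j ∉ LEl l then 1 else 0) with hΨ
  set Φ : Om d → Om d → ℝ≥0∞ := fun ω ω₂ => Ψ (pos y ω t) (pre (pos y ω) t) ω₂ with hΦ
  have hset : ∀ ω : Om d, MeasurableSet
      {ω₂ : Om d | ∀ j, 1 ≤ j → t + j < N → pos (pos y ω t) ω₂ j ∉ LEl (pre (pos y ω) t)} := by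
    intro ω
    refine measurableSet_setOfPred.2 (measurable_of_prefix N fun ω₁ ω₂ h => ?_)
    refine propext (forall_congr' fun j => forall_congr' fun _ => forall_congr' fun hj => ?_)
    have e4 : pos (pos y ω t) ω₁ j = pos (pos y ω t) ω₂ j :=
      pos_congr _ fun i hi => h i (by omega)
    rw [e4]
  have hm2 : ∀ ω : Om d, Measurable fun ω₂ : Om d =>
      (if ∀ j, 1 ≤ j → t + j < N → pos (pos y ω t) ω₂ j ∉ LEl (pre (pos y ω) t) then (1 : ℝ≥0∞) else 0) :=
    fun ω => Measurable.ite (hset ω) measurable_const measurable_const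
  have h2 : ∀ ω, Measurable (Φ ω) := fun ω => (hm2 ω).const_mul _
  have h1 : ∀ ω ω' ω₂, (∀ i < t, ω i = ω' i) → Φ ω ω₂ = Φ ω' ω₂ := by
    intro ω ω' ω₂ h
    have e1 : pre (pos y ω) t = pre (pos y ω') t := gt_pre_congr y le_rfl h
    have e2 : pos y ω t = pos y ω' t := pos_congr y h
    simp only [hΦ, e1, e2]
  have hsp := lintegral_split (d := d) t h1 h2
  have e5 : ∀ ω : Om d, gtG b A y N t ω = Φ ω (shift t ω) := by
    intro ω
    show gtG b A y N t ω = Ψ (pos y ω t) (pre (pos y ω) t) (shift t ω)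
    have hq : (∀ j, 1 ≤ j → t + j < N → pos (pos y ω t) (shift t ω) j ∉ LEl (pre (pos y ω) t)) ↔
        (∀ j, 1 ≤ j → t + j < N → pos y ω (t + j) ∉ LW.LE (pos y ω) t) := by
      simp only [pos_shift]
      exact Iff.rfl
    by_cases ha : pos y ω t ∈ A
    · by_cases hf : ∀ j, 1 ≤ j → t + j < N → pos y ω (t + j) ∉ LW.LE (pos y ω) t
      · simp only [gtG]
        rw [if_pos ⟨ha, hf⟩]
        simp only [hΨ]
        rw [if_pos ha, if_pos (hq.2 hf), mul_one]
      · simp only [gtG]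
        rw [if_neg fun hc => hf hc.2]
        simp only [hΨ]
        rw [if_neg fun hc => hf (hq.1 hc), mul_zero]
    · simp only [gtG]
      rw [if_neg fun hc => ha hc.1]
      simp only [hΨ]
      rw [if_neg ha, zero_mul]
  rw [lintegral_congr e5, hsp, ← lintegral_const_mul _ (measurable_pre y t _)]
  refine lintegral_mono fun ω => ?_
  show c * wt b A (fun l => EndIn (A : Set (Zd d)) l ∧ Good c l) (pre (pos y ω) t) ≤
    ∫⁻ ω₂, Φ ω ω₂ ∂Pr d
  simp only [hΦ, hΨ]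
  rw [lintegral_const_mul _ (hm2 ω)]
  unfold wt
  by_cases hc : EndIn (A : Set (Zd d)) (pre (pos y ω) t) ∧ Good c (pre (pos y ω) t)
  · rw [if_pos hc]
    obtain ⟨⟨x, hxA, hx⟩, ⟨x', hx', hxE⟩⟩ := hc
    rw [pre_getLast, Option.some_inj] at hx hx'
    subst hx
    subst hx'
    rw [if_pos (Finset.mem_coe.1 hxA), mul_comm]
    refine mul_le_mul_right ?_ _
    refine hxE.trans ?_
    have e6 : (∫⁻ ω₂ : Om d, (if ∀ j, 1 ≤ j → t + j < N →
        pos (pos y ω t) ω₂ j ∉ LEl (pre (pos y ω) t) then (1 : ℝ≥0∞) else 0) ∂Pr d) =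
        Pr d {ω₂ : Om d | ∀ j, 1 ≤ j → t + j < N → pos (pos y ω t) ω₂ j ∉ LEl (pre (pos y ω) t)} := by
      rw [← lintegral_indicator_one (hset ω)]
      rfl
    rw [e6]
    refine measure_mono ?_
    intro ω₂ h j h3 _
    exact h j h3
  · rw [if_neg hc, mul_zero]
    exact bot_le

theorem good_le (b : ℝ≥0∞) (A : Finset (Zd d)) (y : Zd d) (c : ℝ≥0∞) :
    c * pth y (wt b A fun l => EndIn (A : Set (Zd d)) l ∧ Good c l) ≤ (1 - b)⁻¹ := by
  unfold pth
  rw [ENNReal.tsum_eq_iSup_nat, ENNReal.mul_iSup]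
  refine iSup_le fun N => ?_
  rw [Finset.mul_sum]
  calc ∑ t ∈ Finset.range N, c * ∫⁻ ω, wt b A (fun l => EndIn (A : Set (Zd d)) l ∧ Good c l)
        (pre (pos y ω) t) ∂Pr d
      ≤ ∑ t ∈ Finset.range N, ∫⁻ ω, gtG b A y N t ω ∂Pr d :=
        Finset.sum_le_sum fun t _ => gtG_lower b A y c N t
    _ = ∫⁻ ω, ∑ t ∈ Finset.range N, gtG b A y N t ω ∂Pr d :=
        (lintegral_finsetSum _ fun t _ => gtG_measurable b A y N t).symm
    _ ≤ ∫⁻ _, (1 - b)⁻¹ ∂Pr d := lintegral_mono fun ω => gtG_sum b A y N ω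
    _ = (1 - b)⁻¹ := by rw [lintegral_const, measure_univ, mul_one]

end Pool.Agent.H39.LP
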