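import Pool.Agent.H39.LP.Recover
import Pool.Agent.H39.LP.RecOf
import Pool.Agent.H39.LP.NotSparse
import Pool.Agent.H39.LP.Tips

/-!
# Module QB: the discounted number of visits is at most `C / (1 - b)`

* `Q_ne_top`: `Q b A y ≤ ∑_{a ∈ A} ∑' n, Pr (pos y n = a) < ∞` (`b ≤ 1`; `green_le`).
* `Q_le`: with `N`, `m₀` from `recover`, `C_N` from `notsparse_le` and `m ≥ m₀, 2 C_N`:
  `Q ≤ pth (wt (… Sparse …)) + pth (wt (… ¬ Sparse …))`, the second is `≤ Q / 2` and the first is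
  `≤ (M+1) (2d)^M b^(-M) / c * (1-b)⁻¹` by `rec_of` and `good_le`; as `Q < ∞` we get
  `Q ≤ 2 (…) (1-b)⁻¹`. (`b^(-M) ≤ 2^M`.)
-/

open MeasureTheory ProbabilityTheory Filter
open scoped ENNReal
open Pool.Agent.H39.LW

namespace Pool.Agent.H39.LP

variable {d : ℕ} [NeZero d]

lemma pth_last (y a : Zd d) :
    pth y (fun l => if l.getLast? = some a then 1 else 0) = gT 0 (a - y) := by
  unfold pth gT
  refine tsum_congr fun n => ?_
  rw [add_zero, ← prob_pos n y a]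
  have h1 : ∀ ω : Om d, (if (pre (pos y ω) n).getLast? = some a then (1 : ℝ≥0∞) else 0)
      = {ω : Om d | pos y ω n = a}.indicator (fun _ => (1 : ℝ≥0∞)) ω := by
    intro ω
    rw [pre_getLast]
    by_cases h : pos y ω n = a
    · rw [Set.indicator_of_mem (show ω ∈ {ω : Om d | pos y ω n = a} from h), h]
      simp
    · rw [Set.indicator_of_notMem (show ω ∉ {ω : Om d | pos y ω n = a} from h), if_neg]
      intro h2
      exact h (Option.some.inj h2)
  simp only [h1]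
  have hm : MeasurableSet {ω : Om d | pos y ω n = a} :=
    measurable_pos y n (measurableSet_singleton a)
  rw [lintegral_indicator hm, setLIntegral_const, one_mul]

lemma pth_finset_sum (y : Zd d) (A : Finset (Zd d)) (F : Zd d → List (Zd d) → ℝ≥0∞) :
    pth y (fun l => ∑ a ∈ A, F a l) = ∑ a ∈ A, pth y (F a) := by
  classical
  induction A using Finset.induction_on with
  | empty =>
    simp only [Finset.sum_empty]
    unfold pth
    simp
  | insert a A ha ih =>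
    simp only [Finset.sum_insert ha]
    rw [pth_add, ih]

theorem Q_ne_top (hd : 5 ≤ d) {b : ℝ≥0∞} (hb : b ≤ 1) (A : Finset (Zd d)) (y : Zd d) :
    Q b A y ≠ ⊤ := by
  obtain ⟨C, hC⟩ := green_le (d := d) hd
  have h1 : Q b A y ≤ ∑ a ∈ A, gT 0 (a - y) := by
    unfold Q
    calc pth y (wt b A (EndIn A))
        ≤ pth y (fun l => ∑ a ∈ A, if l.getLast? = some a then (1 : ℝ≥0∞) else 0) := by
          refine pth_mono fun l _ => ?_
          unfold wt
          split_ifs with h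
          · obtain ⟨x, hx, hl⟩ := h
            calc b ^ cA A l ≤ 1 := pow_le_one' hb _
              _ = if l.getLast? = some x then (1 : ℝ≥0∞) else 0 := by rw [if_pos hl]
              _ ≤ ∑ a ∈ A, if l.getLast? = some a then (1 : ℝ≥0∞) else 0 :=
                Finset.single_le_sum
                  (f := fun a => if l.getLast? = some a then (1 : ℝ≥0∞) else 0)
                  (fun _ _ => bot_le) (Finset.mem_coe.1 hx)
          · exact bot_le
      _ = ∑ a ∈ A, gT 0 (a - y) := by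
          rw [pth_finset_sum]
          exact Finset.sum_congr rfl fun a _ => pth_last y a
  refine ne_top_of_le_ne_top ?_ h1
  refine (ENNReal.sum_lt_top.2 fun a _ => ?_).ne
  exact (hC _).trans_lt (ENNReal.natCast_lt_top C)

theorem Q_le (hd : 5 ≤ d) : ∃ C : ℕ, ∀ b : ℝ≥0∞, 2⁻¹ ≤ b → b < 1 → ∀ (A : Finset (Zd d)) (y : Zd d),
    Q b A y ≤ C * (1 - b)⁻¹ := by
  obtain ⟨N, hN, m₀, hm₀, hrec⟩ := recover (d := d) hd
  obtain ⟨CN, hCN⟩ := notsparse_le hd N hN
  obtain ⟨c, hc0, hct, M, hM⟩ := hrec (m₀ + 2 * CN) (by omega)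
  set m := m₀ + 2 * CN with hm
  have hm1 : 1 ≤ m := by omega
  set K : ℝ≥0∞ := 2 * ((M + 1) * (2 ^ M * (2 * d) ^ M) * c⁻¹) with hK
  have hKt : K ≠ ⊤ := by
    rw [hK]
    refine ENNReal.mul_ne_top (by simp) (ENNReal.mul_ne_top (ENNReal.mul_ne_top (by simp)
      (ENNReal.mul_ne_top (by simp) ?_)) (ENNReal.inv_ne_top.2 hc0))
    exact ENNReal.pow_ne_top (ENNReal.mul_ne_top (by simp) (by simp))
  obtain ⟨C, hC⟩ := ENNReal.exists_nat_gt hKt
  refine ⟨C, fun b hb hb1 A y => ?_⟩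
  set X := pth y (wt b A fun l => EndIn (A : Set (Zd d)) l ∧
        ∃ x, l.getLast? = some x ∧ Sparse N m (LEl l) x) with hX
  set Z := pth y (wt b A fun l => EndIn (A : Set (Zd d)) l ∧
        ∃ x, l.getLast? = some x ∧ ¬ Sparse N m (LEl l) x) with hZ
  set Y := pth y (wt b A fun l => EndIn (A : Set (Zd d)) l ∧ Good c l) with hY
  have h1 : Q b A y ≤ X + Z := by
    rw [hX, hZ, ← pth_add]
    unfold Q
    refine pth_mono fun l _ => ?_
    unfold wt
    by_cases he : EndIn (A : Set (Zd d)) l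
    · obtain ⟨x, hx, hl⟩ := he
      by_cases hs : Sparse N m (LEl l) x
      · rw [if_pos ⟨x, hx, hl⟩, if_pos ⟨⟨x, hx, hl⟩, x, hl, hs⟩]
        exact le_self_add
      · rw [if_pos ⟨x, hx, hl⟩]
        refine le_trans ?_ le_add_self
        rw [if_pos ⟨⟨x, hx, hl⟩, x, hl, hs⟩]
    · rw [if_neg he]
      exact bot_le
  have h2 : Z ≤ Q b A y / 2 := by
    have hm0 : (m : ℝ≥0∞) ≠ 0 := by
      simp only [ne_eq, Nat.cast_eq_zero]
      omega
    have hcm : (CN : ℝ≥0∞) / m ≤ 2⁻¹ := by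
      rw [ENNReal.div_le_iff hm0 (ENNReal.natCast_ne_top m), ← ENNReal.div_eq_inv_mul,
        ENNReal.le_div_iff_mul_le (Or.inl (by simp)) (Or.inl (by simp))]
      have : CN * 2 ≤ m := by omega
      exact_mod_cast this
    calc Z ≤ CN / m * Q b A y := hCN m hm1 b hb hb1.le A y
      _ ≤ 2⁻¹ * Q b A y := by gcongr
      _ = Q b A y / 2 := by rw [ENNReal.div_eq_inv_mul]
  have h3 : Q b A y ≤ 2 * X := by
    have hq := Q_ne_top hd hb1.le A y
    have hq2 : Q b A y / 2 ≠ ⊤ := ENNReal.div_ne_top hq (by simp)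
    have h4 : Q b A y / 2 + Q b A y / 2 ≤ X + Q b A y / 2 := by
      rw [ENNReal.add_halves]
      exact h1.trans (by gcongr)
    have h5 : Q b A y / 2 ≤ X := (ENNReal.add_le_add_iff_right hq2).1 h4
    calc Q b A y = 2 * (Q b A y / 2) := (ENNReal.mul_div_cancel (by simp) (by simp)).symm
      _ ≤ 2 * X := by gcongr
  have h6 : b ^ M * X * ((2 * d : ℝ≥0∞)⁻¹) ^ M ≤ (M + 1) * Y := rec_of hM hb1.le A y
  have h7 : c * Y ≤ (1 - b)⁻¹ := good_le b A y c
  have hb0 : b ≠ 0 := by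
    rintro rfl
    simp at hb
  have hbt : b ≠ ⊤ := ne_top_of_lt hb1
  have hd0 : (2 * d : ℝ≥0∞) ≠ 0 := by
    have : (d : ℝ≥0∞) ≠ 0 := by simp [NeZero.ne d]
    positivity
  have hdt : (2 * d : ℝ≥0∞) ≠ ⊤ := ENNReal.mul_ne_top (by simp) (by simp)
  have h8 : X ≤ (M + 1) * (2 ^ M * (2 * d) ^ M) * c⁻¹ * (1 - b)⁻¹ := by
    have e1 : X = (b⁻¹) ^ M * (2 * d) ^ M * (b ^ M * X * ((2 * d : ℝ≥0∞)⁻¹) ^ M) := by
      have e2 : (b⁻¹) ^ M * b ^ M = 1 := by
        rw [← mul_pow, ENNReal.inv_mul_cancel hb0 hbt, one_pow]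
      have e3 : (2 * d : ℝ≥0∞) ^ M * ((2 * d : ℝ≥0∞)⁻¹) ^ M = 1 := by
        rw [← mul_pow, ENNReal.mul_inv_cancel hd0 hdt, one_pow]
      calc X = 1 * 1 * X := by ring
        _ = ((b⁻¹) ^ M * b ^ M) * ((2 * d : ℝ≥0∞) ^ M * ((2 * d : ℝ≥0∞)⁻¹) ^ M) * X := by
          rw [e2, e3]
        _ = _ := by ring
    have e4 : Y ≤ c⁻¹ * (1 - b)⁻¹ := by
      calc Y = c⁻¹ * (c * Y) := by
            rw [← mul_assoc, ENNReal.inv_mul_cancel hc0 hct, one_mul]
        _ ≤ c⁻¹ * (1 - b)⁻¹ := by gcongr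
    have e5 : b⁻¹ ≤ 2 := by
      rw [ENNReal.inv_le_iff_inv_le]
      exact hb
    calc X = (b⁻¹) ^ M * (2 * d) ^ M * (b ^ M * X * ((2 * d : ℝ≥0∞)⁻¹) ^ M) := e1
      _ ≤ 2 ^ M * (2 * d) ^ M * ((M + 1) * (c⁻¹ * (1 - b)⁻¹)) :=
          mul_le_mul' (mul_le_mul' (pow_le_pow_left' e5 M) le_rfl)
            (h6.trans (mul_le_mul' le_rfl e4))
      _ = _ := by ring
  calc Q b A y ≤ 2 * X := h3
    _ ≤ 2 * ((M + 1) * (2 ^ M * (2 * d) ^ M) * c⁻¹ * (1 - b)⁻¹) := by gcongr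
    _ = K * (1 - b)⁻¹ := by rw [hK]; ring
    _ ≤ C * (1 - b)⁻¹ := by gcongr

end Pool.Agent.H39.LP
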