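import Pool.Agent.H39.LP.SparseSum
import Pool.Agent.H39.LP.EscStraight
import Pool.Agent.H39.LP.Mono
import Pool.Agent.H39.LP.Lists2

/-!
# Module RC: recovery of a good tip

`recover`. Let `C₁` be the constant of `sparse_sum_out`, `C₂` that of `green_far`. `N := 4 C₁ + 4`, and `m₀` so
large that `(4 d m^2 + 1) C₂ / m^5 ≤ 1/4` for `m ≥ m₀` (`m₀ ≥ 1`). Let `L` be self-avoiding with last
vertex `z`, sparse. Let `u` be the first entry of `L` in the box `nb z (2 m^2)` (`z` is one):
`L = L₁ ++ u :: L₂`, no vertex of `L₁` in the box. Let `u :: σ` be the monotone path from `u` to `z`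
(`mono_path`), contained in the box, `σ.length ≤ 2 d m^2`, and let
`π = (u :: σ).reverse.tail ++ σ` (from `z` back to `u` and then to `z` again), `π.length ≤ 4 d m^2 =: M`.

* `π.foldl leStep L = L₁ ++ (u :: σ)`: if `σ = []` then `u = z`, `π = []`, and `L₂ = []` (`L` is self-avoiding
  and `z` is its last entry). Otherwise `(u :: σ).reverse.tail = τ ++ [u]`, the vertices of `τ ++ [u]` are
  in the box, hence not in `L₁`: `foldl_notMem`, `foldl_cons_last` give `L₁ ++ [u]` after the first
  part, then `foldl_nodup` for `σ` (self-avoiding, in the box, `u ∉ σ`).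
* Escape: let `i₀ = 0` be the first coordinate, `e = (0, true)` (direction `+`) if `u 0 ≤ z 0` and
  `e = (0, false)` (direction `-`) otherwise, `k = m^2`, `v = z + m^2 • sv e ∈ nb z (m^2)`.
  The points `z + j • sv e`, `1 ≤ j ≤ m^2`, are in the box `nb z (2 m^2)`, hence not in `L₁`, and their
  coordinate `0` is strictly beyond `z 0` on the side opposite to `u`, hence they are not on `u :: σ`.
  For `x ∈ u :: σ`: `|x 0 - v 0| ≥ m^2`, so `gT 0 (x - v) ≤ C₂ / m^5` (`green_far`), and there are at most
  `2 d m^2 + 1` such points: total `≤ 1/4`. The vertices of `L₁` are in `L.toFinset \ nb z (2 m^2)`: total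
  `≤ C₁ / N ≤ 1/4` by `sparse_sum_out`. So `Esc ≥ (2d)^(-m^2) / 2 =: c`.
-/

open MeasureTheory ProbabilityTheory Filter
open scoped ENNReal
open Pool.Agent.H39.LW

namespace Pool.Agent.H39.LP

variable {d : ℕ} [NeZero d]

omit [NeZero d] in
/-- splitting a list at the first element with a property -/
lemma rc_first_split {U : Type*} (p : U → Prop) : ∀ l : List U, (∃ x ∈ l, p x) →
    ∃ l1 u l2, l = l1 ++ u :: l2 ∧ p u ∧ ∀ x ∈ l1, ¬ p x := by
  intro l
  induction l with
  | nil => rintro ⟨x, hx, _⟩; simp at hx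
  | cons a l ih =>
    rintro ⟨x, hx, hpx⟩
    by_cases ha : p a
    · exact ⟨[], a, l, rfl, ha, by simp⟩
    · have hx' : x ∈ l := by
        rcases List.mem_cons.mp hx with h | h
        · exact absurd (h ▸ hpx) ha
        · exact h
      obtain ⟨l1, u, l2, h1, h2, h3⟩ := ih ⟨x, hx', hpx⟩
      refine ⟨a :: l1, u, l2, by rw [h1]; rfl, h2, ?_⟩
      intro y hy
      rcases List.mem_cons.mp hy with h | h
      · rw [h]; exact ha
      · exact h3 y h

omit [NeZero d] in
lemma rc_sv_apply_zero [NeZero d] (b : Bool) (j : ℕ) (z : Zd d) :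
    (z + j • sv ((0 : Fin d), b)) 0 = z 0 + j * (if b then 1 else -1) := by
  simp [sv]

omit [NeZero d] in
lemma rc_sv_apply_ne [NeZero d] (b : Bool) (j : ℕ) (z : Zd d) (i : Fin d) (hi : i ≠ 0) :
    (z + j • sv ((0 : Fin d), b)) i = z i := by
  simp [sv, Pi.single_apply, hi]

omit [NeZero d] in
lemma rc_mem_nb [NeZero d] (b : Bool) (j r : ℕ) (hj : j ≤ r) (z : Zd d) :
    z + j • sv ((0 : Fin d), b) ∈ nb z r := by
  rw [mem_nb]
  intro i
  have hj' : (j : ℤ) ≤ r := by exact_mod_cast hj
  by_cases hi : i = 0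
  · subst hi
    rw [rc_sv_apply_zero]
    cases b
    · simp only [Bool.false_eq_true, if_false]
      rw [show z 0 + (j : ℤ) * (-1) - z 0 = -(j : ℤ) by ring, abs_neg, abs_of_nonneg (by positivity)]
      exact hj'
    · simp only [if_true]
      rw [show z 0 + (j : ℤ) * 1 - z 0 = (j : ℤ) by ring, abs_of_nonneg (by positivity)]
      exact hj'
  · rw [rc_sv_apply_ne _ _ _ _ hi]
    simp

/-- loop erasure of the path from the tip back to the first entry in the box and back again -/
lemma rc_foldl {z u : Zd d} {L L₁ L₂ σ : List (Zd d)} {B : Finset (Zd d)} (hnd : L.Nodup)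
    (hlast : L.getLast? = some z) (hL : L = L₁ ++ u :: L₂) (hL₁ : ∀ x ∈ L₁, x ∉ B)
    (hσB : ∀ x ∈ u :: σ, x ∈ B) (hσnd : (u :: σ).Nodup) (hσlast : (u :: σ).getLast? = some z) :
    ((u :: σ).reverse.tail ++ σ).foldl leStep L = L₁ ++ (u :: σ) := by
  rcases List.eq_nil_or_concat σ with h0 | ⟨τ, w, h0⟩
  · subst h0
    have huz : u = z := by simpa using hσlast
    have hL₂ : L₂ = [] := by
      by_contra hne
      have h1 : L.getLast? = L₂.getLast? := by
        rw [hL, List.getLast?_append_of_ne_nil _ (by simp), List.getLast?_cons]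
        rcases hx : L₂.getLast? with _ | y
        · rw [List.getLast?_eq_none_iff] at hx
          exact absurd hx hne
        · simp
      rw [hlast] at h1
      have hz : z ∈ L₂ := List.mem_of_getLast? h1.symm
      rw [hL, List.nodup_append] at hnd
      have h2 := hnd.2.1
      rw [List.nodup_cons] at h2
      exact h2.1 (huz ▸ hz)
    rw [hL₂] at hL
    simp [hL]
  · subst h0
    have hrev : (u :: (τ ++ [w])).reverse.tail = τ.reverse ++ [u] := by simp
    rw [List.concat_eq_append] at *
    rw [hrev, List.foldl_append, hL]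
    have hm : ∀ v ∈ τ.reverse ++ [u], v ∉ L₁ := by
      intro v hv hv1
      have : v ∈ u :: (τ ++ [w]) := by
        simp only [List.mem_append, List.mem_reverse, List.mem_singleton] at hv
        rcases hv with h | h
        · simp [h]
        · simp [h]
      exact hL₁ v hv1 (hσB v this)
    rw [foldl_notMem (u :: L₂) hm, foldl_cons_last]
    have hnd' := hσnd
    rw [List.nodup_cons] at hnd'
    rw [foldl_nodup hnd'.2]
    · simp
    · intro v hv hv1
      rcases List.mem_append.mp hv1 with h | h
      · exact hL₁ v h (hσB v (List.mem_cons_of_mem _ hv))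
      · rw [List.mem_singleton] at h
        exact hnd'.1 (h ▸ hv)

theorem recover (hd : 5 ≤ d) : ∃ N : ℕ, 0 < N ∧ ∃ m₀ : ℕ, 1 ≤ m₀ ∧ ∀ m ≥ m₀,
    ∃ c : ℝ≥0∞, c ≠ 0 ∧ c ≠ ⊤ ∧ ∃ M : ℕ, ∀ (L : List (Zd d)) (z : Zd d), L.Nodup → L.getLast? = some z →
      Sparse N m L z → ∃ π : List (Zd d), π.length ≤ M ∧ (z :: π).IsChain Adj ∧
        (z :: π).getLast? = some z ∧ c ≤ Esc z (π.foldl leStep L) := by
  obtain ⟨C₁, hC₁⟩ := sparse_sum_out (d := d) hd
  obtain ⟨C₂, hC₂⟩ := green_far (d := d) hd
  refine ⟨4 * C₁ + 4, by omega, 4 * ((2 * d + 1) * C₂) + 1, by omega, ?_⟩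
  intro m hm
  have hm1 : 1 ≤ m := by omega
  refine ⟨((2 * d : ℝ≥0∞)⁻¹) ^ (m ^ 2) * 2⁻¹, ?_, ?_, 4 * d * m ^ 2, ?_⟩
  · refine mul_ne_zero (pow_ne_zero _ ?_) (by simp)
    rw [Ne, ENNReal.inv_eq_zero]
    exact ENNReal.mul_ne_top (by simp) (by simp)
  · refine ENNReal.mul_ne_top (ENNReal.pow_ne_top ?_) (by simp)
    rw [Ne, ENNReal.inv_eq_top]
    exact mul_ne_zero (by simp) (by simpa using NeZero.ne d)
  intro L z hnd hlast hsp
  set B := nb z (2 * m ^ 2) with hB
  have hzL : z ∈ L := List.mem_of_getLast? hlast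
  obtain ⟨L₁, u, L₂, hL, huB, hL₁⟩ := rc_first_split (fun x => x ∈ B) L ⟨z, hzL, self_mem_nb z _⟩
  obtain ⟨σ, hch, hσnd, hσlast, hσlen, hσmem⟩ := mono_path u z
  have huB' := mem_nb.mp huB
  have hσB : ∀ x ∈ u :: σ, x ∈ B := by
    intro x hx
    rw [hB, mem_nb]
    intro i
    have h1 := hσmem x hx i
    have h2 := huB' i
    refine le_trans ?_ h2
    rcases le_total (u i) (z i) with h | h
    · rw [min_eq_left h, max_eq_right h] at h1
      rw [abs_of_nonpos (by linarith), abs_of_nonpos (by linarith)]
      linarith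
    · rw [min_eq_right h, max_eq_left h] at h1
      rw [abs_of_nonneg (by linarith), abs_of_nonneg (by linarith)]
      linarith
  have hlen : σ.length ≤ 2 * d * m ^ 2 := by
    rw [hσlen]
    calc ∑ i, (u i - z i).natAbs ≤ ∑ _i : Fin d, 2 * m ^ 2 := by
          refine Finset.sum_le_sum fun i _ => ?_
          have h2 := huB' i
          have h3 : ((u i - z i).natAbs : ℤ) ≤ ((2 * m ^ 2 : ℕ) : ℤ) := by
            rw [Int.natCast_natAbs]; exact h2
          exact_mod_cast h3
      _ = 2 * d * m ^ 2 := by simp; ring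
  have hrevch : ((u :: σ).reverse).IsChain Adj := chain_reverse hch
  have hzrev : (u :: σ).reverse = z :: (u :: σ).reverse.tail := by
    have h1 : (u :: σ).reverse.head? = some z := by rw [List.head?_reverse]; exact hσlast
    rcases h2 : (u :: σ).reverse with _ | ⟨a, l⟩
    · rw [h2] at h1; simp at h1
    · rw [h2] at h1
      simp only [List.head?_cons, Option.some.injEq] at h1
      simp [h1]
  have hzπ : z :: ((u :: σ).reverse.tail ++ σ) = σ.reverse ++ u :: σ := by
    rw [← List.cons_append, ← hzrev]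
    simp
  refine ⟨(u :: σ).reverse.tail ++ σ, ?_, ?_, ?_, ?_⟩
  · simp only [List.length_append, List.length_tail, List.length_reverse, List.length_cons]
    calc σ.length + 1 - 1 + σ.length = 2 * σ.length := by omega
      _ ≤ 2 * (2 * d * m ^ 2) := by omega
      _ = 4 * d * m ^ 2 := by ring
  · rw [hzπ, List.isChain_split]
    refine ⟨?_, hch⟩
    have : (u :: σ).reverse = σ.reverse ++ [u] := by simp
    rw [← this]
    exact hrevch
  · rw [hzπ, List.getLast?_append_of_ne_nil _ (by simp)]
    exact hσlast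
  · rw [rc_foldl hnd hlast hL hL₁ hσB hσnd hσlast]
    set b : Bool := decide (u 0 ≤ z 0) with hb
    set v : Zd d := z + (m ^ 2) • sv ((0 : Fin d), b) with hv
    -- the far side
    have hside : ∀ j : ℕ, ∀ x ∈ u :: σ, (j : ℤ) ≤ |(x - (z + j • sv ((0 : Fin d), b))) 0| := by
      intro j x hx
      have h1 := hσmem x hx 0
      have hj0 : (0 : ℤ) ≤ j := by positivity
      rw [Pi.sub_apply, rc_sv_apply_zero]
      by_cases h : u 0 ≤ z 0
      · have hbt : b = true := by simp [hb, h]
        rw [hbt]
        rw [min_eq_left h, max_eq_right h] at h1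
        simp only [if_true]
        rw [abs_of_nonpos (by linarith)]
        linarith
      · have hbf : b = false := by simp [hb, h]
        rw [hbf]
        have h' : z 0 ≤ u 0 := by omega
        rw [min_eq_right h', max_eq_left h'] at h1
        simp only [Bool.false_eq_true, if_false]
        rw [abs_of_nonneg (by linarith)]
        linarith
    have hnot : ∀ j, 1 ≤ j → j ≤ m ^ 2 → z + j • sv ((0 : Fin d), b) ∉ L₁ ++ (u :: σ) := by
      intro j hj1 hj2 hmem
      rcases List.mem_append.mp hmem with h | h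
      · exact hL₁ _ h (rc_mem_nb b j _ (by omega) z)
      · have := hside j _ h
        rw [sub_self, Pi.zero_apply, abs_zero] at this
        have hj1' : (1 : ℤ) ≤ j := by exact_mod_cast hj1
        linarith
    refine le_trans ?_ (esc_straight z (L₁ ++ (u :: σ)) ((0 : Fin d), b) (m ^ 2) hnot)
    refine mul_le_mul_right ?_ _
    rw [← hv]
    have hvB : v ∈ nb z (m ^ 2) := rc_mem_nb b _ _ le_rfl z
    have hm0 : (m : ℝ≥0∞) ≠ 0 := by
      simp only [ne_eq, Nat.cast_eq_zero]; omega
    have hmt : (m : ℝ≥0∞) ≠ ⊤ := by simp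
    have hsub : (L₁ ++ (u :: σ)).toFinset ⊆ (L.toFinset \ B) ∪ (u :: σ).toFinset := by
      intro x hx
      rw [List.mem_toFinset, List.mem_append] at hx
      rw [Finset.mem_union]
      rcases hx with h | h
      · left
        rw [Finset.mem_sdiff, List.mem_toFinset, hL]
        exact ⟨List.mem_append_left _ h, hL₁ x h⟩
      · right; rw [List.mem_toFinset]; exact h
    have hS : ∑ x ∈ (L₁ ++ (u :: σ)).toFinset, gT 0 (x - v) ≤ 2⁻¹ := by
      calc ∑ x ∈ (L₁ ++ (u :: σ)).toFinset, gT 0 (x - v)
          ≤ ∑ x ∈ (L.toFinset \ B) ∪ (u :: σ).toFinset, gT 0 (x - v) :=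
            Finset.sum_le_sum_of_subset hsub
        _ ≤ ∑ x ∈ (L.toFinset \ B), gT 0 (x - v) + ∑ x ∈ (u :: σ).toFinset, gT 0 (x - v) := by
            rw [← Finset.sum_union_inter]
            exact le_self_add
        _ ≤ 4⁻¹ + 4⁻¹ := by
            refine add_le_add ?_ ?_
            · refine (hC₁ (4 * C₁ + 4) m L z v (by omega) hm1 hsp hvB).trans ?_
              have hK0 : ((4 * C₁ + 4 : ℕ) : ℝ≥0∞) ≠ 0 := by
                rw [Nat.cast_ne_zero]; omega
              rw [ENNReal.div_le_iff hK0 (ENNReal.natCast_ne_top _)]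
              push_cast
              calc (C₁ : ℝ≥0∞) = 4⁻¹ * (4 * C₁) := by
                    rw [← mul_assoc, ENNReal.inv_mul_cancel (by norm_num) (by norm_num), one_mul]
                _ ≤ 4⁻¹ * (4 * C₁ + 4) := by gcongr; exact le_self_add
            · calc ∑ x ∈ (u :: σ).toFinset, gT 0 (x - v)
                  ≤ ∑ _x ∈ (u :: σ).toFinset, C₂ / (m : ℝ≥0∞) ^ 5 := by
                    refine Finset.sum_le_sum fun x hx => ?_
                    rw [List.mem_toFinset] at hx
                    refine hC₂ m hm1 _ ⟨0, ?_⟩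
                    have := hside (m ^ 2) x hx
                    rw [hv]
                    push_cast at this ⊢
                    exact this
                _ = ((u :: σ).toFinset.card : ℝ≥0∞) * (C₂ / (m : ℝ≥0∞) ^ 5) := by
                    rw [Finset.sum_const, nsmul_eq_mul]
                _ ≤ (((2 * d + 1) * m ^ 2 : ℕ) : ℝ≥0∞) * (C₂ / (m : ℝ≥0∞) ^ 5) := by
                    gcongr
                    calc (u :: σ).toFinset.card ≤ (u :: σ).length := List.toFinset_card_le _
                      _ = σ.length + 1 := rfl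
                      _ ≤ 2 * d * m ^ 2 + 1 * m ^ 2 := by
                          have : 1 ≤ 1 * m ^ 2 := by
                            rw [one_mul]; exact Nat.one_le_pow _ _ hm1
                          omega
                      _ = (2 * d + 1) * m ^ 2 := by ring
                _ ≤ 4⁻¹ := by
                    rw [← mul_div_assoc, ENNReal.div_le_iff (pow_ne_zero _ hm0)
                      (ENNReal.pow_ne_top hmt)]
                    have key : 4 * ((2 * d + 1) * m ^ 2 * C₂) ≤ m ^ 5 := by
                      have h1 : 4 * ((2 * d + 1) * C₂) ≤ m := by omega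
                      have h2 : m ^ 1 ≤ m ^ 3 := Nat.pow_le_pow_right hm1 (by norm_num)
                      calc 4 * ((2 * d + 1) * m ^ 2 * C₂) = 4 * ((2 * d + 1) * C₂) * m ^ 2 := by ring
                        _ ≤ m ^ 3 * m ^ 2 := by
                            refine Nat.mul_le_mul_right _ (h1.trans ?_)
                            simpa using h2
                        _ = m ^ 5 := by ring
                    calc (((2 * d + 1) * m ^ 2 : ℕ) : ℝ≥0∞) * C₂
                        = 4⁻¹ * (4 * ((((2 * d + 1) * m ^ 2 : ℕ) : ℝ≥0∞) * C₂)) := by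
                          rw [← mul_assoc 4⁻¹, ENNReal.inv_mul_cancel (by norm_num) (by norm_num),
                            one_mul]
                      _ ≤ 4⁻¹ * (m : ℝ≥0∞) ^ 5 := by
                          gcongr
                          exact_mod_cast key
        _ = 2⁻¹ := by
            have : (4 : ℝ≥0∞)⁻¹ = (2⁻¹) * 2⁻¹ := by
              rw [← ENNReal.mul_inv (by norm_num) (by norm_num)]; norm_num
            rw [this, ← mul_add, ENNReal.inv_two_add_inv_two, mul_one]
    calc (2 : ℝ≥0∞)⁻¹ = 1 - 2⁻¹ := (ENNReal.one_sub_inv_two).symm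
      _ ≤ 1 - ∑ x ∈ (L₁ ++ (u :: σ)).toFinset, gT 0 (x - v) := tsub_le_tsub_left hS 1

end Pool.Agent.H39.LP
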