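import Pool.Agent.H39.LP.Base

/-!
# Module SP: splitting a path at a time (Markov property for path sums)

`l.take (k + 1)` is the path up to time `k` and `l.drop k` the path from time `k` on (both contain
the vertex visited at time `k`).

* `pth_split`: for `l = pre (pos y ω) n` one has `l.length = n + 1`,
  `l.take (k+1) = pre (pos y ω) k` and `l.drop k = pre (pos (pos y ω k) (shift k ω)) (n - k)` (`k ≤ n`,
  `pos_shift`). So the left side is
  `∑' n, ∑ k ∈ range (n+1), ∫⁻ ω, H (pre (pos y ω) k) (pre (pos (pos y ω k) (shift k ω)) (n - k))`.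
  Use `lintegral_split k` with
  `Φ ω ω₂ = H (pre (pos y ω) k) (pre (pos (pos y ω k) ω₂) (n-k))` (`h1` from `pos_congr`/`pre_congr`,
  `h2` from `measurable_pre`), and rearrange the double sum over `(n, k ≤ n)` into a sum over
  `(k, m)`, `n = k + m` (`ENNReal.tsum_sigma`, or as in `ws_decomp` of WalkSum; e.g.
  `∑' n, ∑ k ∈ range (n+1), f k (n-k) = ∑' k, ∑' m, f k m` via
  `Finset.Nat.sum_antidiagonal_eq_sum_range_succ` and `tsum_mul`-free
  `ENNReal.tsum_antidiagonal`-type statements; all terms are in `ℝ≥0∞`).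
* `pth_split_le`, `pth_split_ge`: `pth_mono`, `pth_split` with `H l₁ l₂ = g l₁ * h l₁ l₂`,
  `pth x (fun l₂ => g l₁ * h l₁ l₂) = g l₁ * pth x (h l₁)` (`pth_mul_left`), then `hc` pointwise and
  `lintegral_mul_const` (measurable by `measurable_pre`).
-/

open MeasureTheory ProbabilityTheory Filter
open scoped ENNReal
open Pool.Agent.H39.LW

namespace Pool.Agent.H39.LP

variable {d : ℕ} [NeZero d]

private lemma pre_take (s : ℕ → Zd d) {n k : ℕ} (hk : k ≤ n) :
    (pre s n).take (k + 1) = pre s k := by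
  unfold pre
  rw [← List.map_take, List.take_range, min_eq_left (by omega)]

private lemma pre_drop (s : ℕ → Zd d) {n k : ℕ} (hk : k ≤ n) :
    (pre s n).drop k = pre (fun i => s (k + i)) (n - k) := by
  unfold pre
  apply List.ext_getElem?
  intro i
  simp only [List.getElem?_drop, List.getElem?_map, List.getElem?_range]
  by_cases h : k + i < n + 1
  · rw [List.getElem?_range h, List.getElem?_range (by omega)]
    rfl
  · rw [List.getElem?_eq_none (by simpa using h), List.getElem?_eq_none (by simp; omega)]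
    rfl

private lemma tsum_range_eq (f : ℕ → ℕ → ℝ≥0∞) :
    ∑' n, ∑ k ∈ Finset.range (n + 1), f k (n - k) = ∑' k, ∑' m, f k m := by
  have h1 : ∀ n, ∑ k ∈ Finset.range (n + 1), f k (n - k)
      = ∑ p ∈ Finset.HasAntidiagonal.antidiagonal n, f p.1 p.2 :=
    fun n => (Finset.Nat.sum_antidiagonal_eq_sum_range_succ f n).symm
  simp only [h1]
  have e1 : ∀ n, ∑ p ∈ Finset.HasAntidiagonal.antidiagonal n, f p.1 p.2
      = ∑' p : Finset.HasAntidiagonal.antidiagonal n, f (p : ℕ × ℕ).1 (p : ℕ × ℕ).2 := by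
    intro n
    rw [tsum_fintype]
    exact (Finset.sum_coe_sort (Finset.HasAntidiagonal.antidiagonal n) fun p : ℕ × ℕ => f p.1 p.2).symm
  simp only [e1]
  rw [← ENNReal.tsum_sigma' (f := fun p : Σ n : ℕ, Finset.HasAntidiagonal.antidiagonal n =>
    f (p.2 : ℕ × ℕ).1 (p.2 : ℕ × ℕ).2)]
  rw [← Equiv.tsum_eq Finset.HasAntidiagonal.sigmaAntidiagonalEquivProd.symm
    (fun p : Σ n : ℕ, Finset.HasAntidiagonal.antidiagonal n => f (p.2 : ℕ × ℕ).1 (p.2 : ℕ × ℕ).2)]
  have e2 : ∀ p : ℕ × ℕ, (fun p : Σ n : ℕ, Finset.HasAntidiagonal.antidiagonal n =>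
      f (p.2 : ℕ × ℕ).1 (p.2 : ℕ × ℕ).2) (Finset.HasAntidiagonal.sigmaAntidiagonalEquivProd.symm p)
      = f p.1 p.2 := fun p => rfl
  simp only [e2]
  rw [ENNReal.tsum_prod (f := fun a b => f a b)]

theorem pth_split (y : Zd d) (H : List (Zd d) → List (Zd d) → ℝ≥0∞) :
    pth y (fun l => ∑ k ∈ Finset.range l.length, H (l.take (k + 1)) (l.drop k))
      = ∑' k, ∫⁻ ω, pth (pos y ω k) (H (pre (pos y ω) k)) ∂Pr d := by
  have hlen : ∀ (ω : Om d) (n : ℕ), (pre (pos y ω) n).length = n + 1 := by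
    intro ω n
    simp [pre]
  have h1 : ∀ n, ∫⁻ ω, ∑ k ∈ Finset.range (pre (pos y ω) n).length,
        H ((pre (pos y ω) n).take (k + 1)) ((pre (pos y ω) n).drop k) ∂Pr d
      = ∑ k ∈ Finset.range (n + 1), ∫⁻ ω, ∫⁻ ω₂, H (pre (pos y ω) k)
          (pre (pos (pos y ω k) ω₂) (n - k)) ∂Pr d ∂Pr d := by
    intro n
    have h2 : ∀ ω : Om d, ∑ k ∈ Finset.range (pre (pos y ω) n).length,
        H ((pre (pos y ω) n).take (k + 1)) ((pre (pos y ω) n).drop k)
        = ∑ k ∈ Finset.range (n + 1), H (pre (pos y ω) k)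
          (pre (pos (pos y ω k) (shift k ω)) (n - k)) := by
      intro ω
      rw [hlen]
      refine Finset.sum_congr rfl fun k hk => ?_
      have hk' : k ≤ n := by
        have := Finset.mem_range.1 hk
        omega
      rw [pre_take _ hk', pre_drop _ hk']
      congr 2
      funext i
      rw [pos_shift]
    simp only [h2]
    have hmeas : ∀ k : ℕ, ∀ ω : Om d, Measurable fun ω₂ : Om d => H (pre (pos y ω) k)
        (pre (pos (pos y ω k) ω₂) (n - k)) := fun k ω =>
      measurable_pre (pos y ω k) (n - k) (H (pre (pos y ω) k))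
    have hcongr : ∀ k : ℕ, ∀ ω ω' ω₂ : Om d, (∀ i < k, ω i = ω' i) →
        H (pre (pos y ω) k) (pre (pos (pos y ω k) ω₂) (n - k))
          = H (pre (pos y ω') k) (pre (pos (pos y ω' k) ω₂) (n - k)) := by
      intro k ω ω' ω₂ h
      rw [pre_congr fun i hi => pos_congr y fun j hj => h j (by omega), pos_congr y h]
    rw [lintegral_finset_sum _ fun k _ => measurable_of_prefix_shift k (hcongr k) (hmeas k)]
    refine Finset.sum_congr rfl fun k _ => ?_
    exact lintegral_split k (hcongr k) (hmeas k)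
  unfold pth
  simp only [h1]
  rw [tsum_range_eq fun k m => ∫⁻ ω, ∫⁻ ω₂, H (pre (pos y ω) k)
    (pre (pos (pos y ω k) ω₂) m) ∂Pr d ∂Pr d]
  refine tsum_congr fun k => ?_
  rw [lintegral_tsum]
  intro m
  refine Measurable.aemeasurable ?_
  refine measurable_of_prefix k fun ω ω' h => ?_
  rw [pre_congr fun i hi => pos_congr y fun j hj => h j (by omega), pos_congr y h]

theorem pth_split_le {y : Zd d} {F g : List (Zd d) → ℝ≥0∞}
    {h : List (Zd d) → List (Zd d) → ℝ≥0∞} {c : ℝ≥0∞}
    (hF : ∀ l : List (Zd d), l.head? = some y → F l ≤ ∑ k ∈ Finset.range l.length,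
      g (l.take (k + 1)) * h (l.take (k + 1)) (l.drop k))
    (hc : ∀ (l : List (Zd d)) (x : Zd d), l.head? = some y → l.getLast? = some x → g l ≠ 0 →
      pth x (h l) ≤ c) :
    pth y F ≤ pth y g * c := by
  refine (pth_mono hF).trans ?_
  rw [pth_split y fun l₁ l₂ => g l₁ * h l₁ l₂]
  unfold pth
  rw [← ENNReal.tsum_mul_right]
  refine ENNReal.tsum_le_tsum fun k => ?_
  rw [← lintegral_mul_const c (measurable_pre y k g)]
  refine lintegral_mono fun ω => ?_
  have h1 := pth_mul_left (pos y ω k) (g (pre (pos y ω) k)) (h (pre (pos y ω) k))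
  unfold pth at h1
  show _ ≤ g (pre (pos y ω) k) * c
  rw [h1]
  by_cases h0 : g (pre (pos y ω) k) = 0
  · rw [h0, zero_mul, zero_mul]
  · gcongr
    exact hc _ _ (by rw [pre_head, pos_zero]) (pre_getLast _ _) h0

theorem pth_split_ge {y : Zd d} {F g : List (Zd d) → ℝ≥0∞}
    {h : List (Zd d) → List (Zd d) → ℝ≥0∞} {c : ℝ≥0∞}
    (hF : ∀ l : List (Zd d), l.head? = some y → ∑ k ∈ Finset.range l.length,
      g (l.take (k + 1)) * h (l.take (k + 1)) (l.drop k) ≤ F l)
    (hc : ∀ (l : List (Zd d)) (x : Zd d), l.head? = some y → l.getLast? = some x → g l ≠ 0 →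
      c ≤ pth x (h l)) :
    pth y g * c ≤ pth y F := by
  refine le_trans ?_ (pth_mono hF)
  rw [pth_split y fun l₁ l₂ => g l₁ * h l₁ l₂]
  unfold pth
  rw [← ENNReal.tsum_mul_right]
  refine ENNReal.tsum_le_tsum fun k => ?_
  rw [← lintegral_mul_const c (measurable_pre y k g)]
  refine lintegral_mono fun ω => ?_
  have h1 := pth_mul_left (pos y ω k) (g (pre (pos y ω) k)) (h (pre (pos y ω) k))
  unfold pth at h1
  show g (pre (pos y ω) k) * c ≤ _
  rw [h1]
  by_cases h0 : g (pre (pos y ω) k) = 0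
  · rw [h0, zero_mul, zero_mul]
  · gcongr
    exact hc _ _ (by rw [pre_head, pos_zero]) (pre_getLast _ _) h0

end Pool.Agent.H39.LP
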